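import Pool.Agent.Helper156.RWF.Stmt

open Filter Topology MeasureTheory

namespace Pool.Agent.Helper156.RWF

/-- exponential series over the `p`-adic numbers -/
noncomputable def E (p : ℕ) [Fact p.Prime] {A : Type} [NormedRing A] [NormedAlgebra ℚ_[p] A]
    (x : A) : A := ∑' n : ℕ, ((n.factorial : ℚ_[p])⁻¹) • x ^ n

/-- a compact group of elements of norm at most one inside a normed algebra -/
structure IsCptGrp {A : Type} [NormedRing A] (G : Set A) : Prop where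
  one_mem : (1 : A) ∈ G
  mul_mem : ∀ a ∈ G, ∀ b ∈ G, a * b ∈ G
  inv_mem : ∀ a ∈ G, ∃ b ∈ G, a * b = 1 ∧ b * a = 1
  isCompact : IsCompact G
  norm_le : ∀ a ∈ G, ‖a‖ ≤ 1

/-- closed under commutators -/
def Brk {K A : Type} [Field K] [Ring A] [Algebra K A] (g : Submodule K A) : Prop :=
  ∀ x ∈ g, ∀ y ∈ g, x * y - y * x ∈ g

/-- `g` is the Lie algebra of `G`, witnessed on the ball of radius `p⁻ᵏ` -/
def IsLieOf (p : ℕ) [Fact p.Prime] {A : Type} [NormedRing A] [NormedAlgebra ℚ_[p] A]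
    (G : Set A) (g : Submodule ℚ_[p] A) (k : ℕ) : Prop :=
  2 ≤ k ∧ ∀ x : A, ‖x‖ ≤ ((p : ℝ)⁻¹) ^ k → (E p x ∈ G ↔ x ∈ g)

/-- the first cohomology of `g` with finite dimensional coefficients vanishes -/
def WProp {K A : Type} [Field K] [Ring A] [Algebra K A] (g : Submodule K A) : Prop :=
  ∀ (X : Type) [AddCommGroup X] [Module K X] [FiniteDimensional K X]
    (τ : A →ₗ[K] Module.End K X) (D : A →ₗ[K] X),
    (∀ x ∈ g, ∀ y ∈ g, τ (x * y - y * x) = τ x * τ y - τ y * τ x) →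
    (∀ x ∈ g, ∀ y ∈ g, D (x * y - y * x) = τ x (D y) - τ y (D x)) →
    ∃ v : X, ∀ x ∈ g, D x = τ x v

/-- the algebra of endomorphisms of the standard space -/
abbrev EN (p N : ℕ) [Fact p.Prime] := (Fin N → ℚ_[p]) →L[ℚ_[p]] (Fin N → ℚ_[p])

/-- two sets approximate each other within `p⁻ʲ` -/
def Close (p j : ℕ) {A : Type} [NormedRing A] (S S' : Set A) : Prop :=
  (∀ x ∈ S, ∃ x' ∈ S', ‖x - x'‖ ≤ ((p : ℝ)⁻¹) ^ j) ∧
  (∀ x' ∈ S', ∃ x ∈ S, ‖x - x'‖ ≤ ((p : ℝ)⁻¹) ^ j)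

/-- unit ball of a subspace -/
def ballOf (p : ℕ) [Fact p.Prime] {A : Type} [NormedRing A] [NormedAlgebra ℚ_[p] A]
    (g : Submodule ℚ_[p] A) : Set A := {x | x ∈ g ∧ ‖x‖ ≤ 1}

/-- data: an integral representation `η`, a cocycle `C` which maps the kernel onto the lattice -/
structure RData (p : ℕ) [Fact p.Prime] {F : Type} [Group F] [TopologicalSpace F] (r : ℕ)
    (η : F →* EN p r) (C : F → (Fin r → ℚ_[p])) : Prop where
  cη : Continuous η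
  cC : Continuous C
  norm_le : ∀ f, ‖η f‖ ≤ 1
  coc : ∀ f h, C (f * h) = C f + η f (C h)
  lat : C '' {f | η f = 1} = {v | ‖v‖ ≤ 1}

/-- `φ` is compatible with the data through the linear map `B` -/
def Stab {p : ℕ} [Fact p.Prime] {F : Type} [Group F] [TopologicalSpace F] {r : ℕ}
    (η : F →* EN p r) (C : F → (Fin r → ℚ_[p])) (φ : F ≃ₜ* F)
    (B : (Fin r → ℚ_[p]) →ₗ[ℚ_[p]] (Fin r → ℚ_[p])) : Prop :=
  (∀ f v, η (φ f) (B v) = B (η f v)) ∧ (∀ f, η f = 1 → C (φ f) = B (C f))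

/-- `φ` is bad -/
def Bad (p : ℕ) [Fact p.Prime] {F : Type} [Group F] [TopologicalSpace F] (φ : F ≃ₜ* F) : Prop :=
  ∃ (r : ℕ) (η : F →* EN p r) (C : F → (Fin r → ℚ_[p])) (g : Submodule ℚ_[p] (EN p r)) (k M : ℕ)
    (B : (Fin r → ℚ_[p]) →ₗ[ℚ_[p]] (Fin r → ℚ_[p])), 1 ≤ r ∧ RData p r η C ∧
    IsLieOf p (Set.range η) g k ∧ Brk g ∧ WProp g ∧ Stab η C φ B ∧ 1 ≤ M ∧
    LinearMap.det B ^ M = 1

end Pool.Agent.Helper156.RWF
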