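import Pool.Agent.Helper156.RWF.D0
import Pool.Agent.Helper156.RWF.J12439

namespace Pool.Agent.Helper156.RWF.J12441

open Pool.Agent.Helper156.RWF Pool.Agent.Helper156.RWF.J12439
open Filter Topology


section
variable {p : ℕ} [Fact p.Prime]
variable {A : Type} [NormedRing A] [NormedAlgebra ℚ_[p] A] [IsUltrametricDist A] [NormOneClass A]
  [FiniteDimensional ℚ_[p] A]


theorem E_surj (k : ℕ) (hk : 2 ≤ k) (a : A) (ha : ‖a - 1‖ ≤ ((p : ℝ)⁻¹) ^ k) :
    ∃ x : A, ‖x‖ ≤ ((p : ℝ)⁻¹) ^ k ∧ E p x = a := by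
  have : CompleteSpace A := FiniteDimensional.complete ℚ_[p] A
  have hp2 : (2 : ℝ) ≤ p := by exact_mod_cast (Fact.out : p.Prime).two_le
  have hpos : (0 : ℝ) < p := by linarith
  have hinv1 : (p : ℝ)⁻¹ ≤ 1 := inv_le_one_of_one_le₀ (by linarith)
  have hinv0 : 0 < (p : ℝ)⁻¹ := inv_pos.2 hpos
  set r := ((p : ℝ)⁻¹) ^ k with hr
  have hr0 : 0 ≤ r := pow_nonneg hinv0.le k
  have hr2 : r ≤ ((p : ℝ)⁻¹) ^ 2 := pow_le_pow_of_le_one hinv0.le hinv1 hk
  have hpp : (p : ℝ) * ((p : ℝ)⁻¹) ^ 2 = (p : ℝ)⁻¹ := by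
    rw [pow_two, ← mul_assoc, mul_inv_cancel₀ hpos.ne', one_mul]
  let T : A → A := fun x => x + a - E p x
  let S : Set A := Metric.closedBall 0 r
  have hS : ∀ x, x ∈ S ↔ ‖x‖ ≤ r := fun x => mem_closedBall_zero_iff
  have hmaps : Set.MapsTo T S S := by
    intro x hx
    rw [hS] at hx ⊢
    have h1 := E_sub_est (p := p) x 0 (hx.trans hr2) (by rw [norm_zero]; positivity)
    rw [E_zero, sub_zero, norm_zero, max_eq_left (norm_nonneg x)] at h1
    have h2 : T x = (a - 1) + -(E p x - 1 - x) := by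
      show x + a - E p x = _
      abel
    rw [h2]
    refine (IsUltrametricDist.norm_add_le_max _ _).trans (max_le ha ?_)
    rw [norm_neg]
    refine h1.trans ?_
    have h3 : (p : ℝ) * ‖x‖ ≤ 1 := by
      calc (p : ℝ) * ‖x‖ ≤ p * ((p : ℝ)⁻¹) ^ 2 :=
            mul_le_mul_of_nonneg_left (hx.trans hr2) hpos.le
        _ ≤ 1 := by rw [hpp]; exact hinv1
    calc (p : ℝ) * ‖x‖ * ‖x‖ ≤ 1 * ‖x‖ := mul_le_mul_of_nonneg_right h3 (norm_nonneg x)
      _ ≤ r := by rw [one_mul]; exact hx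
  have hK : ContractingWith (1 / 2 : NNReal) (hmaps.restrict T S S) := by
    refine ⟨by rw [← NNReal.coe_lt_coe]; norm_num, ?_⟩
    refine LipschitzWith.of_dist_le_mul ?_
    rintro ⟨x, hx⟩ ⟨y, hy⟩
    rw [hS] at hx hy
    show dist (T x) (T y) ≤ ((1 / 2 : NNReal) : ℝ) * dist x y
    rw [dist_eq_norm, dist_eq_norm]
    have h1 := E_sub_est (p := p) x y (hx.trans hr2) (hy.trans hr2)
    have h2 : T x - T y = -(E p x - E p y - (x - y)) := by
      show x + a - E p x - (y + a - E p y) = _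
      abel
    rw [h2, norm_neg]
    refine h1.trans ?_
    have h3 : max ‖x‖ ‖y‖ ≤ ((p : ℝ)⁻¹) ^ 2 := max_le (hx.trans hr2) (hy.trans hr2)
    have h4 : (p : ℝ)⁻¹ ≤ 1 / 2 := by
      rw [inv_eq_one_div]
      exact one_div_le_one_div_of_le (by norm_num) hp2
    calc (p : ℝ) * ‖x - y‖ * max ‖x‖ ‖y‖ ≤ (p : ℝ) * ‖x - y‖ * ((p : ℝ)⁻¹) ^ 2 :=
          mul_le_mul_of_nonneg_left h3 (by positivity)
      _ = ((p : ℝ) * ((p : ℝ)⁻¹) ^ 2) * ‖x - y‖ := by ring
      _ = (p : ℝ)⁻¹ * ‖x - y‖ := by rw [hpp]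
      _ ≤ 1 / 2 * ‖x - y‖ := mul_le_mul_of_nonneg_right h4 (norm_nonneg _)
      _ = ((1 / 2 : NNReal) : ℝ) * ‖x - y‖ := by push_cast; rfl
  have h0 : (0 : A) ∈ S := by rw [hS, norm_zero]; exact hr0
  obtain ⟨y, hyS, hy, -⟩ := ContractingWith.exists_fixedPoint'
    (Metric.isClosed_closedBall (x := (0 : A)) (ε := r)).isComplete hmaps hK h0
    (edist_ne_top _ _)
  refine ⟨y, (hS y).1 hyS, ?_⟩
  have h5 : y + a - E p y = y := hy
  have h6 : a - E p y = 0 := by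
    have : y + (a - E p y) = y + 0 := by rw [add_zero, ← add_sub_assoc]; exact h5
    exact add_left_cancel this
  exact (sub_eq_zero.1 h6).symm

theorem E_summable_norm (x : A) (hx : ‖x‖ ≤ ((p : ℝ)⁻¹) ^ 2) :
    Summable (fun n : ℕ => ‖((n.factorial : ℚ_[p])⁻¹) • x ^ n‖) := by
  have hp2 : (2 : ℝ) ≤ p := by exact_mod_cast (Fact.out : p.Prime).two_le
  have hpos : (0 : ℝ) < p := by linarith
  have hinv0 : 0 < (p : ℝ)⁻¹ := inv_pos.2 hpos
  have hinv1 : (p : ℝ)⁻¹ < 1 := by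
    rw [inv_eq_one_div, div_lt_one hpos]; linarith
  refine Summable.of_nonneg_of_le (fun n => norm_nonneg _) (fun n => ?_)
    (summable_geometric_of_lt_one hinv0.le hinv1)
  rw [norm_smul]
  have h2 : ‖x ^ n‖ ≤ (((p : ℝ)⁻¹) ^ 2) ^ n :=
    (norm_pow_le x n).trans (pow_le_pow_left₀ (norm_nonneg x) hx n)
  rcases Nat.eq_zero_or_pos n with h | h
  · subst h
    simp
  · have h1 := norm_inv_fact (p := p) n h
    calc ‖((n.factorial : ℚ_[p])⁻¹)‖ * ‖x ^ n‖ ≤ (p : ℝ) ^ (n - 1) * (((p : ℝ)⁻¹) ^ 2) ^ n :=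
          mul_le_mul h1 h2 (norm_nonneg _) (by positivity)
      _ ≤ (p : ℝ) ^ n * (((p : ℝ)⁻¹) ^ 2) ^ n := by
          refine mul_le_mul_of_nonneg_right ?_ (by positivity)
          exact pow_le_pow_right₀ (by linarith) (Nat.sub_le n 1)
      _ = ((p : ℝ)⁻¹) ^ n := by
          rw [← mul_pow, pow_two, ← mul_assoc, mul_inv_cancel₀ hpos.ne', one_mul]

theorem E_add_comm (x y : A) (hx : ‖x‖ ≤ ((p : ℝ)⁻¹) ^ 2) (hy : ‖y‖ ≤ ((p : ℝ)⁻¹) ^ 2)
    (h : x * y = y * x) : E p (x + y) = E p x * E p y := by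
  have : CompleteSpace A := FiniteDimensional.complete ℚ_[p] A
  have key : ∀ m n : ℕ, (((m + n).factorial : ℚ_[p])⁻¹) * (((m + n).choose m : ℕ) : ℚ_[p]) =
      ((m.factorial : ℚ_[p])⁻¹) * ((n.factorial : ℚ_[p])⁻¹) := by
    intro m n
    have h1 : (((m + n).choose m : ℕ) : ℚ_[p]) * (m.factorial : ℚ_[p]) * (n.factorial : ℚ_[p]) =
        ((m + n).factorial : ℚ_[p]) := by
      rw [Nat.choose_symm_add]
      exact_mod_cast Nat.add_choose_mul_factorial_mul_factorial m n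
    have h2 : (m.factorial : ℚ_[p]) ≠ 0 := by exact_mod_cast Nat.factorial_ne_zero m
    have h3 : (n.factorial : ℚ_[p]) ≠ 0 := by exact_mod_cast Nat.factorial_ne_zero n
    have h4 : ((m + n).factorial : ℚ_[p]) ≠ 0 := by exact_mod_cast Nat.factorial_ne_zero (m + n)
    field_simp
    rw [← h1]
  unfold E
  rw [tsum_mul_tsum_eq_tsum_sum_antidiagonal_of_summable_norm (E_summable_norm x hx)
    (E_summable_norm y hy)]
  refine tsum_congr fun n => ?_
  have hc : Commute x y := h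
  rw [hc.add_pow', Finset.smul_sum]
  refine Finset.sum_congr rfl fun q hq => ?_
  have hq' : q.1 + q.2 = n := Finset.HasAntidiagonal.mem_antidiagonal.1 hq
  rw [← hq', ← Nat.cast_smul_eq_nsmul ℚ_[p], smul_smul, key, smul_mul_smul_comm]

theorem E_neg (x : A) (hx : ‖x‖ ≤ ((p : ℝ)⁻¹) ^ 2) : E p x * E p (-x) = 1 := by
  rw [← E_add_comm x (-x) hx (by rw [norm_neg]; exact hx) (by rw [mul_neg, neg_mul]),
    add_neg_cancel, E_zero]

theorem E_nsmul (n : ℕ) (x : A) (hx : ‖x‖ ≤ ((p : ℝ)⁻¹) ^ 2) : E p (n • x) = E p x ^ n := by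
  have hn : ∀ n : ℕ, ‖n • x‖ ≤ ‖x‖ := by
    intro n
    induction n with
    | zero => rw [zero_smul, norm_zero]; exact norm_nonneg x
    | succ n ih =>
      rw [succ_nsmul]
      exact (IsUltrametricDist.norm_add_le_max _ _).trans (max_le ih le_rfl)
  induction n with
  | zero => rw [zero_smul, E_zero, pow_zero]
  | succ n ih =>
    rw [succ_nsmul, E_add_comm (n • x) x ((hn n).trans hx) hx
      (by rw [smul_mul_assoc, mul_smul_comm]), ih, pow_succ]

theorem E_conj (u v x : A) (huv : u * v = 1) (hvu : v * u = 1)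
    (hx : ‖x‖ ≤ ((p : ℝ)⁻¹) ^ 2) : E p (u * x * v) = u * E p x * v := by
  have hpow : ∀ n : ℕ, (u * x * v) ^ n = u * x ^ n * v := by
    intro n
    induction n with
    | zero => rw [pow_zero, pow_zero, mul_one, huv]
    | succ n ih =>
      rw [pow_succ, ih, pow_succ]
      calc u * x ^ n * v * (u * x * v) = u * x ^ n * (v * u) * x * v := by
            simp only [mul_assoc]
        _ = u * (x ^ n * x) * v := by rw [hvu, mul_one]; simp only [mul_assoc]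
  have hs := E_summable (p := p) x hx
  have h1 : HasSum (fun n : ℕ => ((n.factorial : ℚ_[p])⁻¹) • x ^ n) (E p x) := hs.hasSum
  have h2 := (h1.mul_left u).mul_right v
  have h3 : (fun n : ℕ => u * (((n.factorial : ℚ_[p])⁻¹) • x ^ n) * v) =
      fun n : ℕ => ((n.factorial : ℚ_[p])⁻¹) • (u * x * v) ^ n := by
    funext n
    rw [hpow, mul_smul_comm, smul_mul_assoc]
  rw [h3] at h2
  exact h2.tsum_eq

end

end Pool.Agent.Helper156.RWF.J12441
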