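import Pool.Agent.Helper156.RWF.D0
import Pool.Agent.Helper156.RWF.J12439
import Pool.Agent.Helper156.RWF.J12441
import Pool.Agent.Helper156.RWF.J12442

namespace Pool.Agent.Helper156.RWF.J12453

open Pool.Agent.Helper156.RWF Pool.Agent.Helper156.RWF.J12439 Pool.Agent.Helper156.RWF.J12441 Pool.Agent.Helper156.RWF.J12442
open Filter Topology


section
variable {p : ℕ} [Fact p.Prime]
variable {A : Type} [NormedRing A] [NormedAlgebra ℚ_[p] A] [IsUltrametricDist A] [NormOneClass A]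
  [FiniteDimensional ℚ_[p] A]


theorem j12453_pow_mem {G : Set A} (hG : IsCptGrp G) {a : A} (ha : a ∈ G) (n : ℕ) :
    a ^ n ∈ G := by
  induction n with
  | zero => rw [pow_zero]; exact hG.one_mem
  | succ n ih => rw [pow_succ]; exact hG.mul_mem _ ih _ ha

theorem j12453_neg_mem {G : Set A} (hG : IsCptGrp G) {x : A} (hx : ‖x‖ ≤ ((p : ℝ)⁻¹) ^ 2)
    (h : E p x ∈ G) : E p (-x) ∈ G := by
  obtain ⟨b, hb, h1, h2⟩ := hG.inv_mem _ h
  have h3 := E_neg x hx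
  have h4 : E p (-x) = b := by
    calc E p (-x) = (b * E p x) * E p (-x) := by rw [h2, one_mul]
      _ = b * (E p x * E p (-x)) := by rw [mul_assoc]
      _ = b := by rw [h3, mul_one]
  rw [h4]
  exact hb

theorem j12453_sub_le (x y : A) : ‖x - y‖ ≤ max ‖x‖ ‖y‖ := by
  rw [sub_eq_add_neg]
  have h := IsUltrametricDist.norm_add_le_max x (-y)
  rwa [norm_neg] at h

theorem j12453_norm_p : ‖(p : ℚ_[p])‖ = (p : ℝ)⁻¹ := by
  simp

theorem j12453_q (p : ℕ) [hp : Fact p.Prime] : 0 < (p : ℝ)⁻¹ ∧ (p : ℝ)⁻¹ < 1 := by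
  have h1 : (1 : ℝ) < p := by exact_mod_cast hp.out.one_lt
  exact ⟨inv_pos.2 (by linarith), inv_lt_one_of_one_lt₀ h1⟩

theorem j12453_root {G : Set A} {m : ℕ}
    (hroot : ∀ k, m ≤ k → ∀ x : A, ‖x‖ ≤ ((p : ℝ)⁻¹) ^ k →
      E p ((p : ℚ_[p]) • x) ∈ G → E p x ∈ G) (w : A) (hw : ‖w‖ ≤ ((p : ℝ)⁻¹) ^ m) (i : ℕ)
    (h : E p (((p : ℚ_[p]) ^ i) • w) ∈ G) : E p w ∈ G := by
  induction i with
  | zero => simpa using h
  | succ i ih =>
    apply ih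
    refine hroot m le_rfl _ ?_ ?_
    · rw [norm_smul, norm_pow, j12453_norm_p]
      have h1 := j12453_q p
      have h2 : ((p : ℝ)⁻¹) ^ i ≤ 1 := pow_le_one₀ h1.1.le h1.2.le
      calc ((p : ℝ)⁻¹) ^ i * ‖w‖ ≤ 1 * ‖w‖ := mul_le_mul_of_nonneg_right h2 (norm_nonneg _)
        _ ≤ _ := by rw [one_mul]; exact hw
    · rw [smul_smul, ← pow_succ']
      exact h

theorem j12453_approx (G : Set A) (hG : IsCptGrp G) (m : ℕ) (hm : 2 ≤ m)
    (hroot : ∀ k, m ≤ k → ∀ x : A, ‖x‖ ≤ ((p : ℝ)⁻¹) ^ k →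
      E p ((p : ℚ_[p]) • x) ∈ G → E p x ∈ G)
    (x y : A) (hx : ‖x‖ ≤ ((p : ℝ)⁻¹) ^ m) (hy : ‖y‖ ≤ ((p : ℝ)⁻¹) ^ m)
    (hxG : E p x ∈ G) (hyG : E p y ∈ G) (j : ℕ) :
    ∃ z' : A, ‖z'‖ ≤ ((p : ℝ)⁻¹) ^ 2 ∧ E p z' ∈ G ∧
      ‖z' - (x * y - y * x)‖ ≤ (p : ℝ) * ((p : ℝ)⁻¹) ^ j := by
  have hp0 : (p : ℝ) ≠ 0 := by
    exact_mod_cast (Fact.out : p.Prime).ne_zero
  have hpp : (0 : ℝ) < p := by
    exact_mod_cast (Fact.out : p.Prime).pos
  have hpQ : (p : ℚ_[p]) ≠ 0 := by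
    exact_mod_cast (Fact.out : p.Prime).ne_zero
  set q : ℝ := (p : ℝ)⁻¹ with hq
  obtain ⟨hq0, hq1⟩ := j12453_q p
  rw [← hq] at hq0 hq1
  have hqm : ∀ {a b : ℕ}, a ≤ b → q ^ b ≤ q ^ a := fun h =>
    pow_le_pow_of_le_one hq0.le hq1.le h
  set c : ℚ_[p] := (p : ℚ_[p]) ^ j with hc
  have hc0 : c ≠ 0 := pow_ne_zero _ hpQ
  have hcn : ‖c‖ = q ^ j := by rw [hc, norm_pow, j12453_norm_p]
  have hxj : ‖c • x‖ ≤ q ^ (m + j) := by
    rw [norm_smul, hcn, pow_add, mul_comm]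
    exact mul_le_mul_of_nonneg_right hx (by positivity)
  have hyj : ‖c • y‖ ≤ q ^ (m + j) := by
    rw [norm_smul, hcn, pow_add, mul_comm]
    exact mul_le_mul_of_nonneg_right hy (by positivity)
  have hcast : ∀ w : A, c • w = (p ^ j : ℕ) • w := by
    intro w
    rw [hc, ← Nat.cast_pow, Nat.cast_smul_eq_nsmul]
  have hxjG : E p (c • x) ∈ G := by
    rw [hcast, E_nsmul _ _ (hx.trans (hqm hm))]
    exact j12453_pow_mem hG hxG _
  have hyjG : E p (c • y) ∈ G := by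
    rw [hcast, E_nsmul _ _ (hy.trans (hqm hm))]
    exact j12453_pow_mem hG hyG _
  have h2m : 2 ≤ m + j := by omega
  have hnxG := j12453_neg_mem hG (hxj.trans (hqm h2m)) hxjG
  have hnyG := j12453_neg_mem hG (hyj.trans (hqm h2m)) hyjG
  obtain ⟨z, hz1, hz2, hz3⟩ := E_comm_log (m + j) h2m (c • x) (c • y) hxj hyj
  have hzG : E p z ∈ G := by
    rw [hz2]
    exact hG.mul_mem _ (hG.mul_mem _ (hG.mul_mem _ hxjG _ hyjG) _ hnxG) _ hnyG
  have hcomm : (c • x) * (c • y) - (c • y) * (c • x) = (c ^ 2) • (x * y - y * x) := by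
    rw [smul_mul_smul_comm, smul_mul_smul_comm, ← smul_sub, sq]
  rw [hcomm] at hz3
  have hz4 : ‖z - (c ^ 2) • (x * y - y * x)‖ ≤ (p : ℝ) * (q ^ (m + j)) ^ 3 := by
    refine hz3.trans ?_
    have h1 : max ‖c • x‖ ‖c • y‖ ≤ q ^ (m + j) := max_le hxj hyj
    calc (p : ℝ) * ‖c • x‖ * ‖c • y‖ * max ‖c • x‖ ‖c • y‖
        ≤ (p : ℝ) * q ^ (m + j) * q ^ (m + j) * q ^ (m + j) := by gcongr
      _ = (p : ℝ) * (q ^ (m + j)) ^ 3 := by ring
  have hc2 : c ^ 2 ≠ 0 := pow_ne_zero _ hc0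
  set z' : A := (c ^ 2)⁻¹ • z with hz'
  have hzz' : (c ^ 2) • z' = z := by rw [hz', smul_smul, mul_inv_cancel₀ hc2, one_smul]
  have hdiff : ‖z' - (x * y - y * x)‖ ≤ (p : ℝ) * q ^ (3 * m + j) := by
    have h1 : z' - (x * y - y * x) = (c ^ 2)⁻¹ • (z - (c ^ 2) • (x * y - y * x)) := by
      rw [smul_sub, smul_smul, inv_mul_cancel₀ hc2, one_smul]
    rw [h1, norm_smul, norm_inv, norm_pow, hcn]
    have h2 : (p : ℝ) * q ^ (3 * m + j) = ((q ^ j) ^ 2)⁻¹ * ((p : ℝ) * (q ^ (m + j)) ^ 3) := by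
      have : (q ^ j) ^ 2 ≠ 0 := by positivity
      field_simp
      ring
    rw [h2]
    exact mul_le_mul_of_nonneg_left hz4 (by positivity)
  have hpq : (p : ℝ) * q = 1 := by rw [hq]; exact mul_inv_cancel₀ hp0
  have hdiff2 : ‖z' - (x * y - y * x)‖ ≤ q ^ m := by
    refine hdiff.trans ?_
    have h1 : 3 * m + j = (3 * m + j - 1) + 1 := by omega
    rw [h1, pow_succ, mul_comm, mul_assoc, mul_comm q, hpq, mul_one]
    exact hqm (by omega)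
  have hxy : ‖x * y - y * x‖ ≤ q ^ m := by
    refine (j12453_sub_le _ _).trans (max_le ?_ ?_)
    · calc ‖x * y‖ ≤ ‖x‖ * ‖y‖ := norm_mul_le _ _
        _ ≤ q ^ m * q ^ m := by gcongr
        _ = q ^ (m + m) := by rw [pow_add]
        _ ≤ q ^ m := hqm (by omega)
    · calc ‖y * x‖ ≤ ‖y‖ * ‖x‖ := norm_mul_le _ _
        _ ≤ q ^ m * q ^ m := by gcongr
        _ = q ^ (m + m) := by rw [pow_add]
        _ ≤ q ^ m := hqm (by omega)
  have hz'n : ‖z'‖ ≤ q ^ m := by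
    have h1 : z' = (z' - (x * y - y * x)) + (x * y - y * x) := by abel
    rw [h1]
    exact (IsUltrametricDist.norm_add_le_max _ _).trans (max_le hdiff2 hxy)
  refine ⟨z', hz'n.trans (hqm hm), ?_, ?_⟩
  · refine j12453_root hroot z' hz'n (j * 2) ?_
    rw [pow_mul, ← hc, hzz']
    exact hzG
  · refine hdiff.trans ?_
    exact mul_le_mul_of_nonneg_left (hqm (by omega)) hpp.le

theorem brk_closed (G : Set A) (hG : IsCptGrp G) (m : ℕ) (hm : 2 ≤ m)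
    (hroot : ∀ k, m ≤ k → ∀ x : A, ‖x‖ ≤ ((p : ℝ)⁻¹) ^ k →
      E p ((p : ℚ_[p]) • x) ∈ G → E p x ∈ G)
    (x y : A) (hx : ‖x‖ ≤ ((p : ℝ)⁻¹) ^ m) (hy : ‖y‖ ≤ ((p : ℝ)⁻¹) ^ m)
    (hxG : E p x ∈ G) (hyG : E p y ∈ G) : E p (x * y - y * x) ∈ G := by
  choose z hz1 hz2 hz3 using j12453_approx G hG m hm hroot x y hx hy hxG hyG
  obtain ⟨hq0, hq1⟩ := j12453_q p
  have hxy : ‖x * y - y * x‖ ≤ ((p : ℝ)⁻¹) ^ 2 := by
    have hqm : ((p : ℝ)⁻¹) ^ m ≤ ((p : ℝ)⁻¹) ^ 2 := pow_le_pow_of_le_one hq0.le hq1.le hm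
    have h1 : ((p : ℝ)⁻¹) ^ 2 ≤ 1 := pow_le_one₀ hq0.le hq1.le
    refine (j12453_sub_le _ _).trans (max_le ?_ ?_)
    · calc ‖x * y‖ ≤ ‖x‖ * ‖y‖ := norm_mul_le _ _
        _ ≤ ((p : ℝ)⁻¹) ^ 2 * 1 := by
          gcongr
          · exact hx.trans hqm
          · exact hy.trans (hqm.trans h1)
        _ = _ := mul_one _
    · calc ‖y * x‖ ≤ ‖y‖ * ‖x‖ := norm_mul_le _ _
        _ ≤ ((p : ℝ)⁻¹) ^ 2 * 1 := by
          gcongr
          · exact hy.trans hqm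
          · exact hx.trans (hqm.trans h1)
        _ = _ := mul_one _
  have hlim : Tendsto (fun j => E p (z j)) atTop (𝓝 (E p (x * y - y * x))) := by
    rw [tendsto_iff_norm_sub_tendsto_zero]
    have h1 : Tendsto (fun j : ℕ => (p : ℝ) * ((p : ℝ)⁻¹) ^ j) atTop (𝓝 0) := by
      have := (tendsto_pow_atTop_nhds_zero_of_lt_one hq0.le hq1).const_mul (p : ℝ)
      rwa [mul_zero] at this
    refine squeeze_zero (fun j => norm_nonneg _) (fun j => ?_) h1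
    rw [E_isom _ _ (hz1 j) hxy]
    exact hz3 j
  exact hG.isCompact.isClosed.mem_of_tendsto hlim (Eventually.of_forall hz2)

end

end Pool.Agent.Helper156.RWF.J12453
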