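import Pool.Agent.Helper156.RWF.D0
import Pool.Agent.Helper156.RWF.J12439
import Pool.Agent.Helper156.RWF.J12441
import Pool.Agent.Helper156.RWF.J12442

namespace Pool.Agent.Helper156.RWF.J12454

open Pool.Agent.Helper156.RWF Pool.Agent.Helper156.RWF.J12439 Pool.Agent.Helper156.RWF.J12441 Pool.Agent.Helper156.RWF.J12442
open Filter Topology


section
variable {p : ℕ} [Fact p.Prime]
variable {A : Type} [NormedRing A] [NormedAlgebra ℚ_[p] A] [IsUltrametricDist A] [NormOneClass A]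
  [FiniteDimensional ℚ_[p] A]


theorem pow_mem_G {G : Set A} (hG : IsCptGrp G) (a : A) (ha : a ∈ G) (n : ℕ) : a ^ n ∈ G := by
  induction n with
  | zero => rw [pow_zero]; exact hG.one_mem
  | succ n ih => rw [pow_succ]; exact hG.mul_mem _ ih _ ha

theorem norm_p_smul (k : ℕ) (y : A) : ‖((p : ℚ_[p]) ^ k) • y‖ = ((p : ℝ)⁻¹) ^ k * ‖y‖ := by
  rw [norm_smul, norm_pow, Padic.norm_p]

theorem lead_stable (G : Set A) (hG : IsCptGrp G) :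
    ∃ m : ℕ, 2 ≤ m ∧ ∀ k, m ≤ k → ∀ x : A, ‖x‖ ≤ ((p : ℝ)⁻¹) ^ (k + 1) → E p x ∈ G →
      ∃ x₀ : A, ‖x₀‖ ≤ ((p : ℝ)⁻¹) ^ k ∧ E p x₀ ∈ G ∧
        ‖(p : ℚ_[p]) • x₀ - x‖ ≤ ((p : ℝ)⁻¹) ^ (k + 2) := by
  have hp0 : (0 : ℝ) < p := by exact_mod_cast (Fact.out : p.Prime).pos
  have hp1 : (1 : ℝ) < p := by exact_mod_cast (Fact.out : p.Prime).one_lt
  have hpi : (0 : ℝ) < (p : ℝ)⁻¹ := inv_pos.2 hp0
  have hpi1 : (p : ℝ)⁻¹ ≤ 1 := inv_le_one_of_one_le₀ hp1.le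
  have hpQ : (p : ℚ_[p]) ≠ 0 := by exact_mod_cast (Fact.out : p.Prime).ne_zero
  haveI : ProperSpace A := FiniteDimensional.proper ℚ_[p] A
  obtain ⟨t, -, htf, htc⟩ := (isCompact_closedBall (0 : A) 1).finite_cover_balls hpi
  haveI : Finite t := htf
  let S : ℕ → Set A := fun k => {y | ‖y‖ ≤ 1 ∧ E p (((p : ℚ_[p]) ^ k) • y) ∈ G}
  have hS : ∀ k, 2 ≤ k → S k ⊆ S (k + 1) := by
    rintro k hk y ⟨hy, hyG⟩
    refine ⟨hy, ?_⟩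
    have h1 : ((p : ℚ_[p]) ^ (k + 1)) • y = p • (((p : ℚ_[p]) ^ k) • y) := by
      rw [← Nat.cast_smul_eq_nsmul ℚ_[p], smul_smul, pow_succ']
    rw [h1, E_nsmul]
    · exact pow_mem_G hG _ hyG _
    · rw [norm_p_smul]
      calc ((p : ℝ)⁻¹) ^ k * ‖y‖ ≤ ((p : ℝ)⁻¹) ^ k * 1 := by gcongr
        _ = ((p : ℝ)⁻¹) ^ k := mul_one _
        _ ≤ ((p : ℝ)⁻¹) ^ 2 := pow_le_pow_of_le_one hpi.le hpi1 hk
  let a : ℕ →o Set t :=
    { toFun := fun k => {c : t | ∃ y ∈ S (k + 2), dist y (c : A) < (p : ℝ)⁻¹}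
      monotone' := by
        refine monotone_nat_of_le_succ ?_
        rintro k c ⟨y, hy, hyc⟩
        exact ⟨y, hS (k + 2) (by omega) hy, hyc⟩ }
  obtain ⟨n, hn⟩ := WellFoundedGT.monotone_chain_condition a
  refine ⟨n + 2, by omega, ?_⟩
  intro k hk x hx hxG
  obtain ⟨j, rfl⟩ : ∃ j, k = j + 2 := ⟨k - 2, by omega⟩
  have haj : a j = a (j + 1) := by rw [← hn j (by omega), ← hn (j + 1) (by omega)]
  let y : A := ((p : ℚ_[p]) ^ (j + 2 + 1))⁻¹ • x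
  have hyx : ((p : ℚ_[p]) ^ (j + 2 + 1)) • y = x := by
    show ((p : ℚ_[p]) ^ (j + 2 + 1)) • (((p : ℚ_[p]) ^ (j + 2 + 1))⁻¹ • x) = x
    rw [smul_smul, mul_inv_cancel₀ (pow_ne_zero _ hpQ), one_smul]
  have hy1 : ‖y‖ ≤ 1 := by
    have h1 := norm_p_smul (p := p) (j + 2 + 1) y
    rw [hyx] at h1
    rw [h1] at hx
    have h2 : (0 : ℝ) < ((p : ℝ)⁻¹) ^ (j + 2 + 1) := by positivity
    exact le_of_mul_le_mul_left (by rw [mul_one]; exact hx) h2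
  have hyS : y ∈ S (j + 1 + 2) := by
    refine ⟨hy1, ?_⟩
    have : j + 1 + 2 = j + 2 + 1 := by ring
    rw [this, hyx]
    exact hxG
  have hyb : y ∈ Metric.closedBall (0 : A) 1 := by rw [mem_closedBall_zero_iff]; exact hy1
  obtain ⟨c, hct, hyc⟩ : ∃ c ∈ t, y ∈ Metric.ball c (p : ℝ)⁻¹ := by
    have := htc hyb
    simpa only [Set.mem_iUnion, exists_prop] using this
  have hca : (⟨c, hct⟩ : t) ∈ a (j + 1) := ⟨y, hyS, hyc⟩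
  rw [← haj] at hca
  obtain ⟨y0, ⟨hy01, hy0G⟩, hy0c⟩ := hca
  refine ⟨((p : ℚ_[p]) ^ (j + 2)) • y0, ?_, hy0G, ?_⟩
  · rw [norm_p_smul]
    calc ((p : ℝ)⁻¹) ^ (j + 2) * ‖y0‖ ≤ ((p : ℝ)⁻¹) ^ (j + 2) * 1 := by gcongr
      _ = ((p : ℝ)⁻¹) ^ (j + 2) := mul_one _
  · have h1 : (p : ℚ_[p]) • (((p : ℚ_[p]) ^ (j + 2)) • y0) - x
        = ((p : ℚ_[p]) ^ (j + 2 + 1)) • (y0 - y) := by
      rw [smul_sub, hyx, smul_smul, pow_succ' (p : ℚ_[p]) (j + 2)]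
    rw [h1, norm_p_smul, pow_succ ((p : ℝ)⁻¹) (j + 2 + 1)]
    have h2 : ‖y0 - y‖ ≤ (p : ℝ)⁻¹ := by
      rw [← dist_eq_norm]
      have h3 : dist c y < (p : ℝ)⁻¹ := by rw [dist_comm]; exact hyc
      exact (IsUltrametricDist.dist_triangle_max y0 c y).trans (max_le hy0c.le h3.le)
    gcongr

end

end Pool.Agent.Helper156.RWF.J12454
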