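import Pool.Agent.Helper156.RWF.D0
import Pool.Agent.Helper156.RWF.J12439
import Pool.Agent.Helper156.RWF.J12441
import Pool.Agent.Helper156.RWF.J12442

namespace Pool.Agent.Helper156.RWF.J12457

open Pool.Agent.Helper156.RWF Pool.Agent.Helper156.RWF.J12439 Pool.Agent.Helper156.RWF.J12441 Pool.Agent.Helper156.RWF.J12442
open Filter Topology


section
variable {p : ℕ} [Fact p.Prime]
variable {A : Type} [NormedRing A] [NormedAlgebra ℚ_[p] A] [IsUltrametricDist A] [NormOneClass A]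
  [FiniteDimensional ℚ_[p] A]


theorem root_closed (G : Set A) (hG : IsCptGrp G) (m : ℕ) (hm : 2 ≤ m)
    (hlead : ∀ k, m ≤ k → ∀ x : A, ‖x‖ ≤ ((p : ℝ)⁻¹) ^ (k + 1) → E p x ∈ G →
      ∃ x₀ : A, ‖x₀‖ ≤ ((p : ℝ)⁻¹) ^ k ∧ E p x₀ ∈ G ∧
        ‖(p : ℚ_[p]) • x₀ - x‖ ≤ ((p : ℝ)⁻¹) ^ (k + 2))
    (k : ℕ) (hk : m ≤ k) (x : A) (hx : ‖x‖ ≤ ((p : ℝ)⁻¹) ^ k)
    (h : E p ((p : ℚ_[p]) • x) ∈ G) : E p x ∈ G := by
  obtain ⟨π, hπ⟩ : ∃ π : ℝ, π = (p : ℝ)⁻¹ := ⟨_, rfl⟩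
  have hp2 : (2:ℝ) ≤ p := by exact_mod_cast (Fact.out : p.Prime).two_le
  have hp0 : (0:ℝ) < p := by linarith
  have hpπ : (p:ℝ) * π = 1 := by
    rw [hπ]
    exact mul_inv_cancel₀ hp0.ne'
  have hπ0 : 0 < π := by
    rw [hπ]
    positivity
  have hπ1 : π < 1 := by
    rw [hπ]
    exact inv_lt_one_of_one_lt₀ (by linarith)
  have hml : ∀ k, 2 ≤ k → ∀ x y : A, ‖x‖ ≤ π ^ k → ‖y‖ ≤ π ^ k →
      ∃ z : A, ‖z‖ ≤ π ^ k ∧ E p z = E p x * E p y ∧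
      ‖z - (x + y)‖ ≤ (p : ℝ) * ‖x‖ * ‖y‖ ∧
      ‖z - (x + y)‖ ≤ (p : ℝ) * ‖x + y‖ * max ‖x‖ ‖y‖ := by
    rw [hπ]
    intro k hk x y
    exact E_mul_log k hk x y
  have hiso : ∀ x y : A, ‖x‖ ≤ π ^ 2 → ‖y‖ ≤ π ^ 2 → ‖E p x - E p y‖ = ‖x - y‖ := by
    rw [hπ]
    exact E_isom
  have hneg : ∀ x : A, ‖x‖ ≤ π ^ 2 → E p x * E p (-x) = 1 := by
    rw [hπ]
    exact E_neg
  have hnsm : ∀ (n : ℕ) (x : A), ‖x‖ ≤ π ^ 2 → E p (n • x) = E p x ^ n := by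
    rw [hπ]
    exact E_nsmul
  have hsm : ∀ y : A, ‖(p : ℚ_[p]) • y‖ = π * ‖y‖ := by
    intro y
    rw [norm_smul, Padic.norm_p, hπ]
  rw [← hπ] at hx
  simp only [← hπ] at hlead
  have hk2 : 2 ≤ k := hm.trans hk
  have hanti : ∀ a b : ℕ, a ≤ b → π ^ b ≤ π ^ a := fun a b hab =>
    pow_le_pow_of_le_one hπ0.le hπ1.le hab
  have hadd : ∀ (a b : A) (c : ℝ), ‖a‖ ≤ c → ‖b‖ ≤ c → ‖a + b‖ ≤ c := fun a b c ha hb =>
    (IsUltrametricDist.norm_add_le_max a b).trans (max_le ha hb)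
  have haddlt : ∀ (a b : A) (c : ℝ), ‖a‖ < c → ‖b‖ < c → ‖a + b‖ < c := fun a b c ha hb =>
    lt_of_le_of_lt (IsUltrametricDist.norm_add_le_max a b) (max_lt ha hb)
  have hball : ∀ a ∈ Metric.closedBall (0:A) (π ^ k), ‖a‖ ≤ π ^ 2 := by
    intro a ha
    rw [mem_closedBall_zero_iff] at ha
    exact ha.trans (hanti 2 k hk2)
  have hcont : ContinuousOn (E p : A → A) (Metric.closedBall 0 (π ^ k)) := by
    rw [Metric.continuousOn_iff]
    intro b hb ε hε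
    refine ⟨ε, hε, fun a ha hab => ?_⟩
    rw [dist_eq_norm, hiso a b (hball a ha) (hball b hb), ← dist_eq_norm]
    exact hab
  have hprop : ProperSpace A := FiniteDimensional.proper ℚ_[p] A
  have hDc : IsCompact (Metric.closedBall (0:A) (π ^ k) ∩ (E p) ⁻¹' G) := by
    apply (isCompact_closedBall (0:A) (π ^ k)).of_isClosed_subset _ Set.inter_subset_left
    exact hcont.preimage_isClosed_of_isClosed Metric.isClosed_closedBall hG.isCompact.isClosed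
  have hDne : (Metric.closedBall (0:A) (π ^ k) ∩ (E p) ⁻¹' G).Nonempty := by
    refine ⟨0, Metric.mem_closedBall_self (by positivity), ?_⟩
    rw [Set.mem_preimage, E_zero]
    exact hG.one_mem
  obtain ⟨x0, ⟨hx0, hx0G⟩, hmin⟩ := hDc.exists_isMinOn hDne (f := fun y => ‖x - y‖)
    (by fun_prop)
  rw [mem_closedBall_zero_iff] at hx0
  have hx0G' : E p x0 ∈ G := hx0G
  obtain ⟨ε, hε⟩ : ∃ ε : ℝ, ε = ‖x - x0‖ := ⟨_, rfl⟩
  have hmin' : ∀ y : A, ‖y‖ ≤ π ^ k → E p y ∈ G → ε ≤ ‖x - y‖ := by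
    intro y hy hyG
    rw [hε]
    exact hmin ⟨mem_closedBall_zero_iff.mpr hy, hyG⟩
  rcases eq_or_lt_of_le (norm_nonneg (x - x0)) with h0 | h0
  · have h1 : x = x0 := by
      rw [← sub_eq_zero]
      exact norm_eq_zero.mp h0.symm
    rw [h1]
    exact hx0G'
  exfalso
  rw [← hε] at h0
  have hεk : ε ≤ π ^ k := by
    rw [hε, sub_eq_add_neg]
    exact hadd _ _ _ hx (by rw [norm_neg]; exact hx0)
  have hε1 : ε ≤ 1 := hεk.trans (pow_le_one₀ hπ0.le hπ1.le)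
  obtain ⟨j, hj1, hj2⟩ := exists_nat_pow_near_of_lt_one h0 hε1 hπ0 hπ1
  have hkj : k ≤ j := by
    by_contra hc
    push Not at hc
    have h1 := hanti (j + 1) k (by omega)
    linarith
  -- the element `u`
  have hpow : ∀ a ∈ G, ∀ n : ℕ, a ^ n ∈ G := by
    intro a ha n
    induction n with
    | zero =>
      rw [pow_zero]
      exact hG.one_mem
    | succ n ih =>
      rw [pow_succ]
      exact hG.mul_mem _ ih _ ha
  have hpx0 : ‖(p : ℚ_[p]) • x0‖ ≤ π ^ (k + 1) := by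
    rw [hsm, pow_succ, mul_comm]
    exact mul_le_mul_of_nonneg_right hx0 hπ0.le
  have hpx : ‖(p : ℚ_[p]) • x‖ ≤ π ^ (k + 1) := by
    rw [hsm, pow_succ, mul_comm]
    exact mul_le_mul_of_nonneg_right hx hπ0.le
  have hG1 : E p ((p : ℚ_[p]) • x0) ∈ G := by
    rw [Nat.cast_smul_eq_nsmul, hnsm p x0 (hx0.trans (hanti 2 k hk2))]
    exact hpow _ hx0G' _
  have hG2 : E p (-((p : ℚ_[p]) • x0)) ∈ G := by
    obtain ⟨b, hb, hb1, hb2⟩ := hG.inv_mem _ hG1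
    have h1 := hneg ((p : ℚ_[p]) • x0) (hpx0.trans (hanti 2 (k + 1) (by omega)))
    have h2 : b = E p (-((p : ℚ_[p]) • x0)) := by
      calc b = b * (E p ((p : ℚ_[p]) • x0) * E p (-((p : ℚ_[p]) • x0))) := by rw [h1, mul_one]
        _ = E p (-((p : ℚ_[p]) • x0)) := by rw [← mul_assoc, hb2, one_mul]
    rw [← h2]
    exact hb
  obtain ⟨w, hw1, hw2, _, hw4⟩ := hml (k + 1) (by omega) (-((p : ℚ_[p]) • x0))
    ((p : ℚ_[p]) • x) (by rw [norm_neg]; exact hpx0) hpx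
  have hwG : E p w ∈ G := by
    rw [hw2]
    exact hG.mul_mem _ hG2 _ h
  have he1 : -((p : ℚ_[p]) • x0) + (p : ℚ_[p]) • x = (p : ℚ_[p]) • (x - x0) := by
    rw [smul_sub]
    abel
  rw [he1, hsm, ← hε, norm_neg] at hw4
  have hw5 : ‖w - (p : ℚ_[p]) • (x - x0)‖ ≤ ε * π ^ (k + 1) := by
    refine hw4.trans ?_
    have h1 : (p:ℝ) * (π * ε) * max ‖(p : ℚ_[p]) • x0‖ ‖(p : ℚ_[p]) • x‖
        ≤ (p:ℝ) * (π * ε) * π ^ (k + 1) :=
      mul_le_mul_of_nonneg_left (max_le hpx0 hpx) (by positivity)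
    refine h1.trans (le_of_eq ?_)
    rw [← mul_assoc, hpπ, one_mul]
  have hπk1 : π ^ (k + 1) ≤ π := by
    have := hanti 1 (k + 1) (by omega)
    rwa [pow_one] at this
  have hw6 : ‖w‖ ≤ π ^ (j + 1) := by
    have h1 : w = (w - (p : ℚ_[p]) • (x - x0)) + (p : ℚ_[p]) • (x - x0) := by abel
    rw [h1]
    have h2 : π * ε ≤ π ^ (j + 1) := by
      rw [pow_succ, mul_comm]
      exact mul_le_mul_of_nonneg_right hj2 hπ0.le
    apply hadd
    · refine hw5.trans ?_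
      refine le_trans ?_ h2
      rw [mul_comm]
      exact mul_le_mul_of_nonneg_right hπk1 h0.le
    · rw [hsm, ← hε]
      exact h2
  obtain ⟨x1, hx1, hx1G, hx1w⟩ := hlead j (hk.trans hkj) w hw6 hwG
  have hπk : π ^ k < 1 := pow_lt_one₀ hπ0.le hπ1 (by omega)
  have hd1 : ‖x1 - (x - x0)‖ < ε := by
    have h1 : ‖(p : ℚ_[p]) • (x1 - (x - x0))‖ < π * ε := by
      have h2 : (p : ℚ_[p]) • (x1 - (x - x0)) = ((p : ℚ_[p]) • x1 - w)
          + (w - (p : ℚ_[p]) • (x - x0)) := by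
        rw [smul_sub]
        abel
      rw [h2]
      apply haddlt
      · refine lt_of_le_of_lt hx1w ?_
        rw [show j + 2 = (j + 1) + 1 by ring, pow_succ, mul_comm]
        exact mul_lt_mul_of_pos_left hj1 hπ0
      · refine lt_of_le_of_lt hw5 ?_
        have h3 : ε * π ^ (k + 1) = π * ε * π ^ k := by ring
        rw [h3]
        exact mul_lt_of_lt_one_right (by positivity) hπk
    rw [hsm] at h1
    exact lt_of_mul_lt_mul_left h1 hπ0.le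
  obtain ⟨x2, hx2, hx2E, hx2s, _⟩ := hml k hk2 x0 x1 hx0 (hx1.trans (hanti k j hkj))
  have hx2G : E p x2 ∈ G := by
    rw [hx2E]
    exact hG.mul_mem _ hx0G' _ hx1G
  have hd2 : ‖x2 - (x0 + x1)‖ < ε := by
    refine lt_of_le_of_lt hx2s (lt_of_le_of_lt ?_ hj1)
    have h1 : (p:ℝ) * ‖x0‖ * ‖x1‖ ≤ p * π ^ 2 * π ^ j := by
      apply mul_le_mul _ hx1 (norm_nonneg _) (by positivity)
      exact mul_le_mul_of_nonneg_left (hx0.trans (hanti 2 k hk2)) hp0.le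
    refine h1.trans (le_of_eq ?_)
    calc (p:ℝ) * π ^ 2 * π ^ j = ((p:ℝ) * π) * π ^ (j + 1) := by ring
      _ = π ^ (j + 1) := by rw [hpπ, one_mul]
  have hfin : ‖x - x2‖ < ε := by
    have h1 : x - x2 = -(x1 - (x - x0)) + -(x2 - (x0 + x1)) := by abel
    rw [h1]
    apply haddlt
    · rw [norm_neg]
      exact hd1
    · rw [norm_neg]
      exact hd2
  exact absurd (hmin' x2 hx2 hx2G) (not_le.mpr hfin)

end

end Pool.Agent.Helper156.RWF.J12457
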