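import Pool.Agent.Helper156.RWF.D0
import Pool.Agent.Helper156.RWF.J12439
import Pool.Agent.Helper156.RWF.J12441
import Pool.Agent.Helper156.RWF.J12442
import Pool.Agent.Helper156.RWF.J12453
import Pool.Agent.Helper156.RWF.J12454
import Pool.Agent.Helper156.RWF.J12456
import Pool.Agent.Helper156.RWF.J12457

namespace Pool.Agent.Helper156.RWF.J12455

open Pool.Agent.Helper156.RWF Pool.Agent.Helper156.RWF.J12439 Pool.Agent.Helper156.RWF.J12441 Pool.Agent.Helper156.RWF.J12442 Pool.Agent.Helper156.RWF.J12453 Pool.Agent.Helper156.RWF.J12454 Pool.Agent.Helper156.RWF.J12456 Pool.Agent.Helper156.RWF.J12457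
open Filter Topology


section
variable {p : ℕ} [Fact p.Prime]
variable {A : Type} [NormedRing A] [NormedAlgebra ℚ_[p] A] [IsUltrametricDist A] [NormOneClass A]
  [FiniteDimensional ℚ_[p] A]


theorem down_12455 (G : Set A) (m : ℕ)
    (hroot : ∀ k, m ≤ k → ∀ x : A, ‖x‖ ≤ ((p : ℝ)⁻¹) ^ k →
      E p ((p : ℚ_[p]) • x) ∈ G → E p x ∈ G) (n : ℕ) : ∀ x : A, ‖x‖ ≤ ((p : ℝ)⁻¹) ^ m →
      E p ((p : ℚ_[p]) ^ n • x) ∈ G → E p x ∈ G := by
  have hp1 : ‖(p : ℚ_[p])‖ ≤ 1 := Padic.norm_p_lt_one.le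
  induction n with
  | zero =>
    intro x _ h
    simpa using h
  | succ n ih =>
    intro x hx h
    apply ih x hx
    apply hroot m le_rfl
    · rw [norm_smul, norm_pow]
      have h1 : ‖(p : ℚ_[p])‖ ^ n ≤ 1 := pow_le_one₀ (norm_nonneg _) hp1
      have h2 := norm_nonneg x
      nlinarith
    · rw [smul_smul, ← pow_succ']
      exact h

/-- The Lie algebra of a compact group. -/
theorem exists_lie (G : Set A) (hG : IsCptGrp G) :
    ∃ (g : Submodule ℚ_[p] A) (k : ℕ), IsLieOf p G g k ∧ Brk g := by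
  obtain ⟨m, hm, hlead⟩ := lead_stable (p := p) G hG
  have hroot : ∀ k, m ≤ k → ∀ x : A, ‖x‖ ≤ ((p : ℝ)⁻¹) ^ k →
      E p ((p : ℚ_[p]) • x) ∈ G → E p x ∈ G := fun k hk x hx h =>
    root_closed G hG m hm hlead k hk x hx h
  have hp1 : ‖(p : ℚ_[p])‖ < 1 := Padic.norm_p_lt_one
  have hr0 : 0 < ((p : ℝ)⁻¹) := by
    have : 0 < p := (Fact.out : p.Prime).pos
    positivity
  have hr1 : ((p : ℝ)⁻¹) ≤ 1 := by
    have : (1 : ℝ) ≤ p := by exact_mod_cast (Fact.out : p.Prime).one_lt.le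
    exact inv_le_one_of_one_le₀ this
  have hm2 : ((p : ℝ)⁻¹) ^ m ≤ ((p : ℝ)⁻¹) ^ 2 := pow_le_pow_of_le_one hr0.le hr1 hm
  have hm1 : ((p : ℝ)⁻¹) ^ m ≤ 1 := pow_le_one₀ hr0.le hr1
  -- the step
  have hstep : ∀ (x : A) (n : ℕ) (t : ℚ_[p]), ‖t‖ ≤ 1 → ‖(p : ℚ_[p]) ^ n • x‖ ≤ ((p : ℝ)⁻¹) ^ m →
      E p ((p : ℚ_[p]) ^ n • x) ∈ G → ‖t • ((p : ℚ_[p]) ^ n • x)‖ ≤ ((p : ℝ)⁻¹) ^ m ∧
      E p (t • ((p : ℚ_[p]) ^ n • x)) ∈ G := by
    intro x n t ht h1 h2
    refine ⟨?_, smul_closed G hG t ht _ (h1.trans hm2) h2⟩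
    rw [norm_smul]
    have := norm_nonneg ((p : ℚ_[p]) ^ n • x)
    nlinarith
  have hmono : ∀ (x : A) (n k : ℕ), n ≤ k → ‖(p : ℚ_[p]) ^ n • x‖ ≤ ((p : ℝ)⁻¹) ^ m →
      E p ((p : ℚ_[p]) ^ n • x) ∈ G → ‖(p : ℚ_[p]) ^ k • x‖ ≤ ((p : ℝ)⁻¹) ^ m ∧
      E p ((p : ℚ_[p]) ^ k • x) ∈ G := by
    intro x n k hnk h1 h2
    have e : (p : ℚ_[p]) ^ k • x = (p : ℚ_[p]) ^ (k - n) • ((p : ℚ_[p]) ^ n • x) := by
      rw [smul_smul, ← pow_add]
      congr 2
      omega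
    rw [e]
    refine hstep x n _ ?_ h1 h2
    rw [norm_pow]
    exact pow_le_one₀ (norm_nonneg _) hp1.le
  let g : Submodule ℚ_[p] A :=
    { carrier := {x | ∃ n : ℕ, ‖(p : ℚ_[p]) ^ n • x‖ ≤ ((p : ℝ)⁻¹) ^ m ∧
        E p ((p : ℚ_[p]) ^ n • x) ∈ G}
      zero_mem' := by
        refine ⟨0, ?_, ?_⟩
        · rw [smul_zero, norm_zero]
          positivity
        · rw [smul_zero, E_zero]
          exact hG.one_mem
      add_mem' := by
        rintro x y ⟨n, h1, h2⟩ ⟨n', h1', h2'⟩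
        obtain ⟨a1, a2⟩ := hmono x n (max n n') (le_max_left _ _) h1 h2
        obtain ⟨b1, b2⟩ := hmono y n' (max n n') (le_max_right _ _) h1' h2'
        refine ⟨max n n', ?_, ?_⟩
        · rw [smul_add]
          exact (IsUltrametricDist.norm_add_le_max _ _).trans (max_le a1 b1)
        · rw [smul_add]
          exact add_closed G hG m hm hroot _ _ a1 b1 a2 b2
      smul_mem' := by
        rintro c x ⟨n, h1, h2⟩
        obtain ⟨a, ha⟩ : ∃ a : ℕ, ‖(p : ℚ_[p]) ^ a * c‖ ≤ 1 := by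
          have ht : Filter.Tendsto (fun a : ℕ => ‖(p : ℚ_[p]) ^ a * c‖) Filter.atTop (nhds 0) := by
            have h3 : Filter.Tendsto (fun a : ℕ => ‖(p : ℚ_[p])‖ ^ a * ‖c‖) Filter.atTop
                (nhds (0 * ‖c‖)) :=
              (tendsto_pow_atTop_nhds_zero_of_lt_one (norm_nonneg _) hp1).mul_const _
            rw [zero_mul] at h3
            refine h3.congr fun a => ?_
            rw [norm_mul, norm_pow]
          exact (ht.eventually (ge_mem_nhds (show (0 : ℝ) < 1 by norm_num))).exists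
        have e : (p : ℚ_[p]) ^ (n + a) • (c • x) =
            ((p : ℚ_[p]) ^ a * c) • ((p : ℚ_[p]) ^ n • x) := by
          rw [smul_smul, smul_smul]
          congr 1
          ring
        refine ⟨n + a, ?_⟩
        rw [e]
        exact hstep x n _ ha h1 h2 }
  refine ⟨g, m, ⟨hm, fun x hx => ⟨fun h => ?_, ?_⟩⟩, ?_⟩
  · refine ⟨0, ?_, ?_⟩
    · rw [pow_zero, one_smul]
      exact hx
    · rw [pow_zero, one_smul]
      exact h
  · rintro ⟨n, _, h2⟩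
    exact down_12455 G m hroot n x hx h2
  · rintro x ⟨n, h1, h2⟩ y ⟨n', h1', h2'⟩
    obtain ⟨a1, a2⟩ := hmono x n (max n n') (le_max_left _ _) h1 h2
    obtain ⟨b1, b2⟩ := hmono y n' (max n n') (le_max_right _ _) h1' h2'
    have e : (p : ℚ_[p]) ^ (max n n' + max n n') • (x * y - y * x) =
        ((p : ℚ_[p]) ^ (max n n') • x) * ((p : ℚ_[p]) ^ (max n n') • y) -
        ((p : ℚ_[p]) ^ (max n n') • y) * ((p : ℚ_[p]) ^ (max n n') • x) := by
      rw [smul_sub, smul_mul_smul_comm, smul_mul_smul_comm, ← pow_add]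
    refine ⟨max n n' + max n n', ?_, ?_⟩
    · rw [e]
      have hxy : ∀ u v : A, ‖u‖ ≤ ((p : ℝ)⁻¹) ^ m → ‖v‖ ≤ ((p : ℝ)⁻¹) ^ m →
          ‖u * v‖ ≤ ((p : ℝ)⁻¹) ^ m := by
        intro u v hu hv
        refine (norm_mul_le _ _).trans ?_
        have := norm_nonneg u
        have := norm_nonneg v
        nlinarith
      rw [sub_eq_add_neg]
      refine (IsUltrametricDist.norm_add_le_max _ _).trans (max_le (hxy _ _ a1 b1) ?_)
      rw [norm_neg]
      exact hxy _ _ b1 a1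
    · rw [e]
      exact brk_closed G hG m hm hroot _ _ a1 b1 a2 b2

end

end Pool.Agent.Helper156.RWF.J12455
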