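import Pool.Agent.Helper156.RWF.D0

namespace Pool.Agent.Helper156.RWF.J12510

open Pool.Agent.Helper156.RWF
open Filter Topology


section
variable {p : ℕ} [Fact p.Prime]
variable {A : Type} [NormedRing A] [NormedAlgebra ℚ_[p] A] [IsUltrametricDist A] [NormOneClass A]
  [FiniteDimensional ℚ_[p] A]

/-- the Casimir identity for an invariant nondegenerate form -/
theorem cas_aux {K V W : Type} [Field K] [AddCommGroup V] [Module K V] [FiniteDimensional K V]
    [AddCommGroup W] [Module K W] (B : LinearMap.BilinForm K V) (hB : B.Nondegenerate)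
    (hs : B.IsSymm) (T : V →ₗ[K] V) (hT : ∀ x y, B (T x) y = - B x (T y))
    {ι : Type} [Fintype ι] [DecidableEq ι] (e : Module.Basis ι K V)
    (F : V →ₗ[K] V →ₗ[K] W) :
    ∑ i, F (T (e i)) (B.dualBasis hB e i) + ∑ i, F (e i) (T (B.dualBasis hB e i)) = 0 := by
  set f := B.dualBasis hB e with hf
  have h1 : ∀ x, x = ∑ j, B x (e j) • f j := by
    intro x
    conv_lhs => rw [← f.sum_repr x]
    simp only [hf, LinearMap.BilinForm.dualBasis_repr_apply]
  have h2 : ∀ x, x = ∑ j, B x (f j) • e j := by
    intro x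
    conv_lhs => rw [← e.sum_repr x]
    refine Finset.sum_congr rfl fun j _ => ?_
    congr 1
    have h3 : B x (f j) = B (∑ i, e.repr x i • e i) (f j) := by rw [e.sum_repr]
    rw [h3, map_sum, LinearMap.sum_apply]
    simp [hf, LinearMap.BilinForm.apply_dualBasis_right hB hs]
  have e1 : ∑ i, F (T (e i)) (f i) = ∑ i, ∑ j, B (T (e i)) (f j) • F (e j) (f i) := by
    refine Finset.sum_congr rfl fun i _ => ?_
    conv_lhs => rw [h2 (T (e i))]
    simp only [map_sum, LinearMap.sum_apply, map_smul, LinearMap.smul_apply]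
  have e2 : ∑ i, F (e i) (T (f i)) = ∑ i, ∑ j, B (T (f i)) (e j) • F (e i) (f j) := by
    refine Finset.sum_congr rfl fun i _ => ?_
    conv_lhs => rw [h1 (T (f i))]
    simp only [map_sum, map_smul]
  rw [e1, e2, Finset.sum_comm, ← Finset.sum_add_distrib]
  refine Finset.sum_eq_zero fun j _ => ?_
  rw [← Finset.sum_add_distrib]
  refine Finset.sum_eq_zero fun i _ => ?_
  rw [← add_smul, hT (f j) (e i), hs.eq (f j) (T (e i))]
  simp

/-- the derived algebra of a Killing Lie algebra is everything, in functional form -/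
theorem perfect_aux {K L X : Type} [Field K] [CharZero K] [LieRing L] [LieAlgebra K L]
    [FiniteDimensional K L] [LieAlgebra.IsKilling K L] [AddCommGroup X] [Module K X]
    (D : L →ₗ[K] X) (hD : ∀ x y : L, D ⁅x, y⁆ = 0) (x : L) : D x = 0 := by
  let I : LieIdeal K L := ⁅(⊤ : LieIdeal K L), (⊤ : LieIdeal K L)⁆
  have hc : IsCompl I I.killingCompl := LieIdeal.isCompl_killingCompl I
  have hab : IsLieAbelian I.killingCompl := by
    rw [LieSubmodule.lie_abelian_iff_lie_self_eq_bot, eq_bot_iff, ← hc.inf_eq_bot]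
    refine le_inf ?_ ?_
    · exact LieSubmodule.mono_lie le_top le_top
    · exact LieSubmodule.lie_le_right _ _
  have h0 : I.killingCompl = ⊥ := LieAlgebra.IsKilling.ideal_eq_bot_of_isLieAbelian _
  have hI : I = ⊤ := by
    have h := hc.sup_eq_top
    rwa [h0, sup_bot_eq] at h
  have hx : x ∈ (I : Submodule K L) := by
    rw [hI]
    exact Submodule.mem_top
  have hle : (I : Submodule K L) ≤ LinearMap.ker D := by
    change (⁅(⊤ : LieIdeal K L), (⊤ : LieIdeal K L)⁆ : LieIdeal K L).toSubmodule ≤ _
    rw [LieSubmodule.lieIdeal_oper_eq_linear_span', Submodule.span_le]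
    rintro _ ⟨a, _, b, _, rfl⟩
    exact hD a b
  exact hle hx

/-- the radical of the trace form meets the complement of the kernel trivially -/
theorem rad_aux {K L X : Type} [Field K] [CharZero K] [LieRing L] [LieAlgebra K L]
    [FiniteDimensional K L] [LieAlgebra.IsKilling K L] [AddCommGroup X] [Module K X]
    [FiniteDimensional K X] [LieRingModule L X] [LieModule K L X] [LieModule.IsIrreducible K L X]
    (m : LieIdeal K L) (hm : Disjoint (LieModule.ker K L X) m)
    (x : L) (hx : x ∈ m) (hB : ∀ y, LieModule.traceForm K L X x y = 0) : x = 0 := by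
  let R : LieIdeal K L :=
    { (LinearMap.ker (LieModule.traceForm K L X)) with
      lie_mem := by
        intro a b hb
        change b ∈ LinearMap.ker (LieModule.traceForm K L X) at hb
        change ⁅a, b⁆ ∈ LinearMap.ker (LieModule.traceForm K L X)
        rw [LinearMap.mem_ker] at hb ⊢
        ext c
        rw [LieModule.traceForm_apply_lie_apply', hb]
        simp }
  have hR : ∀ a, a ∈ R ↔ ∀ y, LieModule.traceForm K L X a y = 0 := by
    intro a
    change a ∈ LinearMap.ker (LieModule.traceForm K L X) ↔ _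
    rw [LinearMap.mem_ker, LinearMap.ext_iff]
    rfl
  let J : LieIdeal K L := R ⊓ m
  have hJ : ∀ a, a ∈ J ↔ a ∈ R ∧ a ∈ m := fun a => LieSubmodule.mem_inf _ _ _
  have htr : LieModule.traceForm K J X = 0 := by
    ext a b
    have h := (hR a.1).1 ((hJ a.1).1 a.2).1 b.1
    exact h
  have hnil : LieModule.IsNilpotent (LieAlgebra.derivedSeries K J 1) X :=
    LieModule.isNilpotent_derivedSeries_of_traceForm_eq_zero htr
  have hnil2 := (LieModule.isNilpotent_iff_forall' (R := K)).1 hnil
  let J1 : LieIdeal K L := ⁅J, J⁆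
  have hJ1J : J1 ≤ J := LieSubmodule.lie_le_right _ _
  have hder : LieAlgebra.derivedSeries K J 1 = J1.comap J.incl := by
    rw [LieIdeal.derivedSeries_eq_derivedSeriesOfIdeal_comap]
    rfl
  have hnil3 : LieModule.IsNilpotent J1 X := by
    rw [LieModule.isNilpotent_iff_forall' (R := K)]
    rintro ⟨a, ha⟩
    have haJ : a ∈ J := hJ1J ha
    have h1 : (⟨a, haJ⟩ : J) ∈ LieAlgebra.derivedSeries K J 1 := by
      rw [hder, LieIdeal.mem_comap]
      exact ha
    exact hnil2 ⟨⟨a, haJ⟩, h1⟩
  haveI : Nontrivial X := LieModule.nontrivial_of_isIrreducible K L X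
  have hnt : Nontrivial (LieModule.maxTrivSubmodule K J1 X) :=
    LieModule.nontrivial_max_triv_of_isNilpotent K J1 X
  let N : LieSubmodule K L X :=
    { (LieModule.maxTrivSubmodule K J1 X).toSubmodule with
      lie_mem := by
        intro a b hb
        change b ∈ LieModule.maxTrivSubmodule K J1 X at hb
        change ⁅a, b⁆ ∈ LieModule.maxTrivSubmodule K J1 X
        rw [LieModule.mem_maxTrivSubmodule] at hb ⊢
        rintro ⟨c, hc⟩
        have h1 : ⁅(⟨⁅c, a⁆, lie_mem_left K L J1 c a hc⟩ : J1), b⁆ = 0 := hb _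
        have h2 : ⁅(⟨c, hc⟩ : J1), b⁆ = 0 := hb _
        have h1' : ⁅⁅c, a⁆, b⁆ = 0 := h1
        have h2' : ⁅c, b⁆ = 0 := h2
        change ⁅c, ⁅a, b⁆⁆ = 0
        rw [leibniz_lie, h1', h2', lie_zero, add_zero] }
  have hN : N = ⊤ := by
    rcases IsSimpleOrder.eq_bot_or_eq_top N with h | h
    · exfalso
      obtain ⟨z, hz⟩ := exists_ne (0 : LieModule.maxTrivSubmodule K J1 X)
      apply hz
      have hz2 : (z : X) ∈ N := z.2
      rw [h, LieSubmodule.mem_bot] at hz2
      exact Subtype.ext hz2
    · exact h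
  have hJ1k : J1 ≤ LieModule.ker K L X := by
    intro a ha
    rw [LieModule.mem_ker]
    intro v
    have hv : v ∈ N := by rw [hN]; exact LieSubmodule.mem_top v
    change v ∈ LieModule.maxTrivSubmodule K J1 X at hv
    rw [LieModule.mem_maxTrivSubmodule] at hv
    exact hv ⟨a, ha⟩
  have hJm : J ≤ m := inf_le_right
  have hJ1b : J1 = ⊥ := by
    rw [eq_bot_iff, ← hm.eq_bot]
    exact le_inf hJ1k (hJ1J.trans hJm)
  have hJab : IsLieAbelian J := (LieSubmodule.lie_abelian_iff_lie_self_eq_bot J).2 hJ1b
  have hJb : J = ⊥ := LieAlgebra.IsKilling.ideal_eq_bot_of_isLieAbelian J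
  have hxJ : x ∈ J := (hJ x).2 ⟨(hR x).2 hB, hx⟩
  rw [hJb, LieSubmodule.mem_bot] at hxJ
  exact hxJ

/-- Whitehead's first lemma, irreducible coefficients -/
theorem whitehead_irred {K L X : Type} [Field K] [CharZero K] [LieRing L] [LieAlgebra K L]
    [FiniteDimensional K L] [LieAlgebra.IsKilling K L] [AddCommGroup X] [Module K X]
    [FiniteDimensional K X] [LieRingModule L X] [LieModule K L X] [LieModule.IsIrreducible K L X]
    (D : L →ₗ[K] X) (hD : ∀ x y : L, D ⁅x, y⁆ = ⁅x, D y⁆ - ⁅y, D x⁆) :
    ∃ v : X, ∀ x : L, D x = ⁅x, v⁆ := by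
  classical
  let k : LieIdeal K L := LieModule.ker K L X
  let m : LieIdeal K L := k.killingCompl
  have hcompl : IsCompl k m := LieIdeal.isCompl_killingCompl k
  have hkact : ∀ x ∈ k, ∀ v : X, ⁅x, v⁆ = 0 := fun x hx => (LieModule.mem_ker K L X x).1 hx
  by_cases hm : m = ⊥
  · have hk : k = ⊤ := by
      have h := hcompl.sup_eq_top
      rwa [hm, sup_bot_eq] at h
    have hact : ∀ (x : L) (v : X), ⁅x, v⁆ = 0 := by
      intro x
      apply hkact x
      rw [hk]
      exact LieSubmodule.mem_top x
    refine ⟨0, fun x => ?_⟩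
    rw [lie_zero]
    refine perfect_aux D (fun a b => ?_) x
    rw [hD, hact, hact, sub_zero]
  · -- the form on `m`
    let φ : L →ₗ[K] Module.End K X := (LieModule.toEnd K L X : L →ₗ[K] Module.End K X)
    let ιm : m →ₗ[K] L := (m : Submodule K L).subtype
    have hιm : ∀ a : m, ιm a = (a : L) := fun _ => rfl
    let B : LinearMap.BilinForm K m := (LieModule.traceForm K L X).compl₁₂ ιm ιm
    have hBa : ∀ a b : m, B a b = LieModule.traceForm K L X (a : L) (b : L) := fun _ _ => rfl
    have hsymm : B.IsSymm := ⟨fun a b => by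
      rw [hBa, hBa]
      exact LieModule.traceForm_comm K L X _ _⟩
    have hnd : B.Nondegenerate := by
      have hsep : ∀ a : m, (∀ b : m, B a b = 0) → a = 0 := by
        intro a ha
        apply Subtype.ext
        refine rad_aux (K := K) (X := X) m hcompl.disjoint (a : L) a.2 ?_
        intro y
        have hy : y ∈ k ⊔ m := by
          rw [hcompl.sup_eq_top]
          exact LieSubmodule.mem_top y
        obtain ⟨y1, hy1, y2, hy2, rfl⟩ := (LieSubmodule.mem_sup _ _ _).1 hy
        rw [map_add]
        have h1 : LieModule.traceForm K L X (a : L) y1 = 0 := by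
          rw [LieModule.traceForm_apply_apply]
          have : (LieModule.toEnd K L X) y1 = 0 := by
            ext v
            exact hkact y1 hy1 v
          rw [this, LinearMap.comp_zero, map_zero]
        have h2 : LieModule.traceForm K L X (a : L) y2 = 0 := ha ⟨y2, hy2⟩
        rw [h1, h2, add_zero]
      exact (hsymm.isRefl.nondegenerate_iff_separatingLeft).2 hsep
    haveI : FiniteDimensional K m := by
      change FiniteDimensional K (m : Submodule K L)
      infer_instance
    let e := Module.finBasis K m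
    let f := B.dualBasis hnd e
    let T : L → (m →ₗ[K] m) := fun x => LieModule.toEnd K L m x
    have hTa : ∀ (x : L) (a : m), ((T x a : m) : L) = ⁅x, (a : L)⁆ := fun _ _ => rfl
    have hT : ∀ (x : L) (a b : m), B (T x a) b = - B a (T x b) := by
      intro x a b
      rw [hBa, hBa, hTa, hTa]
      exact LieModule.traceForm_apply_lie_apply' K L X _ _ _
    -- the Casimir operator
    let Om : Module.End K X := ∑ i, φ (e i : L) * φ (f i : L)
    let F1 : m →ₗ[K] m →ₗ[K] Module.End K X :=
      (LinearMap.mul K (Module.End K X)).compl₁₂ (φ ∘ₗ ιm) (φ ∘ₗ ιm)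
    have hF1 : ∀ a b : m, F1 a b = φ (a : L) * φ (b : L) := fun _ _ => rfl
    let ev : Module.End K X →ₗ[K] X →ₗ[K] X := LinearMap.id
    let F2 : m →ₗ[K] m →ₗ[K] X := ev.compl₁₂ (φ ∘ₗ ιm) (D ∘ₗ ιm)
    have hF2 : ∀ a b : m, F2 a b = ⁅(a : L), D (b : L)⁆ := fun _ _ => rfl
    have hφb : ∀ x y : L, φ ⁅x, y⁆ = φ x * φ y - φ y * φ x := by
      intro x y
      ext v
      change ⁅⁅x, y⁆, v⁆ = ⁅x, ⁅y, v⁆⁆ - ⁅y, ⁅x, v⁆⁆
      exact lie_lie x y v
    have hOmc : ∀ x : L, φ x * Om = Om * φ x := by
      intro x
      have h := cas_aux B hnd hsymm (T x) (hT x) e F1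
      rw [← sub_eq_zero, ← h]
      simp only [Om, Finset.mul_sum, Finset.sum_mul]
      rw [← Finset.sum_sub_distrib, ← Finset.sum_add_distrib]
      refine Finset.sum_congr rfl fun i _ => ?_
      rw [hF1, hF1, hTa, hTa, hφb, hφb]
      noncomm_ring
    have hTr : LinearMap.trace K X Om = (Module.finrank K m : K) := by
      simp only [Om, map_sum]
      have : ∀ i, LinearMap.trace K X (φ (e i : L) * φ (f i : L)) = 1 := by
        intro i
        have h := LinearMap.BilinForm.apply_dualBasis_right hnd hsymm e i i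
        rw [if_pos rfl] at h
        exact h
      rw [Finset.sum_congr rfl fun i _ => this i]
      simp
    have hOm0 : Om ≠ 0 := by
      intro h
      rw [h, map_zero] at hTr
      have h2 : Module.finrank K m = 0 := by exact_mod_cast hTr.symm
      have h3 : (m : Submodule K L) = ⊥ := Submodule.finrank_eq_zero.1 h2
      exact hm ((LieSubmodule.toSubmodule_eq_bot m).1 h3)
    let N : LieSubmodule K L X :=
      { LinearMap.ker Om with
        lie_mem := by
          intro a b hb
          change b ∈ LinearMap.ker Om at hb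
          change ⁅a, b⁆ ∈ LinearMap.ker Om
          rw [LinearMap.mem_ker] at hb ⊢
          have h := congrArg (fun g : Module.End K X => g b) (hOmc a)
          simp only [Module.End.mul_apply] at h
          rw [hb, map_zero] at h
          exact h.symm }
    have hN : N = ⊥ := by
      rcases IsSimpleOrder.eq_bot_or_eq_top N with h | h
      · exact h
      · exfalso
        apply hOm0
        ext v
        have hv : v ∈ N := by rw [h]; exact LieSubmodule.mem_top v
        exact hv
    have hinj : Function.Injective Om := by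
      rw [← LinearMap.ker_eq_bot, eq_bot_iff]
      intro v hv
      have hv2 : v ∈ N := hv
      rw [hN, LieSubmodule.mem_bot] at hv2
      exact hv2
    have hsurj : Function.Surjective Om := LinearMap.injective_iff_surjective.1 hinj
    let w : X := ∑ i, ⁅(e i : L), D (f i : L)⁆
    obtain ⟨v, hv⟩ := hsurj w
    refine ⟨v, fun x => ?_⟩
    apply hinj
    have h1 : Om ⁅x, v⁆ = ⁅x, w⁆ := by
      have h := congrArg (fun g : Module.End K X => g v) (hOmc x)
      simp only [Module.End.mul_apply] at h
      rw [hv] at h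
      exact h.symm
    rw [h1]
    have h := cas_aux B hnd hsymm (T x) (hT x) e F2
    rw [← sub_eq_zero]
    have hneg : Om (D x) - ⁅x, w⁆ = -(∑ i, F2 (T x (e i)) (f i) + ∑ i, F2 (e i) (T x (f i))) := by
      simp only [Om, w, LinearMap.sum_apply, lie_sum, Module.End.mul_apply]
      rw [← Finset.sum_sub_distrib, ← Finset.sum_add_distrib, ← Finset.sum_neg_distrib]
      refine Finset.sum_congr rfl fun i _ => ?_
      rw [hF2, hF2, hTa, hTa, hD x (f i : L), lie_sub]
      change ⁅(e i : L), ⁅(f i : L), D x⁆⁆ - _ = _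
      rw [lie_lie x (e i : L)]
      abel
    rw [hneg, h, neg_zero]

end

end Pool.Agent.Helper156.RWF.J12510
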