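import Pool.Agent.Helper156.RWF.D0
import Pool.Agent.Helper156.RWF.J12510

namespace Pool.Agent.Helper156.RWF.J12511

open Pool.Agent.Helper156.RWF Pool.Agent.Helper156.RWF.J12510
open Filter Topology


section
variable {p : ℕ} [Fact p.Prime]
variable {A : Type} [NormedRing A] [NormedAlgebra ℚ_[p] A] [IsUltrametricDist A] [NormOneClass A]
  [FiniteDimensional ℚ_[p] A]


/-- Whitehead's first lemma -/
theorem whitehead_one {K L : Type} [Field K] [CharZero K] [LieRing L] [LieAlgebra K L]
    [FiniteDimensional K L] [LieAlgebra.IsKilling K L] (X : Type) [AddCommGroup X] [Module K X]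
    [FiniteDimensional K X] [LieRingModule L X] [LieModule K L X]
    (D : L →ₗ[K] X) (hD : ∀ x y : L, D ⁅x, y⁆ = ⁅x, D y⁆ - ⁅y, D x⁆) :
    ∃ v : X, ∀ x : L, D x = ⁅x, v⁆ := by
  obtain ⟨n, hn⟩ : ∃ n, Module.finrank K X = n := ⟨_, rfl⟩
  induction n using Nat.strong_induction_on generalizing X with
  | _ n ih =>
    by_cases hred : ∃ N : LieSubmodule K L X, N ≠ ⊥ ∧ N ≠ ⊤
    · obtain ⟨N, hN0, hN1⟩ := hred
      have hNs : N.toSubmodule ≠ ⊥ := by
        intro h
        exact hN0 ((LieSubmodule.toSubmodule_eq_bot N).1 h)
      have hNt : N.toSubmodule ≠ ⊤ := by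
        intro h
        exact hN1 ((LieSubmodule.toSubmodule_eq_top N).1 h)
      have hadd : Module.finrank K (X ⧸ N.toSubmodule) + Module.finrank K N.toSubmodule
          = Module.finrank K X := Submodule.finrank_quotient_add_finrank _
      have hpos : 0 < Module.finrank K N.toSubmodule := by
        rw [Nat.pos_iff_ne_zero]
        intro h
        exact hNs (Submodule.finrank_eq_zero.1 h)
      have hlt : Module.finrank K N.toSubmodule < Module.finrank K X :=
        Submodule.finrank_lt hNt
      have hq : Module.finrank K (X ⧸ N) < n := by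
        change Module.finrank K (X ⧸ N.toSubmodule) < n
        omega
      have hs : Module.finrank K N < n := by
        change Module.finrank K N.toSubmodule < n
        omega
      haveI : FiniteDimensional K (X ⧸ N) := by
        change FiniteDimensional K (X ⧸ N.toSubmodule)
        infer_instance
      haveI : FiniteDimensional K N := by
        change FiniteDimensional K N.toSubmodule
        infer_instance
      obtain ⟨vbar, hv⟩ := ih _ hq (X ⧸ N)
        ((LieSubmodule.Quotient.mk' N : X →ₗ[K] X ⧸ N) ∘ₗ D) (by
          intro x y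
          simp only [LinearMap.comp_apply]
          rw [hD x y, map_sub]
          rfl) rfl
      obtain ⟨v, rfl⟩ := LieSubmodule.Quotient.surjective_mk' N vbar
      have hmem : ∀ x : L, D x - ⁅x, v⁆ ∈ N := by
        intro x
        have h := hv x
        simp only [LinearMap.comp_apply] at h
        have h2 : (LieSubmodule.Quotient.mk' N) (D x - ⁅x, v⁆) = 0 := by
          rw [map_sub, LieModuleHom.map_lie]
          exact sub_eq_zero.2 h
        exact (LieSubmodule.Quotient.mk_eq_zero').1 h2
      let D0 : L →ₗ[K] X := D - ((LieModule.toEnd K L X : L →ₗ[K] Module.End K X).flip v)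
      have hD0 : ∀ x, D0 x = D x - ⁅x, v⁆ := by
        intro x
        rfl
      have hmem0 : ∀ x, D0 x ∈ N.toSubmodule := by
        intro x
        rw [hD0]
        exact hmem x
      let D1 : L →ₗ[K] N := (D0.codRestrict N.toSubmodule hmem0 : L →ₗ[K] N.toSubmodule)
      have hD1 : ∀ x, ((D1 x : N) : X) = D x - ⁅x, v⁆ := by
        intro x
        exact hD0 x
      obtain ⟨w, hw⟩ := ih _ hs N D1 (by
        intro x y
        apply Subtype.ext
        rw [hD1]
        change _ = ((⁅x, D1 y⁆ - ⁅y, D1 x⁆ : N) : X)
        rw [LieSubmodule.coe_sub, LieSubmodule.coe_bracket, LieSubmodule.coe_bracket, hD1, hD1,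
          hD x y, lie_sub, lie_sub, lie_lie]
        abel) rfl
      refine ⟨v + w, fun x => ?_⟩
      have h := congrArg (fun t : N => (t : X)) (hw x)
      simp only [LieSubmodule.coe_bracket] at h
      rw [hD1] at h
      rw [lie_add, ← h]
      abel
    · by_cases hX : Subsingleton X
      · exact ⟨0, fun x => Subsingleton.elim _ _⟩
      · rw [not_subsingleton_iff_nontrivial] at hX
        haveI : LieModule.IsIrreducible K L X := by
          refine LieModule.IsIrreducible.mk ?_
          intro N hN
          by_contra h
          exact hred ⟨N, hN, h⟩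
        exact whitehead_irred D hD

end

end Pool.Agent.Helper156.RWF.J12511
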