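import Pool.Agent.Helper156.RWF.D0
import Pool.Agent.Helper156.RWF.J12511
import Pool.Agent.Helper156.RWF.J12512

namespace Pool.Agent.Helper156.RWF.J12513

open Pool.Agent.Helper156.RWF Pool.Agent.Helper156.RWF.J12511 Pool.Agent.Helper156.RWF.J12512
open Filter Topology


section
variable {p : ℕ} [Fact p.Prime]
variable {A : Type} [NormedRing A] [NormedAlgebra ℚ_[p] A] [IsUltrametricDist A] [NormOneClass A]
  [FiniteDimensional ℚ_[p] A]


section wpc
attribute [local instance 100] LieRing.ofAssociativeRing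

/-- the Lie subalgebra with carrier `g` -/
def wpc_L {K V : Type} [Field K] [AddCommGroup V] [Module K V]
    (g : Submodule K (Module.End K V)) (hbr : Brk g) : LieSubalgebra K (Module.End K V) :=
  { g with lie_mem' := fun {x y} hx hy => hbr x hx y hy }

theorem wpc_mem {K V : Type} [Field K] [AddCommGroup V] [Module K V]
    (g : Submodule K (Module.End K V)) (hbr : Brk g) (x : Module.End K V) :
    x ∈ wpc_L g hbr ↔ x ∈ g := Iff.rfl

theorem wpc_killing {K V : Type} [Field K] [CharZero K] [AddCommGroup V] [Module K V]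
    [FiniteDimensional K V] (g : Submodule K (Module.End K V)) (hbr : Brk g)
    (hss : ∀ W : Submodule K V, (∀ x ∈ g, ∀ w ∈ W, x w ∈ W) →
      ∃ W' : Submodule K V, (∀ x ∈ g, ∀ w ∈ W', x w ∈ W') ∧ IsCompl W W')
    (hc : ∀ x ∈ g, (∀ y ∈ g, x * y = y * x) → x = 0) :
    LieAlgebra.HasTrivialRadical K (wpc_L g hbr) := by
  rw [LieAlgebra.hasTrivialRadical_iff_no_abelian_ideals]
  intro I hI
  let a : Submodule K (Module.End K V) :=
    (I : Submodule K (wpc_L g hbr)).map (wpc_L g hbr).toSubmodule.subtype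
  have hmem : ∀ y ∈ a, ∃ y' : wpc_L g hbr, y' ∈ I ∧ (y' : Module.End K V) = y := by
    rintro y ⟨y', hy', rfl⟩
    exact ⟨y', hy', rfl⟩
  have hag : a ≤ g := by
    intro y hy
    obtain ⟨y', _, rfl⟩ := hmem y hy
    exact y'.2
  have hid : ∀ x ∈ g, ∀ y ∈ a, x * y - y * x ∈ a := by
    intro x hx y hy
    obtain ⟨y', hy', rfl⟩ := hmem y hy
    exact ⟨⁅(⟨x, hx⟩ : wpc_L g hbr), y'⁆, lie_mem_right K (wpc_L g hbr) I _ _ hy', rfl⟩
  have hab : ∀ x ∈ a, ∀ y ∈ a, x * y = y * x := by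
    intro x hx y hy
    obtain ⟨x', hx', rfl⟩ := hmem x hx
    obtain ⟨y', hy', rfl⟩ := hmem y hy
    have h1 : ⁅(⟨x', hx'⟩ : I), (⟨y', hy'⟩ : I)⁆ = 0 := trivial_lie_zero _ _ _ _
    have h2 : ⁅x', y'⁆ = 0 := congrArg Subtype.val h1
    have h3 : (x' : Module.End K V) * y' - (y' : Module.End K V) * x' = 0 :=
      congrArg Subtype.val h2
    exact sub_eq_zero.1 h3
  have hcen := abelian_ideal_central g a hbr hag hid hab hss
  rw [LieSubmodule.eq_bot_iff]
  intro m hm
  have hma : (m : Module.End K V) ∈ a := ⟨m, hm, rfl⟩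
  have h0 : (m : Module.End K V) = 0 :=
    hc _ (hag hma) (fun y hy => (hcen y hy _ hma).symm)
  exact Subtype.ext h0

theorem wpc_main {K V : Type} [Field K] [CharZero K] [AddCommGroup V] [Module K V]
    [FiniteDimensional K V] (g : Submodule K (Module.End K V)) (hbr : Brk g)
    (hss : ∀ W : Submodule K V, (∀ x ∈ g, ∀ w ∈ W, x w ∈ W) →
      ∃ W' : Submodule K V, (∀ x ∈ g, ∀ w ∈ W', x w ∈ W') ∧ IsCompl W W')
    (hc : ∀ x ∈ g, (∀ y ∈ g, x * y = y * x) → x = 0) : WProp g := by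
  have htr := wpc_killing g hbr hss hc
  have hfd : FiniteDimensional K (wpc_L g hbr) :=
    FiniteDimensional.finiteDimensional_submodule (wpc_L g hbr).toSubmodule
  intro X _ _ _ τ D hτ hD
  let f : wpc_L g hbr →ₗ⁅K⁆ Module.End K X :=
    { τ.comp (wpc_L g hbr).toSubmodule.subtype with
      map_lie' := fun {x y} => hτ x.1 x.2 y.1 y.2 }
  letI : LieRingModule (wpc_L g hbr) X := LieRingModule.compLieHom X f
  letI : LieModule K (wpc_L g hbr) X := LieModule.compLieHom X f
  obtain ⟨v, hv⟩ := whitehead_one (K := K) (L := wpc_L g hbr) X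
    (D.comp (wpc_L g hbr).toSubmodule.subtype)
    (fun (x y : wpc_L g hbr) => hD x.1 x.2 y.1 y.2)
  exact ⟨v, fun x hx => hv ⟨x, hx⟩⟩

end wpc

theorem wprop_of_semisimple {K V : Type} [Field K] [CharZero K] [AddCommGroup V] [Module K V]
    [FiniteDimensional K V] (g : Submodule K (Module.End K V)) (hbr : Brk g)
    (hss : ∀ W : Submodule K V, (∀ x ∈ g, ∀ w ∈ W, x w ∈ W) →
      ∃ W' : Submodule K V, (∀ x ∈ g, ∀ w ∈ W', x w ∈ W') ∧ IsCompl W W')
    (hc : ∀ x ∈ g, (∀ y ∈ g, x * y = y * x) → x = 0) : WProp g := by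
  exact wpc_main g hbr hss hc


end

end Pool.Agent.Helper156.RWF.J12513
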