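import Pool.Agent.Helper156.RWF.D0
import Pool.Agent.Helper156.RWF.J12439
import Pool.Agent.Helper156.RWF.J12441
import Pool.Agent.Helper156.RWF.J12442
import Pool.Agent.Helper156.RWF.J12455

namespace Pool.Agent.Helper156.RWF.J12831

open Pool.Agent.Helper156.RWF Pool.Agent.Helper156.RWF.J12439 Pool.Agent.Helper156.RWF.J12441 Pool.Agent.Helper156.RWF.J12442 Pool.Agent.Helper156.RWF.J12455
open Filter Topology


section
variable {p : ℕ} [Fact p.Prime]
variable {A : Type} [NormedRing A] [NormedAlgebra ℚ_[p] A] [IsUltrametricDist A] [NormOneClass A]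
  [FiniteDimensional ℚ_[p] A]


theorem clm_ultrametric (X : Type) [NormedAddCommGroup X] [NormedSpace ℚ_[p] X]
    [IsUltrametricDist X] : IsUltrametricDist (X →L[ℚ_[p]] X) := by
  apply IsUltrametricDist.isUltrametricDist_of_forall_norm_add_le_max_norm
  intro f g
  refine ContinuousLinearMap.opNorm_le_bound _ (le_max_of_le_left (norm_nonneg _)) ?_
  intro x
  have h := IsUltrametricDist.norm_add_le_max (f x) (g x)
  rw [ContinuousLinearMap.add_apply]
  refine h.trans (max_le ?_ ?_)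
  · exact (f.le_opNorm x).trans
      (mul_le_mul_of_nonneg_right (le_max_left _ _) (norm_nonneg x))
  · exact (g.le_opNorm x).trans
      (mul_le_mul_of_nonneg_right (le_max_right _ _) (norm_nonneg x))

theorem prod_ultrametric (A B : Type) [NormedRing A] [NormedRing B] [IsUltrametricDist A]
    [IsUltrametricDist B] : IsUltrametricDist (A × B) := by
  apply IsUltrametricDist.isUltrametricDist_of_forall_norm_add_le_max_norm
  intro x y
  have h1 := IsUltrametricDist.norm_add_le_max x.1 y.1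
  have h2 := IsUltrametricDist.norm_add_le_max x.2 y.2
  rw [Prod.norm_def, Prod.norm_def, Prod.norm_def]
  simp only [Prod.fst_add, Prod.snd_add]
  refine max_le (h1.trans ?_) (h2.trans ?_)
  · exact max_le_max (le_max_left _ _) (le_max_left _ _)
  · exact max_le_max (le_max_right _ _) (le_max_right _ _)

/-- Lie algebra of a compact subgroup, without a norm bound -/
theorem exists_lie' (G : Set A) (h1 : (1 : A) ∈ G) (hmul : ∀ a ∈ G, ∀ b ∈ G, a * b ∈ G)
    (hinv : ∀ a ∈ G, ∃ b ∈ G, a * b = 1 ∧ b * a = 1) (hcpt : IsCompact G) :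
    ∃ (g : Submodule ℚ_[p] A) (k : ℕ), IsLieOf p G g k ∧ Brk g := by
  classical
  set G₁ : Set A := {a | a ∈ G ∧ ‖a‖ ≤ 1 ∧ ∃ b ∈ G, a * b = 1 ∧ b * a = 1 ∧ ‖b‖ ≤ 1} with hG₁
  have hnm : ∀ a b : A, ‖a‖ ≤ 1 → ‖b‖ ≤ 1 → ‖a * b‖ ≤ 1 := fun a b ha hb =>
    (norm_mul_le a b).trans (mul_le_one₀ ha (norm_nonneg b) hb)
  have hcg : IsCptGrp G₁ := by
    refine ⟨⟨h1, by simp, 1, h1, by simp, by simp, by simp⟩, ?_, ?_, ?_, fun a ha => ha.2.1⟩
    · rintro a ⟨ha, hna, a', ha', e1, e2, hna'⟩ b ⟨hb, hnb, b', hb', e3, e4, hnb'⟩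
      refine ⟨hmul a ha b hb, hnm a b hna hnb, b' * a', hmul b' hb' a' ha', ?_, ?_,
        hnm b' a' hnb' hna'⟩
      · calc a * b * (b' * a') = a * (b * b') * a' := by noncomm_ring
          _ = 1 := by rw [e3, mul_one, e1]
      · calc b' * a' * (a * b) = b' * (a' * a) * b := by noncomm_ring
          _ = 1 := by rw [e2, mul_one, e4]
    · rintro a ⟨ha, hna, a', ha', e1, e2, hna'⟩
      exact ⟨a', ⟨ha', hna', a, ha, e2, e1, hna⟩, e1, e2⟩
    · have hK : IsCompact ((G ×ˢ G) ∩ {q : A × A | q.1 * q.2 = 1 ∧ q.2 * q.1 = 1 ∧ ‖q.1‖ ≤ 1 ∧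
          ‖q.2‖ ≤ 1}) := by
        refine (hcpt.prod hcpt).inter_right ?_
        simp only [Set.setOf_and]
        refine ((isClosed_eq ?_ ?_).inter ((isClosed_eq ?_ ?_).inter
          ((isClosed_le ?_ ?_).inter (isClosed_le ?_ ?_)))) <;> fun_prop
      have him : G₁ = Prod.fst '' ((G ×ˢ G) ∩ {q : A × A | q.1 * q.2 = 1 ∧ q.2 * q.1 = 1 ∧
          ‖q.1‖ ≤ 1 ∧ ‖q.2‖ ≤ 1}) := by
        ext a
        constructor
        · rintro ⟨ha, hna, b, hb, e1, e2, hnb⟩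
          exact ⟨(a, b), ⟨⟨ha, hb⟩, e1, e2, hna, hnb⟩, rfl⟩
        · rintro ⟨⟨a', b⟩, ⟨⟨ha, hb⟩, e1, e2, hna, hnb⟩, rfl⟩
          exact ⟨ha, hna, b, hb, e1, e2, hnb⟩
      rw [him]
      exact hK.image continuous_fst
  obtain ⟨g, k, ⟨hk, hg⟩, hB⟩ := exists_lie (p := p) G₁ hcg
  refine ⟨g, k, ⟨hk, ?_⟩, hB⟩
  intro x hx
  rw [← hg x hx]
  have hp1 : (0 : ℝ) ≤ (p : ℝ)⁻¹ := by positivity
  have hp2 : (p : ℝ)⁻¹ ≤ 1 := by
    have : (1 : ℝ) ≤ p := by exact_mod_cast (Fact.out : p.Prime).one_lt.le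
    exact inv_le_one_of_one_le₀ this
  have hx2 : ‖x‖ ≤ ((p : ℝ)⁻¹) ^ 2 := hx.trans (pow_le_pow_of_le_one hp1 hp2 hk)
  have hE1 : ∀ y : A, ‖y‖ ≤ ((p : ℝ)⁻¹) ^ 2 → ‖E p y‖ ≤ 1 := by
    intro y hy
    have h2 := E_isom (p := p) y 0 hy (by rw [norm_zero]; positivity)
    rw [E_zero, sub_zero] at h2
    have h3 : E p y = 1 + (E p y - 1) := by abel
    rw [h3]
    refine (IsUltrametricDist.norm_add_le_max _ _).trans (max_le (by simp) ?_)
    rw [h2]
    exact hy.trans (pow_le_one₀ hp1 hp2)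
  constructor
  · intro hEx
    refine ⟨hEx, hE1 x hx2, ?_⟩
    obtain ⟨b, hb, e1, e2⟩ := hinv _ hEx
    refine ⟨b, hb, e1, e2, ?_⟩
    have e3 := E_neg (p := p) x hx2
    have e4 : b = E p (-x) := by
      calc b = b * (E p x * E p (-x)) := by rw [e3, mul_one]
        _ = E p (-x) := by rw [← mul_assoc, e2, one_mul]
    rw [e4]
    exact hE1 (-x) (by rwa [norm_neg])
  · intro h
    exact h.1

end

end Pool.Agent.Helper156.RWF.J12831
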