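import Pool.Agent.Helper156.RWF.D0
import Pool.Agent.Helper156.RWF.J12439
import Pool.Agent.Helper156.RWF.J12441
import Pool.Agent.Helper156.RWF.J12442
import Pool.Agent.Helper156.RWF.J12831
import Pool.Agent.Helper156.RWF.J12834

namespace Pool.Agent.Helper156.RWF.J12830

open Pool.Agent.Helper156.RWF Pool.Agent.Helper156.RWF.J12439 Pool.Agent.Helper156.RWF.J12441 Pool.Agent.Helper156.RWF.J12442 Pool.Agent.Helper156.RWF.J12831 Pool.Agent.Helper156.RWF.J12834
open Filter Topology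


section
variable {p : ℕ} [Fact p.Prime]
variable {A : Type} [NormedRing A] [NormedAlgebra ℚ_[p] A] [IsUltrametricDist A] [NormOneClass A]
  [FiniteDimensional ℚ_[p] A]
variable {B : Type} [NormedRing B] [NormedAlgebra ℚ_[p] B] [IsUltrametricDist B] [NormOneClass B]
  [FiniteDimensional ℚ_[p] B]


omit [IsUltrametricDist A] [NormOneClass A] [FiniteDimensional ℚ_[p] A] in
/-- a complement with a projection -/
theorem H1_vanish_proj (S T : Submodule ℚ_[p] A) (hTS : T ≤ S) :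
    ∃ (C : Submodule ℚ_[p] A) (P : A →ₗ[ℚ_[p]] C), C ≤ S ∧ (∀ v : C, P (v : A) = v) ∧
      (∀ v ∈ T, P v = 0) ∧ ∀ w ∈ S, w - (P w : A) ∈ T := by
  obtain ⟨C0, hC0⟩ := T.exists_isCompl
  have hm : ∀ x, x - C0.projection T hC0.symm x ∈ T := by
    intro x
    rw [← Submodule.projection_eq_self_sub_projection hC0.symm x]
    exact Submodule.projection_apply_mem _ _
  have hCS : ∀ w : S, C0.projection T hC0.symm (w : A) ∈ C0 ⊓ S := by
    intro w
    refine ⟨Submodule.projection_apply_mem _ _, ?_⟩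
    have h1 := S.sub_mem w.2 (hTS (hm (w : A)))
    simpa using h1
  obtain ⟨P0, hP0⟩ : ∃ P0 : S →ₗ[ℚ_[p]] (C0 ⊓ S : Submodule ℚ_[p] A),
      ∀ w : S, (P0 w : A) = C0.projection T hC0.symm (w : A) :=
    ⟨((C0.projection T hC0.symm).comp S.subtype).codRestrict (C0 ⊓ S) hCS, fun w => rfl⟩
  obtain ⟨P, hP⟩ := LinearMap.exists_extend P0
  have hP' : ∀ w ∈ S, (P w : A) = C0.projection T hC0.symm w := by
    intro w hw
    have h1 := LinearMap.congr_fun hP ⟨w, hw⟩
    have h2 : P w = P0 ⟨w, hw⟩ := h1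
    rw [h2, hP0]
  refine ⟨C0 ⊓ S, P, inf_le_right, ?_, ?_, ?_⟩
  · intro v
    apply Subtype.ext
    rw [hP' _ v.2.2]
    exact Submodule.projection_apply_of_mem_left _ v.2.1
  · intro v hv
    apply Subtype.ext
    rw [hP' _ (hTS hv)]
    exact Submodule.projection_apply_of_mem_right _ hv
  · intro w hw
    rw [hP' _ hw]
    exact hm w

/-- vanishing of cohomology for subquotients of the adjoint representation -/
theorem H1_vanish {F : Type} [Group F] [TopologicalSpace F] [IsTopologicalGroup F]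
    [CompactSpace F] (ρ : F →* A) (hρ : Continuous ρ) (g : Submodule ℚ_[p] A) (k : ℕ)
    (hL : IsLieOf p (Set.range ρ) g k) (hW : WProp g)
    (S T : Submodule ℚ_[p] A) (hTS : T ≤ S)
    (hS : ∀ f, ∀ x ∈ S, ρ f * x * ρ f⁻¹ ∈ S) (hT : ∀ f, ∀ x ∈ T, ρ f * x * ρ f⁻¹ ∈ T)
    (c : F → A) (hc : Continuous c) (hcS : ∀ f, c f ∈ S)
    (hcoc : ∀ f h, c (f * h) - c f - ρ f * c h * ρ f⁻¹ ∈ T)
    (hker : ∀ f, ρ f = 1 → c f ∈ T) :
    ∃ e ∈ S, ∀ f, c f - (ρ f * e * ρ f⁻¹ - e) ∈ T := by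
  obtain ⟨C, P, hCS, hP1, hP2, hP3⟩ := H1_vanish_proj S T hTS
  haveI : IsUltrametricDist C := IsUltrametricDist.subtype _
  obtain ⟨PL, hPL⟩ : ∃ PL : A →L[ℚ_[p]] C, ∀ x, PL x = P x :=
    ⟨P.toContinuousLinearMap, fun _ => rfl⟩
  obtain ⟨σ0, hσ0⟩ : ∃ σ0 : F → (C →L[ℚ_[p]] C), σ0 = fun f =>
      PL.comp ((((ContinuousLinearMap.mul ℚ_[p] A) (ρ f)).comp
        ((ContinuousLinearMap.mul ℚ_[p] A).flip (ρ f⁻¹))).comp C.subtypeL) := ⟨_, rfl⟩
  have hσ0' : ∀ f (v : C), σ0 f v = P (ρ f * (v : A) * ρ f⁻¹) := by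
    intro f v
    rw [hσ0, mul_assoc]
    show PL (ρ f * ((v : A) * ρ f⁻¹)) = _
    rw [hPL]
  have hPsub : ∀ f, ∀ w ∈ S, P (ρ f * (P w : A) * ρ f⁻¹) = P (ρ f * w * ρ f⁻¹) := by
    intro f w hw
    have h1 := hP2 _ (hT f _ (hP3 w hw))
    have h2 : ρ f * (w - (P w : A)) * ρ f⁻¹ = ρ f * w * ρ f⁻¹ - ρ f * (P w : A) * ρ f⁻¹ := by
      noncomm_ring
    rw [h2, map_sub, sub_eq_zero] at h1
    exact h1.symm
  have hcont : Continuous σ0 := by
    rw [hσ0]
    have h1 : Continuous fun f => (ContinuousLinearMap.mul ℚ_[p] A) (ρ f) :=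
      (ContinuousLinearMap.mul ℚ_[p] A).continuous.comp hρ
    have h2 : Continuous fun f => (ContinuousLinearMap.mul ℚ_[p] A).flip (ρ f⁻¹) :=
      (ContinuousLinearMap.mul ℚ_[p] A).flip.continuous.comp (hρ.comp continuous_inv)
    exact continuous_const.clm_comp ((h1.clm_comp h2).clm_comp continuous_const)
  have hone : σ0 1 = 1 := by
    ext1 v
    rw [hσ0', inv_one, map_one, one_mul, mul_one, hP1]
    rfl
  have hmul : ∀ f h, σ0 (f * h) = σ0 f * σ0 h := by
    intro f h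
    ext1 v
    show σ0 (f * h) v = σ0 f (σ0 h v)
    rw [hσ0', hσ0', hσ0', hPsub f _ (hS h _ (hCS v.2))]
    congr 1
    rw [mul_inv_rev, map_mul, map_mul]
    simp only [mul_assoc]
  obtain ⟨v, hv⟩ := H1_abs ρ hρ g k hL hW (X := C)
    { toFun := σ0, map_one' := hone, map_mul' := hmul } hcont
    (fun f => P (c f)) (by
      have : (fun f => P (c f)) = fun f => PL (c f) := by funext f; rw [hPL]
      rw [this]
      exact PL.continuous.comp hc)
    (by
      intro f h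
      show P (c (f * h)) = P (c f) + σ0 f (P (c h))
      rw [hσ0', hPsub f _ (hcS h)]
      have h1 := hP2 _ (hcoc f h)
      rw [map_sub, map_sub, sub_sub, sub_eq_zero] at h1
      exact h1)
    (by
      intro f hf
      have hf' : ρ f⁻¹ = 1 := by
        have : ρ f * ρ f⁻¹ = 1 := by rw [← map_mul, mul_inv_cancel, map_one]
        rwa [hf, one_mul] at this
      refine ⟨?_, hP2 _ (hker f hf)⟩
      show σ0 f = 1
      ext1 v
      rw [hσ0', hf, hf', one_mul, mul_one, hP1]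
      rfl)
  refine ⟨v, hCS v.2, fun f => ?_⟩
  have hz : c f - (ρ f * (v : A) * ρ f⁻¹ - v) ∈ S :=
    S.sub_mem (hcS f) (S.sub_mem (hS f _ (hCS v.2)) (hCS v.2))
  have h1 := hP3 _ hz
  have h2 : P (c f - (ρ f * (v : A) * ρ f⁻¹ - v)) = 0 := by
    have h3 : P (c f) = σ0 f v - v := hv f
    rw [map_sub, map_sub, h3, hσ0', hP1, sub_self]
  rw [h2] at h1
  simpa using h1

end

end Pool.Agent.Helper156.RWF.J12830
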