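import Pool.Agent.Helper156.RWF.D0

namespace Pool.Agent.Helper156.RWF.J13188

open Pool.Agent.Helper156.RWF
open Filter Topology


section
variable {p : ℕ} [Fact p.Prime]
variable {A : Type} [NormedRing A] [NormedAlgebra ℚ_[p] A] [IsUltrametricDist A] [NormOneClass A]
  [FiniteDimensional ℚ_[p] A]

theorem finite_code (j : ℕ) : ∃ (n : ℕ) (code : Set A → Finset (Fin n)),
    ∀ S S' : Set A, (∀ x ∈ S, ‖x‖ ≤ 1) → (∀ x ∈ S', ‖x‖ ≤ 1) → code S = code S' →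
      Close p j S S' := by
  classical
  haveI : ProperSpace A := FiniteDimensional.proper ℚ_[p] A
  have hp : (0 : ℝ) < ((p : ℝ)⁻¹) ^ j := by
    have : (0 : ℝ) < p := by exact_mod_cast (Fact.out : p.Prime).pos
    positivity
  have htb : TotallyBounded (Metric.closedBall (0 : A) 1) :=
    (isCompact_closedBall (0 : A) 1).totallyBounded
  obtain ⟨t, htf, ht⟩ := Metric.totallyBounded_iff.1 htb _ hp
  obtain ⟨n, y, _, hy⟩ := htf.fin_param
  refine ⟨n, fun S => Finset.univ.filter (fun i => ∃ x ∈ S, ‖x - y i‖ ≤ ((p : ℝ)⁻¹) ^ j), ?_⟩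
  have key : ∀ S S' : Set A, (∀ x ∈ S, ‖x‖ ≤ 1) →
      (Finset.univ.filter (fun i => ∃ x ∈ S, ‖x - y i‖ ≤ ((p : ℝ)⁻¹) ^ j)) =
        (Finset.univ.filter (fun i => ∃ x ∈ S', ‖x - y i‖ ≤ ((p : ℝ)⁻¹) ^ j)) →
      ∀ x ∈ S, ∃ x' ∈ S', ‖x - x'‖ ≤ ((p : ℝ)⁻¹) ^ j := by
    intro S S' hS hcode x hx
    have h1 : x ∈ Metric.closedBall (0 : A) 1 := by
      rw [mem_closedBall_zero_iff]; exact hS x hx
    have h2 := ht h1
    simp only [Set.mem_iUnion] at h2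
    obtain ⟨z, hz, hxz⟩ := h2
    rw [← hy] at hz
    obtain ⟨i, rfl⟩ := hz
    rw [Metric.mem_ball, dist_eq_norm] at hxz
    have h3 : i ∈ Finset.univ.filter (fun i => ∃ x ∈ S, ‖x - y i‖ ≤ ((p : ℝ)⁻¹) ^ j) := by
      rw [Finset.mem_filter]
      exact ⟨Finset.mem_univ _, x, hx, hxz.le⟩
    rw [hcode, Finset.mem_filter] at h3
    obtain ⟨_, x', hx', hx'y⟩ := h3
    refine ⟨x', hx', ?_⟩
    have h4 : x - x' = (x - y i) + (y i - x') := by abel
    rw [h4]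
    refine (IsUltrametricDist.norm_add_le_max _ _).trans (max_le hxz.le ?_)
    rw [norm_sub_rev]
    exact hx'y
  intro S S' hS hS' hcode
  refine ⟨key S S' hS hcode, fun x' hx' => ?_⟩
  obtain ⟨x, hx, hxx⟩ := key S' S hS' hcode.symm x' hx'
  exact ⟨x, hx, by rw [norm_sub_rev]; exact hxx⟩

end

end Pool.Agent.Helper156.RWF.J13188
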