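import Pool.Agent.Helper156.RWF.D0
import Pool.Agent.Helper156.RWF.J13187

namespace Pool.Agent.Helper156.RWF.J13191

open Pool.Agent.Helper156.RWF Pool.Agent.Helper156.RWF.J13187
open Filter Topology


section
variable {p : ℕ} [Fact p.Prime]
variable {A : Type} [NormedRing A] [NormedAlgebra ℚ_[p] A] [IsUltrametricDist A] [NormOneClass A]
  [FiniteDimensional ℚ_[p] A]


omit [IsUltrametricDist A] [NormOneClass A] [FiniteDimensional ℚ_[p] A] in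
theorem cd_rescale {E : Type*} [NormedAddCommGroup E] [NormedSpace ℚ_[p] E] (x : E) (hx : x ≠ 0) :
    ∃ d : ℚ_[p], d ≠ 0 ∧ ‖d • x‖ ≤ 1 ∧ 1 ≤ (p : ℝ) * ‖d • x‖ := by
  have hp : 1 < (p : ℝ) := by exact_mod_cast (Fact.out : p.Prime).one_lt
  have hc : ‖((p : ℚ_[p])⁻¹)‖ = p := by
    rw [norm_inv, Padic.norm_p, inv_inv]
  obtain ⟨d, hd, h1, h2, -⟩ := rescale_to_shell (c := (p : ℚ_[p])⁻¹) (by rw [hc]; exact hp)
    one_pos hx
  refine ⟨d, hd, h1.le, ?_⟩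
  rw [hc, div_le_iff₀ (by linarith)] at h2
  linarith

theorem close_defect (g : Submodule ℚ_[p] A) (P : A →ₗ[ℚ_[p]] A) (hP : ∀ x, P x = 0 ↔ x ∈ g)
    (hPP : ∀ x, P (P x) = P x) (ε : ℝ) (hε : 0 < ε) :
    ∃ j : ℕ, ∀ g' : Submodule ℚ_[p] A, Close p j (ballOf p g) (ballOf p g') →
      Module.finrank ℚ_[p] g' = Module.finrank ℚ_[p] g ∧ ∀ x ∈ g', ‖P x‖ ≤ ε * ‖x‖ := by
  have hp : 1 < (p : ℝ) := by exact_mod_cast (Fact.out : p.Prime).one_lt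
  obtain ⟨K, hK0, hK⟩ : ∃ K : ℝ, 0 ≤ K ∧ ∀ x, ‖P x‖ ≤ K * ‖x‖ :=
    ⟨‖LinearMap.toContinuousLinearMap P‖, norm_nonneg _, fun x =>
      (LinearMap.toContinuousLinearMap P).le_opNorm x⟩
  have hq1 : ((p : ℝ)⁻¹) < 1 := inv_lt_one_of_one_lt₀ hp
  have hcp : 0 < (1 + K) * p := by positivity
  obtain ⟨j, hj⟩ := exists_pow_lt_of_lt_one
    (show 0 < min ε (1 / 2) / ((1 + K) * p) by positivity) hq1
  have hq0 : 0 ≤ ((p : ℝ)⁻¹) ^ j := by positivity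
  rw [lt_div_iff₀ hcp] at hj
  have hj1 : ((p : ℝ)⁻¹) ^ j * ((1 + K) * p) < ε := hj.trans_le (min_le_left _ _)
  have hj2 : ((p : ℝ)⁻¹) ^ j * ((1 + K) * p) < 1 / 2 := hj.trans_le (min_le_right _ _)
  refine ⟨j, fun g' hcl => ?_⟩
  have hdef : ∀ x ∈ g', ‖P x‖ ≤ (((p : ℝ)⁻¹) ^ j * ((1 + K) * p)) * ‖x‖ := by
    intro x hx
    by_cases hx0 : x = 0
    · rw [hx0, map_zero, norm_zero, mul_zero]
    obtain ⟨d, hd, h1, h2⟩ := cd_rescale (p := p) x hx0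
    obtain ⟨y, hy, hyx⟩ := hcl.2 (d • x) ⟨g'.smul_mem d hx, h1⟩
    have h3 : P (d • x) = P (d • x - y) := by
      rw [map_sub, (hP y).2 hy.1, sub_zero]
    have h4 : ‖P (d • x)‖ ≤ K * ((p : ℝ)⁻¹) ^ j := by
      rw [h3]
      refine (hK _).trans (mul_le_mul_of_nonneg_left ?_ hK0)
      rw [norm_sub_rev]
      exact hyx
    have h5 : K * ((p : ℝ)⁻¹) ^ j ≤ (((p : ℝ)⁻¹) ^ j * ((1 + K) * p)) * ‖d • x‖ := by
      calc K * ((p : ℝ)⁻¹) ^ j ≤ (1 + K) * ((p : ℝ)⁻¹) ^ j * 1 := by nlinarith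
        _ ≤ (1 + K) * ((p : ℝ)⁻¹) ^ j * (p * ‖d • x‖) :=
          mul_le_mul_of_nonneg_left h2 (by positivity)
        _ = _ := by ring
    have h6 := h4.trans h5
    rw [map_smul, norm_smul, norm_smul] at h6
    have hdn : 0 < ‖d‖ := norm_pos_iff.2 hd
    have h7 : ‖d‖ * ‖P x‖ ≤ ‖d‖ * ((((p : ℝ)⁻¹) ^ j * ((1 + K) * p)) * ‖x‖) := by
      calc ‖d‖ * ‖P x‖ ≤ _ := h6
        _ = _ := by ring
    exact le_of_mul_le_mul_left h7 hdn
  -- the projection of `g'` to `g`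
  have hmem : ∀ x : A, x - P x ∈ g := by
    intro x
    rw [← hP, map_sub, hPP, sub_self]
  obtain ⟨φ, hφ⟩ : ∃ φ : g' →ₗ[ℚ_[p]] g, ∀ x, ((φ x : g) : A) = x - P x := by
    refine ⟨LinearMap.codRestrict g ((LinearMap.id - P).comp g'.subtype) fun x => hmem x, ?_⟩
    intro x
    rfl
  have hinj : Function.Injective φ := by
    rw [injective_iff_map_eq_zero]
    intro x hx
    have h1 : (x : A) - P x = 0 := by rw [← hφ, hx]; rfl
    have h2 : (x : A) = P x := sub_eq_zero.1 h1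
    have h3 := hdef x x.2
    rw [← h2] at h3
    have h4 : ‖(x : A)‖ = 0 := by
      have h5 : 0 ≤ ‖(x : A)‖ := norm_nonneg _
      nlinarith
    exact Subtype.ext (norm_eq_zero.1 h4)
  have hsurj : Function.Surjective φ := by
    rw [← LinearMap.range_eq_top]
    by_contra hne
    have hex : ∃ x : g, x ∉ LinearMap.range φ := by
      by_contra hcon
      push Not at hcon
      exact hne (eq_top_iff.2 fun x _ => hcon x)
    have hclosed : IsClosed ((LinearMap.range φ : Submodule ℚ_[p] g) : Set g) :=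
      Submodule.closed_of_finiteDimensional _
    obtain ⟨x₀, hx0, hx1⟩ := riesz_lemma hclosed hex (r := 1 / 2) (by norm_num)
    have hx00 : x₀ ≠ 0 := by
      rintro rfl
      exact hx0 (Submodule.zero_mem _)
    obtain ⟨d, hd, h1, h2⟩ := cd_rescale (p := p) x₀ hx00
    have hdn : 0 < ‖d‖ := norm_pos_iff.2 hd
    obtain ⟨v', hv', hvv⟩ := hcl.1 (d • (x₀ : A)) ⟨g.smul_mem d x₀.2, by
      simpa using h1⟩
    have hvg : v' ∈ g' := hv'.1
    have h3 : 1 / 2 * ‖d • x₀‖ ≤ ‖d • x₀ - φ ⟨v', hvg⟩‖ := by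
      have h4 := hx1 (d⁻¹ • φ ⟨v', hvg⟩) (Submodule.smul_mem _ _ (LinearMap.mem_range_self _ _))
      have h5 : d • x₀ - φ ⟨v', hvg⟩ = d • (x₀ - d⁻¹ • φ ⟨v', hvg⟩) := by
        rw [smul_sub, smul_smul, mul_inv_cancel₀ hd, one_smul]
      rw [h5, norm_smul, norm_smul]
      nlinarith
    have h6 : ‖d • x₀ - φ ⟨v', hvg⟩‖ ≤ (1 + K) * ((p : ℝ)⁻¹) ^ j := by
      have h7 : ‖d • x₀ - φ ⟨v', hvg⟩‖ = ‖(d • (x₀ : A) - v') - P (d • (x₀ : A) - v')‖ := by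
        show ‖((d • x₀ - φ ⟨v', hvg⟩ : g) : A)‖ = _
        rw [Submodule.coe_sub, hφ, Submodule.coe_smul, map_sub,
          (hP (d • (x₀ : A))).2 (g.smul_mem d x₀.2)]
        congr 1
        simp only
        abel
      rw [h7]
      calc ‖(d • (x₀ : A) - v') - P (d • (x₀ : A) - v')‖ ≤
          ‖d • (x₀ : A) - v'‖ + ‖P (d • (x₀ : A) - v')‖ := norm_sub_le _ _
        _ ≤ ‖d • (x₀ : A) - v'‖ + K * ‖d • (x₀ : A) - v'‖ := by
          have := hK (d • (x₀ : A) - v')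
          linarith
        _ = (1 + K) * ‖d • (x₀ : A) - v'‖ := by ring
        _ ≤ _ := mul_le_mul_of_nonneg_left hvv (by positivity)
    have h8 : 1 / 2 ≤ ((p : ℝ)⁻¹) ^ j * ((1 + K) * p) := by
      have h9 : 1 / 2 * ‖d • x₀‖ ≤ (1 + K) * ((p : ℝ)⁻¹) ^ j := h3.trans h6
      nlinarith
    linarith
  refine ⟨LinearEquiv.finrank_eq (LinearEquiv.ofBijective φ ⟨hinj, hsurj⟩), fun x hx => ?_⟩
  exact (hdef x hx).trans (mul_le_mul_of_nonneg_right hj1.le (norm_nonneg _))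

end

end Pool.Agent.Helper156.RWF.J13191
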