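import Pool.Agent.Helper156.RWF.D0
import Pool.Agent.Helper156.RWF.J13191
import Pool.Agent.Helper156.RWF.J13193

namespace Pool.Agent.Helper156.RWF.J13189

open Pool.Agent.Helper156.RWF Pool.Agent.Helper156.RWF.J13191 Pool.Agent.Helper156.RWF.J13193
open Filter Topology


section
variable {p : ℕ} [Fact p.Prime]
variable {A : Type} [NormedRing A] [NormedAlgebra ℚ_[p] A] [IsUltrametricDist A] [NormOneClass A]
  [FiniteDimensional ℚ_[p] A]


/-- near-identity inverses -/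
theorem rs_inv (u v : A) (huv : u * v = 1) (hu : ‖u - 1‖ ≤ (p : ℝ)⁻¹) :
    ‖v - 1‖ ≤ (p : ℝ)⁻¹ := by
  have hp : (1 : ℝ) < p := by exact_mod_cast (Fact.out : p.Prime).one_lt
  have hr1 : (p : ℝ)⁻¹ < 1 := inv_lt_one_of_one_lt₀ hp
  have hr0 : (0 : ℝ) < (p : ℝ)⁻¹ := by positivity
  have h1 : v - 1 = -((u - 1) * v) := by rw [sub_mul, huv, one_mul]; abel
  have h2 : ‖v - 1‖ ≤ (p : ℝ)⁻¹ * ‖v‖ := by
    rw [h1, norm_neg]
    exact (norm_mul_le _ _).trans (mul_le_mul_of_nonneg_right hu (norm_nonneg _))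
  have h3 : ‖v‖ ≤ max ‖v - 1‖ ‖(1 : A)‖ := by
    have := IsUltrametricDist.norm_add_le_max (v - 1) (1 : A)
    rwa [sub_add_cancel] at this
  rw [norm_one] at h3
  have h4 : ‖v‖ ≤ 1 := by
    rcases le_max_iff.1 h3 with h | h
    · by_contra h5
      push Not at h5
      have := h.trans h2
      nlinarith
    · exact h
  calc ‖v - 1‖ ≤ (p : ℝ)⁻¹ * ‖v‖ := h2
    _ ≤ (p : ℝ)⁻¹ * 1 := mul_le_mul_of_nonneg_left h4 hr0.le
    _ = _ := mul_one _

theorem rs_norm (u : A) (hu : ‖u - 1‖ ≤ (p : ℝ)⁻¹) : ‖u‖ ≤ 1 := by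
  have hp : (1 : ℝ) < p := by exact_mod_cast (Fact.out : p.Prime).one_lt
  have hr1 : (p : ℝ)⁻¹ < 1 := inv_lt_one_of_one_lt₀ hp
  have h3 : ‖u‖ ≤ max ‖u - 1‖ ‖(1 : A)‖ := by
    have := IsUltrametricDist.norm_add_le_max (u - 1) (1 : A)
    rwa [sub_add_cancel] at this
  rw [norm_one] at h3
  exact h3.trans (max_le (hu.trans hr1.le) le_rfl)

theorem rs_mul (a u : A) (ha : ‖a - 1‖ ≤ (p : ℝ)⁻¹) (hu : ‖u - 1‖ ≤ (p : ℝ)⁻¹) :
    ‖a * u - 1‖ ≤ (p : ℝ)⁻¹ := by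
  have h1 : a * u - 1 = (a - 1) * u + (u - 1) := by noncomm_ring
  rw [h1]
  refine (IsUltrametricDist.norm_add_le_max _ _).trans (max_le ?_ hu)
  refine (norm_mul_le _ _).trans ?_
  calc ‖a - 1‖ * ‖u‖ ≤ (p : ℝ)⁻¹ * 1 :=
        mul_le_mul ha (rs_norm u hu) (norm_nonneg _) (by positivity)
    _ = _ := mul_one _

theorem rs_exinv (a : A) (ha : ‖a - 1‖ ≤ (p : ℝ)⁻¹) : ∃ w : A, a * w = 1 ∧ w * a = 1 := by
  have hp : (1 : ℝ) < p := by exact_mod_cast (Fact.out : p.Prime).one_lt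
  have hr1 : (p : ℝ)⁻¹ < 1 := inv_lt_one_of_one_lt₀ hp
  have : CompleteSpace A := FiniteDimensional.complete ℚ_[p] A
  have h1 : ‖1 - a‖ < 1 := by rw [norm_sub_rev]; exact lt_of_le_of_lt ha hr1
  have h2 := isUnit_one_sub_of_norm_lt_one h1
  rw [sub_sub_cancel] at h2
  obtain ⟨b, rfl⟩ := h2
  exact ⟨↑b⁻¹, b.mul_inv, b.inv_mul⟩

/-- conjugation as a linear equivalence -/
def rsConj (u v : A) (huv : u * v = 1) (hvu : v * u = 1) : A ≃ₗ[ℚ_[p]] A where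
  toFun x := u * x * v
  map_add' x y := by noncomm_ring
  map_smul' c x := by simp
  invFun x := v * x * u
  left_inv x := by
    change v * (u * x * v) * u = x
    calc v * (u * x * v) * u = (v * u) * x * (v * u) := by noncomm_ring
      _ = x := by rw [hvu, one_mul, mul_one]
  right_inv x := by
    change u * (v * x * u) * v = x
    calc u * (v * x * u) * v = (u * v) * x * (u * v) := by noncomm_ring
      _ = x := by rw [huv, one_mul, mul_one]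

omit [IsUltrametricDist A] [NormOneClass A] [FiniteDimensional ℚ_[p] A] in
theorem rs_proj (g : Submodule ℚ_[p] A) : ∃ P : A →ₗ[ℚ_[p]] A, (∀ x, P x = 0 ↔ x ∈ g) ∧
    ∀ x, P (P x) = P x := by
  obtain ⟨L, hL⟩ := LinearMap.exists_leftInverse_of_injective g.subtype (by simp)
  have hL1 : ∀ x : g, L x = x := fun x => by
    have := congrArg (fun f => f x) hL
    simpa using this
  refine ⟨LinearMap.id - g.subtype ∘ₗ L, fun x => ?_, fun x => ?_⟩
  · simp only [LinearMap.sub_apply, LinearMap.id_apply, LinearMap.comp_apply,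
      Submodule.subtype_apply, sub_eq_zero]
    constructor
    · intro h; rw [h]; exact (L x).2
    · intro h; rw [hL1 ⟨x, h⟩]
  · simp only [LinearMap.sub_apply, LinearMap.id_apply, LinearMap.comp_apply,
      Submodule.subtype_apply, map_sub, hL1]
    simp

/-- the compact set over which we minimise -/
theorem rs_compact (g' : Submodule ℚ_[p] A) (P : A →ₗ[ℚ_[p]] A) (η : ℝ) :
    IsCompact {q : A × A × ℝ | ‖q.1 - 1‖ ≤ (p : ℝ)⁻¹ ∧ ‖q.2.1 - 1‖ ≤ (p : ℝ)⁻¹ ∧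
      (0 ≤ q.2.2 ∧ q.2.2 ≤ η) ∧ q.1 * q.2.1 = 1 ∧ q.2.1 * q.1 = 1 ∧
      ∀ x ∈ g', ‖P (q.1 * x * q.2.1)‖ ≤ q.2.2 * ‖x‖} := by
  have hproper : ProperSpace A := FiniteDimensional.proper ℚ_[p] A
  have hP : Continuous P := LinearMap.continuous_of_finiteDimensional P
  have hc : IsCompact ((Metric.closedBall (1 : A) (p : ℝ)⁻¹) ×ˢ
      ((Metric.closedBall (1 : A) (p : ℝ)⁻¹) ×ˢ (Set.Icc (0 : ℝ) η))) :=
    (isCompact_closedBall _ _).prod ((isCompact_closedBall _ _).prod isCompact_Icc)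
  refine hc.of_isClosed_subset ?_ ?_
  · refine IsClosed.and (isClosed_le (by fun_prop) (by fun_prop)) ?_
    refine IsClosed.and (isClosed_le (by fun_prop) (by fun_prop)) ?_
    refine IsClosed.and ?_ ?_
    · exact IsClosed.and (isClosed_le (by fun_prop) (by fun_prop))
        (isClosed_le (by fun_prop) (by fun_prop))
    refine IsClosed.and (isClosed_eq (by fun_prop) (by fun_prop)) ?_
    refine IsClosed.and (isClosed_eq (by fun_prop) (by fun_prop)) ?_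
    simp only [Set.setOf_forall]
    refine isClosed_iInter (fun x => isClosed_iInter (fun hx => ?_))
    exact isClosed_le (by fun_prop) (by fun_prop)
  · rintro ⟨u, v, e⟩ ⟨h1, h2, ⟨h3, h4⟩, -⟩
    simp only [Set.mem_prod, Metric.mem_closedBall, dist_eq_norm, Set.mem_Icc]
    exact ⟨h1, h2, h3, h4⟩

/-- nearby Lie subalgebras are conjugate -/
theorem subalg_rigid (g : Submodule ℚ_[p] A) (hbr : Brk g) (hW : WProp g) :
    ∃ j : ℕ, ∀ g' : Submodule ℚ_[p] A, Brk g' → Close p j (ballOf p g) (ballOf p g') →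
      ∃ u v : A, u * v = 1 ∧ v * u = 1 ∧ ‖u‖ ≤ 1 ∧ ‖v‖ ≤ 1 ∧ ∀ x, x ∈ g ↔ u * x * v ∈ g' := by
  classical
  have hp : (1 : ℝ) < p := by exact_mod_cast (Fact.out : p.Prime).one_lt
  have hr1 : (p : ℝ)⁻¹ < 1 := inv_lt_one_of_one_lt₀ hp
  have hr0 : (0 : ℝ) < (p : ℝ)⁻¹ := by positivity
  obtain ⟨P, hP, hPP⟩ := rs_proj g
  obtain ⟨κ, hκ1, hκ⟩ := one_step g hbr hW P hP hPP
  have hκ0 : 0 < κ := by linarith
  obtain ⟨η, hη0, hη⟩ : ∃ η : ℝ, 0 < η ∧ κ * η = (p : ℝ)⁻¹ :=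
    ⟨(p : ℝ)⁻¹ / κ, by positivity, by field_simp⟩
  obtain ⟨j, hj⟩ := close_defect g P hP hPP η hη0
  refine ⟨j, fun g' hbr' hclose => ?_⟩
  obtain ⟨hfr, hdef⟩ := hj g' hclose
  have hcpt := rs_compact (p := p) g' P η
  have hne : Set.Nonempty {q : A × A × ℝ | ‖q.1 - 1‖ ≤ (p : ℝ)⁻¹ ∧ ‖q.2.1 - 1‖ ≤ (p : ℝ)⁻¹ ∧
      (0 ≤ q.2.2 ∧ q.2.2 ≤ η) ∧ q.1 * q.2.1 = 1 ∧ q.2.1 * q.1 = 1 ∧
      ∀ x ∈ g', ‖P (q.1 * x * q.2.1)‖ ≤ q.2.2 * ‖x‖} := by
    refine ⟨(1, 1, η), ?_, ?_, ⟨hη0.le, le_rfl⟩, mul_one _, mul_one _, fun x hx => ?_⟩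
    · simp
    · simp
    · simpa using hdef x hx
  obtain ⟨⟨u0, v0, e0⟩, ⟨hu0, hv0, ⟨he0, heη⟩, huv, hvu, hP0⟩, hmin⟩ :=
    hcpt.exists_isMinOn hne (f := fun q : A × A × ℝ => q.2.2) (by fun_prop)
  simp only at hu0 hv0 he0 heη huv hvu hP0
  obtain ⟨h, hh⟩ : ∃ h : Submodule ℚ_[p] A,
      h = g'.map (rsConj (p := p) u0 v0 huv hvu).toLinearMap := ⟨_, rfl⟩
  have hmem : ∀ x, x ∈ h ↔ v0 * x * u0 ∈ g' := by
    intro x
    rw [hh, Submodule.mem_map]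
    constructor
    · rintro ⟨y, hy, rfl⟩
      change v0 * (u0 * y * v0) * u0 ∈ g'
      rw [show v0 * (u0 * y * v0) * u0 = (v0 * u0) * y * (v0 * u0) by noncomm_ring, hvu,
        one_mul, mul_one]
      exact hy
    · intro hx
      refine ⟨_, hx, ?_⟩
      change u0 * (v0 * x * u0) * v0 = x
      rw [show u0 * (v0 * x * u0) * v0 = (u0 * v0) * x * (u0 * v0) by noncomm_ring, huv,
        one_mul, mul_one]
  have hfrh : Module.finrank ℚ_[p] h = Module.finrank ℚ_[p] g := by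
    rw [hh, ← hfr]
    exact LinearEquiv.finrank_map_eq (rsConj (p := p) u0 v0 huv hvu) g'
  have hbrh : Brk h := by
    intro x hx y hy
    rw [hmem] at hx hy ⊢
    have h1 := hbr' _ hx _ hy
    have h2 : v0 * (x * y - y * x) * u0 =
        v0 * x * u0 * (v0 * y * u0) - v0 * y * u0 * (v0 * x * u0) := by
      have e1 : v0 * x * u0 * (v0 * y * u0) = v0 * x * (u0 * v0) * y * u0 := by noncomm_ring
      have e2 : v0 * y * u0 * (v0 * x * u0) = v0 * y * (u0 * v0) * x * u0 := by noncomm_ring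
      rw [e1, e2, huv]
      noncomm_ring
    rw [h2]
    exact h1
  have hnu := rs_norm (p := p) u0 hu0
  have hnv := rs_norm (p := p) v0 hv0
  have hconjle : ∀ a b x : A, ‖a‖ ≤ 1 → ‖b‖ ≤ 1 → ‖a * x * b‖ ≤ ‖x‖ := by
    intro a b x ha hb
    calc ‖a * x * b‖ ≤ ‖a‖ * ‖x‖ * ‖b‖ :=
          (norm_mul_le _ _).trans (mul_le_mul_of_nonneg_right (norm_mul_le _ _) (norm_nonneg _))
      _ ≤ 1 * ‖x‖ * 1 := by gcongr
      _ = ‖x‖ := by ring
  have hdefh : ∀ x ∈ h, ‖P x‖ ≤ e0 * ‖x‖ := by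
    intro x hx
    have h1 := hP0 _ ((hmem x).1 hx)
    rw [show u0 * (v0 * x * u0) * v0 = (u0 * v0) * x * (u0 * v0) by noncomm_ring, huv,
        one_mul, mul_one] at h1
    exact h1.trans (mul_le_mul_of_nonneg_left (hconjle _ _ _ hnv hnu) he0)
  have he00 : e0 = 0 := by
    by_contra hne0
    have hepos : 0 < e0 := lt_of_le_of_ne he0 (Ne.symm hne0)
    have hκe : κ * e0 ≤ (p : ℝ)⁻¹ := by
      rw [← hη]; exact mul_le_mul_of_nonneg_left heη hκ0.le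
    obtain ⟨t, ht, htt⟩ := hκ h hbrh hfrh e0 he0 (lt_of_le_of_lt hκe hr1) hdefh
    have ht1 : ‖(1 + t) - 1‖ ≤ (p : ℝ)⁻¹ := by
      rw [add_sub_cancel_left]; exact ht.trans hκe
    obtain ⟨w, hw1, hw2⟩ := rs_exinv (p := p) (1 + t) ht1
    have hw3 := rs_inv (p := p) (1 + t) w hw1 ht1
    have h3 := htt w hw1 hw2
    have hlt : κ * e0 ^ 2 < e0 := by
      have : κ * e0 ^ 2 = (κ * e0) * e0 := by ring
      rw [this]
      calc (κ * e0) * e0 ≤ (p : ℝ)⁻¹ * e0 := mul_le_mul_of_nonneg_right hκe he0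
        _ < 1 * e0 := mul_lt_mul_of_pos_right hr1 hepos
        _ = e0 := one_mul _
    have hmem2 : ((1 + t) * u0, v0 * w, κ * e0 ^ 2) ∈
        {q : A × A × ℝ | ‖q.1 - 1‖ ≤ (p : ℝ)⁻¹ ∧ ‖q.2.1 - 1‖ ≤ (p : ℝ)⁻¹ ∧
      (0 ≤ q.2.2 ∧ q.2.2 ≤ η) ∧ q.1 * q.2.1 = 1 ∧ q.2.1 * q.1 = 1 ∧
      ∀ x ∈ g', ‖P (q.1 * x * q.2.1)‖ ≤ q.2.2 * ‖x‖} := by
      refine ⟨rs_mul (p := p) _ _ ht1 hu0, rs_mul (p := p) _ _ hv0 hw3,
        ⟨by positivity, hlt.le.trans heη⟩, ?_, ?_, fun x hx => ?_⟩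
      · change (1 + t) * u0 * (v0 * w) = 1
        rw [show (1 + t) * u0 * (v0 * w) = (1 + t) * (u0 * v0) * w by
          simp only [mul_assoc], huv, mul_one, hw1]
      · change v0 * w * ((1 + t) * u0) = 1
        rw [show v0 * w * ((1 + t) * u0) = v0 * (w * (1 + t)) * u0 by
          simp only [mul_assoc], hw2, mul_one, hvu]
      · change ‖P ((1 + t) * u0 * x * (v0 * w))‖ ≤ κ * e0 ^ 2 * ‖x‖
        have hx2 : u0 * x * v0 ∈ h := by
          rw [hmem, show v0 * (u0 * x * v0) * u0 = (v0 * u0) * x * (v0 * u0) by noncomm_ring,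
            hvu, one_mul, mul_one]
          exact hx
        have h4 := h3 _ hx2
        rw [show (1 + t) * u0 * x * (v0 * w) = (1 + t) * (u0 * x * v0) * w by
          simp only [mul_assoc]]
        exact h4.trans (mul_le_mul_of_nonneg_left (hconjle _ _ _ hnu hnv) (by positivity))
    have := hmin hmem2
    simp only [Set.mem_setOf_eq] at this
    linarith
  have hle : h ≤ g := by
    intro x hx
    rw [← hP]
    have h1 := hdefh x hx
    rw [he00, zero_mul] at h1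
    exact norm_le_zero_iff.1 h1
  have heq : h = g := Submodule.eq_of_le_of_finrank_eq hle hfrh
  refine ⟨v0, u0, hvu, huv, hnv, hnu, fun x => ?_⟩
  rw [← heq, hmem]

end

end Pool.Agent.Helper156.RWF.J13189
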