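import Pool.Agent.Helper156.RWF.D0
import Pool.Agent.Helper156.RWF.J13187

namespace Pool.Agent.Helper156.RWF.J13186

open Pool.Agent.Helper156.RWF Pool.Agent.Helper156.RWF.J13187
open Filter Topology


section
variable {p : ℕ} [Fact p.Prime]
variable {A : Type} [NormedRing A] [NormedAlgebra ℚ_[p] A] [IsUltrametricDist A] [NormOneClass A]
  [FiniteDimensional ℚ_[p] A]


/-- the bracket on `g` -/
noncomputable def brg (g : Submodule ℚ_[p] A) (hbr : Brk g) : g →ₗ[ℚ_[p]] g →ₗ[ℚ_[p]] g :=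
  LinearMap.mk₂ ℚ_[p] (fun x y => (⟨(x : A) * y - y * x, hbr x x.2 y y.2⟩ : g))
    (fun x x' y => Subtype.ext (by simp [add_mul, mul_add]; abel))
    (fun c x y => Subtype.ext (by simp [smul_sub]))
    (fun x y y' => Subtype.ext (by simp [add_mul, mul_add]; abel))
    (fun c x y => Subtype.ext (by simp [smul_sub]))

theorem brg_coe (g : Submodule ℚ_[p] A) (hbr : Brk g) (x y : g) :
    ((brg g hbr x y : g) : A) = (x : A) * y - y * x := rfl

theorem brg_jac (g : Submodule ℚ_[p] A) (hbr : Brk g) (x y z : g) :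
    brg g hbr (brg g hbr x y) z = brg g hbr x (brg g hbr y z) - brg g hbr y (brg g hbr x z) := by
  apply Subtype.ext
  rw [Submodule.coe_sub]
  simp only [brg_coe]
  noncomm_ring

theorem exists_proj (g : Submodule ℚ_[p] A) : ∃ π : A →ₗ[ℚ_[p]] g, ∀ x : g, π (x : A) = x := by
  obtain ⟨π, hπ⟩ := LinearMap.exists_leftInverse_of_injective g.subtype g.ker_subtype
  exact ⟨π, fun x => by simpa using LinearMap.congr_fun hπ x⟩

theorem wprop' (g : Submodule ℚ_[p] A) (hbr : Brk g) (hW : WProp g)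
    (X : Type) [AddCommGroup X] [Module ℚ_[p] X] [FiniteDimensional ℚ_[p] X]
    (τ : g →ₗ[ℚ_[p]] Module.End ℚ_[p] X) (D : g →ₗ[ℚ_[p]] X)
    (h1 : ∀ x y : g, τ (brg g hbr x y) = τ x * τ y - τ y * τ x)
    (h2 : ∀ x y : g, D (brg g hbr x y) = τ x (D y) - τ y (D x)) :
    ∃ v : X, ∀ x : g, D x = τ x v := by
  obtain ⟨π, hπ⟩ := exists_proj g
  obtain ⟨v, hv⟩ := hW X (τ ∘ₗ π) (D ∘ₗ π) (by
    intro x hx y hy
    have e1 := hπ ⟨x, hx⟩
    have e2 := hπ ⟨y, hy⟩
    have e3 := hπ (brg g hbr ⟨x, hx⟩ ⟨y, hy⟩)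
    rw [brg_coe] at e3
    simp only [] at e1 e2 e3
    simp only [LinearMap.comp_apply]
    rw [e1, e2, e3, h1]) (by
    intro x hx y hy
    have e1 := hπ ⟨x, hx⟩
    have e2 := hπ ⟨y, hy⟩
    have e3 := hπ (brg g hbr ⟨x, hx⟩ ⟨y, hy⟩)
    rw [brg_coe] at e3
    simp only [] at e1 e2 e3
    simp only [LinearMap.comp_apply]
    rw [e1, e2, e3, h2])
  refine ⟨v, fun x => ?_⟩
  have := hv x x.2
  simp only [LinearMap.comp_apply, hπ] at this
  exact this

theorem perfect' (g : Submodule ℚ_[p] A) (hbr : Brk g) (hW : WProp g) (l : g →ₗ[ℚ_[p]] ℚ_[p])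
    (h : ∀ x y : g, l (brg g hbr x y) = 0) : l = 0 := by
  obtain ⟨v, hv⟩ := wprop' g hbr hW ℚ_[p] 0 l (by intro x y; simp) (by intro x y; simp [h])
  ext x
  rw [hv x]
  simp

/-- the coadjoint action -/
noncomputable def coad (g : Submodule ℚ_[p] A) (hbr : Brk g) :
    g →ₗ[ℚ_[p]] (Module.Dual ℚ_[p] g →ₗ[ℚ_[p]] Module.Dual ℚ_[p] g) :=
  -(Module.Dual.transpose (R := ℚ_[p]) (M := g) (M' := g) ∘ₗ brg g hbr)

theorem coad_apply (g : Submodule ℚ_[p] A) (hbr : Brk g) (x y : g) (L : Module.Dual ℚ_[p] g) :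
    coad g hbr x L y = - L (brg g hbr x y) := rfl

theorem center_zero_of_wprop (g : Submodule ℚ_[p] A) (hbr : Brk g) (hW : WProp g) :
    ∀ x ∈ g, (∀ y ∈ g, x * y = y * x) → x = 0 := by
  intro x0 hx0 hcomm
  by_contra hne
  have hne' : (⟨x0, hx0⟩ : g) ≠ 0 := fun h => hne (by simpa using congrArg Subtype.val h)
  obtain ⟨Q, hQ⟩ : ∃ Q : Module.Dual ℚ_[p] g, Q ⟨x0, hx0⟩ ≠ 0 := by
    by_contra hcon
    push Not at hcon
    exact hne' ((Module.forall_dual_apply_eq_zero_iff ℚ_[p] _).1 hcon)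
  have hz : ∀ x : g, brg g hbr x ⟨x0, hx0⟩ = 0 := by
    intro x
    apply Subtype.ext
    rw [brg_coe]
    simp [hcomm x x.2]
  let S : Submodule ℚ_[p] (Module.Dual ℚ_[p] g) :=
    { carrier := {L | L ⟨x0, hx0⟩ = 0}
      add_mem' := by
        intro a b ha hb
        simp only [Set.mem_ofPred_eq, LinearMap.add_apply] at *
        rw [ha, hb, add_zero]
      zero_mem' := by simp
      smul_mem' := by
        intro c a ha
        simp only [Set.mem_ofPred_eq, LinearMap.smul_apply] at *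
        rw [ha, smul_zero] }
  have hS : ∀ (x : g) (L : Module.Dual ℚ_[p] g), coad g hbr x L ∈ S := by
    intro x L
    show coad g hbr x L ⟨x0, hx0⟩ = 0
    rw [coad_apply, hz, map_zero, neg_zero]
  let τ : g →ₗ[ℚ_[p]] Module.End ℚ_[p] S :=
    { toFun := fun x => LinearMap.restrict (coad g hbr x) (fun L _ => hS x L)
      map_add' := by
        intro x y
        ext L
        simp [LinearMap.restrict_apply]
      map_smul' := by
        intro c x
        ext L
        simp [LinearMap.restrict_apply] }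
  let D : g →ₗ[ℚ_[p]] S :=
    { toFun := fun x => ⟨coad g hbr x Q, hS x Q⟩
      map_add' := by
        intro x y
        apply Subtype.ext
        simp
      map_smul' := by
        intro c x
        apply Subtype.ext
        simp }
  have hcc : ∀ (x y : g) (L : Module.Dual ℚ_[p] g), coad g hbr (brg g hbr x y) L
      = coad g hbr x (coad g hbr y L) - coad g hbr y (coad g hbr x L) := by
    intro x y L
    ext z
    rw [LinearMap.sub_apply, coad_apply, coad_apply, coad_apply, coad_apply, coad_apply,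
      brg_jac, map_sub]
    ring
  obtain ⟨v, hv⟩ := wprop' g hbr hW S τ D (by
    intro x y
    ext1 L
    apply Subtype.ext
    exact hcc x y L) (by
    intro x y
    apply Subtype.ext
    exact hcc x y Q)
  have hQv : Q - (v : Module.Dual ℚ_[p] g) = 0 := by
    apply perfect' g hbr hW
    intro x y
    have h1 : coad g hbr x Q = coad g hbr x v := congrArg Subtype.val (hv x)
    have h2 := LinearMap.congr_fun h1 y
    rw [coad_apply, coad_apply] at h2
    rw [LinearMap.sub_apply, sub_eq_zero]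
    exact neg_injective h2
  apply hQ
  rw [sub_eq_zero] at hQv
  rw [hQv]
  exact v.2

theorem norm_decomp (g : Submodule ℚ_[p] A) (hbr : Brk g) (hW : WProp g) :
    ∃ κ : ℝ, 1 ≤ κ ∧ ∀ y : A, (∀ x ∈ g, y * x - x * y ∈ g) →
      ∃ x₀ ∈ g, ‖x₀‖ ≤ κ * ‖y‖ ∧ ∀ x ∈ g, (y - x₀) * x = x * (y - x₀) := by
  let Φ : A →ₗ[ℚ_[p]] (g →ₗ[ℚ_[p]] A) :=
    LinearMap.mk₂ ℚ_[p] (fun (y : A) (x : g) => y * (x : A) - (x : A) * y)
      (fun x x' y => by simp [add_mul, mul_add]; abel)
      (fun c x y => by simp [smul_sub])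
      (fun x y y' => by simp [add_mul, mul_add]; abel)
      (fun c x y => by simp [smul_sub])
  have hΦ : ∀ (y : A) (x : g), Φ y x = y * (x : A) - (x : A) * y := fun y x => rfl
  have hinj : LinearMap.ker (Φ ∘ₗ g.subtype) = ⊥ := by
    rw [LinearMap.ker_eq_bot']
    intro x hx
    apply Subtype.ext
    apply center_zero_of_wprop g hbr hW x x.2
    intro y hy
    have h := LinearMap.congr_fun hx ⟨y, hy⟩
    rw [LinearMap.comp_apply, hΦ] at h
    simpa [sub_eq_zero] using h
  obtain ⟨S, hS⟩ := LinearMap.exists_leftInverse_of_injective (Φ ∘ₗ g.subtype) hinj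
  let R : A →ₗ[ℚ_[p]] g := S ∘ₗ Φ
  let Rc : A →L[ℚ_[p]] g := LinearMap.toContinuousLinearMap R
  refine ⟨max 1 ‖Rc‖, le_max_left _ _, fun y hy => ?_⟩
  let D : g →ₗ[ℚ_[p]] g := LinearMap.codRestrict g (Φ y) (fun x => hy x x.2)
  have hD : ∀ x : g, ((D x : g) : A) = y * (x : A) - (x : A) * y := fun x => rfl
  obtain ⟨v, hv⟩ := wprop' g hbr hW g (brg g hbr) D (by
    intro x x'
    ext1 z
    exact brg_jac g hbr x x' z) (by
    intro x x'
    apply Subtype.ext
    rw [hD, Submodule.coe_sub]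
    simp only [brg_coe, hD]
    noncomm_ring)
  have hv' : ∀ x : g, y * (x : A) - x * y = (x : A) * v - v * x := by
    intro x
    have := congrArg (fun a : g => (a : A)) (hv x)
    simpa only [hD, brg_coe] using this
  have hΦv : Φ y = (Φ ∘ₗ g.subtype) (-v) := by
    ext x
    rw [LinearMap.comp_apply, hΦ, hΦ, hv' x]
    simp
    abel
  have hRv : Rc y = -v := by
    show S (Φ y) = -v
    rw [hΦv]
    have := LinearMap.congr_fun hS (-v)
    simpa using this
  refine ⟨((-v : g) : A), (-v).2, ?_, ?_⟩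
  · rw [← hRv]
    calc ‖((Rc y : g) : A)‖ = ‖Rc y‖ := rfl
      _ ≤ ‖Rc‖ * ‖y‖ := Rc.le_opNorm y
      _ ≤ max 1 ‖Rc‖ * ‖y‖ := by gcongr; exact le_max_right _ _
  · intro x hx
    have h := hv' ⟨x, hx⟩
    simp only [] at h
    rw [← sub_eq_zero]
    have e : (y - ((-v : g) : A)) * x - x * (y - ((-v : g) : A))
        = (y * x - x * y) - (x * (v : A) - v * x) := by
      rw [Submodule.coe_neg]
      noncomm_ring
    rw [e, h, sub_self]

end

end Pool.Agent.Helper156.RWF.J13186
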