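import Pool.Agent.Helper156.RWF.D0

namespace Pool.Agent.Helper156.RWF.J13547

open Pool.Agent.Helper156.RWF
open Filter Topology MeasureTheory


section
variable {p : ℕ} [Fact p.Prime]
variable {F : Type} [Group F] [TopologicalSpace F] [IsTopologicalGroup F] [CompactSpace F]
  [T2Space F] [TotallyDisconnectedSpace F]

/-- the basis generates a dense subgroup -/
theorem dense_basis {d : ℕ} {x : Fin d → F} (h : IsFreeProP p d F x) :
    Dense ((Subgroup.closure (Set.range x) : Subgroup F) : Set F) := by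
  classical
  set H : Subgroup F := Subgroup.closure (Set.range x) with hH
  -- the subgroup together with an open normal subgroup is everything
  have key : ∀ N : OpenNormalSubgroup F, H ⊔ N.toSubgroup = ⊤ := by
    intro N
    haveI hNn : N.toSubgroup.Normal := N.isNormal'
    have hNo : IsOpen (N.toSubgroup : Set F) := N.isOpen'
    obtain ⟨k, hk⟩ := h.index_pow N.toSubgroup hNn hNo
    have hp : p.Prime := Fact.out
    have hcard : Nat.card (F ⧸ N.toSubgroup) = p ^ k := by
      rw [← hk, Subgroup.index_eq_card]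
    haveI hfin : Finite (F ⧸ N.toSubgroup) :=
      Nat.finite_of_card_ne_zero (by rw [hcard]; exact pow_ne_zero _ hp.ne_zero)
    have hpg : IsPGroup p (F ⧸ N.toSubgroup) := IsPGroup.of_card hcard
    haveI : Group.IsNilpotent (F ⧸ N.toSubgroup) := hpg.isNilpotent
    set Hb := H.map (QuotientGroup.mk' N.toSubgroup) with hHb
    by_cases htop : Hb = ⊤
    · rw [eq_top_iff]
      intro f _
      have h1 : QuotientGroup.mk' N.toSubgroup f ∈ Hb := by rw [htop]; trivial
      obtain ⟨g, hg, hgf⟩ := h1
      have h2 : g⁻¹ * f ∈ N.toSubgroup := by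
        rw [← QuotientGroup.eq]
        exact hgf
      have h3 : f = g * (g⁻¹ * f) := by group
      rw [h3]
      exact (H ⊔ N.toSubgroup).mul_mem (Subgroup.mem_sup_left hg) (Subgroup.mem_sup_right h2)
    · exfalso
      obtain ⟨M, hM, hle⟩ := (eq_top_or_exists_le_coatom Hb).resolve_left htop
      haveI hMn : M.Normal :=
        Subgroup.NormalizerCondition.normal_of_coatom M (Group.normalizerCondition_of_isNilpotent) hM
      have hpM : IsPGroup p ((F ⧸ N.toSubgroup) ⧸ M) := hpg.to_quotient M
      let g1 : F →* (F ⧸ N.toSubgroup) ⧸ M :=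
        (QuotientGroup.mk' M).comp (QuotientGroup.mk' N.toSubgroup)
      have hx : ∀ i, g1 (x i) = 1 := by
        intro i
        show ((QuotientGroup.mk' N.toSubgroup (x i) : F ⧸ N.toSubgroup) :
          (F ⧸ N.toSubgroup) ⧸ M) = 1
        rw [QuotientGroup.eq_one_iff]
        exact hle ⟨x i, Subgroup.subset_closure ⟨i, rfl⟩, rfl⟩
      have ho1 : IsOpen (g1.ker : Set F) := by
        refine Subgroup.isOpen_mono (H₁ := N.toSubgroup) ?_ hNo
        intro n hn
        rw [MonoidHom.mem_ker]
        show QuotientGroup.mk' M (QuotientGroup.mk' N.toSubgroup n) = 1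
        have : QuotientGroup.mk' N.toSubgroup n = 1 := (QuotientGroup.eq_one_iff n).2 hn
        rw [this, map_one]
      have ho2 : IsOpen (((1 : F →* (F ⧸ N.toSubgroup) ⧸ M)).ker : Set F) := by
        have : (1 : F →* (F ⧸ N.toSubgroup) ⧸ M).ker = ⊤ := by
          rw [eq_top_iff]
          intro f _
          rw [MonoidHom.mem_ker]; rfl
        rw [this]
        exact isOpen_univ
      obtain ⟨f0, _, huniq⟩ := h.lift ((F ⧸ N.toSubgroup) ⧸ M) hpM (fun _ => 1)
      have e1 := huniq g1 ⟨ho1, hx⟩
      have e2 := huniq 1 ⟨ho2, fun _ => rfl⟩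
      have e3 : g1 = 1 := e1.trans e2.symm
      apply hM.1
      rw [eq_top_iff]
      intro q _
      obtain ⟨f, rfl⟩ := QuotientGroup.mk'_surjective N.toSubgroup q
      have := DFunLike.congr_fun e3 f
      exact (QuotientGroup.eq_one_iff _).1 this
  intro f
  rw [mem_closure_iff]
  intro U hU hf
  have hV : IsOpen ((fun g => f * g) ⁻¹' U) := hU.preimage (continuous_const.mul continuous_id)
  have h1V : (1 : F) ∈ (fun g => f * g) ⁻¹' U := by
    show f * 1 ∈ U
    rwa [mul_one]
  obtain ⟨W, hW, hWV⟩ := ((Filter.HasBasis.mem_iff' (nhds_basis_clopen (1 : F)) _).mp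
    (hV.mem_nhds h1V))
  obtain ⟨N, hN⟩ := IsTopologicalGroup.exist_openNormalSubgroup_sub_clopen_nhds_of_one hW.2 hW.1
  haveI hNn : N.toSubgroup.Normal := N.isNormal'
  have hmem : f ∈ H ⊔ N.toSubgroup := by rw [key N]; trivial
  rw [Subgroup.mem_sup_of_normal_right] at hmem
  obtain ⟨g, hg, n, hn, hgn⟩ := hmem
  refine ⟨g, ?_, hg⟩
  have hn' : n⁻¹ ∈ N.toSubgroup := N.toSubgroup.inv_mem hn
  have h5 : f * n⁻¹ ∈ U := hWV (hN hn')
  have h6 : g = f * n⁻¹ := by rw [← hgn]; group
  rw [h6]; exact h5

end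

end Pool.Agent.Helper156.RWF.J13547
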