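import Pool.Agent.Helper156.RWF.D0
import Pool.Agent.Helper156.RWF.J13547

namespace Pool.Agent.Helper156.RWF.J13539

open Pool.Agent.Helper156.RWF Pool.Agent.Helper156.RWF.J13547
open Filter Topology MeasureTheory


section
variable {p : ℕ} [Fact p.Prime]
variable {F : Type} [Group F] [TopologicalSpace F] [IsTopologicalGroup F] [CompactSpace F]
  [T2Space F] [TotallyDisconnectedSpace F]


theorem lift_self_finite {d : ℕ} {x : Fin d → F} (h : IsFreeProP p d F x) (y : Fin d → F)
    (N : Subgroup F) [N.Normal] (hN : IsOpen (N : Set F)) :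
    ∃ f : F →* F ⧸ N, IsOpen (f.ker : Set F) ∧ ∀ i, f (x i) = (y i : F ⧸ N) := by
  have hfin : Finite (F ⧸ N) := Subgroup.quotient_finite_of_isOpen N hN
  obtain ⟨k, hk⟩ := h.index_pow N inferInstance hN
  have hP : IsPGroup p (F ⧸ N) := by
    refine IsPGroup.of_card (n := k) ?_
    rw [← hk]
    rfl
  obtain ⟨f, hf, -⟩ := h.lift (F ⧸ N) hP (fun i => (y i : F ⧸ N))
  exact ⟨f, hf⟩

/-- prescribed values on the basis -/
theorem lift_self {d : ℕ} {x : Fin d → F} (h : IsFreeProP p d F x) (y : Fin d → F) :
    ∃ θ : F →* F, Continuous θ ∧ ∀ i, θ (x i) = y i := by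
  let H : Subgroup (F × F) :=
    (Subgroup.closure (Set.range (fun i => (x i, y i)))).topologicalClosure
  have hHc : IsClosed (H : Set (F × F)) := Subgroup.isClosed_topologicalClosure _
  have hxy : ∀ i, (x i, y i) ∈ H := fun i =>
    Subgroup.le_topologicalClosure _ (Subgroup.subset_closure ⟨i, rfl⟩)
  have hcomp : CompactSpace H := isCompact_iff_compactSpace.1 hHc.isCompact
  let pr : H →* F := (MonoidHom.fst F F).comp H.subtype
  have hprc : Continuous pr := continuous_fst.comp continuous_subtype_val
  have hinj : Function.Injective pr := by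
    rw [injective_iff_map_eq_one]
    rintro ⟨⟨a, b⟩, hab⟩ ha
    have ha' : a = 1 := ha
    subst ha'
    have hb : b = 1 := by
      by_contra hb
      have ho : IsOpen ({b}ᶜ : Set F) := isOpen_compl_singleton
      obtain ⟨N, hN⟩ := ProfiniteGrp.exist_openNormalSubgroup_sub_open_nhds_of_one ho
        (fun h1 => hb (by rw [Set.mem_singleton_iff] at h1; exact h1.symm))
      have hbN : b ∉ (N : Set F) := fun h1 => hN h1 rfl
      have hNn : (N.toSubgroup).Normal := N.isNormal'
      obtain ⟨f, hf, hfx⟩ := lift_self_finite h y N.toSubgroup N.isOpen'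
      let K : Subgroup (F × F) := MonoidHom.eqLocus (f.comp (MonoidHom.fst F F))
        ((QuotientGroup.mk' N.toSubgroup).comp (MonoidHom.snd F F))
      have hKo : IsOpen (K : Set (F × F)) := by
        refine Subgroup.isOpen_mono (H₁ := (f.ker).prod N.toSubgroup) ?_ ?_
        · rintro ⟨u, v⟩ ⟨hu, hv⟩
          change f u = (v : F ⧸ N.toSubgroup)
          have hu' : f u = 1 := hu
          rw [hu', eq_comm, QuotientGroup.eq_one_iff]
          exact hv
        · exact hf.prod N.isOpen'
      have hKc : IsClosed (K : Set (F × F)) := Subgroup.isClosed_of_isOpen K hKo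
      have hHK : H ≤ K := by
        refine Subgroup.topologicalClosure_minimal _ ?_ hKc
        rw [Subgroup.closure_le]
        rintro _ ⟨i, rfl⟩
        exact hfx i
      have hbK : f 1 = (b : F ⧸ N.toSubgroup) := hHK hab
      rw [map_one, eq_comm, QuotientGroup.eq_one_iff] at hbK
      exact hbN hbK
    subst hb
    rfl
  have hsurj : Function.Surjective pr := by
    have hcl : IsClosed (Set.range pr) := (isCompact_range hprc).isClosed
    have hsub : ((Subgroup.closure (Set.range x) : Subgroup F) : Set F) ⊆ Set.range pr := by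
      have : Subgroup.closure (Set.range x) ≤ pr.range := by
        rw [Subgroup.closure_le]
        rintro _ ⟨i, rfl⟩
        exact ⟨⟨(x i, y i), hxy i⟩, rfl⟩
      exact this
    have hd := (dense_basis h).mono hsub
    have huniv : Set.range pr = Set.univ := by
      rw [← hcl.closure_eq]
      exact hd.closure_eq
    exact Set.range_eq_univ.1 huniv
  let e : H ≃* F := MulEquiv.ofBijective pr ⟨hinj, hsurj⟩
  have hec : Continuous e.symm := by
    have h1 : Continuous (e.toEquiv) := hprc
    exact h1.continuous_symm_of_equiv_compact_to_t2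
  refine ⟨(MonoidHom.snd F F).comp (H.subtype.comp e.symm.toMonoidHom), ?_, ?_⟩
  · exact continuous_snd.comp (continuous_subtype_val.comp hec)
  · intro i
    have h1 : e.symm (x i) = ⟨(x i, y i), hxy i⟩ := by
      rw [MulEquiv.symm_apply_eq]
      rfl
    change ((e.symm (x i) : H) : F × F).2 = y i
    rw [h1]

end

end Pool.Agent.Helper156.RWF.J13539
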