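import Pool.Agent.Helper156.RWF.D0

namespace Pool.Agent.Helper156.RWF.J13543

open Pool.Agent.Helper156.RWF
open Filter Topology MeasureTheory


section
variable {p : ℕ} [Fact p.Prime]
variable {F : Type} [Group F] [TopologicalSpace F] [IsTopologicalGroup F] [CompactSpace F]
  [T2Space F] [TotallyDisconnectedSpace F]

theorem exists_char_open_agree {d : ℕ} {x : Fin d → F}
    (h : Dense ((Subgroup.closure (Set.range x) : Subgroup F) : Set F))
    {P : Type} [Group P] (f g : F →* P) (hf : IsOpen (f.ker : Set F))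
    (hg : IsOpen (g.ker : Set F)) (hfg : ∀ i, f (x i) = g (x i)) : f = g := by
  have hcl : ∀ z ∈ Subgroup.closure (Set.range x), f z = g z := by
    intro z hz
    have h1 : Set.EqOn f g (Set.range x) := by
      rintro _ ⟨i, rfl⟩
      exact hfg i
    exact MonoidHom.eqOn_closure h1 hz
  ext y
  have hopen : IsOpen ((fun z => y⁻¹ * z) ⁻¹' ((f.ker : Set F) ∩ (g.ker : Set F))) :=
    (hf.inter hg).preimage (continuous_const_mul _)
  have hne : ((fun z => y⁻¹ * z) ⁻¹' ((f.ker : Set F) ∩ (g.ker : Set F))).Nonempty := by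
    refine ⟨y, ?_, ?_⟩
    · show y⁻¹ * y ∈ f.ker
      rw [inv_mul_cancel]; exact one_mem _
    · show y⁻¹ * y ∈ g.ker
      rw [inv_mul_cancel]; exact one_mem _
  obtain ⟨z, ⟨hz1, hz2⟩, hz3⟩ := h.inter_open_nonempty _ hopen hne
  have e1 : f (y⁻¹ * z) = 1 := hz1
  have e2 : g (y⁻¹ * z) = 1 := hz2
  rw [map_mul, map_inv, inv_mul_eq_one] at e1 e2
  rw [e1, e2]
  exact hcl z hz3

/-- small characteristic open subgroups -/
theorem exists_char_open {d : ℕ} {x : Fin d → F}
    (h : Dense ((Subgroup.closure (Set.range x) : Subgroup F) : Set F))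
    (U : Set F) (hU : IsOpen U) (h1 : (1 : F) ∈ U) :
    ∃ N : Subgroup F, N.Normal ∧ IsOpen (N : Set F) ∧ (N : Set F) ⊆ U ∧
      ∀ (φ : F ≃ₜ* F) (f : F), φ f ∈ N ↔ f ∈ N := by
  obtain ⟨V, hV⟩ := ProfiniteGrp.exist_openNormalSubgroup_sub_open_nhds_of_one hU h1
  have hVo : IsOpen (V.toSubgroup : Set F) := V.isOpen'
  haveI hVn : V.toSubgroup.Normal := V.isNormal'
  haveI : Finite (F ⧸ V.toSubgroup) := Subgroup.quotient_finite_of_isOpen _ hVo
  haveI hfin : Finite {f : F →* F ⧸ V.toSubgroup // IsOpen (f.ker : Set F)} := by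
    apply Finite.of_injective (fun f : {f : F →* F ⧸ V.toSubgroup // IsOpen (f.ker : Set F)} =>
      (fun i : Fin d => f.1 (x i)))
    intro f g hfg
    apply Subtype.ext
    exact exists_char_open_agree h f.1 g.1 f.2 g.2 (fun i => congrFun hfg i)
  refine ⟨⨅ f : {f : F →* F ⧸ V.toSubgroup // IsOpen (f.ker : Set F)}, f.1.ker, ?_, ?_, ?_, ?_⟩
  · exact Subgroup.normal_iInf_normal (fun f => inferInstance)
  · rw [Subgroup.coe_iInf]
    exact isOpen_iInter_of_finite (fun f => f.2)
  · intro y hy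
    apply hV
    have hk : IsOpen ((QuotientGroup.mk' V.toSubgroup).ker : Set F) := by
      rw [QuotientGroup.ker_mk']
      exact hVo
    have h2 := (Subgroup.mem_iInf.1 hy) ⟨QuotientGroup.mk' V.toSubgroup, hk⟩
    rw [QuotientGroup.ker_mk'] at h2
    exact h2
  · have hcomp : ∀ (φ : F ≃ₜ* F) (g : F →* F ⧸ V.toSubgroup), IsOpen (g.ker : Set F) →
        IsOpen ((g.comp (φ : F →* F)).ker : Set F) := by
      intro φ g hg
      exact hg.preimage φ.continuous_toFun
    intro φ f
    rw [Subgroup.mem_iInf, Subgroup.mem_iInf]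
    constructor
    · intro hf g
      have h2 := hf ⟨g.1.comp (φ.symm : F →* F), hcomp φ.symm g.1 g.2⟩
      rw [MonoidHom.mem_ker] at h2 ⊢
      have h3 : g.1 (φ.symm (φ f)) = 1 := h2
      rwa [ContinuousMulEquiv.symm_apply_apply] at h3
    · intro hf g
      have h2 := hf ⟨g.1.comp (φ : F →* F), hcomp φ g.1 g.2⟩
      rw [MonoidHom.mem_ker] at h2 ⊢
      exact h2

end

end Pool.Agent.Helper156.RWF.J13543
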