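import Pool.Agent.Helper156.RWF.D0

namespace Pool.Agent.Helper156.RWF.J13542

open Pool.Agent.Helper156.RWF
open Filter Topology MeasureTheory


section
variable {p : ℕ} [Fact p.Prime]
variable {F : Type} [Group F] [TopologicalSpace F] [IsTopologicalGroup F] [CompactSpace F]
  [T2Space F] [TotallyDisconnectedSpace F]

theorem continuous_pairCM :
    Continuous (fun φ : F ≃ₜ* F => (toCM φ, toCM φ.symm)) := continuous_induced_dom

theorem continuous_toCM_aut : Continuous (fun φ : F ≃ₜ* F => toCM φ) :=
  continuous_fst.comp continuous_pairCM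

theorem continuous_toCM_symm_aut : Continuous (fun φ : F ≃ₜ* F => toCM φ.symm) :=
  continuous_snd.comp continuous_pairCM

theorem aut_isTopologicalGroup : IsTopologicalGroup (F ≃ₜ* F) := by
  have hmul : Continuous (fun q : (F ≃ₜ* F) × (F ≃ₜ* F) => q.1 * q.2) := by
    refine continuous_induced_rng.mpr ?_
    have h1 : Continuous (fun q : (F ≃ₜ* F) × (F ≃ₜ* F) => (toCM q.1).comp (toCM q.2)) :=
      (continuous_toCM_aut.comp continuous_fst).compCM (continuous_toCM_aut.comp continuous_snd)
    have h2 : Continuous (fun q : (F ≃ₜ* F) × (F ≃ₜ* F) =>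
        (toCM q.2.symm).comp (toCM q.1.symm)) :=
      (continuous_toCM_symm_aut.comp continuous_snd).compCM
        (continuous_toCM_symm_aut.comp continuous_fst)
    exact h1.prodMk h2
  have hinv : Continuous (fun φ : F ≃ₜ* F => φ⁻¹) := by
    refine continuous_induced_rng.mpr ?_
    exact continuous_toCM_symm_aut.prodMk continuous_toCM_aut
  exact { continuous_mul := hmul, continuous_inv := hinv }

end

end Pool.Agent.Helper156.RWF.J13542
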