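import Pool.Agent.Helper156.RWF.D0
import Pool.Agent.Helper156.RWF.J13542
import Pool.Agent.Helper156.RWF.J13543

namespace Pool.Agent.Helper156.RWF.J13540

open Pool.Agent.Helper156.RWF Pool.Agent.Helper156.RWF.J13542 Pool.Agent.Helper156.RWF.J13543
open Filter Topology MeasureTheory


section
variable {p : ℕ} [Fact p.Prime]
variable {F : Type} [Group F] [TopologicalSpace F] [IsTopologicalGroup F] [CompactSpace F]
  [T2Space F] [TotallyDisconnectedSpace F]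


theorem ac_lim (l : Ultrafilter (F ≃ₜ* F)) (Φ : (F ≃ₜ* F) → (F ≃ₜ* F)) :
    ∃ u : F →* F, ∀ f, Tendsto (fun φ => Φ φ f) (l : Filter (F ≃ₜ* F)) (𝓝 (u f)) := by
  have h1 : ∀ f, ∃ y, Tendsto (fun φ => Φ φ f) (l : Filter (F ≃ₜ* F)) (𝓝 y) := by
    intro f
    exact ⟨_, (l.map (fun φ => Φ φ f)).le_nhds_lim⟩
  choose u hu using h1
  refine ⟨MonoidHom.mk' u ?_, hu⟩
  intro a b
  refine tendsto_nhds_unique (hu (a * b)) ?_
  have := (hu a).mul (hu b)
  simpa using this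

theorem ac_mem {l : Filter (F ≃ₜ* F)} [l.NeBot] {Φ : (F ≃ₜ* F) → (F ≃ₜ* F)} {u : F → F}
    (hu : ∀ f, Tendsto (fun φ => Φ φ f) l (𝓝 (u f)))
    {N : Subgroup F} (hN : IsOpen (N : Set F)) (hc : ∀ (φ : F ≃ₜ* F) (f : F), φ f ∈ N ↔ f ∈ N)
    (f : F) : u f ∈ N ↔ f ∈ N := by
  constructor
  · intro h
    by_contra hf
    have h1 : u f ∈ (N : Set F)ᶜ := by
      refine IsClosed.mem_of_tendsto (isClosed_compl_iff.mpr hN) (hu f) ?_
      refine Eventually.of_forall ?_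
      intro φ h2
      exact hf ((hc _ _).mp h2)
    exact h1 h
  · intro h
    have h1 : u f ∈ (N : Set F) := by
      refine IsClosed.mem_of_tendsto (N.isClosed_of_isOpen hN) (hu f) ?_
      refine Eventually.of_forall ?_
      intro φ
      exact (hc _ _).mpr h
    exact h1

theorem ac_cont {d : ℕ} {x : Fin d → F}
    (h : Dense ((Subgroup.closure (Set.range x) : Subgroup F) : Set F))
    {l : Filter (F ≃ₜ* F)} [l.NeBot] {Φ : (F ≃ₜ* F) → (F ≃ₜ* F)} {u : F →* F}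
    (hu : ∀ f, Tendsto (fun φ => Φ φ f) l (𝓝 (u f))) : Continuous u := by
  refine continuous_of_continuousAt_one u ?_
  unfold ContinuousAt
  rw [map_one]
  intro s hs
  obtain ⟨U, hUs, hU, h1⟩ := mem_nhds_iff.mp hs
  obtain ⟨N, _, hNo, hNU, hc⟩ := exists_char_open h U hU h1
  refine Filter.mem_map.mpr (Filter.mem_of_superset (hNo.mem_nhds N.one_mem) ?_)
  intro f hf
  exact hUs (hNU ((ac_mem hu hNo hc f).mpr hf))

theorem ac_near {l : Filter (F ≃ₜ* F)} {Φ : (F ≃ₜ* F) → (F ≃ₜ* F)} {u : F → F}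
    (hu : ∀ f, Tendsto (fun φ => Φ φ f) l (𝓝 (u f)))
    {N : Subgroup F} (hN : IsOpen (N : Set F)) (f : F) :
    ∀ᶠ φ in l, (u f)⁻¹ * Φ φ f ∈ N := by
  have h1 : Tendsto (fun φ => (u f)⁻¹ * Φ φ f) l (𝓝 ((u f)⁻¹ * u f)) := (hu f).const_mul _
  rw [inv_mul_cancel] at h1
  exact h1.eventually (hN.mem_nhds N.one_mem)

theorem ac_inv {d : ℕ} {x : Fin d → F}
    (h : Dense ((Subgroup.closure (Set.range x) : Subgroup F) : Set F))
    {l : Filter (F ≃ₜ* F)} [l.NeBot] {Φ Ψ : (F ≃ₜ* F) → (F ≃ₜ* F)} {u v : F → F}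
    (hu : ∀ f, Tendsto (fun φ => Φ φ f) l (𝓝 (u f)))
    (hv : ∀ f, Tendsto (fun φ => Ψ φ f) l (𝓝 (v f)))
    (hinv : ∀ φ f, Φ φ (Ψ φ f) = f) (f : F) : u (v f) = f := by
  by_contra hne
  have h1 : (1 : F) ∈ ({(u (v f))⁻¹ * f} : Set F)ᶜ := by
    intro h2
    rw [Set.mem_singleton_iff] at h2
    exact hne (by
      have := congrArg (fun z => u (v f) * z) h2
      simpa using this)
  obtain ⟨N, _, hNo, hNU, hc⟩ := exists_char_open h _ (isClosed_singleton.isOpen_compl) h1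
  have e1 := ac_near hu hNo (v f)
  have e2 := ac_near hv hNo f
  obtain ⟨φ, k1, k2⟩ := (e1.and e2).exists
  have k3 : Φ φ ((v f)⁻¹ * Ψ φ f) ∈ N := (hc _ _).mpr k2
  rw [map_mul, map_inv, hinv] at k3
  have k4 := N.mul_mem k1 k3
  have k5 : (u (v f))⁻¹ * Φ φ (v f) * ((Φ φ (v f))⁻¹ * f) = (u (v f))⁻¹ * f := by group
  rw [k5] at k4
  exact hNU k4 rfl

theorem ac_tendsto {d : ℕ} {x : Fin d → F}
    (h : Dense ((Subgroup.closure (Set.range x) : Subgroup F) : Set F))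
    {l : Filter (F ≃ₜ* F)} {Φ : (F ≃ₜ* F) → (F ≃ₜ* F)} (φ0 : F ≃ₜ* F)
    (hu : ∀ f, Tendsto (fun φ => Φ φ f) l (𝓝 (φ0 f))) :
    Tendsto (fun φ => toCM (Φ φ)) l (𝓝 (toCM φ0)) := by
  rw [ContinuousMap.tendsto_nhds_compactOpen]
  intro K hK U hU hm
  refine hK.induction_on (p := fun S => ∀ᶠ φ in l, Set.MapsTo (toCM (Φ φ)) S U) ?_ ?_ ?_ ?_
  · exact Eventually.of_forall (fun φ => Set.mapsTo_empty _ _)
  · intro s t hst ht
    exact ht.mono (fun φ hφ => hφ.mono_left hst)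
  · intro s t hs ht
    filter_upwards [hs, ht] with φ h1 h2
    exact h1.union h2
  · intro y hy
    have hyU : φ0 y ∈ U := hm hy
    have hV : IsOpen ((fun z => φ0 y * z) ⁻¹' U) := hU.preimage (continuous_const_mul _)
    obtain ⟨N, _, hNo, hNU, hc⟩ := exists_char_open h _ hV (by
      show φ0 y * 1 ∈ U
      rw [mul_one]; exact hyU)
    refine ⟨{z | y⁻¹ * z ∈ N}, ?_, ?_⟩
    · refine mem_nhdsWithin_of_mem_nhds ?_
      have h1 : IsOpen {z | y⁻¹ * z ∈ N} := hNo.preimage (continuous_const_mul y⁻¹)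
      refine h1.mem_nhds ?_
      show y⁻¹ * y ∈ N
      rw [inv_mul_cancel]; exact N.one_mem
    · filter_upwards [ac_near hu hNo y] with φ hφ
      intro z hz
      have hz' : y⁻¹ * z ∈ N := hz
      have k1 : Φ φ (y⁻¹ * z) ∈ N := (hc _ _).mpr hz'
      rw [map_mul, map_inv] at k1
      have k2 := N.mul_mem hφ k1
      have k3 : (φ0 y)⁻¹ * Φ φ y * ((Φ φ y)⁻¹ * Φ φ z) = (φ0 y)⁻¹ * Φ φ z := by group
      rw [k3] at k2
      have k4 := hNU k2
      have k5 : φ0 y * ((φ0 y)⁻¹ * Φ φ z) ∈ U := k4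
      rw [mul_inv_cancel_left] at k5
      exact k5

theorem aut_compact {d : ℕ} {x : Fin d → F}
    (h : Dense ((Subgroup.closure (Set.range x) : Subgroup F) : Set F)) :
    CompactSpace (F ≃ₜ* F) := by
  refine ⟨isCompact_iff_ultrafilter_le_nhds.mpr ?_⟩
  intro l _
  obtain ⟨u, hu⟩ := ac_lim l (fun φ => φ)
  obtain ⟨v, hv⟩ := ac_lim l (fun φ => φ.symm)
  have cu : Continuous u := ac_cont h hu
  have cv : Continuous v := ac_cont h hv
  have huv : ∀ f, u (v f) = f := ac_inv h hu hv (fun φ f => φ.apply_symm_apply f)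
  have hvu : ∀ f, v (u f) = f := ac_inv h hv hu (fun φ f => φ.symm_apply_apply f)
  let φ0 : F ≃ₜ* F :=
    { toFun := u
      invFun := v
      left_inv := hvu
      right_inv := huv
      map_mul' := u.map_mul
      continuous_toFun := cu
      continuous_invFun := cv }
  refine ⟨φ0, Set.mem_univ _, ?_⟩
  have t1 : Tendsto (fun φ : F ≃ₜ* F => toCM φ) (l : Filter (F ≃ₜ* F)) (𝓝 (toCM φ0)) :=
    ac_tendsto h φ0 hu
  have t2 : Tendsto (fun φ : F ≃ₜ* F => toCM φ.symm) (l : Filter (F ≃ₜ* F))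
      (𝓝 (toCM φ0.symm)) := ac_tendsto h φ0.symm hv
  rw [nhds_induced, ← Filter.tendsto_iff_comap]
  exact t1.prodMk_nhds t2

end

end Pool.Agent.Helper156.RWF.J13540
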