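import Pool.Agent.Helper156.RWF.D0
import Pool.Agent.Helper156.RWF.J13538
import Pool.Agent.Helper156.RWF.J13539
import Pool.Agent.Helper156.RWF.J13547

namespace Pool.Agent.Helper156.RWF.J13541

open Pool.Agent.Helper156.RWF Pool.Agent.Helper156.RWF.J13538 Pool.Agent.Helper156.RWF.J13539 Pool.Agent.Helper156.RWF.J13547
open Filter Topology MeasureTheory


section
variable {p : ℕ} [Fact p.Prime]
variable {F : Type} [Group F] [TopologicalSpace F] [IsTopologicalGroup F] [CompactSpace F]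
  [T2Space F] [TotallyDisconnectedSpace F]


omit [Fact p.Prime] in
/-- a correspondence between finite dimensional spaces, surjective on both sides, contains the graph
of an automorphism -/
theorem exists_inj_graph {k V : Type*} [Field k] [AddCommGroup V] [Module k V]
    [FiniteDimensional k V] (W : Submodule k (V × V)) (h1 : ∀ v, ∃ v', (v, v') ∈ W)
    (h2 : ∀ v', ∃ v, (v, v') ∈ W) :
    ∃ τ : V →ₗ[k] V, Function.Injective τ ∧ ∀ v, (v, τ v) ∈ W := by
  let p1 : W →ₗ[k] V := (LinearMap.fst k V V).comp W.subtype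
  have hp1 : LinearMap.range p1 = ⊤ := LinearMap.range_eq_top.2 (fun v => by
    obtain ⟨v', h⟩ := h1 v
    exact ⟨⟨(v, v'), h⟩, rfl⟩)
  obtain ⟨g, hg⟩ := p1.exists_rightInverse_of_surjective hp1
  let σ : V →ₗ[k] V := (LinearMap.snd k V V).comp (W.subtype.comp g)
  have hσ : ∀ v, (v, σ v) ∈ W := fun v => by
    have h := (g v).2
    have e : ((g v : W) : V × V) = (v, σ v) := Prod.ext (LinearMap.congr_fun hg v) rfl
    rwa [e] at h
  let K1 : Submodule k V := W.comap (LinearMap.inl k V V)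
  let K2 : Submodule k V := W.comap (LinearMap.inr k V V)
  have hK1 : ∀ v, v ∈ K1 ↔ (v, (0 : V)) ∈ W := fun v => Iff.rfl
  have hK2 : ∀ v, v ∈ K2 ↔ ((0 : V), v) ∈ W := fun v => Iff.rfl
  have hker : ∀ v, σ v ∈ K2 ↔ v ∈ K1 := by
    intro v
    rw [hK1, hK2]
    constructor
    · intro h
      have := W.sub_mem (hσ v) h
      simpa using this
    · intro h
      have := W.sub_mem (hσ v) h
      simpa using this
  have hfr : Module.finrank k K1 = Module.finrank k K2 := by
    let q : V →ₗ[k] V ⧸ K2 := K2.mkQ.comp σ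
    have hq : LinearMap.range q = ⊤ := LinearMap.range_eq_top.2 (fun y => by
      obtain ⟨v', rfl⟩ := K2.mkQ_surjective y
      obtain ⟨v, hv⟩ := h2 v'
      refine ⟨v, ?_⟩
      show K2.mkQ (σ v) = K2.mkQ v'
      refine (Submodule.Quotient.eq K2).2 ?_
      rw [hK2]
      have := W.sub_mem (hσ v) hv
      simpa using this)
    have hk : LinearMap.ker q = K1 := by
      ext v
      rw [← hker v]
      exact Submodule.Quotient.mk_eq_zero K2
    have e1 := q.finrank_range_add_finrank_ker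
    rw [hq, finrank_top, hk] at e1
    have e2 := K2.finrank_quotient_add_finrank
    omega
  obtain ⟨κ⟩ : Nonempty (K1 ≃ₗ[k] K2) := FiniteDimensional.nonempty_linearEquiv_of_finrank_eq hfr
  obtain ⟨pr, hpr⟩ := K1.subtype.exists_leftInverse_of_injective K1.ker_subtype
  have hpr' : ∀ u : K1, pr (u : V) = u := fun u => LinearMap.congr_fun hpr u
  let τ : V →ₗ[k] V := K2.subtype.comp (κ.toLinearMap.comp pr) +
    σ.comp (LinearMap.id - K1.subtype.comp pr)
  have hτ : ∀ v, τ v = (κ (pr v) : V) + σ (v - pr v) := fun v => rfl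
  refine ⟨τ, ?_, ?_⟩
  · rw [injective_iff_map_eq_zero]
    intro v hv
    rw [hτ] at hv
    have h3 : σ (v - pr v) ∈ K2 := by
      have h4 : σ (v - pr v) = -(κ (pr v) : V) := by
        rw [eq_neg_iff_add_eq_zero, add_comm]; exact hv
      rw [h4]
      exact K2.neg_mem (κ (pr v)).2
    rw [hker] at h3
    have h5 : pr (v - pr v) = 0 := by
      rw [map_sub, hpr', sub_self]
    have h6 := hpr' ⟨_, h3⟩
    have h7 : v - pr v = 0 := by
      have h8 : (⟨v - pr v, h3⟩ : K1) = 0 := by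
        rw [← h6]; exact h5
      exact congrArg Subtype.val h8
    rw [h7, map_zero, add_zero] at hv
    have h8 : κ (pr v) = 0 := Subtype.ext hv
    have h9 : pr v = 0 := by
      rw [← κ.map_zero] at h8
      exact κ.injective h8
    rw [h9] at h7
    simpa using h7
  · intro v
    rw [hτ]
    have h3 : ((pr v : V), (0 : V)) ∈ W := (hK1 _).1 (pr v).2
    have h4 : ((0 : V), (κ (pr v) : V)) ∈ W := (hK2 _).1 (κ (pr v)).2
    have h5 := hσ (v - pr v)
    have h6 := W.add_mem (W.add_mem h3 h4) h5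
    simpa using h6

/-- homogeneity: two homomorphisms with the same range differ by an automorphism -/
theorem homog {d : ℕ} {x : Fin d → F} (h : IsFreeProP p d F x) {M : Type} [Monoid M]
    [TopologicalSpace M] [T2Space M] (P₁ P₂ : F →* M) (h₁ : Continuous P₁) (h₂ : Continuous P₂)
    (hr : Set.range P₁ = Set.range P₂) : ∃ θ : F ≃ₜ* F, ∀ f, P₂ f = P₁ (θ f) := by
  classical
  obtain ⟨ε, hεo, hεx⟩ := exists_eps h
  let e : F → (Fin d → ZMod p) := fun f => Multiplicative.toAdd (ε f)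
  have e_mul : ∀ f g, e (f * g) = e f + e g := fun f g => by
    simp only [e, map_mul, toAdd_mul]
  have e_one : e 1 = 0 := by simp only [e, map_one, toAdd_one]
  have e_inv : ∀ f, e f⁻¹ = - e f := fun f => by
    simp only [e, map_inv, toAdd_inv]
  have e_x : ∀ i, e (x i) = Pi.single i 1 := fun i => by
    simp only [e, hεx, toAdd_ofAdd]
  -- `e` is locally constant
  have e_loc : IsLocallyConstant e := by
    rw [IsLocallyConstant.iff_exists_open]
    intro g
    refine ⟨(fun y => g⁻¹ * y) ⁻¹' (ε.ker : Set F), hεo.preimage (by fun_prop), ?_, ?_⟩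
    · simp
    · intro y hy
      have hy' : ε (g⁻¹ * y) = 1 := hy
      have : ε y = ε g := by
        rw [map_mul, map_inv, inv_mul_eq_one] at hy'
        exact hy'.symm
      simp only [e, this]
  -- the relation
  have Rmul : ∀ f f' g g', P₁ f' = P₂ f → P₁ g' = P₂ g → P₁ (f' * g') = P₂ (f * g) := by
    intro f f' g g' h3 h4
    rw [map_mul, map_mul, h3, h4]
  have Rinv : ∀ f f', P₁ f' = P₂ f → P₁ f'⁻¹ = P₂ f⁻¹ := by
    intro f f' h3
    have h4 : P₁ f'⁻¹ * P₁ f' = 1 := by rw [← map_mul, inv_mul_cancel, map_one]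
    have h5 : P₁ f' * P₂ f⁻¹ = 1 := by rw [h3, ← map_mul, mul_inv_cancel, map_one]
    exact left_inv_eq_right_inv h4 h5
  have hz : ∀ g, ∃ z, P₁ z = P₂ g := by
    intro g
    have : P₂ g ∈ Set.range P₁ := by rw [hr]; exact ⟨g, rfl⟩
    exact this
  have hz' : ∀ g, ∃ z, P₁ g = P₂ z := by
    intro g
    have : P₁ g ∈ Set.range P₂ := by rw [← hr]; exact ⟨g, rfl⟩
    obtain ⟨z, hz⟩ := this
    exact ⟨z, hz.symm⟩
  -- surjectivity of `e`
  have e_surj : ∀ v, ∃ f, e f = v := by
    let E0 : AddSubgroup (Fin d → ZMod p) :=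
      { carrier := {v | ∃ f, e f = v}
        zero_mem' := ⟨1, e_one⟩
        add_mem' := by
          rintro _ _ ⟨f, rfl⟩ ⟨g, rfl⟩
          exact ⟨f * g, e_mul f g⟩
        neg_mem' := by
          rintro _ ⟨f, rfl⟩
          exact ⟨f⁻¹, e_inv f⟩ }
    have htop : AddSubgroup.toZModSubmodule p E0 = ⊤ := by
      rw [eq_top_iff, ← (Pi.basisFun (ZMod p) (Fin d)).span_eq, Submodule.span_le]
      rintro _ ⟨i, rfl⟩
      rw [Pi.basisFun_apply]
      exact ⟨x i, e_x i⟩
    intro v
    have : v ∈ AddSubgroup.toZModSubmodule p E0 := by rw [htop]; trivial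
    exact this
  -- the image of the kernel of `P₁`
  let U0 : AddSubgroup (Fin d → ZMod p) :=
    { carrier := {v | ∃ f, P₁ f = 1 ∧ e f = v}
      zero_mem' := ⟨1, map_one _, e_one⟩
      add_mem' := by
        rintro _ _ ⟨f, hf, rfl⟩ ⟨g, hg, rfl⟩
        exact ⟨f * g, by rw [map_mul, hf, hg, one_mul], e_mul f g⟩
      neg_mem' := by
        rintro _ ⟨f, hf, rfl⟩
        refine ⟨f⁻¹, ?_, e_inv f⟩
        have h4 : P₁ f⁻¹ * P₁ f = 1 := by rw [← map_mul, inv_mul_cancel, map_one]
        rwa [hf, mul_one] at h4 }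
  let U1 : Submodule (ZMod p) (Fin d → ZMod p) := AddSubgroup.toZModSubmodule p U0
  have hU1 : ∀ v, v ∈ U1 ↔ ∃ f, P₁ f = 1 ∧ e f = v := fun v => Iff.rfl
  have hU1' : ∀ f f' g, P₁ f = P₂ g → P₁ f' = P₂ g → e f - e f' ∈ U1 := by
    intro f f' g h3 h4
    rw [hU1]
    refine ⟨f * f'⁻¹, ?_, ?_⟩
    · have := Rmul _ _ _ _ h3 (Rinv _ _ h4)
      rw [this, mul_inv_cancel, map_one]
    · rw [e_mul, e_inv, sub_eq_add_neg]
  -- the key claim
  have key : ∀ f f', P₁ f' = P₂ f → e f = 0 → e f' ∈ U1 := by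
    intro f f' hff hef
    by_contra hne
    obtain ⟨ℓ, hℓ1, hℓ2⟩ := Submodule.exists_le_ker_of_notMem hne
    choose z hz using hz
    let lam : F → ZMod p := fun g => ℓ (e (z g))
    have hlam : ∀ g g', P₁ g' = P₂ g → ℓ (e g') = lam g := by
      intro g g' hg
      have h3 : e g' - e (z g) ∈ U1 := hU1' _ _ g hg (hz g)
      have h4 : ℓ (e g' - e (z g)) = 0 := hℓ2 h3
      rw [map_sub, sub_eq_zero] at h4
      exact h4
    have lam_mul : ∀ a b, lam (a * b) = lam a + lam b := by
      intro a b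
      rw [← hlam (a * b) (z a * z b) (Rmul _ _ _ _ (hz a) (hz b)), e_mul, map_add]
    have hcl : ∀ c, IsClosed {g | lam g = c} := by
      intro c
      have h3 : {g | lam g = c} = Prod.fst '' {q : F × F | P₁ q.2 = P₂ q.1 ∧ ℓ (e q.2) = c} := by
        ext g
        constructor
        · intro hg
          exact ⟨(g, z g), ⟨hz g, hg⟩, rfl⟩
        · rintro ⟨⟨a, b⟩, ⟨h4, h5⟩, rfl⟩
          show lam a = c
          rw [← hlam a b h4]; exact h5
      rw [h3]
      have h4 : IsClosed {q : F × F | P₁ q.2 = P₂ q.1 ∧ ℓ (e q.2) = c} := by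
        have h5 : IsClosed {q : F × F | P₁ q.2 = P₂ q.1} :=
          isClosed_eq (h₁.comp continuous_snd) (h₂.comp continuous_fst)
        have h6 : IsClosed {q : F × F | ℓ (e q.2) = c} := by
          have h7 : IsClosed {b : F | ℓ (e b) = c} := by
            rw [← isOpen_compl_iff]
            exact e_loc {v | ¬ ℓ v = c}
          exact h7.preimage continuous_snd
        exact h5.inter h6
      exact (h4.isCompact.image continuous_fst).isClosed
    let Λ : F →* Multiplicative (ZMod p) := MonoidHom.mk' (fun g => Multiplicative.ofAdd (lam g))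
      (fun a b => by
        show Multiplicative.ofAdd (lam (a * b)) = _
        rw [lam_mul, ofAdd_add])
    have hΛo : IsOpen (Λ.ker : Set F) := by
      have h3 : (Λ.ker : Set F) = (⋃ c ∈ {c : ZMod p | c ≠ 0}, {g | lam g = c})ᶜ := by
        ext g
        simp only [SetLike.mem_coe, MonoidHom.mem_ker, Set.mem_compl_iff, Set.mem_iUnion]
        constructor
        · rintro hg ⟨c, hc, hgc⟩
          have hg' : lam g = 0 := hg
          exact hc (hgc.symm.trans hg')
        · intro hg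
          by_contra hne2
          exact hg ⟨lam g, fun h0 => hne2 h0, rfl⟩
      rw [h3, isOpen_compl_iff]
      exact (Set.toFinite _).isClosed_biUnion (fun c _ => hcl c)
    let Λ' : F →* Multiplicative (ZMod p) := MonoidHom.mk'
      (fun g => Multiplicative.ofAdd (∑ i, lam (x i) * e g i))
      (fun a b => by
        show Multiplicative.ofAdd (∑ i, lam (x i) * e (a * b) i) = _
        rw [← ofAdd_add, ← Finset.sum_add_distrib]
        congr 1
        refine Finset.sum_congr rfl (fun i _ => ?_)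
        rw [e_mul, Pi.add_apply, mul_add])
    have hΛ'o : IsOpen (Λ'.ker : Set F) := by
      have h3 : (Λ'.ker : Set F) = e ⁻¹' {v | ∑ i, lam (x i) * v i = 0} := by
        ext g
        exact Iff.rfl
      rw [h3]
      exact e_loc _
    have hpg : IsPGroup p (Multiplicative (ZMod p)) := by
      refine IsPGroup.of_card (n := 1) ?_
      rw [Nat.card_eq_fintype_card, Fintype.card_multiplicative, ZMod.card, pow_one]
    have huniq := (h.lift (Multiplicative (ZMod p)) hpg
      (fun i => Multiplicative.ofAdd (lam (x i)))).unique (y₁ := Λ) (y₂ := Λ')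
      ⟨hΛo, fun i => rfl⟩ ⟨hΛ'o, fun i => by
        show Multiplicative.ofAdd (∑ j, lam (x j) * e (x i) j) = _
        congr 1
        rw [e_x]
        simp [Pi.single_apply]⟩
    have h3 : Λ f = Λ' f := by rw [huniq]
    have h4 : lam f = ∑ i, lam (x i) * e f i := h3
    rw [hef] at h4
    simp only [Pi.zero_apply, mul_zero, Finset.sum_const_zero] at h4
    apply hℓ1
    rw [hlam f f' hff, h4]
  -- the correspondence
  let W0 : AddSubgroup ((Fin d → ZMod p) × (Fin d → ZMod p)) :=
    { carrier := {w | ∃ f f', P₁ f' = P₂ f ∧ (e f, e f') = w}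
      zero_mem' := ⟨1, 1, by rw [map_one, map_one], by rw [e_one]; rfl⟩
      add_mem' := by
        rintro _ _ ⟨f, f', hf, rfl⟩ ⟨g, g', hg, rfl⟩
        exact ⟨f * g, f' * g', Rmul _ _ _ _ hf hg, by rw [e_mul, e_mul]; rfl⟩
      neg_mem' := by
        rintro _ ⟨f, f', hf, rfl⟩
        exact ⟨f⁻¹, f'⁻¹, Rinv _ _ hf, by rw [e_inv, e_inv]; rfl⟩ }
  let W : Submodule (ZMod p) ((Fin d → ZMod p) × (Fin d → ZMod p)) :=
    AddSubgroup.toZModSubmodule p W0
  have hW : ∀ w, w ∈ W ↔ ∃ f f', P₁ f' = P₂ f ∧ (e f, e f') = w := fun w => Iff.rfl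
  obtain ⟨τ, hτi, hτ⟩ := exists_inj_graph W
    (fun v => by
      obtain ⟨f, rfl⟩ := e_surj v
      obtain ⟨f', hf⟩ := hz f
      exact ⟨e f', (hW _).2 ⟨f, f', hf, rfl⟩⟩)
    (fun v' => by
      obtain ⟨f', rfl⟩ := e_surj v'
      obtain ⟨f, hf⟩ := hz' f'
      exact ⟨e f, (hW _).2 ⟨f, f', hf, rfl⟩⟩)
  have hy : ∀ i, ∃ y, P₁ y = P₂ (x i) ∧ e y = τ (e (x i)) := by
    intro i
    obtain ⟨f, f', hff, hww⟩ := (hW _).1 (hτ (e (x i)))
    have e1 : e f = e (x i) := congrArg Prod.fst hww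
    have e2 : e f' = τ (e (x i)) := congrArg Prod.snd hww
    obtain ⟨z, hzi⟩ := hz (x i)
    have h3 : P₁ (z * f'⁻¹) = P₂ (x i * f⁻¹) := Rmul _ _ _ _ hzi (Rinv _ _ hff)
    have h4 : e (x i * f⁻¹) = 0 := by
      rw [e_mul, e_inv, e1, add_neg_cancel]
    obtain ⟨r, hr1, hr2⟩ := (hU1 _).1 (key _ _ h3 h4)
    refine ⟨r⁻¹ * z, ?_, ?_⟩
    · have h5 : P₁ r⁻¹ = 1 := by
        have h6 : P₁ r⁻¹ * P₁ r = 1 := by rw [← map_mul, inv_mul_cancel, map_one]
        rwa [hr1, mul_one] at h6
      rw [map_mul, h5, one_mul, hzi]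
    · rw [e_mul, e_inv, hr2, e_mul, e_inv, e2]
      abel
  choose y hy1 hy2 using hy
  obtain ⟨θ, hθc, hθx⟩ := lift_self h y
  obtain ⟨φ, hφ⟩ := aut_of_eps h ε hεo hεx θ hθc (by
    have h3 : (fun i => Multiplicative.toAdd (ε (θ (x i)))) =
        (fun i => τ ((Pi.basisFun (ZMod p) (Fin d)) i)) := by
      funext i
      rw [hθx, Pi.basisFun_apply]
      show e (y i) = _
      rw [hy2, e_x]
    rw [h3]
    exact (Pi.basisFun (ZMod p) (Fin d)).linearIndependent.map' τ (LinearMap.ker_eq_bot.2 hτi))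
  refine ⟨φ, ?_⟩
  have hcont : Continuous (fun f => P₁ (φ f)) := h₁.comp φ.continuous_toFun
  have hd := dense_basis h
  have heq : (P₂ : F → M) = fun f => P₁ (φ f) := by
    refine Continuous.ext_on hd h₂ hcont ?_
    let L : Subgroup F := MonoidHom.eqLocus P₂ (P₁.comp θ)
    have hL : Subgroup.closure (Set.range x) ≤ L := by
      rw [Subgroup.closure_le]
      rintro _ ⟨i, rfl⟩
      show P₂ (x i) = P₁ (θ (x i))
      rw [hθx, hy1]
    intro f hf
    have h3 : P₂ f = P₁ (θ f) := hL hf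
    show P₂ f = P₁ (φ f)
    rw [hφ, h3]
  intro f
  exact congrFun heq f

end

end Pool.Agent.Helper156.RWF.J13541
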