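import Pool.Agent.Helper156.RWF.D0

namespace Pool.Agent.Helper156.RWF.J13544

open Pool.Agent.Helper156.RWF
open Filter Topology MeasureTheory


section
variable {p : ℕ} [Fact p.Prime]
variable {F : Type} [Group F] [TopologicalSpace F] [IsTopologicalGroup F] [CompactSpace F]
  [T2Space F] [TotallyDisconnectedSpace F]

theorem cr_ball_add {r : ℕ} {a b : Fin r → ℚ_[p]} (ha : ‖a‖ ≤ 1) (hb : ‖b‖ ≤ 1) :
    ‖a + b‖ ≤ 1 :=
  (IsUltrametricDist.norm_add_le_max a b).trans (max_le ha hb)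

theorem cr_ball_sub {r : ℕ} {a b : Fin r → ℚ_[p]} (ha : ‖a‖ ≤ 1) (hb : ‖b‖ ≤ 1) :
    ‖a - b‖ ≤ 1 := by
  rw [sub_eq_add_neg]
  exact cr_ball_add ha (by rwa [norm_neg])

omit [IsTopologicalGroup F] [CompactSpace F] [T2Space F] [TotallyDisconnectedSpace F] in
theorem cr_ii {r : ℕ} {η : F →* EN p r} {C : F → (Fin r → ℚ_[p])} (h : RData p r η C)
    (f : F) (w : Fin r → ℚ_[p]) (hw : ‖w‖ ≤ 1) :
    ∃ f' : F, η f' = η f ∧ C f' = C f + w := by
  have h1 : ‖η f⁻¹ w‖ ≤ 1 := by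
    refine ((η f⁻¹).le_opNorm w).trans ?_
    exact mul_le_one₀ (h.norm_le _) (norm_nonneg _) hw
  have h2 : η f⁻¹ w ∈ C '' {f | η f = 1} := by
    rw [h.lat]; exact h1
  obtain ⟨n, hn, hnC⟩ := h2
  have hn1 : η n = 1 := hn
  refine ⟨f * n, by rw [map_mul, hn1, mul_one], ?_⟩
  rw [h.coc, hnC]
  congr 1
  have h3 : η f * η f⁻¹ = 1 := by rw [← map_mul, mul_inv_cancel, map_one]
  calc η f (η f⁻¹ w) = (η f * η f⁻¹) w := rfl
    _ = w := by rw [h3]; rfl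

omit [IsTopologicalGroup F] [CompactSpace F] [T2Space F] [TotallyDisconnectedSpace F] in
theorem cr_iii {r : ℕ} {η : F →* EN p r} {C : F → (Fin r → ℚ_[p])} (h : RData p r η C)
    (f f' : F) (hf : η f = η f') : ‖C f - C f'‖ ≤ 1 := by
  have h1 : η (f⁻¹ * f') = 1 := by
    rw [map_mul, ← hf, ← map_mul, inv_mul_cancel, map_one]
  have h2 : C (f⁻¹ * f') ∈ C '' {f | η f = 1} := ⟨_, h1, rfl⟩
  rw [h.lat] at h2
  have h2' : ‖C (f⁻¹ * f')‖ ≤ 1 := h2
  have h3 : C f' = C f + η f (C (f⁻¹ * f')) := by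
    rw [← h.coc]; congr 1; group
  have h4 : ‖η f (C (f⁻¹ * f'))‖ ≤ 1 := by
    refine ((η f).le_opNorm _).trans ?_
    exact mul_le_one₀ (h.norm_le _) (norm_nonneg _) h2'
  rw [h3]
  have h5 : C f - (C f + η f (C (f⁻¹ * f'))) = -(η f (C (f⁻¹ * f'))) := by abel
  rw [h5, norm_neg]
  exact h4

omit [IsTopologicalGroup F] [T2Space F] [TotallyDisconnectedSpace F] in
theorem cr_iv {r : ℕ} {η : F →* EN p r} {C : F → (Fin r → ℚ_[p])} (h : RData p r η C) :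
    ∃ j : ℕ, ∀ f f' : F, ‖η f - η f'‖ ≤ ((j : ℝ) + 1)⁻¹ → ‖C f - C f'‖ ≤ 1 := by
  classical
  let K : Set (F × F) := {q | ¬ ‖C q.1 - C q.2‖ ≤ 1}
  have hcont : Continuous (fun q : F × F => C q.1 - C q.2) :=
    (h.cC.comp continuous_fst).sub (h.cC.comp continuous_snd)
  have hKc : IsClosed K := by
    have h1 : IsOpen (Metric.closedBall (0 : Fin r → ℚ_[p]) 1) :=
      IsUltrametricDist.isOpen_closedBall 0 one_ne_zero
    have h2 : K = (fun q : F × F => C q.1 - C q.2) ⁻¹' (Metric.closedBall 0 1)ᶜ := by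
      ext q
      simp [K]
    rw [h2]
    exact h1.isClosed_compl.preimage hcont
  have hK : IsCompact K := hKc.isCompact
  rcases K.eq_empty_or_nonempty with hE | hN
  · refine ⟨0, fun f f' _ => ?_⟩
    by_contra hcon
    have : (f, f') ∈ K := hcon
    rw [hE] at this
    exact this
  · have hc2 : Continuous (fun q : F × F => ‖η q.1 - η q.2‖) :=
      ((h.cη.comp continuous_fst).sub (h.cη.comp continuous_snd)).norm
    obtain ⟨q, hqK, hq⟩ := hK.exists_isMinOn hN hc2.continuousOn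
    have hpos : 0 < ‖η q.1 - η q.2‖ := by
      rw [norm_pos_iff]
      intro h0
      exact hqK (cr_iii h q.1 q.2 (sub_eq_zero.1 h0))
    obtain ⟨j, hj⟩ := exists_nat_one_div_lt hpos
    refine ⟨j, fun f f' hff => ?_⟩
    by_contra hcon
    have hmem : (f, f') ∈ K := hcon
    have h3 : ‖η q.1 - η q.2‖ ≤ ‖η f - η f'‖ := isMinOn_iff.1 hq (f, f') hmem
    rw [one_div] at hj
    linarith

theorem countable_ranges (r : ℕ) (G₀ : Set (EN p r)) :
    {H : Set (EN p r × (Fin r → ℚ_[p])) | ∃ (η : F →* EN p r) (C : F → (Fin r → ℚ_[p])),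
      RData p r η C ∧ Set.range η = G₀ ∧ H = Set.range (fun f => (η f, C f))}.Countable := by
  classical
  have hprop : ProperSpace (EN p r × (Fin r → ℚ_[p])) :=
    FiniteDimensional.proper ℚ_[p] (EN p r × (Fin r → ℚ_[p]))
  have hsc : SecondCountableTopology (EN p r × (Fin r → ℚ_[p])) :=
    secondCountable_of_proper
  obtain ⟨D, hDc, hDd⟩ := TopologicalSpace.exists_countable_dense (EN p r × (Fin r → ℚ_[p]))
  have hDC : Countable D := hDc.to_subtype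
  let Ψ : ℕ × Finset D → Set (EN p r × (Fin r → ℚ_[p])) := fun jT =>
    {x | x.1 ∈ G₀ ∧ ∃ d ∈ jT.2, ‖x.1 - (d : EN p r × (Fin r → ℚ_[p])).1‖ ≤
      ((jT.1 : ℝ) + 1)⁻¹ / 2 ∧ ‖x.2 - (d : EN p r × (Fin r → ℚ_[p])).2‖ ≤ 1}
  refine (Set.countable_range Ψ).mono ?_
  rintro H ⟨η, C, h, hG, rfl⟩
  obtain ⟨j, hj⟩ := cr_iv h
  have hδ : (0 : ℝ) < ((j : ℝ) + 1)⁻¹ / 2 := by positivity
  have hδ1 : ((j : ℝ) + 1)⁻¹ / 2 ≤ 1 := by
    have h0 : ((j : ℝ) + 1)⁻¹ ≤ 1 := by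
      apply inv_le_one_of_one_le₀
      have : (0 : ℝ) ≤ j := Nat.cast_nonneg j
      linarith
    linarith
  have hcomp : IsCompact (Set.range (fun f => (η f, C f))) :=
    isCompact_range (h.cη.prodMk h.cC)
  -- cover
  let I : Type _ := {d : D // ∃ f : F, dist ((η f, C f) : EN p r × (Fin r → ℚ_[p])) d <
    ((j : ℝ) + 1)⁻¹ / 2}
  obtain ⟨t, ht⟩ := hcomp.elim_finite_subcover
    (fun d : I => Metric.ball ((d.1 : D) : EN p r × (Fin r → ℚ_[p])) (((j : ℝ) + 1)⁻¹ / 2))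
    (fun d => Metric.isOpen_ball) (by
      rintro x ⟨f, rfl⟩
      obtain ⟨d, hdD, hd⟩ := hDd.exists_dist_lt ((η f, C f) : EN p r × (Fin r → ℚ_[p])) hδ
      exact Set.mem_iUnion.2 ⟨⟨⟨d, hdD⟩, f, hd⟩, hd⟩)
  refine ⟨(j, t.image (fun d : I => d.1)), ?_⟩
  apply Set.Subset.antisymm
  · rintro ⟨g, v⟩ ⟨hg, d, hd, hd1, hd2⟩
    obtain ⟨d', hd't, rfl⟩ := Finset.mem_image.1 hd
    obtain ⟨d, f1, hf1⟩ := d'
    simp only at hd1 hd2 hg
    rw [← hG] at hg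
    obtain ⟨f, rfl⟩ := hg
    rw [Prod.dist_eq, max_lt_iff, dist_eq_norm, dist_eq_norm] at hf1
    obtain ⟨hf1a, hf1b⟩ := hf1
    simp only at hf1a hf1b
    have h1 : ‖η f - η f1‖ ≤ ((j : ℝ) + 1)⁻¹ := by
      have h2 : η f - η f1 = (η f - (d : EN p r × (Fin r → ℚ_[p])).1) -
          (η f1 - (d : EN p r × (Fin r → ℚ_[p])).1) := by abel
      rw [h2]
      refine (norm_sub_le _ _).trans ?_
      linarith
    have h3 := hj f f1 h1
    have h4 : ‖v - C f‖ ≤ 1 := by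
      have h5 : v - C f = ((v - (d : EN p r × (Fin r → ℚ_[p])).2) -
          (C f1 - (d : EN p r × (Fin r → ℚ_[p])).2)) - (C f - C f1) := by abel
      rw [h5]
      exact cr_ball_sub (cr_ball_sub hd2 (hf1b.le.trans hδ1)) h3
    obtain ⟨f', hf'1, hf'2⟩ := cr_ii h f (v - C f) h4
    refine ⟨f', ?_⟩
    show (η f', C f') = (η f, v)
    rw [hf'1, hf'2]
    congr 1
    abel
  · rintro x ⟨f, rfl⟩
    have h1 := ht ⟨f, rfl⟩
    obtain ⟨d, hdt, hd⟩ := Set.mem_iUnion₂.1 h1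
    rw [Metric.mem_ball, Prod.dist_eq, max_lt_iff, dist_eq_norm, dist_eq_norm] at hd
    refine ⟨?_, d.1, Finset.mem_image_of_mem _ hdt, hd.1.le, hd.2.le.trans hδ1⟩
    show η f ∈ G₀
    rw [← hG]
    exact ⟨f, rfl⟩

end

end Pool.Agent.Helper156.RWF.J13544
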