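import Pool.Agent.Helper156.RWF.D0
import Pool.Agent.Helper156.RWF.J12831
import Pool.Agent.Helper156.RWF.J13185
import Pool.Agent.Helper156.RWF.J13541
import Pool.Agent.Helper156.RWF.J13544
import Pool.Agent.Helper156.RWF.J13547
import Pool.Agent.Helper156.RWF.J13549

namespace Pool.Agent.Helper156.RWF.J13583

open Pool.Agent.Helper156.RWF Pool.Agent.Helper156.RWF.J12831 Pool.Agent.Helper156.RWF.J13185 Pool.Agent.Helper156.RWF.J13541 Pool.Agent.Helper156.RWF.J13544 Pool.Agent.Helper156.RWF.J13547 Pool.Agent.Helper156.RWF.J13549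
open Filter Topology MeasureTheory


section
variable {p : ℕ} [Fact p.Prime]
variable {F : Type} [Group F] [TopologicalSpace F] [IsTopologicalGroup F] [CompactSpace F]
  [T2Space F] [TotallyDisconnectedSpace F]
variable {A : Type} [NormedRing A] [NormedAlgebra ℚ_[p] A] [IsUltrametricDist A] [NormOneClass A]
  [FiniteDimensional ℚ_[p] A]


/-- affine transformations, with the semidirect product multiplication -/
def Aff (p r : ℕ) [Fact p.Prime] : Type := EN p r × (Fin r → ℚ_[p])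

noncomputable instance affTop (p r : ℕ) [Fact p.Prime] : TopologicalSpace (Aff p r) :=
  inferInstanceAs (TopologicalSpace (EN p r × (Fin r → ℚ_[p])))

instance affT2 (p r : ℕ) [Fact p.Prime] : T2Space (Aff p r) :=
  inferInstanceAs (T2Space (EN p r × (Fin r → ℚ_[p])))

noncomputable instance affMon (p r : ℕ) [Fact p.Prime] : Monoid (Aff p r) where
  mul a b := (a.1 * b.1, a.2 + a.1 b.2)
  one := (1, 0)
  mul_assoc a b c := by
    apply Prod.ext
    · exact mul_assoc a.1 b.1 c.1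
    · change (a.2 + a.1 b.2) + (a.1 * b.1) c.2 = a.2 + a.1 (b.2 + b.1 c.2)
      rw [map_add, mul_apply_eq_comp, add_assoc]
  one_mul a := by
    apply Prod.ext
    · exact one_mul a.1
    · change (0 : Fin r → ℚ_[p]) + (1 : EN p r) a.2 = a.2
      rw [zero_add, one_apply_eq_self]
  mul_one a := by
    apply Prod.ext
    · exact mul_one a.1
    · change a.2 + a.1 (0 : Fin r → ℚ_[p]) = a.2
      rw [map_zero, add_zero]

theorem coc_one {r : ℕ} {η : F →* EN p r} {C : F → (Fin r → ℚ_[p])} (hD : RData p r η C) :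
    C 1 = 0 := by
  have h := hD.coc 1 1
  rw [mul_one, map_one, one_apply_eq_self] at h
  exact left_eq_add.mp h

/-- the affine representation -/
noncomputable def affHom {r : ℕ} (η : F →* EN p r) (C : F → (Fin r → ℚ_[p])) (hD : RData p r η C) :
    F →* Aff p r where
  toFun f := (η f, C f)
  map_one' := by
    apply Prod.ext
    · exact map_one η
    · exact coc_one hD
  map_mul' f h := by
    apply Prod.ext
    · exact map_mul η f h
    · exact hD.coc f h

theorem null_range {d : ℕ} {x : Fin d → F} (h : IsFreeProP p d F x) {r : ℕ} (hr : 1 ≤ r)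
    (H : Set (EN p r × (Fin r → ℚ_[p]))) (M : ℕ) (hM : 1 ≤ M)
    (μ : Measure (F ≃ₜ* F)) [IsProbabilityMeasure μ] [μ.IsMulLeftInvariant] :
    μ {φ : F ≃ₜ* F | ∃ (η : F →* EN p r) (C : F → (Fin r → ℚ_[p])), RData p r η C ∧
      H = Set.range (fun f => (η f, C f)) ∧
      ∃ B : (Fin r → ℚ_[p]) →ₗ[ℚ_[p]] (Fin r → ℚ_[p]),
        Stab η C φ B ∧ LinearMap.det B ^ M = 1} = 0 := by
  by_cases hex : ∃ (η : F →* EN p r) (C : F → (Fin r → ℚ_[p])), RData p r η C ∧
      H = Set.range (fun f => (η f, C f))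
  · obtain ⟨η₀, C₀, hD₀, hH₀⟩ := hex
    refine measure_mono_null ?_ (null_conj h hr η₀ C₀ hD₀ M hM μ)
    rintro φ ⟨η, C, hD, hH, B, ⟨hS1, hS2⟩, hdet⟩
    have hT2 : T2Space (Aff p r) := affT2 p r
    obtain ⟨θ, hθ⟩ := @homog p _ F _ _ _ _ _ _ d x h (Aff p r) (affMon p r) (affTop p r) hT2
      (affHom η₀ C₀ hD₀) (affHom η C hD)
      (hD₀.cη.prodMk hD₀.cC) (hD.cη.prodMk hD.cC) (by
        change Set.range (fun f => (η₀ f, C₀ f)) = Set.range (fun f => (η f, C f))
        rw [← hH₀, ← hH])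
    have hθη : ∀ f, η f = η₀ (θ f) := fun f => congrArg Prod.fst (hθ f)
    have hθC : ∀ f, C f = C₀ (θ f) := fun f => congrArg Prod.snd (hθ f)
    have hinv : ∀ f, θ (θ⁻¹ f) = f := fun f => θ.apply_symm_apply f
    refine ⟨θ, B, ⟨?_, ?_⟩, hdet⟩
    · intro f w
      rw [aut_mul_apply, aut_mul_apply, ← hθη, hS1, hθη, hinv]
    · intro f hf
      rw [aut_mul_apply, aut_mul_apply, ← hθC, hS2, hθC, hinv]
      rw [hθη, hinv]
      exact hf
  · have : {φ : F ≃ₜ* F | ∃ (η : F →* EN p r) (C : F → (Fin r → ℚ_[p])), RData p r η C ∧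
      H = Set.range (fun f => (η f, C f)) ∧
      ∃ B : (Fin r → ℚ_[p]) →ₗ[ℚ_[p]] (Fin r → ℚ_[p]),
        Stab η C φ B ∧ LinearMap.det B ^ M = 1} = ∅ := by
      rw [Set.eq_empty_iff_forall_notMem]
      rintro φ ⟨η, C, hD, hH, -⟩
      exact hex ⟨η, C, hD, hH⟩
    rw [this, measure_empty]

theorem bad_conj {r : ℕ} (η : F →* EN p r) (C : F → (Fin r → ℚ_[p])) (hD : RData p r η C)
    (φ : F ≃ₜ* F) (B : (Fin r → ℚ_[p]) →ₗ[ℚ_[p]] (Fin r → ℚ_[p])) (hS : Stab η C φ B)
    (G₀ : Set (EN p r)) (u v : EN p r) (huv : u * v = 1) (hvu : v * u = 1) (hu : ‖u‖ ≤ 1)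
    (hv : ‖v‖ ≤ 1) (hG : Set.range η = (fun x => u * x * v) '' G₀) :
    ∃ (η' : F →* EN p r) (C' : F → (Fin r → ℚ_[p]))
      (B' : (Fin r → ℚ_[p]) →ₗ[ℚ_[p]] (Fin r → ℚ_[p])), RData p r η' C' ∧
      Set.range η' = G₀ ∧ Stab η' C' φ B' ∧ LinearMap.det B' = LinearMap.det B := by
  have huv' : ∀ w, u (v w) = w := by
    intro w
    rw [← mul_apply_eq_comp, huv, one_apply_eq_self]
  have hvu' : ∀ w, v (u w) = w := by
    intro w
    rw [← mul_apply_eq_comp, hvu, one_apply_eq_self]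
  let η' : F →* EN p r :=
    { toFun := fun f => v * η f * u
      map_one' := by rw [map_one, mul_one, hvu]
      map_mul' := by
        intro f h
        rw [map_mul]
        calc v * (η f * η h) * u = v * η f * 1 * η h * u := by rw [mul_one]; noncomm_ring
          _ = v * η f * (u * v) * η h * u := by rw [huv]
          _ = v * η f * u * (v * η h * u) := by noncomm_ring }
  have hη' : ∀ f, η' f = v * η f * u := fun f => rfl
  have hη'w : ∀ f w, η' f w = v (η f (u w)) := fun f w => rfl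
  have hker : ∀ f, η' f = 1 ↔ η f = 1 := by
    intro f
    rw [hη']
    constructor
    · intro hf
      calc η f = (u * v) * η f * (u * v) := by rw [huv, one_mul, mul_one]
        _ = u * (v * η f * u) * v := by noncomm_ring
        _ = 1 := by rw [hf, mul_one, huv]
    · intro hf
      rw [hf, mul_one, hvu]
  refine ⟨η', fun f => v (C f),
    (v : (Fin r → ℚ_[p]) →ₗ[ℚ_[p]] (Fin r → ℚ_[p])) ∘ₗ B ∘ₗ
      (u : (Fin r → ℚ_[p]) →ₗ[ℚ_[p]] (Fin r → ℚ_[p])), ?_, ?_, ?_, ?_⟩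
  · refine ⟨?_, ?_, ?_, ?_, ?_⟩
    · exact (continuous_const.mul hD.cη).mul continuous_const
    · exact v.continuous.comp hD.cC
    · intro f
      rw [hη']
      calc ‖v * η f * u‖ ≤ ‖v‖ * ‖η f‖ * ‖u‖ :=
            (norm_mul_le _ _).trans (mul_le_mul_of_nonneg_right (norm_mul_le _ _) (norm_nonneg _))
        _ ≤ 1 * 1 * 1 := by
            apply mul_le_mul (mul_le_mul hv (hD.norm_le f) (norm_nonneg _) zero_le_one) hu
              (norm_nonneg _) (by norm_num)
        _ = 1 := by norm_num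
    · intro f h
      rw [hD.coc, map_add, hη'w, huv']
    · have h1 : (fun f => v (C f)) '' {f | η' f = 1} = v '' (C '' {f | η f = 1}) := by
        rw [Set.image_image]
        simp only [hker]
      rw [h1, hD.lat]
      ext w
      constructor
      · rintro ⟨z, hz, rfl⟩
        rw [Set.mem_ofPred_eq] at hz ⊢
        calc ‖v z‖ ≤ ‖v‖ * ‖z‖ := v.le_opNorm z
          _ ≤ 1 * 1 := mul_le_mul hv hz (norm_nonneg _) zero_le_one
          _ = 1 := by norm_num
      · intro hw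
        rw [Set.mem_ofPred_eq] at hw
        refine ⟨u w, ?_, hvu' w⟩
        rw [Set.mem_ofPred_eq]
        calc ‖u w‖ ≤ ‖u‖ * ‖w‖ := u.le_opNorm w
          _ ≤ 1 * 1 := mul_le_mul hu hw (norm_nonneg _) zero_le_one
          _ = 1 := by norm_num
  · ext y
    constructor
    · rintro ⟨f, rfl⟩
      have h1 : η f ∈ (fun x => u * x * v) '' G₀ := by
        rw [← hG]
        exact ⟨f, rfl⟩
      obtain ⟨z, hz, hzf⟩ := h1
      have h2 : η' f = z := by
        rw [hη', ← hzf]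
        calc v * (u * z * v) * u = (v * u) * z * (v * u) := by noncomm_ring
          _ = z := by rw [hvu, one_mul, mul_one]
      rw [h2]
      exact hz
    · intro hy
      have h1 : u * y * v ∈ Set.range η := by
        rw [hG]
        exact ⟨y, hy, rfl⟩
      obtain ⟨f, hf⟩ := h1
      refine ⟨f, ?_⟩
      rw [hη', hf]
      calc v * (u * y * v) * u = (v * u) * y * (v * u) := by noncomm_ring
        _ = y := by rw [hvu, one_mul, mul_one]
  · refine ⟨?_, ?_⟩
    · intro f w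
      change v (η (φ f) (u (v (B (u w))))) = v (B (u (v (η f (u w)))))
      rw [huv', huv', hS.1]
    · intro f hf
      change v (C (φ f)) = v (B (u (v (C f))))
      rw [huv', hS.2 f ((hker f).1 hf)]
  · rw [LinearMap.det_comp, LinearMap.det_comp]
    have h1 : LinearMap.det (v : (Fin r → ℚ_[p]) →ₗ[ℚ_[p]] (Fin r → ℚ_[p])) *
        LinearMap.det (u : (Fin r → ℚ_[p]) →ₗ[ℚ_[p]] (Fin r → ℚ_[p])) = 1 := by
      rw [← LinearMap.det_comp]
      have h2 : (v : (Fin r → ℚ_[p]) →ₗ[ℚ_[p]] (Fin r → ℚ_[p])) ∘ₗ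
          (u : (Fin r → ℚ_[p]) →ₗ[ℚ_[p]] (Fin r → ℚ_[p])) = LinearMap.id := by
        apply LinearMap.ext
        intro w
        exact hvu' w
      rw [h2, LinearMap.det_id]
    calc _ = (LinearMap.det (v : (Fin r → ℚ_[p]) →ₗ[ℚ_[p]] (Fin r → ℚ_[p])) *
        LinearMap.det (u : (Fin r → ℚ_[p]) →ₗ[ℚ_[p]] (Fin r → ℚ_[p]))) * LinearMap.det B := by ring
      _ = _ := by rw [h1, one_mul]

/-- almost every automorphism is not bad -/
theorem typ_ae {d : ℕ} {x : Fin d → F} (h : IsFreeProP p d F x)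
    (μ : Measure (F ≃ₜ* F)) [IsProbabilityMeasure μ] [μ.IsMulLeftInvariant] :
    ∀ᵐ φ ∂μ, ¬ Bad p φ := by
  have key : ∀ r : ℕ, 1 ≤ r → ∃ S : Set (Set (EN p r)), S.Countable ∧ ∀ G : Set (EN p r),
      IsCptGrp G → (∃ (g : Submodule ℚ_[p] (EN p r)) (k : ℕ), IsLieOf p G g k ∧ Brk g ∧ WProp g) →
      ∃ G₀ ∈ S, ∃ u v : EN p r, u * v = 1 ∧ v * u = 1 ∧ ‖u‖ ≤ 1 ∧ ‖v‖ ≤ 1 ∧
      G = (fun x => u * x * v) '' G₀ := by
    intro r hr
    haveI : Nonempty (Fin r) := ⟨⟨0, hr⟩⟩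
    haveI := clm_ultrametric (p := p) (Fin r → ℚ_[p])
    exact countable_types (p := p) (A := EN p r)
  choose S hSc hS using key
  rw [ae_iff]
  simp only [not_not]
  refine measure_mono_null (t := ⋃ r : ℕ, ⋃ hr : 1 ≤ r, ⋃ G₀ ∈ S r hr,
    ⋃ H ∈ {H : Set (EN p r × (Fin r → ℚ_[p])) | ∃ (η : F →* EN p r) (C : F → (Fin r → ℚ_[p])),
      RData p r η C ∧ Set.range η = G₀ ∧ H = Set.range (fun f => (η f, C f))},
    ⋃ M : ℕ, ⋃ (_ : 1 ≤ M), {φ : F ≃ₜ* F | ∃ (η : F →* EN p r) (C : F → (Fin r → ℚ_[p])),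
      RData p r η C ∧ H = Set.range (fun f => (η f, C f)) ∧
      ∃ B : (Fin r → ℚ_[p]) →ₗ[ℚ_[p]] (Fin r → ℚ_[p]),
        Stab η C φ B ∧ LinearMap.det B ^ M = 1}) ?_ ?_
  · rintro φ ⟨r, η, C, g, k, M, B, hr, hD, hLie, hBrk, hW, hStab, hM, hdet⟩
    have hG : IsCptGrp (Set.range η) := by
      refine ⟨⟨1, map_one η⟩, ?_, ?_, isCompact_range hD.cη, ?_⟩
      · rintro _ ⟨a, rfl⟩ _ ⟨b, rfl⟩
        exact ⟨a * b, map_mul η a b⟩
      · rintro _ ⟨a, rfl⟩
        refine ⟨η a⁻¹, ⟨a⁻¹, rfl⟩, ?_, ?_⟩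
        · rw [← map_mul, mul_inv_cancel, map_one]
        · rw [← map_mul, inv_mul_cancel, map_one]
      · rintro _ ⟨a, rfl⟩
        exact hD.norm_le a
    obtain ⟨G₀, hG₀, u, v, huv, hvu, hu, hv, hGe⟩ := hS r hr _ hG ⟨g, k, hLie, hBrk, hW⟩
    obtain ⟨η', C', B', hD', hr', hS', hd'⟩ :=
      bad_conj η C hD φ B hStab G₀ u v huv hvu hu hv hGe
    simp only [Set.mem_iUnion]
    refine ⟨r, hr, G₀, hG₀, Set.range (fun f => (η' f, C' f)), ⟨η', C', hD', hr', rfl⟩, M, hM,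
      η', C', hD', rfl, B', hS', ?_⟩
    rw [hd']
    exact hdet
  · refine measure_iUnion_null fun r => measure_iUnion_null fun hr =>
      (measure_biUnion_null_iff (hSc r hr)).2 fun G₀ _ =>
      (measure_biUnion_null_iff (countable_ranges r G₀)).2 fun H _ =>
      measure_iUnion_null fun M => measure_iUnion_null fun hM => null_range h hr H M hM μ

end

end Pool.Agent.Helper156.RWF.J13583
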