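import Pool.Agent.Helper156.RWF.D0
import Pool.Agent.Helper156.RWF.J12439
import Pool.Agent.Helper156.RWF.J12831
import Pool.Agent.Helper156.RWF.J13855
import Pool.Agent.Helper156.RWF.J13856
import Pool.Agent.Helper156.RWF.J13866

namespace Pool.Agent.Helper156.RWF.J13862

open Pool.Agent.Helper156.RWF Pool.Agent.Helper156.RWF.J12439 Pool.Agent.Helper156.RWF.J12831 Pool.Agent.Helper156.RWF.J13855 Pool.Agent.Helper156.RWF.J13856 Pool.Agent.Helper156.RWF.J13866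
open Filter Topology MeasureTheory


section
variable {p : ℕ} [Fact p.Prime]
variable {F : Type} [Group F] [TopologicalSpace F] [IsTopologicalGroup F] [CompactSpace F]
  [T2Space F] [TotallyDisconnectedSpace F]
variable {A : Type} [NormedRing A] [NormedAlgebra ℚ_[p] A] [IsUltrametricDist A] [NormOneClass A]
  [FiniteDimensional ℚ_[p] A]


theorem T1_pow_mem (F₁ : Subgroup F) (φ : F ≃ₜ* F) (hinv : ∀ f, φ f ∈ F₁ ↔ f ∈ F₁) (n : ℕ)
    (f : F) : (φ ^ n) f ∈ F₁ ↔ f ∈ F₁ := by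
  induction n generalizing f with
  | zero => rw [pow_zero, aut_one_apply]
  | succ n ih => rw [pow_succ, aut_mul_apply, ih, hinv]

theorem T1_pow_comm (φ : F ≃ₜ* F) (n : ℕ) (f : F) : (φ ^ n) (φ f) = φ ((φ ^ n) f) := by
  rw [← aut_mul_apply, ← aut_mul_apply, ← pow_succ, ← pow_succ']

theorem T1_order (F₁ : Subgroup F) (hn : F₁.Normal)
    (ho : IsOpen (F₁ : Set F)) (φ : F ≃ₜ* F) (hinv : ∀ f, φ f ∈ F₁ ↔ f ∈ F₁) :
    ∃ o : ℕ, 1 ≤ o ∧ ∀ n, ∀ f, ((φ ^ (o * n)) f) * f⁻¹ ∈ F₁ := by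
  haveI := hn
  haveI : Finite (F ⧸ F₁) := F₁.quotient_finite_of_isOpen ho
  have he : F₁.map (φ.toMulEquiv : F →* F) = F₁ := by
    ext f
    rw [Subgroup.mem_map]
    constructor
    · rintro ⟨h, hh, rfl⟩
      exact (hinv h).2 hh
    · intro hf
      refine ⟨φ.symm f, ?_, φ.apply_symm_apply f⟩
      rw [← hinv]
      rw [φ.apply_symm_apply]
      exact hf
  obtain ⟨π, hπ⟩ : ∃ π : Equiv.Perm (F ⧸ F₁), ∀ f : F, π (QuotientGroup.mk f) =
      QuotientGroup.mk (φ f) :=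
    ⟨(QuotientGroup.congr F₁ F₁ φ.toMulEquiv he).toEquiv, fun f => rfl⟩
  have hpow : ∀ n : ℕ, ∀ f : F, (π ^ n) (QuotientGroup.mk f) = QuotientGroup.mk ((φ ^ n) f) := by
    intro n
    induction n with
    | zero => intro f; rfl
    | succ n ih =>
      intro f
      rw [pow_succ, Equiv.Perm.mul_apply, hπ, ih, pow_succ, aut_mul_apply]
  refine ⟨orderOf π, orderOf_pos π, fun n f => ?_⟩
  have h1 := hpow (orderOf π * n) f
  rw [pow_mul, pow_orderOf_eq_one, one_pow, Equiv.Perm.one_apply] at h1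
  rw [QuotientGroup.eq] at h1
  have h2 := hn.conj_mem _ h1 f
  rw [mul_inv_cancel_left] at h2
  exact h2

theorem T1_lin (Y : Submodule ℚ_[p] (F → ℚ_[p])) {r : ℕ} (b : Module.Basis (Fin r) ℚ_[p] Y)
    (α : F → F) (hα : ∀ ψ ∈ Y, (fun h => ψ (α h)) ∈ Y) :
    ∃ L : (Fin r → ℚ_[p]) →ₗ[ℚ_[p]] (Fin r → ℚ_[p]),
      ∀ h, L (fun i => (b i : F → ℚ_[p]) h) = fun i => (b i : F → ℚ_[p]) (α h) := by
  refine ⟨Matrix.mulVecLin (Matrix.of fun i j =>
    b.repr ⟨fun h => (b i : F → ℚ_[p]) (α h), hα _ (b i).2⟩ j), fun h => ?_⟩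
  funext i
  rw [Matrix.mulVecLin_apply]
  have h1 := b.sum_repr ⟨fun h => (b i : F → ℚ_[p]) (α h), hα _ (b i).2⟩
  have h2 := congrArg (fun y : Y => (y : F → ℚ_[p]) h) h1
  simp only [Submodule.coe_sum, Submodule.coe_smul, Finset.sum_apply, Pi.smul_apply,
    smul_eq_mul] at h2
  rw [← h2]
  rfl

/-- the space of invariant characters -/
def T1Y (F₁ : Subgroup F) (Φ : F → F) : Submodule ℚ_[p] (F → ℚ_[p]) where
  carrier := {ψ | ContinuousOn ψ F₁ ∧ (∀ f ∈ F₁, ∀ h ∈ F₁, ψ (f * h) = ψ f + ψ h) ∧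
    (∀ f ∉ F₁, ψ f = 0) ∧ ∀ f ∈ F₁, ψ (Φ f) = ψ f}
  add_mem' := by
    rintro a b ⟨a1, a2, a3, a4⟩ ⟨b1, b2, b3, b4⟩
    refine ⟨a1.add b1, ?_, ?_, ?_⟩
    · intro f hf h hh
      show a (f * h) + b (f * h) = a f + b f + (a h + b h)
      rw [a2 f hf h hh, b2 f hf h hh]
      ring
    · intro f hf
      show a f + b f = 0
      rw [a3 f hf, b3 f hf, add_zero]
    · intro f hf
      show a (Φ f) + b (Φ f) = a f + b f
      rw [a4 f hf, b4 f hf]
  zero_mem' := by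
    refine ⟨continuousOn_const, ?_, ?_, ?_⟩
    · intro f _ h _
      show (0 : ℚ_[p]) = 0 + 0
      rw [add_zero]
    · intro f _
      rfl
    · intro f _
      rfl
  smul_mem' := by
    rintro c a ⟨a1, a2, a3, a4⟩
    refine ⟨a1.const_smul c, ?_, ?_, ?_⟩
    · intro f hf h hh
      show c • a (f * h) = c • a f + c • a h
      rw [a2 f hf h hh, smul_add]
    · intro f hf
      show c • a f = 0
      rw [a3 f hf, smul_zero]
    · intro f hf
      show c • a (Φ f) = c • a f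
      rw [a4 f hf]

theorem T1_add_one {F₁ : Subgroup F} {ψ : F → ℚ_[p]}
    (h : ∀ f ∈ F₁, ∀ h ∈ F₁, ψ (f * h) = ψ f + ψ h) : ψ 1 = 0 := by
  have h1 := h 1 F₁.one_mem 1 F₁.one_mem
  rw [mul_one] at h1
  exact left_eq_add.1 h1

theorem T1_conj {F₁ : Subgroup F} {ψ : F → ℚ_[p]}
    (h : ∀ f ∈ F₁, ∀ h ∈ F₁, ψ (f * h) = ψ f + ψ h) {w f : F} (hw : w ∈ F₁) (hf : f ∈ F₁) :
    ψ (w * f * w⁻¹) = ψ f := by
  have h1 := h w hw w⁻¹ (F₁.inv_mem hw)
  rw [mul_inv_cancel, T1_add_one h] at h1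
  rw [h _ (F₁.mul_mem hw hf) _ (F₁.inv_mem hw), h w hw f hf]
  have : ψ w + ψ f + ψ w⁻¹ = ψ f + (ψ w + ψ w⁻¹) := by ring
  rw [this, ← h1, add_zero]

/-- the set of values of `E` near one -/
theorem T1_lie {X : Type} [NormedAddCommGroup X]
    [NormedSpace ℚ_[p] X] [FiniteDimensional ℚ_[p] X] [Nontrivial X] [IsUltrametricDist X]
    (G : Set (X →L[ℚ_[p]] X)) (hG : G.Finite) (h1 : 1 ∈ G) :
    ∃ k, IsLieOf p G (⊥ : Submodule ℚ_[p] (X →L[ℚ_[p]] X)) k := by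
  haveI : IsUltrametricDist (X →L[ℚ_[p]] X) := clm_ultrametric X
  haveI : FiniteDimensional ℚ_[p] (X →L[ℚ_[p]] X) :=
    LinearEquiv.finiteDimensional (LinearMap.toContinuousLinearMap (𝕜 := ℚ_[p]) (E := X) (F' := X))
  have hp1 : (1 : ℝ) < p := by exact_mod_cast (Fact.out : p.Prime).one_lt
  have hp0 : (0 : ℝ) < (p : ℝ)⁻¹ := by positivity
  have hpl : (p : ℝ)⁻¹ < 1 := inv_lt_one_of_one_lt₀ hp1
  obtain ⟨δ, hδ, hδ'⟩ : ∃ δ : ℝ, 0 < δ ∧ ∀ a ∈ G, a ≠ 1 → δ ≤ ‖a - 1‖ := by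
    have hfin : (G \ {1}).Finite := hG.sdiff
    by_cases hne : (G \ {1}).Nonempty
    · obtain ⟨a, ha, ha'⟩ := Set.exists_min_image _ (fun a => ‖a - 1‖) hfin hne
      refine ⟨‖a - 1‖, norm_pos_iff.2 (sub_ne_zero.2 fun h => ha.2 h), fun b hb hb' => ?_⟩
      exact ha' b ⟨hb, hb'⟩
    · refine ⟨1, one_pos, fun a ha ha' => ?_⟩
      exact absurd ⟨a, ha, ha'⟩ hne
  obtain ⟨k0, hk0⟩ := exists_pow_lt_of_lt_one hδ hpl
  refine ⟨max 2 k0, le_max_left _ _, fun x hx => ?_⟩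
  have hx2 : ‖x‖ ≤ ((p : ℝ)⁻¹) ^ 2 :=
    hx.trans (pow_le_pow_of_le_one hp0.le hpl.le (le_max_left _ _))
  have hx3 : ‖x‖ < δ :=
    (hx.trans (pow_le_pow_of_le_one hp0.le hpl.le (le_max_right _ _))).trans_lt hk0
  rw [Submodule.mem_bot]
  constructor
  · intro hE
    have h2 : ‖E p x - E p 0‖ = ‖x - 0‖ := E_isom x 0 hx2 (by rw [norm_zero]; positivity)
    rw [E_zero, sub_zero] at h2
    have h3 : E p x = 1 := by
      by_contra hne
      have := hδ' _ hE hne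
      linarith
    rw [h3, sub_self, norm_zero] at h2
    exact norm_eq_zero.1 h2.symm
  · intro hx0
    rw [hx0, E_zero]
    exact h1

/-- no invariant characters -/
theorem T1 {d : ℕ} {x : Fin d → F}
    (hx : Dense ((Subgroup.closure (Set.range x) : Subgroup F) : Set F))
    (φ : F ≃ₜ* F) (hφ : ¬ Bad p φ) (F₁ : Subgroup F) (hn : F₁.Normal)
    (ho : IsOpen (F₁ : Set F)) (hinv : ∀ f, φ f ∈ F₁ ↔ f ∈ F₁) (M : ℕ) (hM : 1 ≤ M)
    (χ : F → ℚ_[p]) (hc : ContinuousOn χ F₁)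
    (hadd : ∀ f ∈ F₁, ∀ h ∈ F₁, χ (f * h) = χ f + χ h)
    (hχ : ∀ f ∈ F₁, χ ((φ ^ M) f) = χ f) : ∀ f ∈ F₁, χ f = 0 := by
  classical
  intro f₀ hf₀
  by_contra hne
  obtain ⟨o, ho1, ho2⟩ := T1_order F₁ hn ho φ hinv
  obtain ⟨M1, hM1⟩ : ∃ M1, M1 = o * M := ⟨_, rfl⟩
  have hM1pos : 1 ≤ M1 := by rw [hM1]; exact Nat.one_le_iff_ne_zero.2 (by positivity)
  have hM1F : ∀ f, ((φ ^ M1) f) * f⁻¹ ∈ F₁ := by rw [hM1]; exact ho2 M
  have hΦmem := T1_pow_mem F₁ φ hinv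
  have hχ1 : ∀ f ∈ F₁, χ ((φ ^ M1) f) = χ f := by
    have h1 : ∀ n : ℕ, ∀ f ∈ F₁, χ ((φ ^ (M * n)) f) = χ f := by
      intro n
      induction n with
      | zero => intro f _; rw [mul_zero, pow_zero, aut_one_apply]
      | succ n ih =>
        intro f hf
        rw [mul_add, mul_one, pow_add, aut_mul_apply, ih _ ((hΦmem M f).2 hf), hχ f hf]
    rw [hM1, mul_comm]
    exact h1 o
  obtain ⟨Y, hY⟩ : ∃ Y : Submodule ℚ_[p] (F → ℚ_[p]), Y = T1Y F₁ (fun f => (φ ^ M1) f) := ⟨_, rfl⟩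
  have hYmem : ∀ ψ : F → ℚ_[p], ψ ∈ Y ↔ (ContinuousOn ψ F₁ ∧
      (∀ f ∈ F₁, ∀ h ∈ F₁, ψ (f * h) = ψ f + ψ h) ∧
      (∀ f ∉ F₁, ψ f = 0) ∧ ∀ f ∈ F₁, ψ ((φ ^ M1) f) = ψ f) := by
    intro ψ
    rw [hY]
    exact Iff.rfl
  haveI : FiniteDimensional ℚ_[p] Y := chars_finite hx F₁ ho Y (by
    intro ψ hψ
    obtain ⟨h1, h2, h3, -⟩ := (hYmem ψ).1 hψ
    exact ⟨h1, h2, h3⟩)
  -- the extension of χ by zero
  have hχY : (fun f => if f ∈ F₁ then χ f else 0) ∈ Y := by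
    rw [hYmem]
    refine ⟨?_, ?_, ?_, ?_⟩
    · apply hc.congr
      intro f hf
      exact if_pos hf
    · intro f hf h hh
      show (if f * h ∈ F₁ then χ (f * h) else 0) =
        (if f ∈ F₁ then χ f else 0) + (if h ∈ F₁ then χ h else 0)
      rw [if_pos (F₁.mul_mem hf hh), if_pos hf, if_pos hh, hadd f hf h hh]
    · intro f hf
      exact if_neg hf
    · intro f hf
      show (if (φ ^ M1) f ∈ F₁ then χ ((φ ^ M1) f) else 0) = (if f ∈ F₁ then χ f else 0)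
      rw [if_pos ((hΦmem M1 f).2 hf), if_pos hf, hχ1 f hf]
  obtain ⟨r, hr⟩ : ∃ r, r = Module.finrank ℚ_[p] Y := ⟨_, rfl⟩
  have hrpos : 0 < r := by
    rw [hr, Module.finrank_pos_iff_exists_ne_zero]
    refine ⟨⟨_, hχY⟩, fun h0 => ?_⟩
    have h1 := congrArg (fun y : Y => (y : F → ℚ_[p]) f₀) h0
    have h2 : (if f₀ ∈ F₁ then χ f₀ else 0) = 0 := h1
    rw [if_pos hf₀] at h2
    exact hne h2
  subst hr
  obtain ⟨b, -⟩ : ∃ b : Module.Basis (Fin (Module.finrank ℚ_[p] Y)) ℚ_[p] Y, True :=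
    ⟨Module.finBasis ℚ_[p] Y, trivial⟩
  obtain ⟨r, hr⟩ : ∃ r, r = Module.finrank ℚ_[p] Y := ⟨_, rfl⟩
  rw [← hr] at b hrpos
  haveI : Nonempty (Fin r) := ⟨⟨0, hrpos⟩⟩
  haveI : Nontrivial (Fin r → ℚ_[p]) := inferInstance
  obtain ⟨ev, hev⟩ : ∃ ev : F → (Fin r → ℚ_[p]), ev = fun h i => (b i : F → ℚ_[p]) h := ⟨_, rfl⟩
  have hb := fun i => (hYmem (b i : F → ℚ_[p])).1 (b i).2
  -- spanning
  have hspan : Submodule.span ℚ_[p] (ev '' (F₁ : Set F)) = ⊤ := by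
    by_contra hcon
    obtain ⟨ℓ, hℓ, hℓ'⟩ := Submodule.exists_le_ker_of_lt_top _ (lt_top_iff_ne_top.2 hcon)
    apply hℓ
    have h1 : ∀ h : F, ∑ j, ℓ (Pi.single j 1) * (b j : F → ℚ_[p]) h = 0 := by
      intro h
      by_cases hh : h ∈ F₁
      · have h2 : ℓ (ev h) = 0 := hℓ' (Submodule.subset_span ⟨h, hh, rfl⟩)
        rw [← h2]
        have h3 : ev h = ∑ j, (b j : F → ℚ_[p]) h • (Pi.single j 1 : Fin r → ℚ_[p]) := by
          rw [hev]
          exact pi_eq_sum_univ' _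
        rw [h3, map_sum]
        apply Finset.sum_congr rfl
        intro j _
        rw [map_smul, smul_eq_mul, mul_comm]
      · apply Finset.sum_eq_zero
        intro j _
        rw [(hb j).2.2.1 h hh, mul_zero]
    have h2 : ∑ j, ℓ (Pi.single j 1) • b j = 0 := by
      apply Subtype.ext
      funext h
      have := h1 h
      simp only [Submodule.coe_sum, Submodule.coe_smul, Finset.sum_apply, Pi.smul_apply,
        smul_eq_mul]
      rw [this]
      rfl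
    have h3 := (Fintype.linearIndependent_iff.1 b.linearIndependent) _ h2
    apply LinearMap.pi_ext'
    intro j
    apply LinearMap.ext_ring
    show ℓ (Pi.single j 1) = 0
    exact h3 j
  have hext : ∀ L₁ L₂ : (Fin r → ℚ_[p]) →ₗ[ℚ_[p]] (Fin r → ℚ_[p]),
      (∀ h ∈ F₁, L₁ (ev h) = L₂ (ev h)) → L₁ = L₂ := by
    intro L₁ L₂ hL
    apply LinearMap.ext_on hspan
    rintro _ ⟨h, hh, rfl⟩
    exact hL h hh
  have hevadd : ∀ f ∈ F₁, ∀ h ∈ F₁, ev (f * h) = ev f + ev h := by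
    intro f hf h hh
    rw [hev]
    funext i
    exact (hb i).2.1 f hf h hh
  have hevc : ContinuousOn ev F₁ := by
    rw [hev]
    exact continuousOn_pi.2 fun i => (hb i).1
  have hevconj : ∀ w ∈ F₁, ∀ f ∈ F₁, ev (w * f * w⁻¹) = ev f := by
    intro w hw f hf
    rw [hev]
    funext i
    exact T1_conj (hb i).2.1 hw hf
  -- the action by conjugation
  have hαY : ∀ f : F, ∀ ψ ∈ Y, (fun h => ψ (f * h * f⁻¹)) ∈ Y := by
    intro f ψ hψ
    obtain ⟨h1, h2, h3, h4⟩ := (hYmem ψ).1 hψ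
    rw [hYmem]
    refine ⟨?_, ?_, ?_, ?_⟩
    · apply h1.comp (by fun_prop)
      intro h hh
      exact hn.conj_mem h hh f
    · intro a ha c hc'
      have e1 : f * (a * c) * f⁻¹ = (f * a * f⁻¹) * (f * c * f⁻¹) := by group
      show ψ (f * (a * c) * f⁻¹) = ψ (f * a * f⁻¹) + ψ (f * c * f⁻¹)
      rw [e1, h2 _ (hn.conj_mem a ha f) _ (hn.conj_mem c hc' f)]
    · intro a ha
      apply h3
      intro hcon
      apply ha
      have := hn.conj_mem _ hcon f⁻¹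
      have e1 : f⁻¹ * (f * a * f⁻¹) * f⁻¹⁻¹ = a := by group
      rw [e1] at this
      exact this
    · intro a ha
      show ψ (f * (φ ^ M1) a * f⁻¹) = ψ (f * a * f⁻¹)
      have hfa := hn.conj_mem a ha f
      have e1 : (φ ^ M1) (f * a * f⁻¹) =
          ((φ ^ M1) f * f⁻¹) * (f * (φ ^ M1) a * f⁻¹) * ((φ ^ M1) f * f⁻¹)⁻¹ := by
        rw [map_mul, map_mul, map_inv]
        group
      rw [← h4 _ hfa, e1, T1_conj h2 (hM1F f) (hn.conj_mem _ ((hΦmem M1 a).2 ha) f)]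
  have hLex := fun f => T1_lin Y b (fun h => f * h * f⁻¹) (hαY f)
  choose L hL using hLex
  have hL' : ∀ f h, L f (ev h) = ev (f * h * f⁻¹) := by
    intro f h
    rw [hev]
    exact hL f h
  have hL1 : L 1 = LinearMap.id := by
    apply hext
    intro h _
    rw [hL', one_mul, inv_one, mul_one]
    rfl
  have hLmul : ∀ f g, L (f * g) = L f ∘ₗ L g := by
    intro f g
    apply hext
    intro h _
    rw [LinearMap.comp_apply, hL', hL', hL']
    congr 1
    group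
  obtain ⟨σ, hσ⟩ : ∃ σ : F →* ((Fin r → ℚ_[p]) →L[ℚ_[p]] (Fin r → ℚ_[p])),
      ∀ f v, σ f v = L f v := by
    refine ⟨{ toFun := fun f => LinearMap.toContinuousLinearMap (L f)
              map_one' := ?_
              map_mul' := ?_ }, fun f v => rfl⟩
    · ext v : 1
      show L 1 v = v
      rw [hL1]
      rfl
    · intro f g
      ext v : 1
      show L (f * g) v = L f (L g v)
      rw [hLmul]
      rfl
  have hσev : ∀ f h, σ f (ev h) = ev (f * h * f⁻¹) := fun f h => by rw [hσ, hL']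
  have hσ1 : ∀ f ∈ F₁, σ f = 1 := by
    intro f hf
    have h1 : L f = LinearMap.id := by
      apply hext
      intro h hh
      rw [hL', hevconj f hf h hh]
      rfl
    ext v : 1
    rw [hσ, h1]
    rfl
  have hσc : Continuous σ := by
    apply IsLocallyConstant.continuous
    rw [IsLocallyConstant.iff_exists_open]
    intro f
    refine ⟨{h | f⁻¹ * h ∈ F₁}, ?_, ?_, ?_⟩
    · exact ho.preimage (by fun_prop : Continuous fun h => f⁻¹ * h)
    · show f⁻¹ * f ∈ F₁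
      rw [inv_mul_cancel]
      exact F₁.one_mem
    · intro h hh
      have h1 : h = f * (f⁻¹ * h) := by group
      rw [h1, map_mul, hσ1 _ hh, mul_one]
  haveI hfinq : Finite (F ⧸ F₁) := F₁.quotient_finite_of_isOpen ho
  have hσfin : (Set.range σ).Finite := by
    refine (Set.finite_range (fun q : F ⧸ F₁ => σ q.out)).subset ?_
    rintro _ ⟨f, rfl⟩
    refine ⟨QuotientGroup.mk f, ?_⟩
    have h1 : (QuotientGroup.mk f : F ⧸ F₁) = QuotientGroup.mk (QuotientGroup.mk f : F ⧸ F₁).out :=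
      (QuotientGroup.out_eq' _).symm
    rw [QuotientGroup.eq] at h1
    have h2 : ((QuotientGroup.mk f : F ⧸ F₁).out) =
        f * (f⁻¹ * (QuotientGroup.mk f : F ⧸ F₁).out) := by group
    show σ ((QuotientGroup.mk f : F ⧸ F₁).out) = σ f
    rw [h2, map_mul, hσ1 _ h1, mul_one]
  -- the operator B
  have hβY : ∀ ψ ∈ Y, (fun h => ψ (φ h)) ∈ Y := by
    intro ψ hψ
    obtain ⟨h1, h2, h3, h4⟩ := (hYmem ψ).1 hψ
    rw [hYmem]
    refine ⟨?_, ?_, ?_, ?_⟩
    · apply h1.comp φ.continuous_toFun.continuousOn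
      intro h hh
      exact (hinv h).2 hh
    · intro a ha c hc'
      show ψ (φ (a * c)) = ψ (φ a) + ψ (φ c)
      rw [map_mul, h2 _ ((hinv a).2 ha) _ ((hinv c).2 hc')]
    · intro a ha
      exact h3 _ (fun hcon => ha ((hinv a).1 hcon))
    · intro a ha
      show ψ (φ ((φ ^ M1) a)) = ψ (φ a)
      rw [← T1_pow_comm, h4 _ ((hinv a).2 ha)]
  obtain ⟨B, hB⟩ := T1_lin Y b (fun h => φ h) hβY
  have hB' : ∀ h, B (ev h) = ev (φ h) := by
    intro h
    rw [hev]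
    exact hB h
  have hBpow : ∀ n : ℕ, ∀ h, (B ^ n) (ev h) = ev ((φ ^ n) h) := by
    intro n
    induction n with
    | zero => intro h; rfl
    | succ n ih =>
      intro h
      rw [pow_succ, Module.End.mul_apply, hB', ih, pow_succ, aut_mul_apply]
  have hBM : B ^ M1 = 1 := by
    apply hext
    intro h hh
    rw [hBpow]
    rw [hev]
    funext i
    exact (hb i).2.2.2 h hh
  have hdet : LinearMap.det B ^ M1 = 1 := by
    rw [← map_pow, hBM, map_one]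
  obtain ⟨C, hCc, hCcoc, hCev⟩ := transfer_cocycle F₁ hn ho σ hσ1 ev hevc hevadd
    (fun f h _ => (hσev f h).symm)
  have hspan' : Submodule.span ℚ_[p] (C '' {f | σ f = 1}) = ⊤ := by
    rw [eq_top_iff, ← hspan]
    apply Submodule.span_mono
    rintro _ ⟨h, hh, rfl⟩
    exact ⟨h, hσ1 h hh, hCev h hh⟩
  have hB1 : ∀ f v, σ (φ f) (B v) = B (σ f v) := by
    intro f v
    have h1 : (L (φ f)) ∘ₗ B = B ∘ₗ (L f) := by
      apply hext
      intro h _
      rw [LinearMap.comp_apply, LinearMap.comp_apply, hB', hL', hL', hB']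
      congr 1
      rw [map_mul, map_mul, map_inv]
    have h2 := LinearMap.congr_fun h1 v
    rw [hσ, hσ]
    exact h2
  have hB2 : ∀ f, σ f = 1 → C (φ f) = B (C f) := by
    intro f hf
    have hpowC : ∀ g, σ g = 1 → ∀ n : ℕ, C (g ^ n) = (n : ℚ_[p]) • C g := by
      intro g hg n
      induction n with
      | zero =>
        have h1 := hCcoc 1 1
        rw [mul_one, map_one] at h1
        have h2 : C 1 = C 1 + C 1 := h1
        rw [pow_zero, Nat.cast_zero, zero_smul]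
        exact left_eq_add.1 h2
      | succ n ih =>
        rw [pow_succ, hCcoc, ih, map_pow, hg, one_pow]
        show (n : ℚ_[p]) • C g + C g = ((n + 1 : ℕ) : ℚ_[p]) • C g
        rw [Nat.cast_succ, add_smul, one_smul]
    have hf' : σ (φ f) = 1 := by
      ext v : 1
      have h1 : v = B ((B ^ (M1 - 1)) v) := by
        have h2 : B * B ^ (M1 - 1) = 1 := by
          rw [← pow_succ', Nat.sub_add_cancel hM1pos, hBM]
        have h3 := LinearMap.congr_fun h2 v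
        exact h3.symm
      rw [h1, hB1, hf]
      rfl
    have hq : F₁.index ≠ 0 := by
      haveI : F₁.FiniteIndex := Subgroup.finiteIndex_of_finite_quotient
      exact Subgroup.FiniteIndex.index_ne_zero
    have hmem : f ^ F₁.index ∈ F₁ := by
      haveI := hn
      exact F₁.pow_index_mem f
    have h1 : (F₁.index : ℚ_[p]) • C (φ f) = (F₁.index : ℚ_[p]) • B (C f) := by
      rw [← hpowC _ hf', ← map_smul, ← hpowC _ hf, ← map_pow, hCev _ hmem,
        hCev _ ((hinv _).2 hmem), hB']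
    have h2 : (F₁.index : ℚ_[p]) ≠ 0 := by exact_mod_cast hq
    exact smul_right_injective _ h2 h1
  obtain ⟨k, hk⟩ := T1_lie (p := p) (Set.range σ) hσfin ⟨1, map_one σ⟩
  refine not_bad_abs φ hφ σ hσc C hCc hCcoc hspan' ⊥ k hk ?_ ?_ B hB1 hB2 M1 hM1pos hdet
  · intro a ha c hc'
    rw [Submodule.mem_bot] at ha hc' ⊢
    rw [ha, hc', mul_zero, sub_zero]
  · intro X _ _ _ τ D _ _
    refine ⟨0, fun a ha => ?_⟩
    rw [Submodule.mem_bot] at ha
    rw [ha, map_zero, map_zero]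

end

end Pool.Agent.Helper156.RWF.J13862
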