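import Pool.Agent.Helper156.RWF.D0
import Pool.Agent.Helper156.RWF.J12439
import Pool.Agent.Helper156.RWF.J12441
import Pool.Agent.Helper156.RWF.J12442

namespace Pool.Agent.Helper156.RWF.J13969

open Pool.Agent.Helper156.RWF Pool.Agent.Helper156.RWF.J12439 Pool.Agent.Helper156.RWF.J12441 Pool.Agent.Helper156.RWF.J12442
open Filter Topology MeasureTheory


section
variable {p : ℕ} [Fact p.Prime]
variable {F : Type} [Group F] [TopologicalSpace F] [IsTopologicalGroup F] [CompactSpace F]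
  [T2Space F] [TotallyDisconnectedSpace F]
variable {A : Type} [NormedRing A] [NormedAlgebra ℚ_[p] A] [IsUltrametricDist A] [NormOneClass A]
  [FiniteDimensional ℚ_[p] A]


/-- a compression onto an eigenspace -/
theorem mat_eig {L : Type} [Field L] {N : ℕ} (X : Matrix (Fin N) (Fin N) L) (α : L)
    (hdet : (Matrix.scalar (Fin N) α - X).det = 0) :
    ∃ (n : ℕ) (P : Matrix (Fin n) (Fin N) L) (J : Matrix (Fin N) (Fin n) L), 1 ≤ n ∧
      P * J = 1 ∧ X * J = α • J ∧
      ∀ U : Matrix (Fin N) (Fin N) L, U * X = X * U → J * (P * (U * J)) = U * J := by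
  classical
  set W : Submodule L (Fin N → L) := LinearMap.ker (Matrix.toLin' (Matrix.scalar (Fin N) α - X))
    with hW
  have hWmem : ∀ v, v ∈ W ↔ X.mulVec v = α • v := by
    intro v
    rw [hW, LinearMap.mem_ker, Matrix.toLin'_apply, Matrix.sub_mulVec, sub_eq_zero]
    have : (Matrix.scalar (Fin N) α).mulVec v = α • v := by
      ext i
      simp [Matrix.scalar_apply, Matrix.mulVec_diagonal]
    rw [this]
    exact eq_comm
  have hne : W ≠ ⊥ := by
    obtain ⟨v, hv, hv'⟩ := Matrix.exists_mulVec_eq_zero_iff.2 hdet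
    intro h
    apply hv
    have : v ∈ W := by rw [hW, LinearMap.mem_ker, Matrix.toLin'_apply]; exact hv'
    rw [h] at this
    exact this
  obtain ⟨π, hπ⟩ := LinearMap.exists_leftInverse_of_injective W.subtype (Submodule.ker_subtype W)
  set e := Module.finBasis L W with he
  have hcomp : ∀ w : W, π (w : Fin N → L) = w := fun w => LinearMap.congr_fun hπ w
  have hU : ∀ U : Matrix (Fin N) (Fin N) L,
      LinearMap.toMatrix (Pi.basisFun L (Fin N)) (Pi.basisFun L (Fin N)) (Matrix.toLin' U) = U := by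
    intro U
    rw [← Matrix.toLin_eq_toLin', LinearMap.toMatrix_toLin]
  refine ⟨Module.finrank L W, LinearMap.toMatrix (Pi.basisFun L (Fin N)) e π,
    LinearMap.toMatrix e (Pi.basisFun L (Fin N)) W.subtype, ?_, ?_, ?_, ?_⟩
  · rw [Nat.one_le_iff_ne_zero]
    intro h
    exact hne (Submodule.finrank_eq_zero.1 h)
  · rw [← LinearMap.toMatrix_comp, hπ, LinearMap.toMatrix_id]
  · conv_lhs => rw [← hU X]
    rw [← LinearMap.toMatrix_comp, ← map_smul]
    congr 1
    ext w : 1
    simp only [LinearMap.comp_apply, LinearMap.smul_apply, Submodule.subtype_apply,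
      Matrix.toLin'_apply]
    exact (hWmem w).1 w.2
  · intro U hUX
    have h1 : U * LinearMap.toMatrix e (Pi.basisFun L (Fin N)) W.subtype =
        LinearMap.toMatrix e (Pi.basisFun L (Fin N)) (Matrix.toLin' U ∘ₗ W.subtype) := by
      rw [LinearMap.toMatrix_comp e (Pi.basisFun L (Fin N)), hU]
    rw [h1, ← LinearMap.toMatrix_comp, ← LinearMap.toMatrix_comp]
    congr 1
    ext w : 1
    simp only [LinearMap.comp_apply, Submodule.subtype_apply, Matrix.toLin'_apply]
    have h2 : U.mulVec (w : Fin N → L) ∈ W := by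
      rw [hWmem, Matrix.mulVec_mulVec, ← hUX, ← Matrix.mulVec_mulVec, (hWmem w).1 w.2,
        Matrix.mulVec_smul]
    exact congrArg Subtype.val (hcomp ⟨_, h2⟩)

/-- a non-nilpotent matrix over an algebraically closed field has a non-zero eigenvalue -/
theorem exists_eig {L : Type} [Field L] [IsAlgClosed L] {N : ℕ} (X : Matrix (Fin N) (Fin N) L)
    (hX : ¬ IsNilpotent X) : ∃ α : L, α ≠ 0 ∧ (Matrix.scalar (Fin N) α - X).det = 0 := by
  by_contra hcon
  push Not at hcon
  apply hX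
  have h0 : ∀ r ∈ X.charpoly.roots, r = 0 := by
    intro r hr
    by_contra hr0
    refine hcon r hr0 ?_
    rw [← Matrix.eval_charpoly]
    exact (Polynomial.mem_roots'.1 hr).2
  have h1 : X.charpoly = Polynomial.X ^ (Multiset.card X.charpoly.roots) := by
    conv_lhs => rw [(IsAlgClosed.splits X.charpoly).eq_prod_roots_of_monic (Matrix.charpoly_monic X)]
    rw [Multiset.eq_replicate_card.2 h0]
    simp
  refine ⟨Multiset.card X.charpoly.roots, ?_⟩
  have h2 := Matrix.aeval_self_charpoly X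
  rw [h1] at h2
  simpa using h2

/-- summability of the exponential series in any complete algebra -/
theorem exp_summ {A : Type} [NormedRing A] [NormedAlgebra ℚ_[p] A] [CompleteSpace A] (x : A)
    (hx : (p : ℝ) * ‖x‖ < 1) : Summable (fun n : ℕ => ((n.factorial : ℚ_[p])⁻¹) • x ^ n) := by
  rw [← summable_nat_add_iff 1]
  have hp0 : (0 : ℝ) ≤ (p : ℝ) * ‖x‖ := by positivity
  refine Summable.of_norm_bounded
    (g := fun n : ℕ => ‖x‖ * ((p : ℝ) * ‖x‖) ^ n) ?_ ?_
  · exact (summable_geometric_of_lt_one hp0 hx).mul_left _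
  · intro n
    rw [norm_smul]
    calc ‖(((n + 1).factorial : ℚ_[p])⁻¹)‖ * ‖x ^ (n + 1)‖
        ≤ (p : ℝ) ^ (n + 1 - 1) * ‖x‖ ^ (n + 1) := by
          gcongr
          · exact norm_inv_fact (n + 1) (by omega)
          · exact norm_pow_le' x (by omega)
      _ = ‖x‖ * ((p : ℝ) * ‖x‖) ^ n := by
          rw [Nat.add_sub_cancel, mul_pow, pow_succ]; ring

theorem E_hasSum {A : Type} [NormedRing A] [NormedAlgebra ℚ_[p] A] [CompleteSpace A] (x : A)
    (hx : (p : ℝ) * ‖x‖ < 1) :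
    HasSum (fun n : ℕ => ((n.factorial : ℚ_[p])⁻¹) • x ^ n) (E p x) :=
  (exp_summ x hx).hasSum

/-- smallness of scaled elements -/
theorem small_ev {A : Type} [NormedRing A] [NormedAlgebra ℚ_[p] A] (x : A) (ε : ℝ) (hε : 0 < ε) :
    ∃ j₀ : ℕ, ∀ j, j₀ ≤ j → ‖((p : ℚ_[p]) ^ j • x)‖ < ε := by
  have hp1 : ‖(p : ℚ_[p])‖ < 1 := Padic.norm_p_lt_one
  have h1 : Tendsto (fun j : ℕ => ‖(p : ℚ_[p])‖ ^ j * ‖x‖) atTop (𝓝 0) := by
    have := (tendsto_pow_atTop_nhds_zero_of_lt_one (norm_nonneg _) hp1).mul_const ‖x‖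
    simpa using this
  have h2 := h1.eventually (gt_mem_nhds hε)
  obtain ⟨j₀, hj₀⟩ := eventually_atTop.1 h2
  refine ⟨j₀, fun j hj => ?_⟩
  rw [norm_smul, norm_pow]
  exact hj₀ j hj

theorem det_char_aux {L : Type} [NormedField L] [NormedAlgebra ℚ_[p] L]
    [FiniteDimensional ℚ_[p] L] [IsUltrametricDist L] (N : ℕ) (x : EN p N) (α : L) (hα : α ≠ 0)
    (hdet : (Matrix.scalar (Fin N) α -
      (LinearMap.toMatrix' (x : (Fin N → ℚ_[p]) →ₗ[ℚ_[p]] (Fin N → ℚ_[p]))).map
        (algebraMap ℚ_[p] L)).det = 0) :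
    ∃ (s : ℕ) (δ : EN p N → EN p s) (y : EN p s), 1 ≤ s ∧ y ≠ 0 ∧
      ContinuousOn δ {u | u * x = x * u} ∧ δ 1 = 1 ∧
      (∀ u v, u * x = x * u → v * x = x * v → δ (u * v) = δ u * δ v) ∧
      (∀ u v, u * x = x * u → v * x = x * v → δ u * δ v = δ v * δ u) ∧
      ∃ j₀ : ℕ, ∀ j, j₀ ≤ j → δ (E p ((p : ℚ_[p]) ^ j • x)) = E p ((p : ℚ_[p]) ^ j • y) := by
  classical
  haveI : CompleteSpace L := FiniteDimensional.complete ℚ_[p] L
  haveI : CharZero L := (RingHom.charZero_iff (algebraMap ℚ_[p] L).injective).mp inferInstance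
  -- the algebra morphisms
  let Φ : EN p N →ₐ[ℚ_[p]] Matrix (Fin N) (Fin N) L :=
    ((Algebra.ofId ℚ_[p] L).mapMatrix).comp
      ((LinearMap.toMatrixAlgEquiv' : _ ≃ₐ[ℚ_[p]] Matrix (Fin N) (Fin N) ℚ_[p]).toAlgHom.comp
        (Module.End.toContinuousLinearMap (𝕜 := ℚ_[p]) (Fin N → ℚ_[p])).symm.toAlgHom)
  have hΦx : Φ x = (LinearMap.toMatrix' (x : (Fin N → ℚ_[p]) →ₗ[ℚ_[p]] (Fin N → ℚ_[p]))).map
        (algebraMap ℚ_[p] L) := rfl
  obtain ⟨n, P, J, hn, hPJ, hXJ, hU⟩ := mat_eig (Φ x) α (by rw [hΦx]; exact hdet)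
  set s := Module.finrank ℚ_[p] L with hs
  have hs1 : 1 ≤ s := Module.finrank_pos
  let b := Module.finBasis ℚ_[p] L
  let m : L →ₐ[ℚ_[p]] EN p s :=
    (Module.End.toContinuousLinearMap (𝕜 := ℚ_[p]) (Fin s → ℚ_[p])).toAlgHom.comp
      ((Matrix.toLinAlgEquiv' : Matrix (Fin s) (Fin s) ℚ_[p] ≃ₐ[ℚ_[p]] _).toAlgHom.comp
        (Algebra.leftMulMatrix b))
  have hs0 : Nonempty (Fin s) := ⟨⟨0, hs1⟩⟩
  haveI : Nontrivial (EN p s) := by
    refine ⟨⟨0, 1, ?_⟩⟩
    intro h
    have := congrArg (fun f : EN p s => f (fun _ => 1) (Classical.choice hs0)) h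
    simp at this
  have hminj : Function.Injective m := RingHom.injective (m : L →+* EN p s)
  have hmcont : Continuous m := LinearMap.continuous_of_finiteDimensional m.toLinearMap
  have hΦcont : Continuous Φ := LinearMap.continuous_of_finiteDimensional Φ.toLinearMap
  let d : EN p N → L := fun u => (P * (Φ u * J)).det
  have hdcont : Continuous d := by
    apply Continuous.matrix_det
    exact Continuous.matrix_mul continuous_const (Continuous.matrix_mul hΦcont continuous_const)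
  have hd1 : d 1 = 1 := by
    simp only [d, map_one, Matrix.one_mul, hPJ, Matrix.det_one]
  have hdmul : ∀ u v, u * x = x * u → v * x = x * v → d (u * v) = d u * d v := by
    intro u v hu hv
    have h1 : Φ v * Φ x = Φ x * Φ v := by rw [← map_mul, hv, map_mul]
    have h2 := hU (Φ v) h1
    simp only [d]
    rw [← Matrix.det_mul, map_mul]
    congr 1
    conv_lhs => rw [Matrix.mul_assoc (Φ u), ← h2]
    simp only [Matrix.mul_assoc]
  let α' : L := (n : L) * α
  have hn0 : (n : L) ≠ 0 := by exact_mod_cast (by omega : n ≠ 0)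
  refine ⟨s, fun u => m (d u), m α', hs1, ?_, (hmcont.comp hdcont).continuousOn, ?_, ?_, ?_, ?_⟩
  · intro h
    have : α' = 0 := hminj (by rw [h, map_zero])
    exact mul_ne_zero hn0 hα this
  · simp only [hd1, map_one]
  · intro u v hu hv
    simp only [hdmul u v hu hv, map_mul]
  · intro u v hu hv
    rw [← map_mul, ← map_mul, mul_comm]
  · have hp0 : (0 : ℝ) < p := by exact_mod_cast (Fact.out : p.Prime).pos
    obtain ⟨j₁, hj₁⟩ := small_ev (p := p) x ((p : ℝ)⁻¹) (by positivity)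
    obtain ⟨j₂, hj₂⟩ := small_ev (p := p) α (((p : ℝ)⁻¹) ^ 2) (by positivity)
    obtain ⟨j₃, hj₃⟩ := small_ev (p := p) α' ((p : ℝ)⁻¹) (by positivity)
    obtain ⟨j₄, hj₄⟩ := small_ev (p := p) (m α') ((p : ℝ)⁻¹) (by positivity)
    have hlt : ∀ t : ℝ, t < (p : ℝ)⁻¹ → (p : ℝ) * t < 1 := by
      intro t ht
      calc (p : ℝ) * t < (p : ℝ) * (p : ℝ)⁻¹ := by gcongr
        _ = 1 := mul_inv_cancel₀ hp0.ne'
    have hp1 : (p : ℝ)⁻¹ < 1 := by
      apply inv_lt_one_of_one_lt₀
      exact_mod_cast (Fact.out : p.Prime).one_lt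
    have hlt2 : ((p : ℝ)⁻¹) ^ 2 < (p : ℝ)⁻¹ := by
      have : (0 : ℝ) < (p : ℝ)⁻¹ := by positivity
      nlinarith
    refine ⟨max (max j₁ j₂) (max j₃ j₄), fun j hj => ?_⟩
    have hx := hj₁ j (by omega)
    have ha := hj₂ j (by omega)
    have ha' := hj₃ j (by omega)
    have hm := hj₄ j (by omega)
    -- the exponential of `x`
    have hEx := E_hasSum _ (hlt _ hx)
    have hEa := E_hasSum _ (hlt _ (ha.trans hlt2))
    have key : Φ (E p ((p : ℚ_[p]) ^ j • x)) * J = E p ((p : ℚ_[p]) ^ j • α) • J := by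
      have hc1 : Continuous (fun u : EN p N => Φ u * J) :=
        Continuous.matrix_mul hΦcont continuous_const
      let T1 : EN p N →+ Matrix (Fin N) (Fin n) L :=
        { toFun := fun u => Φ u * J
          map_zero' := by simp
          map_add' := fun u v => by rw [map_add, Matrix.add_mul] }
      have h1 := hEx.map T1 hc1
      have hc2 : Continuous (fun z : L => z • J) := by
        refine continuous_pi fun i => continuous_pi fun k => ?_
        exact continuous_id.mul continuous_const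
      let T2 : L →+ Matrix (Fin N) (Fin n) L :=
        { toFun := fun z => z • J
          map_zero' := by simp
          map_add' := fun u v => by rw [add_smul] }
      have h2 := hEa.map T2 hc2
      have h3 : (T1 ∘ fun k : ℕ => ((k.factorial : ℚ_[p])⁻¹) • ((p : ℚ_[p]) ^ j • x) ^ k) =
          (T2 ∘ fun k : ℕ => ((k.factorial : ℚ_[p])⁻¹) • ((p : ℚ_[p]) ^ j • α) ^ k) := by
        funext k
        change Φ (((k.factorial : ℚ_[p])⁻¹) • ((p : ℚ_[p]) ^ j • x) ^ k) * J =
          (((k.factorial : ℚ_[p])⁻¹) • ((p : ℚ_[p]) ^ j • α) ^ k) • J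
        rw [map_smul, map_pow, map_smul, Matrix.smul_mul, smul_assoc]
        congr 1
        induction k with
        | zero => simp
        | succ k ih =>
          rw [pow_succ, Matrix.mul_assoc, Matrix.smul_mul, hXJ, Matrix.mul_smul, Matrix.mul_smul, ih,
            pow_succ]
          rw [smul_smul, ← smul_assoc]
          congr 1
          rw [mul_smul_comm, mul_comm α]
      rw [h3] at h1
      exact h1.unique h2
    have hdE : d (E p ((p : ℚ_[p]) ^ j • x)) = E p ((p : ℚ_[p]) ^ j • α) ^ n := by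
      simp only [d]
      rw [key, Matrix.mul_smul, hPJ, Matrix.det_smul, Matrix.det_one, mul_one, Fintype.card_fin]
    have hEn : E p ((p : ℚ_[p]) ^ j • α) ^ n = E p ((p : ℚ_[p]) ^ j • α') := by
      rw [← E_nsmul n _ ha.le]
      congr 1
      simp only [α']
      rw [nsmul_eq_mul, mul_smul_comm]
    have hEm : m (E p ((p : ℚ_[p]) ^ j • α')) = E p ((p : ℚ_[p]) ^ j • m α') := by
      have h1 := (E_hasSum _ (hlt _ ha')).map m hmcont
      have h2 := E_hasSum _ (hlt _ hm)
      have h3 : (m ∘ fun k : ℕ => ((k.factorial : ℚ_[p])⁻¹) • ((p : ℚ_[p]) ^ j • α') ^ k) =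
          (fun k : ℕ => ((k.factorial : ℚ_[p])⁻¹) • ((p : ℚ_[p]) ^ j • m α') ^ k) := by
        funext k
        simp only [Function.comp_apply, map_smul, map_pow]
      rw [h3] at h1
      exact h1.unique h2
    change m (d (E p ((p : ℚ_[p]) ^ j • x))) = _
    rw [hdE, hEn, hEm]

/-- determinant over the field generated by `x` -/
theorem det_char (N : ℕ) (x : EN p N) (hx : ¬ IsNilpotent x) :
    ∃ (s : ℕ) (δ : EN p N → EN p s) (y : EN p s), 1 ≤ s ∧ y ≠ 0 ∧
      ContinuousOn δ {u | u * x = x * u} ∧ δ 1 = 1 ∧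
      (∀ u v, u * x = x * u → v * x = x * v → δ (u * v) = δ u * δ v) ∧
      (∀ u v, u * x = x * u → v * x = x * v → δ u * δ v = δ v * δ u) ∧
      ∃ j₀ : ℕ, ∀ j, j₀ ≤ j → δ (E p ((p : ℚ_[p]) ^ j • x)) = E p ((p : ℚ_[p]) ^ j • y) := by
  classical
  let Ω := PadicAlgCl p
  let M : Matrix (Fin N) (Fin N) ℚ_[p] :=
    LinearMap.toMatrix' (x : (Fin N → ℚ_[p]) →ₗ[ℚ_[p]] (Fin N → ℚ_[p]))
  have hM : ¬ IsNilpotent (M.map (algebraMap ℚ_[p] Ω)) := by
    rintro ⟨k, hk⟩
    apply hx
    refine ⟨k, ?_⟩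
    have h1 : M ^ k = 0 := by
      have h2 : ((M ^ k).map (algebraMap ℚ_[p] Ω)) = (0 : Matrix (Fin N) (Fin N) ℚ_[p]).map
          (algebraMap ℚ_[p] Ω) := by
        rw [Matrix.map_pow, hk]
        ext i j
        simp
      exact Matrix.map_injective (algebraMap ℚ_[p] Ω).injective h2
    have h3 : LinearMap.toMatrixAlgEquiv'
        ((x ^ k : EN p N) : (Fin N → ℚ_[p]) →ₗ[ℚ_[p]] (Fin N → ℚ_[p])) = 0 := by
      have h4 : ((x ^ k : EN p N) : (Fin N → ℚ_[p]) →ₗ[ℚ_[p]] (Fin N → ℚ_[p])) =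
        ((x : (Fin N → ℚ_[p]) →ₗ[ℚ_[p]] (Fin N → ℚ_[p])) : Module.End ℚ_[p] (Fin N → ℚ_[p])) ^ k :=
        map_pow (Module.End.toContinuousLinearMap (𝕜 := ℚ_[p]) (Fin N → ℚ_[p])).symm x k
      rw [h4, map_pow]
      exact h1
    have h5 := (EmbeddingLike.map_eq_zero_iff).1 h3
    ext1 v
    have := LinearMap.congr_fun h5 v
    exact this
  obtain ⟨α, hα, hdet⟩ := exists_eig _ hM
  let K := IntermediateField.adjoin ℚ_[p] {α}
  haveI : FiniteDimensional ℚ_[p] K :=
    IntermediateField.adjoin.finiteDimensional (Algebra.IsAlgebraic.isAlgebraic α).isIntegral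
  letI : NormedAlgebra ℚ_[p] K :=
    { (inferInstance : Algebra ℚ_[p] K) with
      norm_smul_le := fun a z => by
        change ‖a • (z : Ω)‖ ≤ _
        exact norm_smul_le a (z : Ω) }
  haveI : IsUltrametricDist K := IsUltrametricDist.subtype _
  let a : K := ⟨α, IntermediateField.mem_adjoin_simple_self ℚ_[p] α⟩
  refine det_char_aux (L := K) N x a (fun h => hα (congrArg Subtype.val h)) ?_
  have hinj : Function.Injective (algebraMap K Ω) := (algebraMap K Ω).injective
  apply hinj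
  rw [map_zero, RingHom.map_det, ← hdet]
  congr 1
  ext i j
  by_cases hij : i = j
  · subst hij
    simp [Matrix.scalar_apply]
    rfl
  · simp [Matrix.scalar_apply, hij]
    rfl

end

end Pool.Agent.Helper156.RWF.J13969
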