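import Pool.Agent.Helper156.RWF.D0

namespace Pool.Agent.Helper156.RWF.J13970

open Pool.Agent.Helper156.RWF
open Filter Topology MeasureTheory


section
variable {p : ℕ} [Fact p.Prime]
variable {F : Type} [Group F] [TopologicalSpace F] [IsTopologicalGroup F] [CompactSpace F]
  [T2Space F] [TotallyDisconnectedSpace F]
variable {A : Type} [NormedRing A] [NormedAlgebra ℚ_[p] A] [IsUltrametricDist A] [NormOneClass A]
  [FiniteDimensional ℚ_[p] A]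


/-- stable subspaces -/
def ssSt {p N : ℕ} [Fact p.Prime] (g : Submodule ℚ_[p] (EN p N))
    (W : Submodule ℚ_[p] (Fin N → ℚ_[p])) : Prop := ∀ x ∈ g, ∀ w ∈ W, x w ∈ W

/-- minimal stable subspaces -/
def ssMin {p N : ℕ} [Fact p.Prime] (g : Submodule ℚ_[p] (EN p N))
    (U : Submodule ℚ_[p] (Fin N → ℚ_[p])) : Prop :=
  ssSt g U ∧ U ≠ ⊥ ∧ ∀ U' : Submodule ℚ_[p] (Fin N → ℚ_[p]), ssSt g U' → U' ≤ U → U' = ⊥ ∨ U' = U

theorem ssSt_sup {p N : ℕ} [Fact p.Prime] {g : Submodule ℚ_[p] (EN p N)}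
    {W W' : Submodule ℚ_[p] (Fin N → ℚ_[p])} (h : ssSt g W) (h' : ssSt g W') :
    ssSt g (W ⊔ W') := by
  intro x hx w hw
  obtain ⟨u, hu, v, hv, rfl⟩ := Submodule.mem_sup.1 hw
  rw [map_add]
  exact Submodule.mem_sup.2 ⟨x u, h x hx u hu, x v, h' x hx v hv, rfl⟩

theorem ssSt_inf {p N : ℕ} [Fact p.Prime] {g : Submodule ℚ_[p] (EN p N)}
    {W W' : Submodule ℚ_[p] (Fin N → ℚ_[p])} (h : ssSt g W) (h' : ssSt g W') :
    ssSt g (W ⊓ W') := fun x hx w hw => ⟨h x hx w hw.1, h' x hx w hw.2⟩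

theorem ssMin_map {p N : ℕ} [Fact p.Prime] {g : Submodule ℚ_[p] (EN p N)} (T : EN p N)
    (h1 : ∀ x ∈ g, ∃ x' ∈ g, x * T = T * x') (h2 : ∀ x ∈ g, ∃ x' ∈ g, T * x = x' * T)
    {U : Submodule ℚ_[p] (Fin N → ℚ_[p])} (hU : ssMin g U) :
    U.map (T : (Fin N → ℚ_[p]) →ₗ[ℚ_[p]] (Fin N → ℚ_[p])) = ⊥ ∨
      ssMin g (U.map (T : (Fin N → ℚ_[p]) →ₗ[ℚ_[p]] (Fin N → ℚ_[p]))) := by
  by_cases hb : U.map (T : (Fin N → ℚ_[p]) →ₗ[ℚ_[p]] (Fin N → ℚ_[p])) = ⊥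
  · exact Or.inl hb
  right
  refine ⟨?_, hb, ?_⟩
  · rintro x hx _ ⟨u, hu, rfl⟩
    obtain ⟨x', hx', he⟩ := h1 x hx
    have h3 : x (T u) = T (x' u) := congrArg (fun S : EN p N => S u) he
    exact ⟨x' u, hU.1 x' hx' u hu, h3.symm⟩
  · intro U' hU' hle
    have hst : ssSt g (U ⊓ U'.comap (T : (Fin N → ℚ_[p]) →ₗ[ℚ_[p]] (Fin N → ℚ_[p]))) := by
      rintro x hx u ⟨hu1, hu2⟩
      refine ⟨hU.1 x hx u hu1, ?_⟩
      obtain ⟨x', hx', he⟩ := h2 x hx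
      have h3 : T (x u) = x' (T u) := congrArg (fun S : EN p N => S u) he
      change T (x u) ∈ U'
      rw [h3]
      exact hU' x' hx' _ hu2
    rcases hU.2.2 _ hst inf_le_left with h | h
    · left
      rw [eq_bot_iff]
      intro u' hu'
      obtain ⟨u, hu, hu''⟩ := hle hu'
      have h4 : u ∈ (U ⊓ U'.comap (T : (Fin N → ℚ_[p]) →ₗ[ℚ_[p]] (Fin N → ℚ_[p]))) := by
        refine ⟨hu, ?_⟩
        change T u ∈ U'
        have h5 : T u = u' := hu''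
        rw [h5]
        exact hu'
      rw [h, Submodule.mem_bot] at h4
      rw [← hu'', h4, map_zero]
      exact Submodule.zero_mem _
    · right
      apply le_antisymm hle
      rw [Submodule.map_le_iff_le_comap]
      exact inf_eq_left.1 h

theorem ss_socle_stable {p N : ℕ} [Fact p.Prime] {g : Submodule ℚ_[p] (EN p N)} (T : EN p N)
    (h1 : ∀ x ∈ g, ∃ x' ∈ g, x * T = T * x') (h2 : ∀ x ∈ g, ∃ x' ∈ g, T * x = x' * T) :
    ∀ w ∈ sSup {U | ssMin g U}, T w ∈ sSup {U | ssMin g U} := by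
  have h : sSup {U | ssMin g U} ≤ (sSup {U | ssMin g U}).comap
      (T : (Fin N → ℚ_[p]) →ₗ[ℚ_[p]] (Fin N → ℚ_[p])) := by
    apply sSup_le
    intro U hU
    rw [← Submodule.map_le_iff_le_comap]
    rcases ssMin_map T h1 h2 hU with h | h
    · rw [h]
      exact bot_le
    · exact le_sSup h
  exact fun w hw => h hw

theorem ss_of_irr (N : ℕ) (ρ : F →* EN p N) (hρn : ∀ f, ‖ρ f‖ ≤ 1)
    (g : Submodule ℚ_[p] (EN p N)) (a b : EN p N) (hab : a * b = 1) (hba : b * a = 1)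
    (hag : ∀ x ∈ g, a * x * b ∈ g) (hbg : ∀ x ∈ g, b * x * a ∈ g)
    (hρg : ∀ f, ∀ x ∈ g, ρ f * x * ρ f⁻¹ ∈ g)
    (ℒ : Set (EN p N)) (hℒg : ∀ l ∈ ℒ, ∀ x ∈ g, l * x = x * l)
    (hirr : ∀ W : Submodule ℚ_[p] (Fin N → ℚ_[p]), (∀ l ∈ ℒ, ∀ w ∈ W, l w ∈ W) →
      (∀ f, ∀ w ∈ W, ρ f w ∈ W) → (∀ w ∈ W, a w ∈ W) → W = ⊥ ∨ W = ⊤) :
    ∀ W : Submodule ℚ_[p] (Fin N → ℚ_[p]), (∀ x ∈ g, ∀ w ∈ W, x w ∈ W) →
      ∃ W' : Submodule ℚ_[p] (Fin N → ℚ_[p]), (∀ x ∈ g, ∀ w ∈ W', x w ∈ W') ∧ IsCompl W W' := by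
  have hρ1 : ∀ f, ρ f * ρ f⁻¹ = 1 := fun f => by rw [← map_mul, mul_inv_cancel, map_one]
  have hρ2 : ∀ f, ρ f⁻¹ * ρ f = 1 := fun f => by rw [← map_mul, inv_mul_cancel, map_one]
  have hS := hirr (sSup {U | ssMin g U})
    (fun l hl => ss_socle_stable l (fun x hx => ⟨x, hx, (hℒg l hl x hx).symm⟩)
      (fun x hx => ⟨x, hx, hℒg l hl x hx⟩))
    (fun f => ss_socle_stable (ρ f)
      (fun x hx => ⟨ρ f⁻¹ * x * ρ f, by
        have := hρg f⁻¹ x hx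
        rwa [inv_inv] at this, by
        rw [← mul_assoc, ← mul_assoc, hρ1, one_mul]⟩)
      (fun x hx => ⟨ρ f * x * ρ f⁻¹, hρg f x hx, by
        rw [mul_assoc, hρ2, mul_one]⟩))
    (ss_socle_stable a
      (fun x hx => ⟨b * x * a, hbg x hx, by rw [← mul_assoc, ← mul_assoc, hab, one_mul]⟩)
      (fun x hx => ⟨a * x * b, hag x hx, by rw [mul_assoc, hba, mul_one]⟩))
  have htop : sSup {U | ssMin g U} = ⊤ := by
    rcases hS with h | h
    · by_contra hne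
      have hne' : (⊤ : Submodule ℚ_[p] (Fin N → ℚ_[p])) ≠ ⊥ := by
        intro h'
        apply hne
        rw [h, h']
      obtain ⟨U, ⟨hU1, hU2⟩, hU3⟩ := wellFounded_lt.has_min
        {U : Submodule ℚ_[p] (Fin N → ℚ_[p]) | ssSt g U ∧ U ≠ ⊥}
        ⟨⊤, fun _ _ _ _ => Submodule.mem_top, hne'⟩
      have hmin : ssMin g U := by
        refine ⟨hU1, hU2, fun U' hU' hle => ?_⟩
        by_contra hcon
        push Not at hcon
        exact hU3 U' ⟨hU', hcon.1⟩ (lt_of_le_of_ne hle hcon.2)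
      have hle : U ≤ ⊥ := by
        rw [← h]
        exact le_sSup hmin
      exact hU2 (eq_bot_iff.2 hle)
    · exact h
  intro W hW
  obtain ⟨W', ⟨hW'1, hW'2⟩, hW'3⟩ := wellFounded_gt.has_min
    {W' : Submodule ℚ_[p] (Fin N → ℚ_[p]) | ssSt g W' ∧ Disjoint W W'}
    ⟨⊥, fun x _ w hw => by
      rw [Submodule.mem_bot] at hw
      rw [hw, map_zero]
      exact Submodule.zero_mem _, disjoint_bot_right⟩
  refine ⟨W', hW'1, hW'2, ?_⟩
  rw [codisjoint_iff, eq_top_iff, ← htop]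
  apply sSup_le
  intro U hU
  by_contra hnot
  have hst : ssSt g (U ⊓ (W ⊔ W')) := ssSt_inf hU.1 (ssSt_sup hW hW'1)
  rcases hU.2.2 _ hst inf_le_left with h | h
  · have hd : Disjoint (W ⊔ W') U := by
      rw [disjoint_iff, inf_comm]
      exact h
    have hd' : Disjoint W (W' ⊔ U) := hW'2.disjoint_sup_right_of_disjoint_sup_left hd
    refine hW'3 (W' ⊔ U) ⟨ssSt_sup hW'1 hU.1, hd'⟩ ?_
    refine lt_of_le_of_ne le_sup_left fun he => hnot ?_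
    have : U ≤ W' := by
      rw [he]
      exact le_sup_right
    exact this.trans le_sup_right
  · exact hnot (inf_eq_left.1 h)

end

end Pool.Agent.Helper156.RWF.J13970
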