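import Pool.Agent.Helper156.RWF.D0
import Pool.Agent.Helper156.RWF.J13973

namespace Pool.Agent.Helper156.RWF.J13971

open Pool.Agent.Helper156.RWF Pool.Agent.Helper156.RWF.J13973
open Filter Topology MeasureTheory


section
variable {p : ℕ} [Fact p.Prime]
variable {F : Type} [Group F] [TopologicalSpace F] [IsTopologicalGroup F] [CompactSpace F]
  [T2Space F] [TotallyDisconnectedSpace F]
variable {A : Type} [NormedRing A] [NormedAlgebra ℚ_[p] A] [IsUltrametricDist A] [NormOneClass A]
  [FiniteDimensional ℚ_[p] A]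


/-- the centre of `g` -/
def cfz {K V : Type} [Field K] [AddCommGroup V] [Module K V]
    (g : Submodule K (Module.End K V)) : Set (Module.End K V) :=
  {x | x ∈ g ∧ ∀ y ∈ g, x * y = y * x}

theorem cf_comm {K V : Type} [Field K] [AddCommGroup V] [Module K V]
    (g : Submodule K (Module.End K V)) (w : Module.End K V)
    (hw : w ∈ Algebra.adjoin K (cfz g)) : ∀ y ∈ g, w * y = y * w := by
  refine Algebra.adjoin_induction (p := fun w _ => ∀ y ∈ g, w * y = y * w) ?_ ?_ ?_ ?_ hw
  · intro x hx y hy
    exact hx.2 y hy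
  · intro r y _
    exact (Algebra.commutes r y)
  · intro x y _ _ hx hy u hu
    rw [add_mul, mul_add, hx u hu, hy u hu]
  · intro x y _ _ hx hy u hu
    rw [mul_assoc, hy u hu, ← mul_assoc, hx u hu, mul_assoc]

theorem cf_stable {K V : Type} [Field K] [AddCommGroup V] [Module K V]
    (g : Submodule K (Module.End K V)) (W : Submodule K V) (hW : ∀ x ∈ g, ∀ w ∈ W, x w ∈ W)
    (w : Module.End K V) (hw : w ∈ Algebra.adjoin K (cfz g)) : ∀ v ∈ W, w v ∈ W := by
  refine Algebra.adjoin_induction (p := fun w _ => ∀ v ∈ W, w v ∈ W) ?_ ?_ ?_ ?_ hw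
  · intro x hx v hv
    exact hW x hx.1 v hv
  · intro r v hv
    rw [Module.algebraMap_end_apply]
    exact W.smul_mem r hv
  · intro x y _ _ hx hy v hv
    exact W.add_mem (hx v hv) (hy v hv)
  · intro x y _ _ hx hy v hv
    exact hx _ (hy v hv)

theorem cf_sq {K V : Type} [Field K] [AddCommGroup V] [Module K V]
    (g : Submodule K (Module.End K V))
    (hss : ∀ W : Submodule K V, (∀ x ∈ g, ∀ w ∈ W, x w ∈ W) →
      ∃ W' : Submodule K V, (∀ x ∈ g, ∀ w ∈ W', x w ∈ W') ∧ IsCompl W W')
    (u : Module.End K V) (hu : u ∈ Algebra.adjoin K (cfz g)) (h2 : u * u = 0) : u = 0 := by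
  have hst : ∀ x ∈ g, ∀ w ∈ LinearMap.range u, x w ∈ LinearMap.range u := by
    rintro x hx _ ⟨v, rfl⟩
    refine ⟨x v, ?_⟩
    have := cf_comm g u hu x hx
    exact congrArg (fun f : Module.End K V => f v) this
  obtain ⟨U', hU', hc⟩ := hss _ hst
  have hz : ∀ v ∈ U', u v = 0 := by
    intro v hv
    have h1 : u v ∈ U' := cf_stable g U' hU' u hu v hv
    have h3 : u v ∈ LinearMap.range u ⊓ U' := ⟨⟨v, rfl⟩, h1⟩
    rw [hc.inf_eq_bot] at h3
    exact (Submodule.mem_bot K).1 h3
  ext v
  obtain ⟨v1, ⟨t, rfl⟩, v2, hv2, rfl⟩ := Submodule.mem_sup.1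
    (show v ∈ LinearMap.range u ⊔ U' by rw [hc.sup_eq_top]; trivial)
  rw [map_add, hz v2 hv2, add_zero, LinearMap.zero_apply]
  exact congrArg (fun f : Module.End K V => f t) h2

theorem cf_conj {K V : Type} [Field K] [AddCommGroup V] [Module K V]
    (g : Submodule K (Module.End K V))
    (a b : Module.End K V) (hab : a * b = 1) (hba : b * a = 1)
    (hag : ∀ x ∈ g, a * x * b ∈ g) (hbg : ∀ x ∈ g, b * x * a ∈ g)
    (w : Module.End K V) (hw : w ∈ Algebra.adjoin K (cfz g)) :
    a * w * b ∈ Algebra.adjoin K (cfz g) := by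
  refine Algebra.adjoin_induction
    (p := fun w _ => a * w * b ∈ Algebra.adjoin K (cfz g)) ?_ ?_ ?_ ?_ hw
  · intro x hx
    refine Algebra.subset_adjoin ⟨hag x hx.1, fun y hy => ?_⟩
    have h1 := hx.2 (b * y * a) (hbg y hy)
    calc a * x * b * y = a * (x * (b * y * a)) * b := by
          simp only [mul_assoc, hab, mul_one]
      _ = a * (b * y * a * x) * b := by rw [h1]
      _ = (a * b) * y * (a * x * b) := by simp only [mul_assoc]
      _ = y * (a * x * b) := by rw [hab, one_mul]
  · intro r
    have : a * (algebraMap K (Module.End K V) r) * b = algebraMap K (Module.End K V) r := by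
      rw [← Algebra.commutes, mul_assoc, hab, mul_one]
    rw [this]
    exact Subalgebra.algebraMap_mem _ r
  · intro x y _ _ hx hy
    rw [mul_add, add_mul]
    exact add_mem hx hy
  · intro x y _ _ hx hy
    have : a * (x * y) * b = (a * x * b) * (a * y * b) := by
      calc a * (x * y) * b = a * x * 1 * y * b := by rw [mul_one]; simp only [mul_assoc]
        _ = a * x * (b * a) * y * b := by rw [hba]
        _ = _ := by simp only [mul_assoc]
    rw [this]
    exact mul_mem hx hy

/-- a power of a normalising element fixes the centre -/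
theorem center_fixed {K V : Type} [Field K] [CharZero K] [AddCommGroup V] [Module K V]
    [FiniteDimensional K V] (g : Submodule K (Module.End K V)) (hbr : Brk g)
    (hss : ∀ W : Submodule K V, (∀ x ∈ g, ∀ w ∈ W, x w ∈ W) →
      ∃ W' : Submodule K V, (∀ x ∈ g, ∀ w ∈ W', x w ∈ W') ∧ IsCompl W W')
    (a b : Module.End K V) (hab : a * b = 1) (hba : b * a = 1)
    (hag : ∀ x ∈ g, a * x * b ∈ g) (hbg : ∀ x ∈ g, b * x * a ∈ g) :
    (∀ x ∈ g, (∀ y ∈ g, x * y = y * x) → IsNilpotent x → x = 0) ∧
    ∃ m : ℕ, 1 ≤ m ∧ ∀ x ∈ g, (∀ y ∈ g, x * y = y * x) → a ^ m * x = x * a ^ m := by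
  have hcomm : ∀ x ∈ cfz g, ∀ y ∈ cfz g, x * y = y * x := fun x hx y hy => hx.2 y hy.1
  letI cr : CommRing (Algebra.adjoin K (cfz g)) :=
    { (Algebra.adjoin K (cfz g)).toRing with
      mul_comm := fun x y => by
        have := Algebra.isMulCommutative_adjoin K hcomm
        exact this.is_comm.comm x y }
  have hred : @IsReduced (Algebra.adjoin K (cfz g)) _ _ := by
    rw [isReduced_iff_pow_one_lt 2 (by norm_num)]
    intro x hx
    apply Subtype.ext
    refine cf_sq g hss x.1 x.2 ?_
    have h1 := congrArg Subtype.val hx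
    simpa [pow_two] using h1
  constructor
  · intro x hx hxc hnil
    have hxz : x ∈ Algebra.adjoin K (cfz g) := Algebra.subset_adjoin ⟨hx, hxc⟩
    have hn : IsNilpotent (⟨x, hxz⟩ : Algebra.adjoin K (cfz g)) := by
      obtain ⟨k, hk⟩ := hnil
      exact ⟨k, Subtype.ext (by simpa using hk)⟩
    have := hn.eq_zero
    exact congrArg Subtype.val this
  · let a' : Algebra.adjoin K (cfz g) ≃ₐ[K] Algebra.adjoin K (cfz g) :=
      { toFun := fun w => ⟨a * w.1 * b, cf_conj g a b hab hba hag hbg w.1 w.2⟩
        invFun := fun w => ⟨b * w.1 * a, cf_conj g b a hba hab hbg hag w.1 w.2⟩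
        left_inv := fun w => Subtype.ext (by
          show b * (a * w.1 * b) * a = w.1
          calc b * (a * w.1 * b) * a = (b * a) * w.1 * (b * a) := by simp only [mul_assoc]
            _ = w.1 := by rw [hba, one_mul, mul_one])
        right_inv := fun w => Subtype.ext (by
          show a * (b * w.1 * a) * b = w.1
          calc a * (b * w.1 * a) * b = (a * b) * w.1 * (a * b) := by simp only [mul_assoc]
            _ = w.1 := by rw [hab, one_mul, mul_one])
        map_mul' := fun x y => Subtype.ext (by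
          show a * (x.1 * y.1) * b = (a * x.1 * b) * (a * y.1 * b)
          calc a * (x.1 * y.1) * b = a * x.1 * 1 * y.1 * b := by rw [mul_one]; simp only [mul_assoc]
            _ = a * x.1 * (b * a) * y.1 * b := by rw [hba]
            _ = _ := by simp only [mul_assoc])
        map_add' := fun x y => Subtype.ext (by
          show a * (x.1 + y.1) * b = a * x.1 * b + a * y.1 * b
          rw [mul_add, add_mul])
        commutes' := fun r => Subtype.ext (by
          show a * (algebraMap K (Module.End K V) r) * b = algebraMap K (Module.End K V) r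
          rw [← Algebra.commutes, mul_assoc, hab, mul_one]) }
    obtain ⟨n, hn, han⟩ := @alg_finite_order K (Algebra.adjoin K (cfz g)) _ _ cr
      (Algebra.adjoin K (cfz g)).algebra inferInstance hred a'
    refine ⟨n, hn, fun x hx hxc => ?_⟩
    have hxz : x ∈ Algebra.adjoin K (cfz g) := Algebra.subset_adjoin ⟨hx, hxc⟩
    have hpow : ∀ (k : ℕ) (w : Algebra.adjoin K (cfz g)), ((a' ^ k) w).1 = a ^ k * w.1 * b ^ k := by
      intro k
      induction k with
      | zero => intro w; simp
      | succ k ih =>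
        intro w
        rw [pow_succ', AlgEquiv.mul_apply]
        show a * ((a' ^ k) w).1 * b = _
        rw [ih, pow_succ' a, pow_succ b]
        simp only [mul_assoc]
    have h1 := hpow n ⟨x, hxz⟩
    rw [han] at h1
    have h2 : x = a ^ n * x * b ^ n := h1
    have hbn : b ^ n * a ^ n = 1 := by
      have hc : Commute b a := by
        show b * a = a * b
        rw [hab, hba]
      rw [← hc.mul_pow, hba, one_pow]
    calc a ^ n * x = a ^ n * x * (b ^ n * a ^ n) := by rw [hbn, mul_one]
      _ = (a ^ n * x * b ^ n) * a ^ n := by simp only [mul_assoc]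
      _ = x * a ^ n := by rw [← h2]

end

end Pool.Agent.Helper156.RWF.J13971
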