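import Pool.Agent.Helper156.RWF.D0
import Pool.Agent.Helper156.RWF.J12439
import Pool.Agent.Helper156.RWF.J12441
import Pool.Agent.Helper156.RWF.J12442
import Pool.Agent.Helper156.RWF.J13190

namespace Pool.Agent.Helper156.RWF.J13972

open Pool.Agent.Helper156.RWF Pool.Agent.Helper156.RWF.J12439 Pool.Agent.Helper156.RWF.J12441 Pool.Agent.Helper156.RWF.J12442 Pool.Agent.Helper156.RWF.J13190
open Filter Topology MeasureTheory


section
variable {p : ℕ} [Fact p.Prime]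
variable {F : Type} [Group F] [TopologicalSpace F] [IsTopologicalGroup F] [CompactSpace F]
  [T2Space F] [TotallyDisconnectedSpace F]
variable {A : Type} [NormedRing A] [NormedAlgebra ℚ_[p] A] [IsUltrametricDist A] [NormOneClass A]
  [FiniteDimensional ℚ_[p] A]


omit [IsUltrametricDist A] [NormOneClass A] [FiniteDimensional ℚ_[p] A] in
theorem aux13972_small (k : ℕ) (x : A) :
    ∀ᶠ j : ℕ in atTop, ‖((p : ℚ_[p]) ^ j) • x‖ ≤ ((p : ℝ)⁻¹) ^ k := by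
  have hp : (1 : ℝ) < p := by exact_mod_cast (Fact.out : p.Prime).one_lt
  have hp0 : (0 : ℝ) < (p : ℝ)⁻¹ := by positivity
  have h1 : Tendsto (fun j : ℕ => ((p : ℝ)⁻¹) ^ j * ‖x‖) atTop (𝓝 (0 * ‖x‖)) :=
    (tendsto_pow_atTop_nhds_zero_of_lt_one hp0.le (inv_lt_one_of_one_lt₀ hp)).mul_const _
  rw [zero_mul] at h1
  have h2 : ∀ᶠ j : ℕ in atTop, ((p : ℝ)⁻¹) ^ j * ‖x‖ < ((p : ℝ)⁻¹) ^ k :=
    h1.eventually_lt_const (by positivity)
  filter_upwards [h2] with j hj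
  rw [norm_smul, norm_pow, Padic.norm_p]
  exact hj.le

theorem aux13972_conj (ρ : F →* A) (g : Submodule ℚ_[p] A)
    (k : ℕ) (hL : IsLieOf p (Set.range ρ) g k) (u v : A) (huv : u * v = 1) (hvu : v * u = 1)
    (h : ∀ f, ∃ f', u * ρ f * v = ρ f') (x : A) (hx : x ∈ g) : u * x * v ∈ g := by
  have hp : (1 : ℝ) < p := by exact_mod_cast (Fact.out : p.Prime).one_lt
  have hp0 : (0 : ℝ) < (p : ℝ)⁻¹ := by positivity
  obtain ⟨j, h1, h2⟩ := ((aux13972_small (p := p) k x).and (aux13972_small (p := p) k (u * x * v))).exists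
  have hc : ((p : ℚ_[p]) ^ j) ≠ 0 := by
    apply pow_ne_zero
    exact_mod_cast (Fact.out : p.Prime).ne_zero
  have h3 : ‖((p : ℚ_[p]) ^ j) • x‖ ≤ ((p : ℝ)⁻¹) ^ 2 :=
    h1.trans (pow_le_pow_of_le_one hp0.le (inv_le_one_of_one_le₀ hp.le) hL.1)
  obtain ⟨f, hf⟩ := (hL.2 _ h1).2 (g.smul_mem _ hx)
  obtain ⟨f', hf'⟩ := h f
  have h4 : ((p : ℚ_[p]) ^ j) • (u * x * v) = u * (((p : ℚ_[p]) ^ j) • x) * v := by
    rw [mul_smul_comm, smul_mul_assoc]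
  have h5 : ((p : ℚ_[p]) ^ j) • (u * x * v) ∈ g := by
    apply (hL.2 _ h2).1
    rw [h4, E_conj u v _ huv hvu h3, ← hf, hf']
    exact Set.mem_range_self f'
  exact (g.smul_mem_iff hc).1 h5

/-- conjugation of the Lie algebra by an equivariant element -/
theorem conj_lie (φ : F ≃ₜ* F) (ρ : F →* A) (hρn : ∀ f, ‖ρ f‖ ≤ 1) (g : Submodule ℚ_[p] A)
    (k : ℕ) (hL : IsLieOf p (Set.range ρ) g k) (a b : A) (hab : a * b = 1) (hba : b * a = 1)
    (hφ : ∀ f, ρ (φ f) = a * ρ f * b) :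
    (∀ x ∈ g, a * x * b ∈ g) ∧ (∀ x ∈ g, b * x * a ∈ g) ∧
      (∀ f, ∀ x ∈ g, ρ f * x * ρ f⁻¹ ∈ g) ∧
      (∀ l : A, (∀ f, l * ρ f = ρ f * l) → ∀ x ∈ g, l * x = x * l) := by
  have hp : (1 : ℝ) < p := by exact_mod_cast (Fact.out : p.Prime).one_lt
  have hp0 : (0 : ℝ) < (p : ℝ)⁻¹ := by positivity
  refine ⟨fun x hx => aux13972_conj ρ g k hL a b hab hba (fun f => ⟨φ f, (hφ f).symm⟩) x hx,
    fun x hx => aux13972_conj ρ g k hL b a hba hab (fun f => ⟨φ.symm f, ?_⟩) x hx,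
    fun f x hx => aux13972_conj ρ g k hL (ρ f) (ρ f⁻¹) ?_ ?_ (fun f' => ⟨f * f' * f⁻¹, ?_⟩) x hx,
    fun l hl x hx => ?_⟩
  · have h1 := hφ (φ.symm f)
    rw [φ.apply_symm_apply] at h1
    rw [h1]
    calc b * (a * ρ (φ.symm f) * b) * a = (b * a) * ρ (φ.symm f) * (b * a) := by noncomm_ring
      _ = ρ (φ.symm f) := by rw [hba, one_mul, mul_one]
  · rw [← map_mul, mul_inv_cancel, map_one]
  · rw [← map_mul, inv_mul_cancel, map_one]
  · rw [map_mul, map_mul]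
  · obtain ⟨j, h1⟩ := (aux13972_small (p := p) k x).exists
    have hc : ((p : ℚ_[p]) ^ j) ≠ 0 := by
      apply pow_ne_zero
      exact_mod_cast (Fact.out : p.Prime).ne_zero
    have h3 : ‖((p : ℚ_[p]) ^ j) • x‖ ≤ ((p : ℝ)⁻¹) ^ 2 :=
      h1.trans (pow_le_pow_of_le_one hp0.le (inv_le_one_of_one_le₀ hp.le) hL.1)
    obtain ⟨f, hf⟩ := (hL.2 _ h1).2 (g.smul_mem _ hx)
    have h4 := commute_of_E_commute (((p : ℚ_[p]) ^ j) • x) l h3 (by rw [← hf]; exact (hl f).symm)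
    rw [smul_mul_assoc, mul_smul_comm] at h4
    have h5 := congrArg (fun z => ((p : ℚ_[p]) ^ j)⁻¹ • z) h4
    simp only [inv_smul_smul₀ hc] at h5
    exact h5.symm

end

end Pool.Agent.Helper156.RWF.J13972
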