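import Pool.Agent.Helper156.RWF.D0
import Pool.Agent.Helper156.RWF.J12439
import Pool.Agent.Helper156.RWF.J12441
import Pool.Agent.Helper156.RWF.J12442
import Pool.Agent.Helper156.RWF.J12833
import Pool.Agent.Helper156.RWF.J13190

namespace Pool.Agent.Helper156.RWF.J14027

open Pool.Agent.Helper156.RWF Pool.Agent.Helper156.RWF.J12439 Pool.Agent.Helper156.RWF.J12441 Pool.Agent.Helper156.RWF.J12442 Pool.Agent.Helper156.RWF.J12833 Pool.Agent.Helper156.RWF.J13190
open Filter Topology MeasureTheory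


section
variable {p : ℕ} [Fact p.Prime]
variable {F : Type} [Group F] [TopologicalSpace F] [IsTopologicalGroup F] [CompactSpace F]
  [T2Space F] [TotallyDisconnectedSpace F]
variable {A : Type} [NormedRing A] [NormedAlgebra ℚ_[p] A] [IsUltrametricDist A] [NormOneClass A]
  [FiniteDimensional ℚ_[p] A]


theorem finite_power_commute (G : Set A) (hG : IsCptGrp G) (g : Submodule ℚ_[p] A) (k : ℕ)
    (hL : IsLieOf p G g k) (hz : ∀ x ∈ g, (∀ y ∈ g, x * y = y * x) → x = 0) (z z' : A)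
    (h1 : z * z' = 1) (h2 : z' * z = 1) (hzG : ∀ u ∈ G, z * u * z' ∈ G)
    (hzg : ∀ x ∈ g, z * x = x * z) : ∃ i : ℕ, 1 ≤ i ∧ ∀ u ∈ G, z ^ i * u = u * z ^ i := by
  obtain ⟨hk2, hL⟩ := hL
  have hp0 : (0 : ℝ) < p := by exact_mod_cast (Fact.out : p.Prime).pos
  have hp1 : (1 : ℝ) < p := by exact_mod_cast (Fact.out : p.Prime).one_lt
  have hpinv : (p : ℝ)⁻¹ < 1 := inv_lt_one_of_one_lt₀ hp1
  have hε0 : (0 : ℝ) < ((p : ℝ)⁻¹) ^ k := pow_pos (inv_pos.2 hp0) k
  have hε2 : ((p : ℝ)⁻¹) ^ k ≤ ((p : ℝ)⁻¹) ^ 2 :=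
    pow_le_pow_of_le_one (inv_pos.2 hp0).le hpinv.le hk2
  obtain ⟨ε, hε⟩ : ∃ ε, ε = ((p : ℝ)⁻¹) ^ k := ⟨_, rfl⟩
  have hlog : ∀ u ∈ G, ‖u - 1‖ ≤ ε → ∃ x ∈ g, ‖x‖ ≤ ε ∧ E p x = u := by
    intro u hu hun
    obtain ⟨x, hx, hxu⟩ := E_surj (p := p) k hk2 u (by rw [← hε]; exact hun)
    refine ⟨x, (hL x hx).1 (by rw [hxu]; exact hu), by rw [hε]; exact hx, hxu⟩
  rw [← hε] at hε0 hε2
  simp only [← hε] at hL
  have hzU : ∀ u ∈ G, ‖u - 1‖ ≤ ε → Commute z u := by
    intro u hu hun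
    obtain ⟨x, hxg, hx, rfl⟩ := hlog u hu hun
    have e1 : z * x * z' = x := by rw [hzg x hxg, mul_assoc, h1, mul_one]
    have e2 := E_conj (p := p) z z' x h1 h2 (hx.trans hε2)
    rw [e1] at e2
    show z * E p x = E p x * z
    calc z * E p x = z * E p x * (z' * z) := by rw [h2, mul_one]
      _ = (z * E p x * z') * z := by simp only [mul_assoc]
      _ = E p x * z := by rw [← e2]
  have hz'U : ∀ u ∈ G, ‖u - 1‖ ≤ ε → Commute z' u := by
    intro u hu hun
    have e1 : z * u = u * z := hzU u hu hun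
    show z' * u = u * z'
    calc z' * u = z' * u * (z * z') := by rw [h1, mul_one]
      _ = z' * (u * z) * z' := by simp only [mul_assoc]
      _ = (z' * z) * u * z' := by rw [← e1]; simp only [mul_assoc]
      _ = u * z' := by rw [h2, one_mul]
  have hinj : ∀ c ∈ G, ∀ c' ∈ G, (∀ u ∈ G, ‖u - 1‖ ≤ ε → c * u = u * c) →
      (∀ u ∈ G, ‖u - 1‖ ≤ ε → c' * u = u * c') → ‖c - c'‖ ≤ ε → c = c' := by
    intro c hc c' hc' hcU hcU' hcc
    obtain ⟨b, hb, hcb, hbc⟩ := hG.inv_mem c hc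
    have h3 : ‖b * c' - 1‖ ≤ ε := by
      have e1 : b * c' - 1 = b * (c' - c) := by rw [mul_sub, hbc]
      rw [e1]
      calc ‖b * (c' - c)‖ ≤ ‖b‖ * ‖c' - c‖ := norm_mul_le _ _
        _ ≤ 1 * ε := mul_le_mul (hG.norm_le b hb) (by rw [norm_sub_rev]; exact hcc)
            (norm_nonneg _) zero_le_one
        _ = ε := one_mul _
    obtain ⟨x, hxg, hx, hxE⟩ := hlog _ (hG.mul_mem b hb c' hc') h3
    have h4 : ∀ u ∈ G, ‖u - 1‖ ≤ ε → E p x * u = u * E p x := by
      intro u hu hun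
      rw [hxE]
      have h5 : b * u = u * b := by
        calc b * u = b * u * (c * b) := by rw [hcb, mul_one]
          _ = b * (u * c) * b := by simp only [mul_assoc]
          _ = b * (c * u) * b := by rw [hcU u hu hun]
          _ = (b * c) * u * b := by simp only [mul_assoc]
          _ = u * b := by rw [hbc, one_mul]
      rw [mul_assoc, hcU' u hu hun, ← mul_assoc, h5, mul_assoc]
    have h6 : ∀ y ∈ g, ‖y‖ ≤ ε → x * y = y * x := by
      intro y hy hyn
      have h9 : ‖E p y - 1‖ ≤ ε := by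
        have h10 := E_isom (p := p) y 0 (hyn.trans hε2) (by rw [norm_zero]; positivity)
        rw [E_zero, sub_zero] at h10
        rw [h10]
        exact hyn
      have h7 := commute_of_E_commute x (E p y) (hx.trans hε2)
        (h4 (E p y) ((hL y hyn).2 hy) h9)
      exact (commute_of_E_commute y x (hyn.trans hε2) h7.symm).symm
    have h11 : ∀ y ∈ g, x * y = y * x := by
      intro y hy
      obtain ⟨n, hn⟩ := exists_pow_lt_of_lt_one (show 0 < ε / (‖y‖ + 1) by positivity) hpinv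
      have hc0 : (p : ℚ_[p]) ^ n ≠ 0 := by
        apply pow_ne_zero
        exact_mod_cast (Fact.out : p.Prime).ne_zero
      have h12 : ‖(p : ℚ_[p]) ^ n • y‖ ≤ ε := by
        rw [norm_smul, norm_pow, Padic.norm_p]
        rw [lt_div_iff₀ (by positivity)] at hn
        have h13 : 0 ≤ ((p : ℝ)⁻¹) ^ n := by positivity
        nlinarith [norm_nonneg y]
      have h14 := h6 _ (g.smul_mem _ hy) h12
      rw [mul_smul_comm, smul_mul_assoc] at h14
      exact smul_right_injective A hc0 h14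
    have h15 := hz x hxg h11
    rw [h15, E_zero] at hxE
    calc c = c * (b * c') := by rw [← hxE, mul_one]
      _ = c' := by rw [← mul_assoc, hcb, one_mul]
  have hαG : ∀ n : ℕ, ∀ u ∈ G, z ^ n * u * z' ^ n ∈ G := by
    intro n
    induction n with
    | zero =>
      intro u hu
      rw [pow_zero, pow_zero, one_mul, mul_one]
      exact hu
    | succ n ih =>
      intro u hu
      have e1 : z ^ (n + 1) * u * z' ^ (n + 1) = z * (z ^ n * u * z' ^ n) * z' := by
        rw [pow_succ' z, pow_succ z']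
        simp only [mul_assoc]
      rw [e1]
      exact hzG _ (ih u hu)
  have hκ : ∀ n : ℕ, ∀ u ∈ G, ∀ b ∈ G, u * b = 1 → b * u = 1 →
      ∀ w ∈ G, ‖w - 1‖ ≤ ε → (z ^ n * u * z' ^ n * b) * w = w * (z ^ n * u * z' ^ n * b) := by
    intro n u hu b hb hub hbu w hw hwn
    obtain ⟨w', hw'⟩ : ∃ w', w' = b * w * u := ⟨_, rfl⟩
    have hw'G : w' ∈ G := by
      rw [hw']
      exact hG.mul_mem _ (hG.mul_mem _ hb _ hw) _ hu
    have hw'n : ‖w' - 1‖ ≤ ε := by
      have e0 : w' - 1 = b * (w - 1) * u := by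
        rw [hw', mul_sub, sub_mul, mul_one, hbu]
      rw [e0]
      calc ‖b * (w - 1) * u‖ ≤ ‖b * (w - 1)‖ * ‖u‖ := norm_mul_le _ _
        _ ≤ (‖b‖ * ‖w - 1‖) * ‖u‖ :=
            mul_le_mul_of_nonneg_right (norm_mul_le _ _) (norm_nonneg _)
        _ ≤ (1 * ε) * 1 := by
            apply mul_le_mul _ (hG.norm_le u hu) (norm_nonneg _) (by positivity)
            exact mul_le_mul (hG.norm_le b hb) hwn (norm_nonneg _) zero_le_one
        _ = ε := by ring
    have e1 : b * w = w' * b := by rw [hw', mul_assoc, hub, mul_one]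
    have e2 : u * w' = w * u := by rw [hw', ← mul_assoc, ← mul_assoc, hub, one_mul]
    have e3 : z' ^ n * w' = w' * z' ^ n := (hz'U w' hw'G hw'n).pow_left n
    have e4 : z ^ n * w = w * z ^ n := (hzU w hw hwn).pow_left n
    calc z ^ n * u * z' ^ n * b * w = z ^ n * u * (z' ^ n * (b * w)) := by simp only [mul_assoc]
      _ = z ^ n * u * (z' ^ n * w') * b := by rw [e1]; simp only [mul_assoc]
      _ = z ^ n * (u * w') * z' ^ n * b := by rw [e3]; simp only [mul_assoc]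
      _ = (z ^ n * w) * u * z' ^ n * b := by rw [e2]; simp only [mul_assoc]
      _ = w * (z ^ n * u * z' ^ n * b) := by rw [e4]; simp only [mul_assoc]
  obtain ⟨t, htG, htf, htc⟩ := hG.isCompact.finite_cover_balls (half_pos hε0)
  have hcov : ∀ u, ∃ r, u ∈ G → r ∈ t ∧ ‖u - r‖ < ε / 2 := by
    intro u
    by_cases hu : u ∈ G
    · obtain ⟨r, hr, hur⟩ := Set.mem_iUnion₂.1 (htc hu)
      exact ⟨r, fun _ => ⟨hr, by rw [← dist_eq_norm]; exact hur⟩⟩
    · exact ⟨0, fun h => absurd h hu⟩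
  choose ct hct using hcov
  obtain ⟨C, hC⟩ : ∃ C : Set A, ∀ c, c ∈ C ↔ (c ∈ G ∧ ∀ u ∈ G, ‖u - 1‖ ≤ ε → c * u = u * c) :=
    ⟨{c | c ∈ G ∧ ∀ u ∈ G, ‖u - 1‖ ≤ ε → c * u = u * c}, fun c => Iff.rfl⟩
  have hCf : C.Finite := by
    apply Set.Finite.of_injOn (f := ct) (t := t) _ _ htf
    · intro c hc
      exact (hct c ((hC c).1 hc).1).1
    · intro c hc c' hc' hcc
      have hc := (hC c).1 hc
      have hc' := (hC c').1 hc'
      apply hinj c hc.1 c' hc'.1 hc.2 hc'.2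
      have h3 := (hct c hc.1).2
      have h4 := (hct c' hc'.1).2
      rw [← hcc] at h4
      have e1 : c - c' = (c - ct c) - (c' - ct c) := by abel
      rw [e1]
      linarith [norm_sub_le (c - ct c) (c' - ct c)]
  have hinv : ∀ u, ∃ b, u ∈ G → b ∈ G ∧ u * b = 1 ∧ b * u = 1 := by
    intro u
    by_cases hu : u ∈ G
    · obtain ⟨b, hb⟩ := hG.inv_mem u hu
      exact ⟨b, fun _ => hb⟩
    · exact ⟨0, fun h => absurd h hu⟩
  choose iv hiv using hinv
  have hf1 : Finite t := htf.to_subtype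
  have hf2 : Finite C := hCf.to_subtype
  have hmem : ∀ (n : ℕ) (r : t), z ^ n * r.1 * z' ^ n * iv r.1 ∈ C := by
    intro n r
    have hr := htG r.2
    have hv := hiv r.1 hr
    rw [hC]
    exact ⟨hG.mul_mem _ (hαG n _ hr) _ hv.1, hκ n r.1 hr _ hv.1 hv.2.1 hv.2.2⟩
  obtain ⟨Ψ, hΨ⟩ : ∃ Ψ : ℕ → (t → C), ∀ n r, (Ψ n r : A) = z ^ n * r.1 * z' ^ n * iv r.1 :=
    ⟨fun n r => ⟨_, hmem n r⟩, fun n r => rfl⟩
  have hα : ∀ n n', Ψ n = Ψ n' → ∀ u ∈ G, z ^ n * u * z' ^ n = z ^ n' * u * z' ^ n' := by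
    intro n n' hnn u hu
    obtain ⟨hr, hur⟩ := hct u hu
    obtain ⟨r, hrr⟩ : ∃ r, r = ct u := ⟨_, rfl⟩
    rw [← hrr] at hr hur
    obtain ⟨hb, hrb, hbr⟩ := hiv r (htG hr)
    have h3 : z ^ n * r * z' ^ n = z ^ n' * r * z' ^ n' := by
      have h4 := hΨ n ⟨r, hr⟩
      rw [hnn, hΨ n' ⟨r, hr⟩] at h4
      calc z ^ n * r * z' ^ n = (z ^ n * r * z' ^ n * iv r) * r := by
            rw [mul_assoc _ (iv r), hbr, mul_one]
        _ = (z ^ n' * r * z' ^ n' * iv r) * r := by rw [h4]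
        _ = z ^ n' * r * z' ^ n' := by rw [mul_assoc _ (iv r), hbr, mul_one]
    obtain ⟨w, hw⟩ : ∃ w, w = iv r * u := ⟨_, rfl⟩
    have hwG : w ∈ G := by rw [hw]; exact hG.mul_mem _ hb _ hu
    have hwn : ‖w - 1‖ ≤ ε := by
      have e0 : w - 1 = iv r * (u - r) := by rw [hw, mul_sub, hbr]
      rw [e0]
      calc ‖iv r * (u - r)‖ ≤ ‖iv r‖ * ‖u - r‖ := norm_mul_le _ _
        _ ≤ 1 * ε := mul_le_mul (hG.norm_le _ hb) (by linarith) (norm_nonneg _) zero_le_one
        _ = ε := one_mul _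
    have hu' : u = r * w := by rw [hw, ← mul_assoc, hrb, one_mul]
    have h5 : ∀ n : ℕ, z ^ n * u * z' ^ n = z ^ n * r * z' ^ n * w := by
      intro n
      have e3 : z' ^ n * w = w * z' ^ n := (hz'U w hwG hwn).pow_left n
      rw [hu', mul_assoc _ (z' ^ n) w, e3]
      simp only [mul_assoc]
    rw [h5, h5, h3]
  have hcz : Commute z' z := by
    show z' * z = z * z'
    rw [h1, h2]
  have hpow : ∀ n : ℕ, z' ^ n * z ^ n = 1 := by
    intro n
    rw [← hcz.mul_pow, h2, one_pow]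
  have hfin : ∀ n n', n < n' → Ψ n = Ψ n' →
      ∃ i : ℕ, 1 ≤ i ∧ ∀ u ∈ G, z ^ i * u = u * z ^ i := by
    intro n n' hlt hnn
    refine ⟨n' - n, by omega, fun u hu => ?_⟩
    have h3 := hα n n' hnn u hu
    have e1 : z ^ n' = z ^ n * z ^ (n' - n) := by
      rw [← pow_add]
      congr 1
      omega
    have e2 : z' ^ n' = z' ^ (n' - n) * z' ^ n := by
      rw [← pow_add]
      congr 1
      omega
    have h4 : u = z ^ (n' - n) * u * z' ^ (n' - n) := by
      calc u = (z' ^ n * z ^ n) * u * (z' ^ n * z ^ n) := by rw [hpow, one_mul, mul_one]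
        _ = z' ^ n * (z ^ n * u * z' ^ n) * z ^ n := by simp only [mul_assoc]
        _ = z' ^ n * (z ^ n * z ^ (n' - n) * u * (z' ^ (n' - n) * z' ^ n)) * z ^ n := by
            rw [h3, e1, e2]
        _ = (z' ^ n * z ^ n) * (z ^ (n' - n) * u * z' ^ (n' - n)) * (z' ^ n * z ^ n) := by
            simp only [mul_assoc]
        _ = z ^ (n' - n) * u * z' ^ (n' - n) := by rw [hpow, one_mul, mul_one]
    calc z ^ (n' - n) * u = z ^ (n' - n) * u * (z' ^ (n' - n) * z ^ (n' - n)) := by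
          rw [hpow, mul_one]
      _ = (z ^ (n' - n) * u * z' ^ (n' - n)) * z ^ (n' - n) := by simp only [mul_assoc]
      _ = u * z ^ (n' - n) := by rw [← h4]
  obtain ⟨n, n', hne, hnn⟩ := Finite.exists_ne_map_eq_of_infinite Ψ
  rcases lt_or_gt_of_ne hne with h | h
  · exact hfin n n' h hnn
  · exact hfin n' n h hnn.symm

end

end Pool.Agent.Helper156.RWF.J14027
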