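import Pool.Agent.Helper156.RWF.D0

namespace Pool.Agent.Helper156.RWF.J14028

open Pool.Agent.Helper156.RWF
open Filter Topology MeasureTheory


section
variable {p : ℕ} [Fact p.Prime]
variable {F : Type} [Group F] [TopologicalSpace F] [IsTopologicalGroup F] [CompactSpace F]
  [T2Space F] [TotallyDisconnectedSpace F]
variable {A : Type} [NormedRing A] [NormedAlgebra ℚ_[p] A] [IsUltrametricDist A] [NormOneClass A]
  [FiniteDimensional ℚ_[p] A]

theorem eig_aux {Ω A : Type} [Field Ω] [Ring A] [Algebra Ω A] (Z : A) (s : Multiset Ω) (w : A)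
    (hw : w ≠ 0)
    (h : Polynomial.aeval Z (s.map (fun a => Polynomial.X - Polynomial.C a)).prod * w = 0) :
    ∃ a ∈ s, ∃ q : Polynomial Ω, Polynomial.aeval Z q * w ≠ 0 ∧
      Z * (Polynomial.aeval Z q * w) = a • (Polynomial.aeval Z q * w) := by
  induction s using Multiset.induction_on with
  | empty => simp at h; exact absurd h hw
  | cons a s ih =>
    by_cases h' : Polynomial.aeval Z (s.map (fun a => Polynomial.X - Polynomial.C a)).prod * w = 0
    · obtain ⟨b, hb, q, hq⟩ := ih h'
      exact ⟨b, Multiset.mem_cons_of_mem hb, q, hq⟩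
    · refine ⟨a, Multiset.mem_cons_self _ _, _, h', ?_⟩
      rw [Multiset.map_cons, Multiset.prod_cons, map_mul, map_sub, Polynomial.aeval_X,
        Polynomial.aeval_C, sub_mul, sub_mul, sub_eq_zero, mul_assoc, mul_assoc,
        ← Algebra.smul_def] at h
      exact h

theorem right_aux {Ω A : Type} [Field Ω] [Ring A] [Algebra Ω A] (Z w : A) (c : Ω)
    (h : w * Z = c • w) (q : Polynomial Ω) :
    w * Polynomial.aeval Z q = (Polynomial.eval c q) • w := by
  have hn : ∀ n : ℕ, w * Z ^ n = c ^ n • w := by
    intro n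
    induction n with
    | zero => simp
    | succ n ih => rw [pow_succ, ← mul_assoc, ih, smul_mul_assoc, h, smul_smul, pow_succ]
  induction q using Polynomial.induction_on' with
  | add p q hp hq => rw [map_add, mul_add, hp, hq, Polynomial.eval_add, add_smul]
  | monomial n a =>
    rw [Polynomial.aeval_monomial, Polynomial.eval_monomial, ← Algebra.smul_def,
      mul_smul_comm, hn, smul_smul]

theorem eig_quot {K Ω A : Type} [Field K] [Field Ω] [Algebra K Ω] [Ring A] [Algebra Ω A]
    [Algebra K A] [IsScalarTower K Ω A] (Z Z' w : A) (h1 : Z * Z' = 1) (h2 : Z' * Z = 1)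
    (μ : Polynomial K) (hμ : Polynomial.aeval Z μ = 0)
    (hs : (μ.map (algebraMap K Ω)).Splits) (hμm : μ.Monic) (hw : w ≠ 0) (lam : Ω)
    (hl : Z * w * Z' = lam • w) :
    ∃ α β : Ω, Polynomial.aeval α μ = 0 ∧ Polynomial.aeval β μ = 0 ∧ lam * β = α := by
  have hZw : Z * w = lam • (w * Z) := by
    calc Z * w = Z * w * (Z' * Z) := by rw [h2, mul_one]
      _ = Z * w * Z' * Z := by simp only [mul_assoc]
      _ = lam • (w * Z) := by rw [hl, smul_mul_assoc]
  have hlam : lam ≠ 0 := by
    intro h0
    rw [h0, zero_smul] at hZw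
    apply hw
    calc w = Z' * Z * w := by rw [h2, one_mul]
      _ = Z' * (Z * w) := mul_assoc _ _ _
      _ = 0 := by rw [hZw, mul_zero]
  set P : Polynomial Ω := μ.map (algebraMap K Ω) with hP
  have hPm : P.Monic := hμm.map _
  have hPZ : Polynomial.aeval Z P = 0 := by
    rw [hP, Polynomial.aeval_map_algebraMap, hμ]
  have hev : ∀ c : Ω, Polynomial.eval c P = Polynomial.aeval c μ := by
    intro c
    rw [hP, Polynomial.eval_map_algebraMap]
  have hPp := hs.eq_prod_roots_of_monic hPm
  have hprod : Polynomial.aeval Z (P.roots.map (fun a => Polynomial.X - Polynomial.C a)).prod * w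
      = 0 := by
    rw [← hPp, hPZ, zero_mul]
  obtain ⟨α, hα, q, hw', hZw'⟩ := eig_aux Z P.roots w hw hprod
  have hα' : Polynomial.eval α P = 0 := by
    have := (Polynomial.mem_roots hPm.ne_zero).1 hα
    exact this
  have hcomm : Polynomial.aeval Z q * Z = Z * Polynomial.aeval Z q := by
    have h1 : Polynomial.aeval Z q * Polynomial.aeval Z (Polynomial.X : Polynomial Ω) =
        Polynomial.aeval Z (Polynomial.X : Polynomial Ω) * Polynomial.aeval Z q := by
      rw [← map_mul, ← map_mul, mul_comm]
    rwa [Polynomial.aeval_X] at h1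
  have h3 : lam • ((Polynomial.aeval Z q * w) * Z) = α • (Polynomial.aeval Z q * w) := by
    rw [← hZw', ← mul_assoc, ← hcomm, mul_assoc, mul_assoc, hZw, mul_smul_comm]
  have h4 : (Polynomial.aeval Z q * w) * Z = (lam⁻¹ * α) • (Polynomial.aeval Z q * w) := by
    rw [← smul_smul, ← h3, smul_smul, inv_mul_cancel₀ hlam, one_smul]
  have h5 := right_aux Z _ _ h4 P
  rw [hPZ, mul_zero] at h5
  have h6 : Polynomial.eval (lam⁻¹ * α) P = 0 := by
    rcases smul_eq_zero.1 h5.symm with h | h
    · exact h
    · exact absurd h hw'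
  refine ⟨α, lam⁻¹ * α, by rw [← hev, hα'], by rw [← hev, h6], ?_⟩
  rw [← mul_assoc, mul_inv_cancel₀ hlam, one_mul]

theorem det_core {K R Ek : Type} [Field K] [Ring R] [Algebra K R]
    [FiniteDimensional K R] [Field Ek] [Algebra K Ek] [FiniteDimensional K Ek] [Normal K Ek]
    (z z' : R) (h1 : z * z' = 1) (h2 : z' * z = 1)
    (hirr : Irreducible (minpoly K z)) (S : Submodule K R) (B : S →ₗ[K] S)
    (hB : ∀ x : S, (B x : R) = z * x * z')
    (hs1 : (B.charpoly.map (algebraMap K Ek)).Splits)
    (hs2 : ((minpoly K z).map (algebraMap K Ek)).Splits) :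
    LinearMap.det B ^ Module.finrank K Ek = 1 := by
  have hint : IsIntegral K z := Algebra.IsIntegral.isIntegral z
  have hmon : (minpoly K z).Monic := minpoly.monic hint
  set BE := B.baseChange Ek with hBE
  have hcp : BE.charpoly = B.charpoly.map (algebraMap K Ek) := LinearMap.charpoly_baseChange _ _
  have hdet : LinearMap.det BE = algebraMap K Ek (LinearMap.det B) := LinearMap.det_baseChange _
  have hsp : BE.charpoly.Splits := by rw [hcp]; exact hs1
  have hprod := Module.End.det_eq_prod_roots_charpoly_of_splits hsp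
  -- the norm of every eigenvalue is one
  have hnorm : ∀ lam ∈ BE.charpoly.roots, Algebra.norm K lam = 1 := by
    intro lam hlam
    have hroot : BE.charpoly.IsRoot lam :=
      (Polynomial.mem_roots (LinearMap.charpoly_monic BE).ne_zero).1 hlam
    have hev := (Module.End.hasEigenvalue_iff_isRoot_charpoly BE lam).2 hroot
    obtain ⟨v, hv⟩ := hev.exists_hasEigenvector
    have hv1 : BE v = lam • v := hv.apply_eq_smul
    have hv0 : v ≠ 0 := hv.2
    -- pass to the algebra
    set ι : TensorProduct K Ek S →ₗ[Ek] TensorProduct K Ek R := S.subtype.baseChange Ek with hι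
    have hιinj : Function.Injective ι := by
      have : Function.Injective (S.subtype.lTensor Ek) :=
        Module.Flat.lTensor_preserves_injective_linearMap _ S.injective_subtype
      exact this
    set Z : TensorProduct K Ek R := Algebra.TensorProduct.includeRight z with hZ
    set Z' : TensorProduct K Ek R := Algebra.TensorProduct.includeRight z' with hZ'
    have hZZ' : Z * Z' = 1 := by rw [hZ, hZ', ← map_mul, h1, map_one]
    have hZ'Z : Z' * Z = 1 := by rw [hZ, hZ', ← map_mul, h2, map_one]
    have hconj : ∀ x, ι (BE x) = Z * ι x * Z' := by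
      intro x
      induction x using TensorProduct.induction_on with
      | zero => simp
      | add x y hx hy => rw [map_add, map_add, map_add, hx, hy, mul_add, add_mul]
      | tmul e s =>
        rw [hBE, hι, LinearMap.baseChange_tmul, LinearMap.baseChange_tmul,
          LinearMap.baseChange_tmul, hZ, hZ', Algebra.TensorProduct.includeRight_apply,
          Algebra.TensorProduct.includeRight_apply, Algebra.TensorProduct.tmul_mul_tmul,
          Algebra.TensorProduct.tmul_mul_tmul, one_mul, mul_one]
        congr 1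
        exact hB s
    have hw0 : ι v ≠ 0 := fun h => hv0 (hιinj (by rw [h, map_zero]))
    have hwl : Z * ι v * Z' = lam • ι v := by rw [← hconj, hv1, map_smul]
    have hμZ : Polynomial.aeval Z (minpoly K z) = 0 := by
      rw [hZ, Polynomial.aeval_algHom_apply, minpoly.aeval, map_zero]
    obtain ⟨α, β, hα, hβ, hαβ⟩ := eig_quot Z Z' (ι v) hZZ' hZ'Z (minpoly K z) hμZ hs2 hmon hw0 lam hwl
    have hαi : IsIntegral K α := Algebra.IsIntegral.isIntegral α
    have hmin : minpoly K z = minpoly K β := minpoly.eq_of_irreducible_of_monic hirr hβ hmon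
    obtain ⟨σ, hσ⟩ := minpoly.exists_algEquiv_of_root' (x := α) (y := β)
      (Algebra.IsAlgebraic.isAlgebraic β) (by rw [← hmin]; exact hα)
    have hN : Algebra.norm K α = Algebra.norm K β := by
      rw [← hσ]
      exact Algebra.norm_eq_of_algEquiv σ β
    have hβ0 : β ≠ 0 := by
      intro h0
      have hα0 : α = 0 := by rw [← hσ, h0, map_zero]
      have hz0 : (minpoly K z).coeff 0 = 0 := by
        rw [h0, ← Polynomial.coeff_zero_eq_aeval_zero'] at hβ
        exact (map_eq_zero_iff _ (algebraMap K Ek).injective).1 hβ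
      -- `X ∣ minpoly`, so `minpoly = X`, `z = 0`
      have hX : Polynomial.X ∣ minpoly K z := Polynomial.X_dvd_iff.2 hz0
      have hassoc := (Polynomial.irreducible_X (R := K)).associated_of_dvd hirr hX
      have heq : Polynomial.X = minpoly K z :=
        Polynomial.eq_of_monic_of_associated Polynomial.monic_X hmon hassoc
      have hzz : z = 0 := by
        have := minpoly.aeval K z
        rw [← heq, Polynomial.aeval_X] at this
        exact this
      have h10 : (1 : R) = 0 := by rw [← h1, hzz, zero_mul]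
      have : Nontrivial R := by
        by_contra hnt
        rw [not_nontrivial_iff_subsingleton] at hnt
        exact hirr.not_isUnit (by rw [minpoly.subsingleton]; exact isUnit_one)
      exact one_ne_zero h10
    have hNβ : Algebra.norm K β ≠ 0 := (Algebra.norm_ne_zero_iff).2 hβ0
    have : Algebra.norm K lam * Algebra.norm K β = 1 * Algebra.norm K β := by
      rw [← map_mul, hαβ, hN, one_mul]
    exact mul_right_cancel₀ hNβ this
  have h7 : Algebra.norm K (algebraMap K Ek (LinearMap.det B)) = 1 := by
    rw [← hdet]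
    rw [show LinearMap.det BE = BE.charpoly.roots.prod from hprod, map_multiset_prod]
    apply Multiset.prod_eq_one
    intro x hx
    obtain ⟨lam, hl, rfl⟩ := Multiset.mem_map.1 hx
    exact hnorm lam hl
  rw [Algebra.norm_algebraMap] at h7
  exact h7

/-- the determinant of a conjugation by an element generating a field -/
theorem det_conj_root {K R : Type} [Field K] [CharZero K] [Ring R] [Algebra K R]
    [FiniteDimensional K R] (z z' : R) (h1 : z * z' = 1) (h2 : z' * z = 1)
    (hirr : Irreducible (minpoly K z)) (S : Submodule K R) (B : S →ₗ[K] S)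
    (hB : ∀ x : S, (B x : R) = z * x * z') : ∃ M : ℕ, 1 ≤ M ∧ LinearMap.det B ^ M = 1 := by
  have hint : IsIntegral K z := Algebra.IsIntegral.isIntegral z
  have hmon : (minpoly K z).Monic := minpoly.monic hint
  have hB0 : (B.charpoly * minpoly K z) ≠ 0 :=
    mul_ne_zero (LinearMap.charpoly_monic B).ne_zero hmon.ne_zero
  have hspl := Polynomial.SplittingField.splits (B.charpoly * minpoly K z)
  have hmap0 : (B.charpoly * minpoly K z).map
      (algebraMap K (B.charpoly * minpoly K z).SplittingField) ≠ 0 :=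
    Polynomial.map_ne_zero hB0
  have hs1 := hspl.of_dvd hmap0 (Polynomial.map_dvd _ (Dvd.intro _ rfl : B.charpoly ∣ B.charpoly * minpoly K z))
  have hs2 := hspl.of_dvd hmap0 (Polynomial.map_dvd _ (Dvd.intro_left _ rfl : minpoly K z ∣ B.charpoly * minpoly K z))
  haveI : Normal K (B.charpoly * minpoly K z).SplittingField :=
    Normal.of_isSplittingField (B.charpoly * minpoly K z)
  refine ⟨Module.finrank K (B.charpoly * minpoly K z).SplittingField, Module.finrank_pos, ?_⟩
  exact det_core z z' h1 h2 hirr S B hB hs1 hs2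

theorem minpoly_irr (N : ℕ) (hN : 1 ≤ N) (z : EN p N) (𝒮 : Set (EN p N))
    (hz : ∀ s ∈ 𝒮, z * s = s * z)
    (hirr : ∀ W : Submodule ℚ_[p] (Fin N → ℚ_[p]), (∀ s ∈ 𝒮, ∀ w ∈ W, s w ∈ W) →
      W = ⊥ ∨ W = ⊤) : Irreducible (minpoly ℚ_[p] z) := by
  have hcomm : ∀ s ∈ 𝒮, ∀ q : Polynomial ℚ_[p], Polynomial.aeval z q * s = s * Polynomial.aeval z q := by
    intro s hs q
    have hc : Commute s z := (hz s hs).symm
    have hn : ∀ n : ℕ, z ^ n * s = s * z ^ n := fun n => (hc.pow_right n).symm
    induction q using Polynomial.induction_on' with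
    | add p q hp hq => rw [map_add, add_mul, mul_add, hp, hq]
    | monomial n a =>
      rw [Polynomial.aeval_monomial, ← Algebra.smul_def, smul_mul_assoc, mul_smul_comm, hn]
  have hker : ∀ q : Polynomial ℚ_[p],
      LinearMap.ker ((Polynomial.aeval z q : EN p N) : (Fin N → ℚ_[p]) →ₗ[ℚ_[p]] (Fin N → ℚ_[p])) = ⊥ ∨
      Polynomial.aeval z q = 0 := by
    intro q
    rcases hirr (LinearMap.ker ((Polynomial.aeval z q : EN p N) :
      (Fin N → ℚ_[p]) →ₗ[ℚ_[p]] (Fin N → ℚ_[p]))) (by
      intro s hs w hw
      rw [LinearMap.mem_ker] at hw ⊢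
      have h1 := congrArg (fun f : EN p N => f w) (hcomm s hs q)
      have h2 : (Polynomial.aeval z q : EN p N) (s w) = s ((Polynomial.aeval z q : EN p N) w) := h1
      have h3 : (Polynomial.aeval z q : EN p N) w = 0 := hw
      show (Polynomial.aeval z q : EN p N) (s w) = 0
      rw [h2, h3, map_zero]) with h | h
    · exact Or.inl h
    · right
      ext w
      have : w ∈ (⊤ : Submodule ℚ_[p] (Fin N → ℚ_[p])) := trivial
      rw [← h, LinearMap.mem_ker] at this
      exact congrFun this _
  haveI : FiniteDimensional ℚ_[p] (EN p N) := by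
    exact FiniteDimensional.of_injective
      (ContinuousLinearMap.coeLM ℚ_[p] : EN p N →ₗ[ℚ_[p]] ((Fin N → ℚ_[p]) →ₗ[ℚ_[p]] (Fin N → ℚ_[p])))
      ContinuousLinearMap.coe_injective
  have hint : IsIntegral ℚ_[p] z := Algebra.IsIntegral.isIntegral z
  have hmon : (minpoly ℚ_[p] z).Monic := minpoly.monic hint
  haveI : Nontrivial (EN p N) := by
    refine ⟨⟨1, 0, fun h => ?_⟩⟩
    have h1 := congrArg (fun f : EN p N => f (fun _ => 1) ⟨0, hN⟩) h
    simp at h1
  refine ⟨minpoly.not_isUnit ℚ_[p] z, ?_⟩
  intro q1 q2 hq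
  have h0 : Polynomial.aeval z q1 * Polynomial.aeval z q2 = 0 := by
    rw [← map_mul, ← hq, minpoly.aeval]
  have hq10 : q1 ≠ 0 := by rintro rfl; rw [zero_mul] at hq; exact hmon.ne_zero hq
  have hq20 : q2 ≠ 0 := by rintro rfl; rw [mul_zero] at hq; exact hmon.ne_zero hq
  rcases hker q1 with h | h
  · -- `q1(z)` injective so `q2(z) = 0`
    have h2 : Polynomial.aeval z q2 = 0 := by
      ext w
      have h3 : (Polynomial.aeval z q1 : EN p N) ((Polynomial.aeval z q2 : EN p N) w) = 0 :=
        congrArg (fun f : EN p N => f w) h0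
      have h4 : (Polynomial.aeval z q2 : EN p N) w ∈ LinearMap.ker ((Polynomial.aeval z q1 : EN p N) :
          (Fin N → ℚ_[p]) →ₗ[ℚ_[p]] (Fin N → ℚ_[p])) := h3
      rw [h, Submodule.mem_bot] at h4
      exact congrFun h4 _
    left
    have hd : minpoly ℚ_[p] z ∣ q2 := minpoly.dvd _ _ h2
    obtain ⟨c, hc⟩ := hd
    have : q2 * 1 = q2 * (q1 * c) := by
      rw [mul_one]
      conv_lhs => rw [hc, hq]
      ring
    have h5 := mul_left_cancel₀ hq20 this
    exact IsUnit.of_mul_eq_one _ h5.symm
  · right
    have hd : minpoly ℚ_[p] z ∣ q1 := minpoly.dvd _ _ h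
    obtain ⟨c, hc⟩ := hd
    have : q1 * 1 = q1 * (q2 * c) := by
      rw [mul_one]
      conv_lhs => rw [hc, hq]
      ring
    have h5 := mul_left_cancel₀ hq10 this
    exact IsUnit.of_mul_eq_one _ h5.symm

end

end Pool.Agent.Helper156.RWF.J14028
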