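import Pool.Agent.Helper156.RWF.D0

namespace Pool.Agent.Helper156.RWF.J14030

open Pool.Agent.Helper156.RWF
open Filter Topology MeasureTheory


section
variable {p : ℕ} [Fact p.Prime]
variable {F : Type} [Group F] [TopologicalSpace F] [IsTopologicalGroup F] [CompactSpace F]
  [T2Space F] [TotallyDisconnectedSpace F]
variable {A : Type} [NormedRing A] [NormedAlgebra ℚ_[p] A] [IsUltrametricDist A] [NormOneClass A]
  [FiniteDimensional ℚ_[p] A]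

theorem conj_recurrent_mem (g : Submodule ℚ_[p] A) (a b : A)
    (hag : ∀ x ∈ g, a * x * b ∈ g) (n : ℕ) : ∀ x ∈ g, a ^ n * x * b ^ n ∈ g := by
  induction n with
  | zero => intro x hx; simpa using hx
  | succ n ih =>
    intro x hx
    have h1 : a ^ (n + 1) * x * b ^ (n + 1) = a * (a ^ n * x * b ^ n) * b := by
      rw [pow_succ' a n, pow_succ b n]
      noncomm_ring
    rw [h1]
    exact hag _ (ih x hx)

theorem conj_recurrent_pow (a b : A) (hba : b * a = 1) (n : ℕ) : b ^ n * a ^ n = 1 := by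
  induction n with
  | zero => simp
  | succ n ih =>
    rw [pow_succ b n, pow_succ' a n]
    have h1 : b ^ n * b * (a * a ^ n) = b ^ n * (b * a) * a ^ n := by noncomm_ring
    rw [h1, hba, mul_one, ih]

theorem conj_recurrent (g : Submodule ℚ_[p] A) (a b : A) (hab : a * b = 1) (hba : b * a = 1)
    (hag : ∀ x ∈ g, a * x * b ∈ g) (hbg : ∀ x ∈ g, b * x * a ∈ g) (c : ℕ)
    (hc : ∀ n : ℕ, ∀ x ∈ g, ‖a ^ n * x * b ^ n‖ ≤ (p : ℝ) ^ c * ‖x‖ ∧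
      ‖b ^ n * x * a ^ n‖ ≤ (p : ℝ) ^ c * ‖x‖) (J : ℕ) :
    ∃ m : ℕ, 1 ≤ m ∧ ∀ x ∈ g, ‖a ^ m * x * b ^ m - x‖ ≤ ((p : ℝ)⁻¹) ^ J * ‖x‖ := by
  have hp0 : (0 : ℝ) < p := by exact_mod_cast (Fact.out : p.Prime).pos
  obtain ⟨T, hT⟩ : ∃ T : ℕ → (g →L[ℚ_[p]] A), ∀ n (x : g), T n x = a ^ n * x * b ^ n :=
    ⟨fun n => (ContinuousLinearMap.mulLeftRight ℚ_[p] A (a ^ n) (b ^ n)).comp g.subtypeL,
      fun n x => rfl⟩
  have hTn : ∀ n, ‖T n‖ ≤ (p : ℝ) ^ c := by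
    intro n
    refine ContinuousLinearMap.opNorm_le_bound _ (by positivity) fun x => ?_
    rw [hT]
    exact (hc n x x.2).1
  have hprop : ProperSpace (g →L[ℚ_[p]] A) := FiniteDimensional.proper ℚ_[p] (g →L[ℚ_[p]] A)
  have hmem : ∀ n, T n ∈ Metric.closedBall (0 : g →L[ℚ_[p]] A) ((p : ℝ) ^ c) := fun n => by
    have h1 : dist (T n) 0 = ‖T n‖ := dist_zero_right (T n)
    exact h1.trans_le (hTn n)
  obtain ⟨T0, -, φ, hφ, hlim⟩ := (isCompact_closedBall (0 : g →L[ℚ_[p]] A)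
    ((p : ℝ) ^ c)).tendsto_subseq hmem
  have hcau := hlim.cauchySeq
  obtain ⟨N, hN⟩ := (Metric.cauchySeq_iff (α := g →L[ℚ_[p]] A) (β := ℕ)).1 hcau (((p : ℝ)⁻¹) ^ (J + c)) (by positivity)
  have h1 := hN N le_rfl (N + 1) (Nat.le_succ N)
  have h2 : φ N < φ (N + 1) := hφ (Nat.lt_succ_self N)
  obtain ⟨m, hm⟩ := Nat.exists_eq_add_of_lt h2
  refine ⟨m + 1, by omega, fun x hx => ?_⟩
  obtain ⟨n, hn⟩ : ∃ n, n = φ N := ⟨_, rfl⟩
  have hn' : φ (N + 1) = n + (m + 1) := by rw [hm, hn]; ring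
  simp only [Function.comp_apply] at h1
  rw [← hn, hn', dist_comm] at h1
  have h1' : ‖T (n + (m + 1)) - T n‖ < ((p : ℝ)⁻¹) ^ (J + c) :=
    (dist_eq_norm (T (n + (m + 1))) (T n)).symm.trans_lt h1
  have e1 : (T (n + (m + 1)) - T n) ⟨x, hx⟩ = a ^ (n + (m + 1)) * x * b ^ (n + (m + 1)) -
      a ^ n * x * b ^ n := by
    rw [sub_apply, hT, hT]
  have hy : a ^ (n + (m + 1)) * x * b ^ (n + (m + 1)) - a ^ n * x * b ^ n ∈ g :=
    g.sub_mem (conj_recurrent_mem g a b hag _ x hx) (conj_recurrent_mem g a b hag _ x hx)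
  have e2 : a ^ (m + 1) * x * b ^ (m + 1) - x = b ^ n * (a ^ (n + (m + 1)) * x *
      b ^ (n + (m + 1)) - a ^ n * x * b ^ n) * a ^ n := by
    have h3 := conj_recurrent_pow a b hba n
    have h4 : b ^ n * (a ^ (n + (m + 1)) * x * b ^ (n + (m + 1)) - a ^ n * x * b ^ n) * a ^ n =
        (b ^ n * a ^ n) * (a ^ (m + 1) * x * b ^ (m + 1)) * (b ^ n * a ^ n) -
          (b ^ n * a ^ n) * x * (b ^ n * a ^ n) := by
      have h5 : b ^ (n + (m + 1)) = b ^ (m + 1) * b ^ n := by rw [add_comm, pow_add]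
      rw [h5, pow_add a n (m + 1)]
      simp only [mul_sub, sub_mul, mul_assoc]
    rw [h4, h3]
    simp
  rw [e2]
  refine (hc n _ hy).2.trans ?_
  have h6 : ‖a ^ (n + (m + 1)) * x * b ^ (n + (m + 1)) - a ^ n * x * b ^ n‖ ≤
      ((p : ℝ)⁻¹) ^ (J + c) * ‖x‖ := by
    rw [← e1]
    refine (ContinuousLinearMap.le_opNorm _ _).trans ?_
    exact mul_le_mul_of_nonneg_right h1'.le (norm_nonneg _)
  calc (p : ℝ) ^ c * ‖a ^ (n + (m + 1)) * x * b ^ (n + (m + 1)) - a ^ n * x * b ^ n‖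
      ≤ (p : ℝ) ^ c * (((p : ℝ)⁻¹) ^ (J + c) * ‖x‖) :=
        mul_le_mul_of_nonneg_left h6 (by positivity)
    _ = ((p : ℝ) ^ c * ((p : ℝ)⁻¹) ^ c) * (((p : ℝ)⁻¹) ^ J * ‖x‖) := by rw [pow_add]; ring
    _ = ((p : ℝ)⁻¹) ^ J * ‖x‖ := by
      rw [← mul_pow, mul_inv_cancel₀ hp0.ne', one_pow, one_mul]

end

end Pool.Agent.Helper156.RWF.J14030
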