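import Pool.Agent.Helper156.RWF.D0
import Pool.Agent.Helper156.RWF.J12439
import Pool.Agent.Helper156.RWF.J12441
import Pool.Agent.Helper156.RWF.J12442
import Pool.Agent.Helper156.RWF.J12833
import Pool.Agent.Helper156.RWF.J13972

namespace Pool.Agent.Helper156.RWF.J14032

open Pool.Agent.Helper156.RWF Pool.Agent.Helper156.RWF.J12439 Pool.Agent.Helper156.RWF.J12441 Pool.Agent.Helper156.RWF.J12442 Pool.Agent.Helper156.RWF.J12833 Pool.Agent.Helper156.RWF.J13972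
open Filter Topology MeasureTheory


section
variable {p : ℕ} [Fact p.Prime]
variable {F : Type} [Group F] [TopologicalSpace F] [IsTopologicalGroup F] [CompactSpace F]
  [T2Space F] [TotallyDisconnectedSpace F]
variable {A : Type} [NormedRing A] [NormedAlgebra ℚ_[p] A] [IsUltrametricDist A] [NormOneClass A]
  [FiniteDimensional ℚ_[p] A]


theorem cb_core (ρ : F →* A) (g : Submodule ℚ_[p] A) (k : ℕ)
    (hL : IsLieOf p (Set.range ρ) g k) (n0 : ℕ) (hn0 : 1 ≤ n0)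
    (hpow : ∀ f : F, ‖ρ (f ^ n0) - 1‖ ≤ ((p : ℝ)⁻¹) ^ k) (u v : A) (huv : u * v = 1)
    (hvu : v * u = 1) (ψ : F → F) (hψ : ∀ f, ρ (ψ f) = u * ρ f * v) (x : A) (hxg : x ∈ g)
    (hx : ‖x‖ ≤ ((p : ℝ)⁻¹) ^ k) : ‖(n0 : ℚ_[p]) • (u * x * v)‖ ≤ ((p : ℝ)⁻¹) ^ k := by
  have hp1 : (1 : ℝ) < p := by exact_mod_cast (Fact.out : p.Prime).one_lt
  have hp0 : (0 : ℝ) < p := by linarith
  have hpi0 : (0 : ℝ) < (p : ℝ)⁻¹ := inv_pos.2 hp0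
  have hpi1 : (p : ℝ)⁻¹ < 1 := inv_lt_one_of_one_lt₀ hp1
  have hk2 : ((p : ℝ)⁻¹) ^ k ≤ ((p : ℝ)⁻¹) ^ 2 := pow_le_pow_of_le_one hpi0.le hpi1.le hL.1
  obtain ⟨f, hf⟩ := (hL.2 x hx).2 hxg
  obtain ⟨Y, hY, hEY⟩ := E_surj k hL.1 _ (hpow (ψ f))
  rw [map_pow, hψ, hf] at hEY
  -- choose t
  obtain ⟨t, ht⟩ : ∃ t : ℕ, ((p : ℝ)⁻¹) ^ t * ‖u * (n0 • x) * v‖ ≤ ((p : ℝ)⁻¹) ^ 2 := by
    obtain ⟨t, ht⟩ := exists_pow_lt_of_lt_one
      (div_pos (pow_pos hpi0 2) (by positivity : 0 < ‖u * (n0 • x) * v‖ + 1)) hpi1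
    refine ⟨t, ?_⟩
    rw [lt_div_iff₀ (by positivity)] at ht
    have : ((p : ℝ)⁻¹) ^ t * ‖u * (n0 • x) * v‖ ≤ ((p : ℝ)⁻¹) ^ t * (‖u * (n0 • x) * v‖ + 1) := by
      gcongr
      linarith
    linarith
  have hcast : ∀ (m : ℕ) (z : A), m • z = (m : ℚ_[p]) • z := fun m z =>
    (Nat.cast_smul_eq_nsmul ℚ_[p] m z).symm
  have hnat : ∀ (m : ℕ) (z : A), ‖m • z‖ ≤ ‖z‖ := by
    intro m z
    rw [hcast, norm_smul]
    have h1 : ‖(m : ℚ_[p])‖ ≤ 1 := by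
      have := Padic.norm_int_le_one (p := p) (m : ℤ)
      simpa using this
    calc ‖(m : ℚ_[p])‖ * ‖z‖ ≤ 1 * ‖z‖ := by gcongr
      _ = ‖z‖ := one_mul _
  have hpt : ∀ z : A, ‖(p ^ t) • z‖ = ((p : ℝ)⁻¹) ^ t * ‖z‖ := by
    intro z
    rw [hcast, norm_smul, Nat.cast_pow, norm_pow, Padic.norm_p]
  have hcomm : u * ((p ^ t * n0) • x) * v = (p ^ t) • (u * (n0 • x) * v) := by
    rw [mul_smul, mul_smul_comm, smul_mul_assoc]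
  have h1 : E p (u * ((p ^ t * n0) • x) * v) = E p ((p ^ t) • Y) := by
    rw [E_conj u v _ huv hvu ((hnat _ _).trans (hx.trans hk2)), E_nsmul _ x (hx.trans hk2),
      E_nsmul _ Y (hY.trans hk2), hEY, ← pow_mul]
    have h2 : ∀ n : ℕ, (u * E p x * v) ^ n = u * E p x ^ n * v := by
      intro n
      induction n with
      | zero => rw [pow_zero, pow_zero, mul_one, huv]
      | succ n ih =>
        rw [pow_succ, ih, pow_succ]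
        calc u * E p x ^ n * v * (u * E p x * v) = u * E p x ^ n * (v * u) * E p x * v := by
              simp only [mul_assoc]
          _ = u * (E p x ^ n * E p x) * v := by rw [hvu]; simp only [mul_assoc, mul_one, one_mul]
    rw [h2, mul_comm n0 (p ^ t)]
  have h3 := E_isom (u * ((p ^ t * n0) • x) * v) ((p ^ t) • Y)
    (by rw [hcomm, hpt]; exact ht) ((hnat _ _).trans (hY.trans hk2))
  rw [h1, sub_self, norm_zero] at h3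
  have h4 : u * ((p ^ t * n0) • x) * v = (p ^ t) • Y := sub_eq_zero.1 (norm_eq_zero.1 h3.symm)
  rw [hcomm] at h4
  have h5 : (p ^ t) • (u * (n0 • x) * v - Y) = 0 := by rw [smul_sub, h4, sub_self]
  have h6 : ‖u * (n0 • x) * v - Y‖ = 0 := by
    have h7 := hpt (u * (n0 • x) * v - Y)
    rw [h5, norm_zero] at h7
    rcases mul_eq_zero.1 h7.symm with h | h
    · exact absurd h (pow_pos hpi0 t).ne'
    · exact h
  have h8 : u * (n0 • x) * v = Y := sub_eq_zero.1 (norm_eq_zero.1 h6)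
  rw [← hcast]
  have h9 : n0 • (u * x * v) = u * (n0 • x) * v := by rw [mul_smul_comm, smul_mul_assoc]
  rw [h9, h8]
  exact hY

theorem cb_scale (ρ : F →* A) (g : Submodule ℚ_[p] A) (k : ℕ)
    (hL : IsLieOf p (Set.range ρ) g k) (n0 : ℕ) (hn0 : 1 ≤ n0)
    (hpow : ∀ f : F, ‖ρ (f ^ n0) - 1‖ ≤ ((p : ℝ)⁻¹) ^ k) (u v : A) (huv : u * v = 1)
    (hvu : v * u = 1) (ψ : F → F) (hψ : ∀ f, ρ (ψ f) = u * ρ f * v) (x : A) (hxg : x ∈ g) :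
    ‖u * x * v‖ ≤ ‖(n0 : ℚ_[p])‖⁻¹ * p * ‖x‖ := by
  have hp1 : (1 : ℝ) < p := by exact_mod_cast (Fact.out : p.Prime).one_lt
  have hp0 : (0 : ℝ) < p := by linarith
  have hpi0 : (0 : ℝ) < (p : ℝ)⁻¹ := inv_pos.2 hp0
  by_cases hx0 : x = 0
  · rw [hx0, mul_zero, zero_mul, norm_zero, mul_zero]
  have hnc : ‖((p : ℚ_[p])⁻¹)‖ = p := by rw [norm_inv, Padic.norm_p, inv_inv]
  have hε : 0 < ((p : ℝ)⁻¹) ^ k := pow_pos hpi0 k
  obtain ⟨d, hd0, hd1, -, hd3⟩ := rescale_to_shell (𝕜 := ℚ_[p]) (c := (p : ℚ_[p])⁻¹)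
    (by rw [hnc]; exact hp1) hε hx0
  rw [hnc] at hd3
  have h1 := cb_core ρ g k hL n0 hn0 hpow u v huv hvu ψ hψ (d • x) (g.smul_mem d hxg) hd1.le
  have h2 : (n0 : ℚ_[p]) • (u * (d • x) * v) = ((n0 : ℚ_[p]) * d) • (u * x * v) := by
    rw [mul_smul_comm, smul_mul_assoc, smul_smul]
  rw [h2, norm_smul, norm_mul] at h1
  have hn0' : (0 : ℝ) < ‖(n0 : ℚ_[p])‖ := by
    rw [norm_pos_iff, Nat.cast_ne_zero]
    omega
  have hd0' : 0 < ‖d‖ := norm_pos_iff.2 hd0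
  have h3 : ‖u * x * v‖ ≤ ((p : ℝ)⁻¹) ^ k * (‖(n0 : ℚ_[p])‖⁻¹ * ‖d‖⁻¹) := by
    rw [← mul_inv, ← div_eq_mul_inv, le_div_iff₀ (by positivity), mul_comm]
    exact h1
  calc ‖u * x * v‖ ≤ ((p : ℝ)⁻¹) ^ k * (‖(n0 : ℚ_[p])‖⁻¹ * ‖d‖⁻¹) := h3
    _ ≤ ((p : ℝ)⁻¹) ^ k * (‖(n0 : ℚ_[p])‖⁻¹ * ((((p : ℝ)⁻¹) ^ k)⁻¹ * p * ‖x‖)) := by gcongr
    _ = (((p : ℝ)⁻¹) ^ k * (((p : ℝ)⁻¹) ^ k)⁻¹) * (‖(n0 : ℚ_[p])‖⁻¹ * p * ‖x‖) := by ring
    _ = ‖(n0 : ℚ_[p])‖⁻¹ * p * ‖x‖ := by rw [mul_inv_cancel₀ hε.ne', one_mul]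

theorem cb_iter (ρ : F →* A) (ψ : F → F) (a b : A) (hψ : ∀ f, ρ (ψ f) = a * ρ f * b) (n : ℕ) :
    ∀ f, ρ (ψ^[n] f) = a ^ n * ρ f * b ^ n := by
  induction n with
  | zero =>
    intro f
    rw [Function.iterate_zero, id, pow_zero, pow_zero, one_mul, mul_one]
  | succ n ih =>
    intro f
    rw [Function.iterate_succ_apply, ih, hψ, pow_succ, pow_succ']
    simp only [mul_assoc]

theorem conj_bounded (φ : F ≃ₜ* F) (ρ : F →* A) (hρ : Continuous ρ) (hρn : ∀ f, ‖ρ f‖ ≤ 1)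
    (g : Submodule ℚ_[p] A) (k : ℕ) (hL : IsLieOf p (Set.range ρ) g k) (a b : A)
    (hab : a * b = 1) (hba : b * a = 1) (hφ : ∀ f, ρ (φ f) = a * ρ f * b) :
    ∃ c : ℕ, ∀ n : ℕ, ∀ x ∈ g, ‖a ^ n * x * b ^ n‖ ≤ (p : ℝ) ^ c * ‖x‖ ∧
      ‖b ^ n * x * a ^ n‖ ≤ (p : ℝ) ^ c * ‖x‖ := by
  have hp1 : (1 : ℝ) < p := by exact_mod_cast (Fact.out : p.Prime).one_lt
  obtain ⟨n0, hn0, hpow⟩ := pow_near_one (p := p) ρ hρ k
  obtain ⟨c, hc⟩ := pow_unbounded_of_one_lt (‖(n0 : ℚ_[p])‖⁻¹ * p) hp1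
  have hφ' : ∀ f, ρ (φ.symm f) = b * ρ f * a := by
    intro f
    have h1 := hφ (φ.symm f)
    rw [φ.apply_symm_apply] at h1
    rw [h1]
    calc ρ (φ.symm f) = (b * a) * ρ (φ.symm f) * (b * a) := by rw [hba, one_mul, mul_one]
      _ = b * (a * ρ (φ.symm f) * b) * a := by simp only [mul_assoc]
  have hcab : Commute a b := hab.trans hba.symm
  refine ⟨c, fun n x hx => ?_⟩
  have h1 : a ^ n * b ^ n = 1 := by rw [← hcab.mul_pow, hab, one_pow]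
  have h2 : b ^ n * a ^ n = 1 := by rw [← hcab.symm.mul_pow, hba, one_pow]
  constructor
  · refine (cb_scale ρ g k hL n0 hn0 hpow (a ^ n) (b ^ n) h1 h2 _ (cb_iter ρ φ a b hφ n) x
      hx).trans ?_
    gcongr
  · refine (cb_scale ρ g k hL n0 hn0 hpow (b ^ n) (a ^ n) h2 h1 _ (cb_iter ρ φ.symm b a hφ' n) x
      hx).trans ?_
    gcongr

end

end Pool.Agent.Helper156.RWF.J14032
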