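import Pool.Agent.Helper156.RWF.D0
import Pool.Agent.Helper156.RWF.J12513

namespace Pool.Agent.Helper156.RWF.J14173

open Pool.Agent.Helper156.RWF Pool.Agent.Helper156.RWF.J12513
open Filter Topology MeasureTheory


section
variable {p : ℕ} [Fact p.Prime]
variable {F : Type} [Group F] [TopologicalSpace F] [IsTopologicalGroup F] [CompactSpace F]
  [T2Space F] [TotallyDisconnectedSpace F]
variable {A : Type} [NormedRing A] [NormedAlgebra ℚ_[p] A] [IsUltrametricDist A] [NormOneClass A]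
  [FiniteDimensional ℚ_[p] A]
variable {B : Type} [NormedRing B] [NormedAlgebra ℚ_[p] B] [IsUltrametricDist B] [NormOneClass B]
  [FiniteDimensional ℚ_[p] B]


theorem wprop_EN (N : ℕ) (g : Submodule ℚ_[p] (EN p N)) (hbr : Brk g)
    (hss : ∀ W : Submodule ℚ_[p] (Fin N → ℚ_[p]), (∀ x ∈ g, ∀ w ∈ W, x w ∈ W) →
      ∃ W' : Submodule ℚ_[p] (Fin N → ℚ_[p]), (∀ x ∈ g, ∀ w ∈ W', x w ∈ W') ∧ IsCompl W W')
    (hz : ∀ x ∈ g, (∀ y ∈ g, x * y = y * x) → x = 0) : WProp g := by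
  let Ψ : Module.End ℚ_[p] (Fin N → ℚ_[p]) ≃ₗ[ℚ_[p]] EN p N := LinearMap.toContinuousLinearMap
  let Φ : EN p N ≃ₗ[ℚ_[p]] Module.End ℚ_[p] (Fin N → ℚ_[p]) := Ψ.symm
  have hΦ : ∀ (x : EN p N) (v : Fin N → ℚ_[p]), Φ x v = x v := fun x v => rfl
  have hΦm : ∀ x y : EN p N, Φ (x * y) = Φ x * Φ y := fun x y => by
    ext v
    rfl
  have hΦinj : Function.Injective Φ := Φ.injective
  set g' : Submodule ℚ_[p] (Module.End ℚ_[p] (Fin N → ℚ_[p])) := g.map Φ.toLinearMap with hg'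
  have hmem : ∀ x ∈ g, Φ x ∈ g' := fun x hx => Submodule.mem_map_of_mem hx
  have hmem' : ∀ y ∈ g', ∃ x ∈ g, Φ x = y := fun y hy => hy
  have hW : WProp g' := by
    apply wprop_of_semisimple
    · intro y₁ hy₁ y₂ hy₂
      obtain ⟨x₁, hx₁, rfl⟩ := hmem' y₁ hy₁
      obtain ⟨x₂, hx₂, rfl⟩ := hmem' y₂ hy₂
      rw [← hΦm, ← hΦm, ← map_sub]
      exact hmem _ (hbr x₁ hx₁ x₂ hx₂)
    · intro W hWst
      obtain ⟨W', h1, h2⟩ := hss W (fun x hx w hw => hWst (Φ x) (hmem x hx) w hw)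
      refine ⟨W', ?_, h2⟩
      intro y hy w hw
      obtain ⟨x, hx, rfl⟩ := hmem' y hy
      exact h1 x hx w hw
    · intro y hy hcomm
      obtain ⟨x, hx, rfl⟩ := hmem' y hy
      rw [hz x hx, map_zero]
      intro z hz'
      apply hΦinj
      rw [hΦm, hΦm]
      exact hcomm _ (hmem z hz')
  intro X _ _ _ τ D hτ hD
  obtain ⟨v, hv⟩ := hW X (τ ∘ₗ Ψ.toLinearMap) (D ∘ₗ Ψ.toLinearMap)
    (by
      intro y₁ hy₁ y₂ hy₂
      obtain ⟨x₁, hx₁, rfl⟩ := hmem' y₁ hy₁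
      obtain ⟨x₂, hx₂, rfl⟩ := hmem' y₂ hy₂
      have e : ∀ x, Ψ (Φ x) = x := fun x => Ψ.apply_symm_apply x
      rw [← hΦm, ← hΦm, ← map_sub]
      simp only [LinearMap.comp_apply, LinearEquiv.coe_coe, e]
      exact hτ x₁ hx₁ x₂ hx₂)
    (by
      intro y₁ hy₁ y₂ hy₂
      obtain ⟨x₁, hx₁, rfl⟩ := hmem' y₁ hy₁
      obtain ⟨x₂, hx₂, rfl⟩ := hmem' y₂ hy₂
      have e : ∀ x, Ψ (Φ x) = x := fun x => Ψ.apply_symm_apply x
      rw [← hΦm, ← hΦm, ← map_sub]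
      simp only [LinearMap.comp_apply, LinearEquiv.coe_coe, e]
      exact hD x₁ hx₁ x₂ hx₂)
  refine ⟨v, fun x hx => ?_⟩
  have e : ∀ x, Ψ (Φ x) = x := fun x => Ψ.apply_symm_apply x
  have := hv (Φ x) (hmem x hx)
  simp only [LinearMap.comp_apply, LinearEquiv.coe_coe, e] at this
  exact this

end

end Pool.Agent.Helper156.RWF.J14173
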