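import Pool.Agent.Helper156.RWF.D0
import Pool.Agent.Helper156.RWF.J12831
import Pool.Agent.Helper156.RWF.J12835
import Pool.Agent.Helper156.RWF.J13861
import Pool.Agent.Helper156.RWF.J13866
import Pool.Agent.Helper156.RWF.J14028
import Pool.Agent.Helper156.RWF.J14033

namespace Pool.Agent.Helper156.RWF.J14174

open Pool.Agent.Helper156.RWF Pool.Agent.Helper156.RWF.J12831 Pool.Agent.Helper156.RWF.J12835 Pool.Agent.Helper156.RWF.J13861 Pool.Agent.Helper156.RWF.J13866 Pool.Agent.Helper156.RWF.J14028 Pool.Agent.Helper156.RWF.J14033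
open Filter Topology MeasureTheory


section
variable {p : ℕ} [Fact p.Prime]
variable {F : Type} [Group F] [TopologicalSpace F] [IsTopologicalGroup F] [CompactSpace F]
  [T2Space F] [TotallyDisconnectedSpace F]
variable {A : Type} [NormedRing A] [NormedAlgebra ℚ_[p] A] [IsUltrametricDist A] [NormOneClass A]
  [FiniteDimensional ℚ_[p] A]
variable {B : Type} [NormedRing B] [NormedAlgebra ℚ_[p] B] [IsUltrametricDist B] [NormOneClass B]
  [FiniteDimensional ℚ_[p] B]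


/-- abstract form of the contradiction, over a general algebra -/
theorem core_abs_14174 {R : Type} [NormedRing R] [NormedAlgebra ℚ_[p] R] [IsUltrametricDist R]
    [NormOneClass R] [FiniteDimensional ℚ_[p] R] {d : ℕ} {x : Fin d → F}
    (hx : Dense ((Subgroup.closure (Set.range x) : Subgroup F) : Set F))
    (φ : F ≃ₜ* F) (hφ : ¬ Bad p φ) (ρ : F →* R) (hρ : Continuous ρ)
    (hρn : ∀ f, ‖ρ f‖ ≤ 1) (a b : R) (hab : a * b = 1) (hba : b * a = 1)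
    (hφa : ∀ f, ρ (φ f) = a * ρ f * b)
    (hmin : ∀ (m : ℕ) (f₀ : F), (∀ f, (ρ f₀⁻¹ * a ^ m) * ρ f = ρ f * (ρ f₀⁻¹ * a ^ m)) →
      (ρ f₀⁻¹ * a ^ m) * a = a * (ρ f₀⁻¹ * a ^ m) →
      Irreducible (minpoly ℚ_[p] (ρ f₀⁻¹ * a ^ m)))
    (g : Submodule ℚ_[p] R) (k : ℕ) (hL : IsLieOf p (Set.range ρ) g k) (hbr : Brk g)
    (hW : WProp g) (M₁ : Submodule ℚ_[p] R) (hM₁ : M₁ ≠ ⊥)
    (hM₁ρ : ∀ f, ∀ y ∈ M₁, ρ f * y * ρ f⁻¹ ∈ M₁) (hM₁a : ∀ y ∈ M₁, a * y * b ∈ M₁)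
    (c : F → R) (hc : Continuous c) (hcM : ∀ f, c f ∈ M₁)
    (hspan : Submodule.span ℚ_[p] (c '' {f | ρ f = 1}) = M₁)
    (hcoc : ∀ f h, c (f * h) = c f + ρ f * c h * ρ f⁻¹) (β : R) (hβM : β ∈ M₁)
    (hβ : ∀ f, a * c (φ.symm f) * b - c f = ρ f * β * ρ f⁻¹ - β) : False := by
  have hnt : Nontrivial M₁ := (Submodule.nontrivial_iff_ne_bot).mpr hM₁
  have hum : IsUltrametricDist (M₁ →L[ℚ_[p]] M₁) := clm_ultrametric (p := p) M₁
  have hρinv : ∀ f, ρ f * ρ f⁻¹ = 1 := by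
    intro f
    rw [← map_mul, mul_inv_cancel, map_one]
  obtain ⟨σ, hσ⟩ : ∃ σ : F →* (M₁ →L[ℚ_[p]] M₁),
      ∀ f y, ((σ f y : M₁) : R) = ρ f * y * ρ f⁻¹ := by
    refine ⟨{ toFun := fun f => ((ContinuousLinearMap.mulLeftRight ℚ_[p] R (ρ f) (ρ f⁻¹)).comp
        M₁.subtypeL).codRestrict M₁ (fun y => hM₁ρ f y y.2), map_one' := ?_, map_mul' := ?_ },
        fun f y => rfl⟩
    · apply ContinuousLinearMap.ext
      intro y
      apply Subtype.ext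
      show ρ 1 * (y : R) * ρ (1 : F)⁻¹ = y
      rw [inv_one, map_one, one_mul, mul_one]
    · intro f h
      apply ContinuousLinearMap.ext
      intro y
      apply Subtype.ext
      show ρ (f * h) * (y : R) * ρ (f * h)⁻¹ = ρ f * (ρ h * (y : R) * ρ h⁻¹) * ρ f⁻¹
      rw [mul_inv_rev, map_mul, map_mul]
      simp only [mul_assoc]
  obtain ⟨B, hB⟩ : ∃ B : M₁ →ₗ[ℚ_[p]] M₁, ∀ y, ((B y : M₁) : R) = a * y * b := by
    refine ⟨(((ContinuousLinearMap.mulLeftRight ℚ_[p] R a b).comp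
        M₁.subtypeL).codRestrict M₁ (fun y => hM₁a y y.2) : M₁ →L[ℚ_[p]] M₁), fun y => rfl⟩
  have hσc : Continuous σ := by
    rw [continuous_clm_apply]
    intro y
    rw [continuous_induced_rng]
    have h1 : (Subtype.val ∘ fun f => σ f y) = fun f => ρ f * (y : R) * ρ f⁻¹ := by
      funext f
      exact hσ f y
    rw [h1]
    exact (hρ.mul continuous_const).mul (hρ.comp continuous_inv)
  have hker : ∀ f, ρ f = 1 → σ f = 1 := by
    intro f hf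
    have h1 : ρ f⁻¹ = 1 := by
      have := hρinv f
      rwa [hf, one_mul] at this
    apply ContinuousLinearMap.ext
    intro y
    apply Subtype.ext
    rw [hσ, hf, h1, one_mul, mul_one]
    rfl
  obtain ⟨g', k', hL', hbr', hW'⟩ := lie_image (A := R) (B := M₁ →L[ℚ_[p]] M₁) ρ σ hρ hσc hker
    g k hL hbr hW
  have hBinj : Function.Injective B := by
    intro y y' h
    have h1 : ((B y : M₁) : R) = ((B y' : M₁) : R) := by rw [h]
    rw [hB, hB] at h1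
    apply Subtype.ext
    have h2 : ∀ w : R, b * (a * w * b) * a = w := by
      intro w
      calc b * (a * w * b) * a = (b * a) * w * (b * a) := by simp only [mul_assoc]
        _ = w := by rw [hba, one_mul, mul_one]
    rw [← h2 y, h1, h2]
  have hBsurj : Function.Surjective B := LinearMap.injective_iff_surjective.mp hBinj
  have hφinv : ∀ f, (φ f)⁻¹ = φ f⁻¹ := fun f => (map_inv φ f).symm
  have hB1 : ∀ f v, σ (φ f) (B v) = B (σ f v) := by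
    intro f v
    apply Subtype.ext
    rw [hσ, hB, hB, hσ, hφinv, hφa, hφa]
    calc a * ρ f * b * (a * (v : R) * b) * (a * ρ f⁻¹ * b)
        = a * ρ f * (b * a) * (v : R) * (b * a) * ρ f⁻¹ * b := by simp only [mul_assoc]
      _ = a * (ρ f * (v : R) * ρ f⁻¹) * b := by
        rw [hba, mul_one, mul_one]; simp only [mul_assoc]
  have hB2 : ∀ f, σ f = 1 → (⟨c (φ f), hcM (φ f)⟩ : M₁) = B ⟨c f, hcM f⟩ := by
    intro f hf
    have h1 : ∀ y, σ (φ f) y = y := by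
      intro y
      obtain ⟨v, rfl⟩ := hBsurj y
      rw [hB1, hf]
      rfl
    have h2 := hβ (φ f)
    have h3 : φ.symm (φ f) = f := φ.symm_apply_apply f
    rw [h3] at h2
    have h4 := hσ (φ f) ⟨β, hβM⟩
    rw [h1] at h4
    have h5 : ρ (φ f) * β * ρ (φ f)⁻¹ = β := h4.symm
    rw [h5, sub_self, sub_eq_zero] at h2
    apply Subtype.ext
    rw [hB]
    exact h2.symm
  have hcoc' : ∀ f h, (⟨c (f * h), hcM (f * h)⟩ : M₁) = ⟨c f, hcM f⟩ + σ f ⟨c h, hcM h⟩ := by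
    intro f h
    apply Subtype.ext
    rw [Submodule.coe_add, hσ]
    exact hcoc f h
  have hspan' : Submodule.span ℚ_[p] ((fun f => (⟨c f, hcM f⟩ : M₁)) '' {f | σ f = 1}) = ⊤ := by
    have h1 : Submodule.span ℚ_[p] ((fun f => (⟨c f, hcM f⟩ : M₁)) '' {f | ρ f = 1}) = ⊤ := by
      apply Submodule.map_injective_of_injective M₁.injective_subtype
      rw [Submodule.map_span, Submodule.map_subtype_top, ← Set.image_comp]
      exact hspan
    rw [eq_top_iff, ← h1]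
    apply Submodule.span_mono
    apply Set.image_mono
    intro f hf
    exact hker f hf
  have hnb := not_bad_abs φ hφ σ hσc (fun f => (⟨c f, hcM f⟩ : M₁)) (hc.subtype_mk hcM)
    hcoc' hspan' g' k' hL' hbr' hW' B hB1 hB2
  -- the determinant character
  have hdetB : LinearMap.det B ≠ 0 := by
    have h1 := (LinearEquiv.ofInjectiveEndo B hBinj).isUnit_det'
    have h2 : ((LinearEquiv.ofInjectiveEndo B hBinj : M₁ ≃ₗ[ℚ_[p]] M₁) :
        M₁ →ₗ[ℚ_[p]] M₁) = B := by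
      apply LinearMap.ext
      intro y
      rfl
    rw [h2] at h1
    exact h1.ne_zero
  have hχmul : ∀ f h, (σ (f * h)).det = (σ f).det * (σ h).det := by
    intro f h
    rw [map_mul]
    exact LinearMap.det_comp _ _
  have hχφ : ∀ f, (σ (φ f)).det = (σ f).det := by
    intro f
    have h1 : ((σ (φ f) : M₁ →L[ℚ_[p]] M₁) : M₁ →ₗ[ℚ_[p]] M₁) ∘ₗ B =
        B ∘ₗ ((σ f : M₁ →L[ℚ_[p]] M₁) : M₁ →ₗ[ℚ_[p]] M₁) := by
      apply LinearMap.ext
      intro v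
      exact hB1 f v
    have h2 := congrArg LinearMap.det h1
    rw [LinearMap.det_comp, LinearMap.det_comp, mul_comm] at h2
    exact mul_left_cancel₀ hdetB h2
  obtain ⟨q, hq, hχq⟩ := T1_mat (A := ℚ_[p]) hx φ hφ ⊤ inferInstance isOpen_univ
    (fun f => ⟨fun _ => Subgroup.mem_top _, fun _ => Subgroup.mem_top _⟩) 1 le_rfl
    (fun f => (σ f).det) ((ContinuousLinearMap.continuous_det.comp hσc).continuousOn)
    (by rw [map_one]; exact LinearMap.det_id)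
    (fun f _ h _ => hχmul f h) (fun f _ h _ => mul_comm _ _)
    (fun f _ => by rw [pow_one]; exact hχφ f)
  obtain ⟨m, f₀, hm, hz1, hz2⟩ := structure_A φ ρ hρ hρn g k hL hbr hW a b hab hba hφa
  have hirr := hmin m f₀ hz1 hz2
  have hcab : Commute a b := hab.trans hba.symm
  have hambm : a ^ m * b ^ m = 1 := by rw [← hcab.mul_pow, hab, one_pow]
  have hbmam : b ^ m * a ^ m = 1 := by rw [← hcab.symm.mul_pow, hba, one_pow]
  have hρ' : ρ f₀⁻¹ * ρ f₀ = 1 := by rw [← map_mul, inv_mul_cancel, map_one]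
  have h1 : (ρ f₀⁻¹ * a ^ m) * (b ^ m * ρ f₀) = 1 := by
    calc (ρ f₀⁻¹ * a ^ m) * (b ^ m * ρ f₀) = ρ f₀⁻¹ * (a ^ m * b ^ m) * ρ f₀ := by
          simp only [mul_assoc]
      _ = 1 := by rw [hambm, mul_one, hρ']
  have h2 : (b ^ m * ρ f₀) * (ρ f₀⁻¹ * a ^ m) = 1 := by
    calc (b ^ m * ρ f₀) * (ρ f₀⁻¹ * a ^ m) = b ^ m * (ρ f₀ * ρ f₀⁻¹) * a ^ m := by
          simp only [mul_assoc]
      _ = 1 := by rw [hρinv, mul_one, hbmam]
  have hBm : ∀ (m : ℕ) (y : M₁), (((B ^ m) y : M₁) : R) = a ^ m * y * b ^ m := by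
    intro m
    induction m with
    | zero => intro y; simp
    | succ m ih =>
      intro y
      have h3 : (B ^ (m + 1)) y = B ((B ^ m) y) := by
        rw [pow_succ']; rfl
      rw [h3, hB, ih, pow_succ', pow_succ]
      simp only [mul_assoc]
  obtain ⟨M', hM', hdet⟩ := det_conj_root (ρ f₀⁻¹ * a ^ m) (b ^ m * ρ f₀) h1 h2 hirr M₁
    (((σ f₀⁻¹ : M₁ →L[ℚ_[p]] M₁) : M₁ →ₗ[ℚ_[p]] M₁) ∘ₗ (B ^ m)) (by
      intro y
      have h3 : (((((σ f₀⁻¹ : M₁ →L[ℚ_[p]] M₁) : M₁ →ₗ[ℚ_[p]] M₁) ∘ₗ (B ^ m)) y : M₁) : R) =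
          ((σ f₀⁻¹ ((B ^ m) y) : M₁) : R) := rfl
      rw [h3, hσ, hBm, inv_inv]
      simp only [mul_assoc])
  rw [LinearMap.det_comp, map_pow] at hdet
  have hq' : (LinearMap.det ((σ f₀⁻¹ : M₁ →L[ℚ_[p]] M₁) : M₁ →ₗ[ℚ_[p]] M₁)) ^ q = 1 :=
    hχq f₀⁻¹ (Subgroup.mem_top _)
  apply hnb (m * M' * q) (Nat.one_le_iff_ne_zero.mpr (by positivity))
  calc LinearMap.det B ^ (m * M' * q)
      = 1 ^ M' * LinearMap.det B ^ (m * M' * q) := by rw [one_pow, one_mul]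
    _ = ((LinearMap.det ((σ f₀⁻¹ : M₁ →L[ℚ_[p]] M₁) : M₁ →ₗ[ℚ_[p]] M₁)) ^ q) ^ M' *
          LinearMap.det B ^ (m * M' * q) := by rw [hq']
    _ = ((LinearMap.det ((σ f₀⁻¹ : M₁ →L[ℚ_[p]] M₁) : M₁ →ₗ[ℚ_[p]] M₁) *
          LinearMap.det B ^ m) ^ M') ^ q := by ring
    _ = 1 := by rw [hdet, one_pow]

/-- the contradiction coming from a nontrivial invariant class -/
theorem core_contra {d : ℕ} {x : Fin d → F}
    (hx : Dense ((Subgroup.closure (Set.range x) : Subgroup F) : Set F))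
    (φ : F ≃ₜ* F) (hφ : ¬ Bad p φ) (N : ℕ) (hN : 1 ≤ N) (ρ : F →* EN p N) (hρ : Continuous ρ)
    (hρn : ∀ f, ‖ρ f‖ ≤ 1) (a b : EN p N) (hab : a * b = 1) (hba : b * a = 1)
    (hφa : ∀ f, ρ (φ f) = a * ρ f * b) (ℒ : Set (EN p N))
    (hℒρ : ∀ l ∈ ℒ, ∀ f, l * ρ f = ρ f * l) (hℒa : ∀ l ∈ ℒ, l * a = a * l)
    (hirr : ∀ W : Submodule ℚ_[p] (Fin N → ℚ_[p]), (∀ l ∈ ℒ, ∀ w ∈ W, l w ∈ W) →
      (∀ f, ∀ w ∈ W, ρ f w ∈ W) → (∀ w ∈ W, a w ∈ W) → W = ⊥ ∨ W = ⊤)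
    (g : Submodule ℚ_[p] (EN p N)) (k : ℕ) (hL : IsLieOf p (Set.range ρ) g k) (hbr : Brk g)
    (hW : WProp g) (M₁ : Submodule ℚ_[p] (EN p N)) (hM₁ : M₁ ≠ ⊥)
    (hM₁ρ : ∀ f, ∀ y ∈ M₁, ρ f * y * ρ f⁻¹ ∈ M₁) (hM₁a : ∀ y ∈ M₁, a * y * b ∈ M₁)
    (c : F → EN p N) (hc : Continuous c) (hcM : ∀ f, c f ∈ M₁)
    (hspan : Submodule.span ℚ_[p] (c '' {f | ρ f = 1}) = M₁)
    (hcoc : ∀ f h, c (f * h) = c f + ρ f * c h * ρ f⁻¹) (β : EN p N) (hβM : β ∈ M₁)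
    (hβ : ∀ f, a * c (φ.symm f) * b - c f = ρ f * β * ρ f⁻¹ - β) : False := by
  have hne : Nonempty (Fin N) := ⟨⟨0, hN⟩⟩
  have hnt : Nontrivial (Fin N → ℚ_[p]) := inferInstance
  have hum : IsUltrametricDist (EN p N) := clm_ultrametric (p := p) (Fin N → ℚ_[p])
  refine core_abs_14174 hx φ hφ ρ hρ hρn a b hab hba hφa ?_ g k hL hbr hW M₁ hM₁ hM₁ρ hM₁a c hc
    hcM hspan hcoc β hβM hβ
  intro m f₀ hz1 hz2
  apply minpoly_irr N hN (ρ f₀⁻¹ * a ^ m) (ℒ ∪ Set.range ρ ∪ {a})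
  · intro s hs
    rcases hs with (hs | ⟨f, rfl⟩) | hs
    · have h1 : Commute s (ρ f₀⁻¹) := hℒρ s hs f₀⁻¹
      have h2 : Commute s a := hℒa s hs
      exact (h1.mul_right (h2.pow_right m)).symm.eq
    · exact hz1 f
    · rw [Set.mem_singleton_iff] at hs
      rw [hs]; exact hz2
  · intro W hW'
    apply hirr W
    · intro l hl w hw
      exact hW' l (Or.inl (Or.inl hl)) w hw
    · intro f w hw
      exact hW' (ρ f) (Or.inl (Or.inr ⟨f, rfl⟩)) w hw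
    · intro w hw
      exact hW' a (Or.inr rfl) w hw

end

end Pool.Agent.Helper156.RWF.J14174
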