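import Pool.Agent.Helper156.RWF.D0
import Pool.Agent.Helper156.RWF.J13540
import Pool.Agent.Helper156.RWF.J13542

namespace Pool.Agent.Helper156.RWF.J14313

open Pool.Agent.Helper156.RWF Pool.Agent.Helper156.RWF.J13540 Pool.Agent.Helper156.RWF.J13542
open Filter Topology MeasureTheory


section
variable {p : ℕ} [Fact p.Prime]
variable {F : Type} [Group F] [TopologicalSpace F] [IsTopologicalGroup F] [CompactSpace F]
  [T2Space F] [TotallyDisconnectedSpace F]


theorem exists_haar {d : ℕ} {x : Fin d → F}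
    (hx : Dense ((Subgroup.closure (Set.range x) : Subgroup F) : Set F)) :
    ∃ μ : Measure (F ≃ₜ* F), μ.IsHaarMeasure ∧ IsProbabilityMeasure μ := by
  have h1 : IsTopologicalGroup (F ≃ₜ* F) := aut_isTopologicalGroup
  have h2 : CompactSpace (F ≃ₜ* F) := aut_compact hx
  let K : TopologicalSpace.PositiveCompacts (F ≃ₜ* F) := ⊤
  refine ⟨Measure.haarMeasure K, inferInstance, ⟨?_⟩⟩
  have h3 : Measure.haarMeasure K (K : Set (F ≃ₜ* F)) = 1 := Measure.haarMeasure_self
  have h4 : (K : Set (F ≃ₜ* F)) = Set.univ := TopologicalSpace.PositiveCompacts.coe_top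
  rwa [h4] at h3

end

end Pool.Agent.Helper156.RWF.J14313
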