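import Mathlib

open Filter Topology MeasureTheory

namespace Pool.Agent.Helper156.RWF

/-- `x` is a basis of the free pro-`p` group `F` of rank `d`. -/
structure IsFreeProP (p d : ℕ) (F : Type) [Group F] [TopologicalSpace F] (x : Fin d → F) :
    Prop where
  index_pow : ∀ U : Subgroup F, U.Normal → IsOpen (U : Set F) → ∃ k : ℕ, U.index = p ^ k
  lift : ∀ (P : Type) [Group P] [Finite P], IsPGroup p P → ∀ y : Fin d → P,
    ∃! f : F →* P, IsOpen (f.ker : Set F) ∧ ∀ i, f (x i) = y i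

section Aut

variable {F : Type} [Group F] [TopologicalSpace F]

/-- the group of continuous automorphisms, with composition -/
instance autGroup : Group (F ≃ₜ* F) where
  mul φ ψ := ψ.trans φ
  one := ContinuousMulEquiv.refl F
  inv φ := φ.symm
  mul_assoc _ _ _ := rfl
  one_mul _ := rfl
  mul_one _ := rfl
  inv_mul_cancel φ := by
    apply ContinuousMulEquiv.ext
    intro x
    exact φ.symm_apply_apply x

@[simp] theorem aut_mul_apply (φ ψ : F ≃ₜ* F) (f : F) : (φ * ψ) f = φ (ψ f) := rfl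
@[simp] theorem aut_one_apply (f : F) : (1 : F ≃ₜ* F) f = f := rfl
theorem aut_inv_eq (φ : F ≃ₜ* F) : φ⁻¹ = φ.symm := rfl

/-- an automorphism as a continuous map -/
def toCM (φ : F ≃ₜ* F) : C(F, F) := ⟨φ, φ.continuous_toFun⟩

/-- the compact-open topology (for an automorphism and its inverse) -/
instance autTop : TopologicalSpace (F ≃ₜ* F) :=
  TopologicalSpace.induced (fun φ => (toCM φ, toCM φ.symm)) inferInstance

instance autMeas : MeasurableSpace (F ≃ₜ* F) := borel _

instance autBorel : BorelSpace (F ≃ₜ* F) := ⟨rfl⟩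

end Aut

/-- the Weil group `F ⋊ ⟨φ⟩` -/
abbrev WeilGroup {F : Type} [Group F] [TopologicalSpace F] (φ : F ≃ₜ* F) : Type :=
  F ⋊[zpowersHom (MulAut F) φ.toMulEquiv] Multiplicative ℤ

/-- product topology; `F` is an open subgroup -/
instance weilTop {F : Type} [Group F] [TopologicalSpace F] (φ : F ≃ₜ* F) :
    TopologicalSpace (WeilGroup φ) :=
  TopologicalSpace.induced (fun w => (w.left, w.right)) inferInstance

/-- the element of `F ⊆ W` -/
def inF {F : Type} [Group F] [TopologicalSpace F] (φ : F ≃ₜ* F) (x : F) : WeilGroup φ :=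
  SemidirectProduct.inl x

/-- the generator `φ` of `W` -/
def frob {F : Type} [Group F] [TopologicalSpace F] (φ : F ≃ₜ* F) : WeilGroup φ :=
  SemidirectProduct.inr (Multiplicative.ofAdd 1)

/-- no invariant subspace -/
def IsIrredRep {W L : Type} [Group W] [Field L] {n : ℕ} (ρ : W →* GL (Fin n) L) : Prop :=
  1 ≤ n ∧ ∀ U : Submodule L (Fin n → L),
    (∀ w, ∀ v ∈ U, (ρ w : Matrix (Fin n) (Fin n) L).mulVec v ∈ U) → U = ⊥ ∨ U = ⊤

/-- cocycles of `F` with values in the adjoint representation -/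
def IsCocycle {F L : Type} [Group F] [TopologicalSpace F] [Field L] {φ : F ≃ₜ* F} {n : ℕ}
    (ρ : WeilGroup φ →* GL (Fin n) L) (c : F → Matrix (Fin n) (Fin n) L) : Prop :=
  ∀ x y : F, c (x * y) = c x + (ρ (inF φ x) : Matrix (Fin n) (Fin n) L) * c y *
    ((ρ (inF φ x))⁻¹ : GL (Fin n) L)

/-- coboundaries -/
def IsCobdry {F L : Type} [Group F] [TopologicalSpace F] [Field L] {φ : F ≃ₜ* F} {n : ℕ}
    (ρ : WeilGroup φ →* GL (Fin n) L) (c : F → Matrix (Fin n) (Fin n) L) : Prop :=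
  ∃ e : Matrix (Fin n) (Fin n) L, ∀ x : F,
    c x = (ρ (inF φ x) : Matrix (Fin n) (Fin n) L) * e * ((ρ (inF φ x))⁻¹ : GL (Fin n) L) - e

/-- the action of `φ` on cochains -/
def frobAct {F L : Type} [Group F] [TopologicalSpace F] [Field L] {φ : F ≃ₜ* F} {n : ℕ}
    (ρ : WeilGroup φ →* GL (Fin n) L) (c : F → Matrix (Fin n) (Fin n) L) :
    F → Matrix (Fin n) (Fin n) L := fun x =>
  (ρ (frob φ) : Matrix (Fin n) (Fin n) L) * c (φ.symm x) * ((ρ (frob φ))⁻¹ : GL (Fin n) L)

/-- cohomological rigidity -/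
def Rigid (p : ℕ) [Fact p.Prime] {F : Type} [Group F] [TopologicalSpace F] (φ : F ≃ₜ* F) :
    Prop :=
  ∀ (L : Type) [NormedField L] [NormedAlgebra ℚ_[p] L] [FiniteDimensional ℚ_[p] L] (n : ℕ)
    (ρ : WeilGroup φ →* GL (Fin n) L), Continuous ρ → IsIrredRep ρ →
    ∀ c : F → Matrix (Fin n) (Fin n) L, Continuous c → IsCocycle ρ c →
      IsCobdry ρ (fun x => frobAct ρ c x - c x) → IsCobdry ρ c

end Pool.Agent.Helper156.RWF
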